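import Pool.Agent.H22.U2.DefA
import Pool.Agent.H32.AZ.Al

/-!
# MP_ede373, theorem (U2), row Al7: the constants are algebraic

Copy of `cstV_alg` in `Pool/Agent/H32/AZ/Al.lean` with the field `adjoin ℚ {z, Jf z, deriv Jf z, deriv (deriv Jf) z}`; the last value `z` is
in the field. (No number field data.)
-/

set_option autoImplicit false

open EisensteinSeries ModularForm UpperHalfPlane

namespace U2

open CZ

theorem cs7_alg (z : ℂ) (hz : 0 < z.im) (τ : ℍ) (hτ : (τ : ℂ) = z) (he4 : E₄ τ ≠ 0)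
    (he6 : E₆ τ ≠ 0) (E4 E6 Jf : ℂ → ℂ)
    (h4 : ∀ τ : ℂ, E4 τ = 1 + 240 * ∑' m : ℕ, ((ArithmeticFunction.sigma 3 (m + 1) : ℕ) : ℂ) *
          Complex.exp (2 * (Real.pi : ℂ) * Complex.I * ((m : ℂ) + 1) * τ))
    (h6 : ∀ τ : ℂ, E6 τ = 1 - 504 * ∑' m : ℕ, ((ArithmeticFunction.sigma 5 (m + 1) : ℕ) : ℂ) *
          Complex.exp (2 * (Real.pi : ℂ) * Complex.I * ((m : ℂ) + 1) * τ))
    (hJ : ∀ τ : ℂ, Jf τ = 1728 * E4 τ ^ 3 / (E4 τ ^ 3 - E6 τ ^ 2)) (lam ep : ℂ)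
    (hlam : 2 * Real.pi * Complex.I / lam ^ 2 = 9 * Complex.I * (E₄ τ / (Real.pi * E₆ τ)))
    (hep : 4 * ep ^ 3 - 2 * (27 / 2 * (E₄ τ ^ 3 / E₆ τ ^ 2)) * ep -
        2 * (27 / 2 * (E₄ τ ^ 3 / E₆ τ ^ 2)) = 0) (i : Fin 7) :
    IsAlgebraic (IntermediateField.adjoin ℚ
      (Set.range (![z, Jf z, deriv Jf z, deriv (deriv Jf) z] : Fin 4 → ℂ)))
      (cs7 z lam (27 / 2 * (E₄ τ ^ 3 / E₆ τ ^ 2)) (3 / 2 * (E2 τ * E₄ τ / E₆ τ)) ep i) := by
  obtain ⟨v0, v1, v2⟩ := H32.J_values h4 h6 hJ hz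
  have hof : ofComplex z = τ := by rw [← hτ]; exact ofComplex_apply τ
  have ha : H32.e4 z = E₄ τ := by rw [H32.e4, hof]
  have hb : H32.e6 z = E₆ τ := by rw [H32.e6, hof]
  have hg : H32.e2 z = E2 τ := by rw [H32.e2, hof]
  have hΔ : E₄ τ ^ 3 - E₆ τ ^ 2 ≠ 0 := by
    have h := H32.disc_ne (w := z)
    rwa [ha, hb] at h
  rw [ha, hb] at v0
  rw [H32.J1, ha, hb] at v1
  rw [H32.J2, ha, hb, hg] at v2
  generalize hFLD : IntermediateField.adjoin ℚ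
      (Set.range (![z, Jf z, deriv Jf z, deriv (deriv Jf) z] : Fin 4 → ℂ)) = FLD
  have hmem : ∀ k : Fin 4, IsAlgebraic FLD ((![z, Jf z, deriv Jf z, deriv (deriv Jf) z] : Fin 4 → ℂ) k) := by
    intro k
    have h : (![z, Jf z, deriv Jf z, deriv (deriv Jf) z] : Fin 4 → ℂ) k ∈ FLD := by
      rw [← hFLD]; exact IntermediateField.subset_adjoin _ _ ⟨k, rfl⟩
    exact isAlgebraic_algebraMap (⟨_, h⟩ : FLD)
  have mz : IsAlgebraic FLD z := hmem 0
  have m0 : IsAlgebraic FLD (Jf z) := hmem 1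
  have m1 : IsAlgebraic FLD (deriv Jf z) := hmem 2
  have m2 : IsAlgebraic FLD (deriv (deriv Jf) z) := hmem 3
  obtain ⟨M, hM⟩ : ∃ M : IntermediateField FLD ℂ, ∀ x, x ∈ M ↔ IsAlgebraic FLD x :=
    ⟨algebraicClosure FLD ℂ, fun x => mem_algebraicClosure_iff⟩
  rw [← hM] at m0 m1 m2 mz
  have nat_mem : ∀ n : ℕ, (n : ℂ) ∈ M := fun n => natCast_mem M n
  have mI : Complex.I ∈ M := by
    rw [hM]
    refine IsAlgebraic.of_pow (n := 2) (by norm_num) ?_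
    rw [Complex.I_sq, ← hM]
    exact neg_mem (one_mem M)
  have hπ : (Real.pi : ℂ) ≠ 0 := by exact_mod_cast Real.pi_ne_zero
  have hI := Complex.I_ne_zero
  have i1728 : (1728 : ℂ) ∈ M := by exact_mod_cast nat_mem 1728
  have i2 : (2 : ℂ) ∈ M := by exact_mod_cast nat_mem 2
  have i3 : (3 : ℂ) ∈ M := by exact_mod_cast nat_mem 3
  have i6 : (6 : ℂ) ∈ M := by exact_mod_cast nat_mem 6
  have i9 : (9 : ℂ) ∈ M := by exact_mod_cast nat_mem 9
  have i27 : (27 : ℂ) ∈ M := by exact_mod_cast nat_mem 27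
  generalize E₄ τ = a at *
  generalize E₆ τ = b at *
  generalize E2 τ = g at *
  have mt : a ^ 3 / b ^ 2 ∈ M := by
    have e : a ^ 3 / b ^ 2 = Jf z / (Jf z - 1728) := by
      have e1 : Jf z - 1728 = 1728 * b ^ 2 / (a ^ 3 - b ^ 2) := by
        rw [v0]; field_simp; ring
      rw [e1, v0]
      field_simp
    rw [e]
    exact div_mem m0 (sub_mem m0 i1728)
  have mu : a / (Real.pi * b) ∈ M := by
    have e : a / (Real.pi * b) = -2 * Complex.I * (Jf z / deriv Jf z) := by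
      rw [v0, v1]
      field_simp
    rw [e]
    exact mul_mem (mul_mem (neg_mem i2) mI) (div_mem m0 m1)
  have mk : g * a / b ∈ M := by
    have e : g * a / b = 6 * ((deriv (deriv Jf) z / deriv Jf z) * (a / (Real.pi * b)) /
        (2 * Complex.I) + 2 / 3 + (a ^ 3 / b ^ 2) / 2) := by
      rw [v1, v2]
      field_simp
      ring
    rw [e]
    exact mul_mem i6 (add_mem (add_mem (div_mem (mul_mem (div_mem m2 m1) mu) (mul_mem i2 mI))
      (div_mem i2 i3)) (div_mem mt i2))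
  have mh : 27 / 2 * (a ^ 3 / b ^ 2) ∈ M := mul_mem (div_mem i27 i2) mt
  have mep : ep ∈ M := by
    rw [hM]
    exact Qf_ep ((hM _).1 mh) hep
  rw [← hM]
  fin_cases i
  · exact mep
  · exact zero_mem M
  · exact zero_mem M
  · exact mh
  · exact mul_mem (div_mem i3 i2) mk
  · show 2 * Real.pi * Complex.I / lam ^ 2 ∈ M
    rw [hlam]
    exact mul_mem (mul_mem i9 mI) mu
  · exact mz

end U2
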