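import Pool.Agent.H22.U2.Wpp
import Pool.Agent.H22.U2.Al7
import Pool.Agent.H32.CZ.Qe

/-!
# MP_ede373, theorem (U2), row Ari: the arithmetic interface (assembly)

Beginning of the proof of `AZ.arith` in `Pool/Agent/H32/AZ/Arith.lean`: `τ : ℍ` with `(τ : ℂ) = z`, `AZ.E_ne`, `exists_base`, transport along
`hτ` (`key`), `cs7_alg`, then `WP_val`, `WP_bd`.
-/

set_option autoImplicit false

open EisensteinSeries ModularForm UpperHalfPlane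

namespace U2

open MvPolynomial CZ
open H32.T3 (nrm)

theorem arith_u2 (z : ℂ) (hz : 0 < z.im)
    (hcm : ¬ ∃ a b c : ℤ, (a ≠ 0 ∨ b ≠ 0 ∨ c ≠ 0) ∧ (a : ℂ) * z ^ 2 + b * z + c = 0)
    (E4 E6 Jf : ℂ → ℂ)
    (h4 : ∀ τ : ℂ, E4 τ = 1 + 240 * ∑' m : ℕ, ((ArithmeticFunction.sigma 3 (m + 1) : ℕ) : ℂ) *
          Complex.exp (2 * (Real.pi : ℂ) * Complex.I * ((m : ℂ) + 1) * τ))
    (h6 : ∀ τ : ℂ, E6 τ = 1 - 504 * ∑' m : ℕ, ((ArithmeticFunction.sigma 5 (m + 1) : ℕ) : ℂ) *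
          Complex.exp (2 * (Real.pi : ℂ) * Complex.I * ((m : ℂ) + 1) * τ))
    (hJ : ∀ τ : ℂ, Jf τ = 1728 * E4 τ ^ 3 / (E4 τ ^ 3 - E6 τ ^ 2)) :
    ∃ (b : BaseFn z) (lam : ℂ) (P : Fin 7 → ℂ) (C : ℕ), lam ≠ 0 ∧ 1 ≤ C ∧
      (∀ i, IsAlgebraic (IntermediateField.adjoin ℚ
        (Set.range (![z, Jf z, deriv Jf z, deriv (deriv Jf) z] : Fin 4 → ℂ))) (P i)) ∧
      ∀ D i1 i2 k a e : ℕ, 1 ≤ D → i1 ≤ D → i2 ≤ D →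
        ((WP D i1 i2 k a e).totalDegree : ℝ) ≤ C * ((D : ℝ) + k + a + e + 1) ∧
        nrm (WP D i1 i2 k a e) ≤ Real.exp (C * ((D : ℝ) + k + a + e + 1) *
          Real.log ((D : ℝ) + k + a + e + 2)) ∧
        (a.factorial : ℂ) * e.factorial * (2 * Real.pi * Complex.I * (2 * D) / lam) ^ k *
          jc b D i1 i2 k a e = lam ^ (a + e) * aeval P (WP D i1 i2 k a e) := by
  obtain ⟨τ, hτ⟩ : ∃ τ : ℍ, (τ : ℂ) = z := ⟨⟨z, hz⟩, rfl⟩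
  obtain ⟨n4, n6⟩ := AZ.E_ne z hcm τ hτ
  obtain ⟨b0, lam, ep, ε, Xf, X1f, Yf, hs, hl, hp⟩ := exists_base τ n4 n6
  have key : ∀ (z : ℂ) (_ : (τ : ℂ) = z), ∃ b : BaseFn z, BaseSys b lam
      (27 / 2 * (E₄ τ ^ 3 / E₆ τ ^ 2)) (3 / 2 * (E2 τ * E₄ τ / E₆ τ)) ep ε Xf X1f Yf := by
    rintro z rfl
    exact ⟨b0, hs⟩
  obtain ⟨b, hb⟩ := key z hτ
  have halg := cs7_alg z hz τ hτ n4 n6 E4 E6 Jf h4 h6 hJ lam ep hl hp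
  obtain ⟨C, hC1, hC⟩ := WP_bd
  refine ⟨b, lam, _, C, hb.hlam, hC1, halg, fun D i1 i2 k a e hD h1 h2 => ?_⟩
  obtain ⟨g1, g2⟩ := hC D i1 i2 k a e h1 h2
  exact ⟨g1, g2, WP_val b lam _ _ ep ε Xf X1f Yf hb D i1 i2 k a e hD h1 h2⟩

end U2
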