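import Pool.Agent.H22.U2.Defs

/-!
# MP_ede373, theorem (U2), row Bas: elementary identities

Write `z = X + iY`. All statements are direct computations.
* `bet_gam`: `Im (m1 + m2 z) = m2 Y`, `Re (m1 + m2 z) = m1 + m2 X`, `Im (m0 + m1 z) = m1 Y`.
* `bet_line`: `mu z = -1 / conj z = -z / |z|^2`, so `mu z * v = -(z v) / |z|^2`.
* `im_comb`: `Im (conj z * x2) = X Im x2 - Y Re x2`.
* `norm_ef`: `Complex.norm_exp`; `Re (-(π I T z (m1^2 + m2^2)) - 2 π I T (m1 x1 + m2 x2)) =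
  π T Y (m1^2 + m2^2) + 2 π T (m1 Im x1 + m2 Im x2)`.
* `Nw_gam`: `FD.inv`, `norm_ef`, and `Im (x1 + (m0 + m1 z)) = Im x1 + m1 Y`.
* `quad`: for one pair, `P (a + w e).im^2 = ((P/2)(e conj e - e^2) w^2 + P (e conj a - a e) w + (P/2)(a conj a - a^2)).re +
  P |e|^2 w.im^2` (see `Ba2_id` in `Pool/Agent/H60/AZ/Ba2.lean`: expand in real and imaginary parts, `ring`); add two.
* `ss_eq`: `1 / mu z = -conj z`, so the number is `m.1 + m.2.1 (z + conj z) + m.2.2 |z|^2 - (x1 + conj z x2)`; its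
  imaginary part is `-Im (x1 + conj z x2) = 0` by `im_comb` and `hb`. `ss_val` is its real part.
* `line_diff`: `w ↦ F (x1 + w e1) (x2 + w e2)` is a locally uniform limit of polynomials: on `‖w‖ ≤ R` the terms are bounded by
  `‖J p.1 p.2‖ (‖x1‖ + R ‖e1‖)^p.1 (‖x2‖ + R ‖e2‖)^p.2`, which is summable (`(hser _ _).summable.norm` at real points);
  `differentiableOn_tsum_of_summable_norm` on balls. Compare `Pool/Agent/H60/AZ/Ldf.lean`.
-/

set_option autoImplicit false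

namespace U2

open Complex Finset

theorem mu_ne {z : ℂ} (hz : 0 < z.im) : mu z ≠ 0 := by
  unfold mu
  have h : (starRingEnd ℂ) z ≠ 0 := by
    intro h0
    have h1 : z = 0 := by simpa using h0
    rw [h1] at hz
    simp at hz
  exact div_ne_zero (by norm_num) h

theorem bet_gam {z : ℂ} (hz : 0 < z.im) (m0 m1 m2 : ℤ) (x1 x2 : ℂ) :
    bet z (x1 + (m0 + m1 * z)) (x2 + (m1 + m2 * z)) = bet z x1 x2 := by
  have hz' : z.im ≠ 0 := hz.ne'
  simp only [bet, add_re, add_im, mul_re, mul_im, intCast_re, intCast_im, zero_mul, sub_zero, add_zero,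
    zero_add]
  field_simp
  ring

private theorem normSq_pos {z : ℂ} (hz : 0 < z.im) : 0 < z.re * z.re + z.im * z.im := by
  have h1 : 0 < z.im * z.im := mul_pos hz hz
  have h2 : 0 ≤ z.re * z.re := mul_self_nonneg _
  linarith

private theorem mu_re {z : ℂ} : (mu z).re = -z.re / (z.re * z.re + z.im * z.im) := by
  simp only [mu, div_re, neg_re, one_re, neg_im, one_im, conj_re, conj_im, normSq_apply]
  ring

private theorem mu_im {z : ℂ} : (mu z).im = -z.im / (z.re * z.re + z.im * z.im) := by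
  simp only [mu, div_im, neg_re, one_re, neg_im, one_im, conj_re, conj_im, normSq_apply]
  ring

theorem bet_line {z : ℂ} (hz : 0 < z.im) (x1 x2 v : ℂ) :
    bet z (x1 + v) (x2 + mu z * v) = bet z x1 x2 := by
  have hz' : z.im ≠ 0 := hz.ne'
  have hn : z.re * z.re + z.im * z.im ≠ 0 := (normSq_pos hz).ne'
  simp only [bet, add_re, add_im, mul_re, mul_im, mu_re, mu_im]
  field_simp
  ring

theorem bet_re2 (z : ℂ) (x1 x2 : ℂ) (r : ℝ) : bet z x1 (x2 + r) = bet z x1 x2 + r := by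
  simp only [bet, add_re, add_im, ofReal_re, ofReal_im, add_zero]
  ring

theorem bet_im1 {z : ℂ} (hz : 0 < z.im) (x1 x2 w : ℂ) :
    bet z (x1 - z.im * w) x2 = bet z x1 x2 + w.im := by
  have hz' : z.im ≠ 0 := hz.ne'
  simp only [bet, sub_im, mul_im, ofReal_re, ofReal_im, zero_mul, add_zero]
  field_simp
  ring

theorem im_comb {z : ℂ} (hz : 0 < z.im) (x1 x2 : ℂ) :
    (x1 + (starRingEnd ℂ) z * x2).im = -(z.im * bet z x1 x2) := by
  have hz' : z.im ≠ 0 := hz.ne'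
  simp only [bet, add_im, mul_im, conj_re, conj_im]
  field_simp
  ring

theorem bet_le (z : ℂ) : ∃ C : ℕ, 1 ≤ C ∧ ∀ x1 x2 : ℂ, |bet z x1 x2| ≤ C * (‖x1‖ + ‖x2‖) := by
  obtain ⟨C, hC⟩ := exists_nat_ge (1 + |z.re / z.im| + |1 / z.im|)
  have h0 : 0 ≤ |z.re / z.im| := abs_nonneg _
  have h1 : 0 ≤ |1 / z.im| := abs_nonneg _
  refine ⟨C, ?_, fun x1 x2 ↦ ?_⟩
  · have : (1 : ℝ) ≤ C := by linarith
    exact_mod_cast this
  · have e : bet z x1 x2 = x2.re - (z.re / z.im) * x2.im - (1 / z.im) * x1.im := by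
      unfold bet
      ring
    rw [e]
    have a1 : |x2.re| ≤ ‖x2‖ := abs_re_le_norm x2
    have a2 : |x2.im| ≤ ‖x2‖ := abs_im_le_norm x2
    have a3 : |x1.im| ≤ ‖x1‖ := abs_im_le_norm x1
    have n1 : 0 ≤ ‖x1‖ := norm_nonneg _
    have n2 : 0 ≤ ‖x2‖ := norm_nonneg _
    calc |x2.re - (z.re / z.im) * x2.im - (1 / z.im) * x1.im|
        ≤ |x2.re - (z.re / z.im) * x2.im| + |(1 / z.im) * x1.im| := abs_sub _ _
      _ ≤ |x2.re| + |(z.re / z.im) * x2.im| + |(1 / z.im) * x1.im| := by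
          have := abs_sub x2.re ((z.re / z.im) * x2.im)
          linarith
      _ = |x2.re| + |z.re / z.im| * |x2.im| + |1 / z.im| * |x1.im| := by
          rw [abs_mul, abs_mul]
      _ ≤ ‖x2‖ + |z.re / z.im| * ‖x2‖ + |1 / z.im| * ‖x1‖ := by
          have b2 := mul_le_mul_of_nonneg_left a2 h0
          have b3 := mul_le_mul_of_nonneg_left a3 h1
          linarith
      _ ≤ C * (‖x1‖ + ‖x2‖) := by
          have c1 : (1 + |z.re / z.im|) * ‖x2‖ ≤ C * ‖x2‖ :=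
            mul_le_mul_of_nonneg_right (by linarith) n2
          have c2 : |1 / z.im| * ‖x1‖ ≤ C * ‖x1‖ :=
            mul_le_mul_of_nonneg_right (by linarith) n1
          nlinarith

theorem norm_ef {z : ℂ} (hz : 0 < z.im) (T : ℕ) (m1 m2 : ℤ) (x1 x2 : ℂ) :
    ‖ef z T m1 m2 x1 x2‖ = Real.exp (Real.pi * T / z.im *
      ((x1.im + m1 * z.im) ^ 2 + (x2.im + m2 * z.im) ^ 2 - (x1.im ^ 2 + x2.im ^ 2))) := by
  have hz' : z.im ≠ 0 := hz.ne'
  rw [ef, norm_exp]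
  congr 1
  simp only [sub_re, neg_re, mul_re, mul_im, add_re, add_im, I_re, I_im, ofReal_re, ofReal_im, natCast_re,
    natCast_im, intCast_re, intCast_im, pow_two, re_ofNat, im_ofNat]
  field_simp
  ring

theorem Nw_gam {z : ℂ} (hz : 0 < z.im) {T : ℕ} {F : ℂ → ℂ → ℂ} {J : ℕ → ℕ → ℂ} {A : ℝ}
    (hF : FD z T F J A) (m0 m1 m2 : ℤ) (x1 x2 : ℂ) :
    Nw z T F (x1 + (m0 + m1 * z)) (x2 + (m1 + m2 * z)) = Nw z T F x1 x2 := by
  rw [Nw, Nw, hF.inv, norm_mul, norm_ef hz]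
  have e1 : (x1 + (m0 + m1 * z)).im = x1.im + m1 * z.im := by simp
  have e2 : (x2 + (m1 + m2 * z)).im = x2.im + m2 * z.im := by simp
  rw [e1, e2, mul_comm (Real.exp _) ‖F x1 x2‖, mul_assoc, ← Real.exp_add]
  congr 2
  ring

private theorem quad_one (P : ℝ) (a e w : ℂ) : P * (a + w * e).im ^ 2 =
    ((P / 2 : ℝ) * (e * (starRingEnd ℂ) e - e ^ 2) * w ^ 2 +
      (P : ℝ) * (e * (starRingEnd ℂ) a - a * e) * w +
      (P / 2 : ℝ) * (a * (starRingEnd ℂ) a - a ^ 2)).re + P * ‖e‖ ^ 2 * w.im ^ 2 := by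
  rw [← normSq_eq_norm_sq, normSq_apply]
  simp only [pow_two, add_re, add_im, sub_re, sub_im, mul_re, mul_im, ofReal_re, ofReal_im, conj_re,
    conj_im]
  ring

theorem quad (P : ℝ) (a1 a2 e1 e2 : ℂ) : ∃ α β γ : ℂ, ∀ w : ℂ,
    P * ((a1 + w * e1).im ^ 2 + (a2 + w * e2).im ^ 2) =
      (α * w ^ 2 + β * w + γ).re + P * (‖e1‖ ^ 2 + ‖e2‖ ^ 2) * w.im ^ 2 := by
  refine ⟨(P / 2 : ℝ) * (e1 * (starRingEnd ℂ) e1 - e1 ^ 2) + (P / 2 : ℝ) * (e2 * (starRingEnd ℂ) e2 - e2 ^ 2),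
    (P : ℝ) * (e1 * (starRingEnd ℂ) a1 - a1 * e1) + (P : ℝ) * (e2 * (starRingEnd ℂ) a2 - a2 * e2),
    (P / 2 : ℝ) * (a1 * (starRingEnd ℂ) a1 - a1 ^ 2) + (P / 2 : ℝ) * (a2 * (starRingEnd ℂ) a2 - a2 ^ 2),
    fun w ↦ ?_⟩
  rw [mul_add, quad_one, quad_one]
  simp only [add_re, add_mul]
  ring

private theorem inv_mu {z : ℂ} (hz : 0 < z.im) (y : ℂ) : y / mu z = -(y * (starRingEnd ℂ) z) := by
  have h : (starRingEnd ℂ) z ≠ 0 := by
    intro h0
    have h1 : z = 0 := by simpa using h0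
    rw [h1] at hz
    simp at hz
  rw [mu]
  field_simp

theorem ss_val {z : ℂ} (hz : 0 < z.im) (x1 x2 : ℂ) (m : ℤ × ℤ × ℤ) :
    ss z x1 x2 m = (m.1 : ℝ) + m.2.1 * (2 * z.re) + m.2.2 * ‖z‖ ^ 2 -
      (x1 + (starRingEnd ℂ) z * x2).re := by
  rw [ss, uu, inv_mu hz, ← normSq_eq_norm_sq, normSq_apply]
  simp only [add_re, add_im, sub_re, sub_im, neg_re, mul_re, mul_im, intCast_re, intCast_im, conj_re,
    conj_im]
  ring

theorem ss_eq {z : ℂ} (hz : 0 < z.im) (x1 x2 : ℂ) (hb : bet z x1 x2 = 0) (m : ℤ × ℤ × ℤ) :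
    (m.1 : ℂ) + m.2.1 * z - x1 - uu z x2 m = (ss z x1 x2 m : ℝ) := by
  apply Complex.ext
  · simp [ss]
  · have h := im_comb hz x1 x2
    rw [hb, mul_zero, neg_zero] at h
    simp only [add_im, mul_im, conj_re, conj_im] at h
    rw [uu, inv_mu hz]
    simp only [add_re, add_im, sub_re, sub_im, neg_im, mul_re, mul_im, intCast_re, intCast_im, conj_re,
      conj_im, ofReal_im]
    linarith

theorem line_diff {F : ℂ → ℂ → ℂ} {J : ℕ → ℕ → ℂ}
    (hser : ∀ x1 x2 : ℂ, HasSum (fun p : ℕ × ℕ ↦ J p.1 p.2 * x1 ^ p.1 * x2 ^ p.2) (F x1 x2))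
    (x1 x2 e1 e2 : ℂ) : Differentiable ℂ fun w : ℂ ↦ F (x1 + w * e1) (x2 + w * e2) := by
  intro w0
  obtain ⟨R, hR⟩ : ∃ R : ℝ, R = ‖w0‖ + 1 := ⟨_, rfl⟩
  have hR0 : 0 ≤ R := by rw [hR]; positivity
  have hu : Summable (fun p : ℕ × ℕ ↦ ‖J p.1 p.2‖ * (‖x1‖ + R * ‖e1‖) ^ p.1 *
      (‖x2‖ + R * ‖e2‖) ^ p.2) := by
    have h1 := (hser ((‖x1‖ + R * ‖e1‖ : ℝ) : ℂ) ((‖x2‖ + R * ‖e2‖ : ℝ) : ℂ)).summable.norm
    refine h1.congr (fun p ↦ ?_)
    rw [norm_mul, norm_mul, norm_pow, norm_pow, Complex.norm_real, Complex.norm_real,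
      Real.norm_eq_abs, Real.norm_eq_abs, abs_of_nonneg (by positivity), abs_of_nonneg (by positivity)]
  have h2 : DifferentiableOn ℂ (fun w : ℂ ↦ ∑' p : ℕ × ℕ, J p.1 p.2 * (x1 + w * e1) ^ p.1 *
      (x2 + w * e2) ^ p.2) (Metric.ball 0 R) := by
    refine Complex.differentiableOn_tsum_of_summable_norm hu (fun p ↦ ?_) Metric.isOpen_ball ?_
    · refine Differentiable.differentiableOn ?_
      fun_prop
    · intro p w hw
      have h3 : ‖w‖ ≤ R := by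
        rw [mem_ball_zero_iff] at hw
        exact hw.le
      have key : ∀ x e : ℂ, ‖x + w * e‖ ≤ ‖x‖ + R * ‖e‖ := by
        intro x e
        refine (norm_add_le _ _).trans ?_
        rw [norm_mul]
        have h4 := mul_le_mul_of_nonneg_right h3 (norm_nonneg e)
        linarith
      rw [norm_mul, norm_mul, norm_pow, norm_pow]
      exact mul_le_mul (mul_le_mul_of_nonneg_left (pow_le_pow_left₀ (norm_nonneg _) (key _ _) _)
        (norm_nonneg _)) (pow_le_pow_left₀ (norm_nonneg _) (key _ _) _) (by positivity)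
        (by positivity)
  have h5 : (fun w : ℂ ↦ F (x1 + w * e1) (x2 + w * e2)) =
      fun w : ℂ ↦ ∑' p : ℕ × ℕ, J p.1 p.2 * (x1 + w * e1) ^ p.1 * (x2 + w * e2) ^ p.2 := by
    funext w
    exact (hser _ _).tsum_eq.symm
  rw [h5]
  refine h2.differentiableAt (Metric.isOpen_ball.mem_nhds ?_)
  rw [mem_ball_zero_iff, hR]
  linarith

end U2
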