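import Pool.Agent.H32.AZ.Crit

/-!
# MP_ede373, theorem (U2), row Bs: transcendence bases

`bas_at`: compare `AZ.exists_basis1` in `Pool/Agent/H32/AZ/Crit.lean`. If `w = P i` is not algebraic over `adjoin ℚ {θ}`, `θ = P i0`, then `![θ, w]` is algebraically
independent (e.g. `{θ, w}` is independent in `AlgebraicIndependent.matroid ℚ ℂ`: or choose a basis `B` of `range P` containing `θ`
(`Matroid.Indep.subset_isBasis_of_subset`); `B.encard ≤ 1` by the argument in `exists_basis1`, so `B = {θ}` and everything in `range P` is algebraic over `adjoin ℚ B`).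
`alg_tower`: transitivity of algebraicity: the elements algebraic over `adjoin ℚ {θ}` form an intermediate field `M` (`algebraicClosure (adjoin ℚ {θ}) ℂ`) containing `range Z`,
so it contains `adjoin ℚ (range Z)`, and an element algebraic over this field is algebraic over `adjoin ℚ {θ}` (`IsAlgebraic.trans`, or
`IntermediateField.isAlgebraic_adjoin`, see `two_of_three` in `Pool/Agent/H60/AZ/Tr.lean` for a variant).
-/

set_option autoImplicit false

namespace U2

private theorem Bs_clo (X : Set ℂ) (x : ℂ) : x ∈ (AlgebraicIndependent.matroid ℚ ℂ).closure X ↔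
    IsAlgebraic (IntermediateField.adjoin ℚ X) x := by
  rw [AlgebraicIndependent.matroid_closure_eq, SetLike.mem_coe, Subalgebra.mem_algebraicClosure,
    ← IntermediateField.isAlgebraic_adjoin_iff]

private theorem Bs_range (θ : ℂ) : Set.range ![θ] = {θ} := by
  simp only [Matrix.range_cons, Matrix.range_empty, Set.union_empty]

theorem bas_at {k : ℕ} (P : Fin k → ℂ) (i0 : Fin k) (h0 : Transcendental ℚ (P i0))
    (h : ¬ ∃ f : Fin 2 → Fin k, AlgebraicIndependent ℚ (fun i ↦ P (f i))) (i : Fin k) :
    IsAlgebraic (IntermediateField.adjoin ℚ (Set.range ![P i0])) (P i) := by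
  set M := AlgebraicIndependent.matroid ℚ ℂ with hM
  rw [Bs_range, ← Bs_clo]
  by_contra hcon
  have h1 : M.Indep {P i0} := by
    rw [hM, AlgebraicIndependent.matroid_indep_iff]
    have h2 : AlgebraicIndependent ℚ (fun j : Fin 1 ↦ P i0) :=
      (algebraicIndependent_unique_type_iff).2 h0
    have h3 := h2.to_subtype_range
    rw [Set.range_const] at h3
    exact h3
  have hE : P i ∈ M.E := by
    rw [hM, AlgebraicIndependent.matroid_e]
    exact Set.mem_univ _
  obtain ⟨h2, h3⟩ := (h1.notMem_closure_iff hE).1 hcon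
  have hne : P i ≠ P i0 := h3
  apply h
  refine ⟨![i0, i], ?_⟩
  have hinj : Function.Injective (fun t ↦ P ((![i0, i] : Fin 2 → Fin k) t)) := by
    intro s t hst
    fin_cases s <;> fin_cases t
    · rfl
    · exact absurd hst.symm hne
    · exact absurd hst hne
    · rfl
  refine AlgebraicIndependent.of_subtype_range hinj ?_
  have hr : Set.range (fun t ↦ P ((![i0, i] : Fin 2 → Fin k) t)) = insert (P i) {P i0} := by
    ext x
    simp only [Set.mem_range, Set.mem_insert_iff, Set.mem_singleton_iff]
    constructor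
    · rintro ⟨t, rfl⟩
      fin_cases t
      · right
        rfl
      · left
        rfl
    · rintro (rfl | rfl)
      · exact ⟨1, rfl⟩
      · exact ⟨0, rfl⟩
  rw [hr]
  rw [hM, AlgebraicIndependent.matroid_indep_iff] at h2
  exact h2

theorem alg_tower {k m : ℕ} (θ : ℂ) (Z : Fin k → ℂ) (P : Fin m → ℂ)
    (hZ : ∀ i, IsAlgebraic (IntermediateField.adjoin ℚ (Set.range ![θ])) (Z i))
    (hP : ∀ i, IsAlgebraic (IntermediateField.adjoin ℚ (Set.range Z)) (P i)) (i : Fin m) :
    IsAlgebraic (IntermediateField.adjoin ℚ (Set.range ![θ])) (P i) := by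
  rw [← Bs_clo]
  have h1 : Set.range Z ⊆ (AlgebraicIndependent.matroid ℚ ℂ).closure (Set.range ![θ]) := by
    rintro _ ⟨j, rfl⟩
    exact (Bs_clo _ _).2 (hZ j)
  exact Matroid.closure_subset_closure_of_subset_closure h1 ((Bs_clo _ _).2 (hP i))

end U2
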