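import Pool.Agent.H60.AZ.Cau

/-!
# MP_ede373, theorem (U2), row Cau: Cauchy's estimate in two variables

Apply `AZ.KD.cauchy_est` (or `AZ.cauchy_est`, see `Pool/Agent/H60/AZ/Cau.lean`) with `S = Fin 2`, `F' x = F (κ x 0) (κ x 1)`,
`J' n = J (n 0) (n 1) κ^(n 0 + n 1)`, after reindexing the sum over `Fin 2 → ℕ` by `ℕ × ℕ` (`finTwoArrowEquiv`, `Equiv.hasSum_iff`).
-/

set_option autoImplicit false

namespace U2

theorem cauchy2 (F : ℂ → ℂ → ℂ) (J : ℕ → ℕ → ℂ)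
    (hser : ∀ x1 x2 : ℂ, HasSum (fun p : ℕ × ℕ ↦ J p.1 p.2 * x1 ^ p.1 * x2 ^ p.2) (F x1 x2))
    (κ B : ℝ) (hκ : 0 < κ) (hB : ∀ x1 x2 : ℂ, ‖x1‖ = κ → ‖x2‖ = κ → ‖F x1 x2‖ ≤ B) (a e : ℕ) :
    ‖J a e‖ ≤ B / κ ^ (a + e) := by
  have hκ' : (κ : ℂ) ≠ 0 := by exact_mod_cast hκ.ne'
  have hκn : ‖(κ : ℂ)‖ = κ := by rw [Complex.norm_real, Real.norm_of_nonneg hκ.le]
  have h := AZ.cauchy_est (S := Fin 2) (fun x => F (κ * x 0) (κ * x 1))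
    (fun n => J (n 0) (n 1) * (κ : ℂ) ^ (n 0 + n 1)) ?_ B ?_ ![a, e]
  · simp only [Matrix.cons_val_zero, Matrix.cons_val_one, norm_mul, norm_pow, hκn] at h
    rw [le_div_iff₀ (pow_pos hκ _)]
    exact h
  · intro x
    have h1 := hser (κ * x 0) (κ * x 1)
    rw [← (finTwoArrowEquiv ℕ).hasSum_iff] at h1
    have h2 : (fun n : Fin 2 → ℕ => J (n 0) (n 1) * (κ : ℂ) ^ (n 0 + n 1) * ∏ s, x s ^ n s) =
        (fun p : ℕ × ℕ => J p.1 p.2 * ((κ : ℂ) * x 0) ^ p.1 * ((κ : ℂ) * x 1) ^ p.2) ∘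
          (finTwoArrowEquiv ℕ) := by
      funext n
      change _ = J (n 0) (n 1) * ((κ : ℂ) * x 0) ^ (n 0) * ((κ : ℂ) * x 1) ^ (n 1)
      rw [Fin.prod_univ_two, mul_pow, mul_pow, pow_add]
      ring
    rw [h2]
    exact h1
  · intro x hx
    apply hB
    · rw [norm_mul, hκn, hx, mul_one]
    · rw [norm_mul, hκn, hx, mul_one]

end U2
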