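import Pool.Agent.H32.AZ.C

/-!
# MP_ede373, theorem (U2), row Co: the core inequality with general parameters

The proofs of `AZ.exists_J`, `AZ.log_det_ge`, `AZ.core_ineq` in `Pool/Agent/H32/AZ/C.lean` with `M^ea`, `M` replaced by `τ`, `M^eb` by `X` and
`M^eg` by `U`. `B = 2 + ∑ ‖P i‖`, `Nn = ⌈τ⌉₊` (`≤ 2 τ`): all degrees are `≤ Nn`, all `nrm ≤ exp τ ≤ exp Nn`, `log card ≤ Nn`.
* `exists_J`: `log card + τ + log (Nn) + Nn log B - 3 X < -X`, i.e. `τ + τ + 2 τ + 2 τ log B < 2 X`, true if `C ≥ 4 + 2 log B`, `C τ ≤ X`.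
* `log_det_ge`: `Ck_core` with `M = N = Nn` and its `X := 2 (7 + log B) τ` (`4 Nn + 2 Nn + Nn log B + 1 ≤ 2 (7 + log B) τ`), `G = U`.
* the rest as in `core_ineq`, `ce_arith` with `T = 2 (7 + log B) τ`.
-/

set_option autoImplicit false

namespace U2

open MvPolynomial CZ
open H32.T3 (nrm)

private lemma gen_J {k : ℕ} (P : Fin k → ℂ) (B : ℝ) (hB : B = 2 + ∑ i, ‖P i‖) (Nn : ℕ) (Z : ℝ)
    (hNn : 1 ≤ Nn) (hZ0 : 0 < Z) (hNZ : (Nn : ℝ) * (3 + Real.log B) < 2 * Z)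
    (Λ : Type) [Fintype Λ] [DecidableEq Λ] (R : Type)
    (W : R → Λ → MvPolynomial (Fin k) ℤ) (hcard : Real.log (Fintype.card Λ) ≤ Nn)
    (hW : ∀ s l, (W s l).totalDegree ≤ Nn ∧ nrm (W s l) ≤ Real.exp Nn)
    (hZ : ∀ c : Λ → ℂ, (∀ l, ‖c l‖ ≤ 1) → (∃ l, ‖c l‖ = 1) →
        ∃ s, Real.exp (-Z) ≤ ‖∑ l, c l * aeval P (W s l)‖)
    (Q : Fin k → ℂ) (hQ : ∀ i, ‖Q i - P i‖ ≤ Real.exp (-(3 * Z))) :
      ∃ J : Λ → R, (Matrix.of fun i l ↦ aeval Q (W (J i) l)).det ≠ 0 := by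
  have hPs : ∀ i, ‖P i‖ ≤ ∑ i, ‖P i‖ := fun i =>
    Finset.single_le_sum (f := fun i => ‖P i‖) (fun j _ => norm_nonneg _) (Finset.mem_univ i)
  have hB2 : 2 ≤ B := by
    rw [hB]
    have : 0 ≤ ∑ i, ‖P i‖ := Finset.sum_nonneg fun i _ => norm_nonneg _
    linarith
  have hB1 : 1 ≤ B := by linarith
  have hlB : 0 ≤ Real.log B := Real.log_nonneg hB1
  have hPB : ∀ i, ‖P i‖ ≤ B := fun i => by
    have := hPs i
    linarith
  obtain ⟨N, hNc⟩ : ∃ N : ℝ, (Nn : ℝ) = N := ⟨_, rfl⟩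
  rw [hNc] at hNZ hcard
  simp only [hNc] at hW
  have hN1 : 1 ≤ N := by rw [← hNc]; exact_mod_cast hNn
  have hN0 : 0 < N := by linarith
  have hδ1 : Real.exp (-(3 * Z)) ≤ 1 := Real.exp_le_one_iff.2 (by linarith)
  have hQB : ∀ i, ‖Q i‖ ≤ B := by
    intro i
    have h1 : ‖Q i‖ ≤ ‖Q i - P i‖ + ‖P i‖ := by
      have := norm_add_le (Q i - P i) (P i)
      rwa [sub_add_cancel] at this
    have h2 := hQ i
    have h3 := hPs i
    linarith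
  apply exists_det_ne_zero (fun s l => aeval Q (W s l))
  intro c hc
  by_contra hcon
  push Not at hcon
  have hne : ∃ l, c l ≠ 0 := Function.ne_iff.1 hc
  obtain ⟨l1, hl1⟩ := hne
  haveI : Nonempty Λ := ⟨l1⟩
  obtain ⟨l0, hl0⟩ := Finite.exists_max (fun l => ‖c l‖)
  have hm0 : 0 < ‖c l0‖ := lt_of_lt_of_le (norm_pos_iff.2 hl1) (hl0 l1)
  have hcn : ∀ l, ‖c l * ((‖c l0‖ : ℝ) : ℂ)⁻¹‖ = ‖c l‖ / ‖c l0‖ := by
    intro l
    rw [norm_mul, norm_inv, Complex.norm_real, norm_norm, div_eq_mul_inv]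
  obtain ⟨s, hs⟩ := hZ (fun l => c l * ((‖c l0‖ : ℝ) : ℂ)⁻¹)
    (fun l => by
      rw [hcn, div_le_one hm0]
      exact hl0 l)
    ⟨l0, by rw [hcn, div_self hm0.ne']⟩
  have h0 : ∑ l, (c l * ((‖c l0‖ : ℝ) : ℂ)⁻¹) * aeval Q (W s l) = 0 := by
    have e : ∀ l ∈ (Finset.univ : Finset Λ), (c l * ((‖c l0‖ : ℝ) : ℂ)⁻¹) * aeval Q (W s l) =
        (c l * aeval Q (W s l)) * ((‖c l0‖ : ℝ) : ℂ)⁻¹ := fun l _ => by ring
    rw [Finset.sum_congr rfl e, ← Finset.sum_mul, hcon s, zero_mul]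
  have hdiff : ‖∑ l, (c l * ((‖c l0‖ : ℝ) : ℂ)⁻¹) * aeval P (W s l)‖ ≤
      (Fintype.card Λ : ℝ) * (Real.exp N * (N * B ^ Nn * Real.exp (-(3 * Z)))) := by
    have e : ∑ l, (c l * ((‖c l0‖ : ℝ) : ℂ)⁻¹) * aeval P (W s l) =
        ∑ l, -((c l * ((‖c l0‖ : ℝ) : ℂ)⁻¹) * (aeval Q (W s l) - aeval P (W s l))) := by
      have e2 : ∀ l ∈ (Finset.univ : Finset Λ),
          -((c l * ((‖c l0‖ : ℝ) : ℂ)⁻¹) * (aeval Q (W s l) - aeval P (W s l))) =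
          (c l * ((‖c l0‖ : ℝ) : ℂ)⁻¹) * aeval P (W s l) -
            (c l * ((‖c l0‖ : ℝ) : ℂ)⁻¹) * aeval Q (W s l) := fun l _ => by ring
      rw [Finset.sum_congr rfl e2, Finset.sum_sub_distrib, h0, sub_zero]
    rw [e]
    have h1 := norm_sum_le (Finset.univ : Finset Λ)
      (fun l => -((c l * ((‖c l0‖ : ℝ) : ℂ)⁻¹) * (aeval Q (W s l) - aeval P (W s l))))
    refine h1.trans ?_
    have h2 : ∀ l ∈ (Finset.univ : Finset Λ),
        ‖-((c l * ((‖c l0‖ : ℝ) : ℂ)⁻¹) * (aeval Q (W s l) - aeval P (W s l)))‖ ≤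
        Real.exp N * (N * B ^ Nn * Real.exp (-(3 * Z))) := by
      intro l _
      rw [norm_neg, norm_mul, hcn]
      have g1 : ‖c l‖ / ‖c l0‖ ≤ 1 := by
        rw [div_le_one hm0]
        exact hl0 l
      have g2 := aeval_sub_le (W s l) Nn (hW s l).1 P Q B (Real.exp (-(3 * Z))) hB1 hPB hQB hQ
        (Real.exp_pos _).le
      rw [hNc] at g2
      have g3 : nrm (W s l) * (N * B ^ Nn * Real.exp (-(3 * Z))) ≤
          Real.exp N * (N * B ^ Nn * Real.exp (-(3 * Z))) :=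
        mul_le_mul_of_nonneg_right (hW s l).2 (by positivity)
      calc ‖c l‖ / ‖c l0‖ * ‖aeval Q (W s l) - aeval P (W s l)‖
          ≤ 1 * ‖aeval Q (W s l) - aeval P (W s l)‖ :=
            mul_le_mul_of_nonneg_right g1 (norm_nonneg _)
        _ = ‖aeval Q (W s l) - aeval P (W s l)‖ := one_mul _
        _ ≤ _ := g2.trans g3
    refine (Finset.sum_le_sum h2).trans (le_of_eq ?_)
    rw [Finset.sum_const, Finset.card_univ, nsmul_eq_mul]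
  have hL0 : 0 < (Fintype.card Λ : ℝ) := by exact_mod_cast Fintype.card_pos
  have hL : (Fintype.card Λ : ℝ) ≤ Real.exp N := (Real.log_le_iff_le_exp hL0).1 hcard
  have hNe : N ≤ Real.exp N := by
    have := Real.add_one_le_exp N
    linarith
  have hBe : B ^ Nn = Real.exp (N * Real.log B) := by
    rw [← hNc, mul_comm, Real.exp_mul, Real.exp_log (by linarith), Real.rpow_natCast]
  have hbig : (Fintype.card Λ : ℝ) * (Real.exp N * (N * B ^ Nn * Real.exp (-(3 * Z)))) ≤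
      Real.exp (N + N + N + N * Real.log B + -(3 * Z)) := by
    rw [hBe, Real.exp_add, Real.exp_add, Real.exp_add, Real.exp_add]
    have h1 : Real.exp N * (N * Real.exp (N * Real.log B) * Real.exp (-(3 * Z))) ≤
        Real.exp N * (Real.exp N * Real.exp (N * Real.log B) * Real.exp (-(3 * Z))) := by
      gcongr
    calc (Fintype.card Λ : ℝ) *
          (Real.exp N * (N * Real.exp (N * Real.log B) * Real.exp (-(3 * Z))))
        ≤ Real.exp N *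
          (Real.exp N * (Real.exp N * Real.exp (N * Real.log B) * Real.exp (-(3 * Z)))) := by
          exact mul_le_mul hL h1 (by positivity) (by positivity)
      _ = _ := by ring
  have hfin : Real.exp (N + N + N + N * Real.log B + -(3 * Z)) < Real.exp (-Z) := by
    apply Real.exp_lt_exp.2
    linarith
  linarith

private lemma gen_core {k : ℕ} (P : Fin k → ℂ) (B : ℝ) (hB : B = 2 + ∑ i, ‖P i‖) (Nn : ℕ)
    (Z U T : ℝ) (hNn : 1 ≤ Nn) (hZ0 : 0 < Z) (hNZ : (Nn : ℝ) * (3 + Real.log B) < 2 * Z)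
    (hTN : 4 * (Nn : ℝ) + 2 * Nn + Nn * Real.log B + 1 ≤ T)
    (Λ : Type) [Fintype Λ] (R : Type)
    (W : R → Λ → MvPolynomial (Fin k) ℤ) (hL0 : 0 < Fintype.card Λ)
    (hcard : Real.log (Fintype.card Λ) ≤ Nn)
    (hW : ∀ s l, (W s l).totalDegree ≤ Nn ∧ nrm (W s l) ≤ Real.exp Nn)
    (hZ : ∀ c : Λ → ℂ, (∀ l, ‖c l‖ ≤ 1) → (∃ l, ‖c l‖ = 1) →
        ∃ s, Real.exp (-Z) ≤ ‖∑ l, c l * aeval P (W s l)‖)
    (hV : ∃ V : Submodule ℂ (Λ → ℂ), Fintype.card Λ ≤ 2 * Module.finrank ℂ V ∧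
        ∀ c ∈ V, (∀ l, ‖c l‖ ≤ 1) → ∀ s,
          ‖∑ l, c l * aeval P (W s l)‖ ≤ Real.exp (-U))
    (E : Type) [Field E] [NumberField E] (x : Fin k → E) (S : Finset (E →+* ℂ))
    (d : (E →+* ℂ) → ℝ) (t : ℝ) (hEt : (Module.finrank ℚ E : ℝ) ≤ t) (hxt : ∀ i, hE (x i) ≤ t)
    (hS : ∀ φ ∈ S, 0 ≤ d φ ∧ ∀ i, ‖φ (x i) - P i‖ ≤ Real.exp (-d φ))
    (hbig : ∃ φ ∈ S, 3 * Z ≤ d φ) :
      ∑ φ ∈ S, min U (d φ) ≤ (2 * k + 10) * t * T := by
  classical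
  obtain ⟨φ0, hφ0, hd0⟩ := hbig
  obtain ⟨J, hJ⟩ := gen_J P B hB Nn Z hNn hZ0 hNZ Λ R W hcard hW hZ (fun i ↦ φ0 (x i))
    (fun i ↦ ((hS φ0 hφ0).2 i).trans (Real.exp_le_exp.2 (neg_le_neg hd0)))
  set D : MvPolynomial (Fin k) ℤ := (Matrix.of fun i l ↦ W (J i) l).det with hD
  have hφD : ∀ φ : E →+* ℂ, φ (aeval x D) =
      (Matrix.of fun i l ↦ aeval (fun i ↦ φ (x i)) (W (J i) l)).det := by
    intro φ
    have h1 : aeval x D = (Matrix.of fun i l ↦ aeval x (W (J i) l)).det := by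
      rw [hD, AlgHom.map_det]
      rfl
    rw [h1, RingHom.map_det]
    congr 1
    ext i l
    simp only [RingHom.mapMatrix_apply, Matrix.map_apply, Matrix.of_apply]
    exact ce_map_aeval φ x _
  have hDx : aeval x D ≠ 0 := by
    intro h0
    have h1 := hφD φ0
    rw [h0, map_zero] at h1
    exact hJ h1.symm
  have hD0 : D ≠ 0 := by
    intro h0
    exact hDx (by rw [h0, map_zero])
  have hs0 : 0 ≤ ∑ i, ‖P i‖ := Finset.sum_nonneg fun i _ => norm_nonneg _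
  have hB1 : 1 ≤ B := by rw [hB]; linarith
  have hPB : ∀ i, ‖P i‖ + 1 ≤ B := by
    intro i
    have := Finset.single_le_sum (f := fun i => ‖P i‖) (fun j _ => norm_nonneg _)
      (Finset.mem_univ i)
    rw [hB]
    linarith
  have hlB : 0 ≤ Real.log B := Real.log_nonneg hB1
  obtain ⟨V, hV1, hV2⟩ := hV
  have hlow : ∀ φ ∈ S, (Fintype.card Λ : ℝ) / 2 * min U (d φ)
            - 2 * Fintype.card Λ * T ≤ -Real.log ‖φ (aeval x D)‖ := by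
    intro φ hφ
    have h1 : (Matrix.of fun i l ↦ aeval (fun i ↦ φ (x i)) (W (J i) l)).det ≠ 0 := by
      rw [← hφD φ]
      exact (map_ne_zero φ).2 hDx
    have h2 := Ck_core P B T U (d φ) Nn Nn hB1 hPB hTN Λ R W hL0 hcard hW V hV1 hV2
      (fun i ↦ φ (x i)) (hS φ hφ).1 (hS φ hφ).2 J h1
    rw [← hφD φ] at h2
    exact h2
  have hDtd : D.totalDegree ≤ Fintype.card Λ * Nn :=
    totalDegree_det_le _ _ (fun i j ↦ (hW _ _).1)
  have hli := liouville x D _ hDtd hDx S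
  have hnrm : nrm D ≤ (Fintype.card Λ : ℝ) ^ Fintype.card Λ *
      Real.exp (Nn : ℝ) ^ Fintype.card Λ :=
    nrm_det_le _ _ (Real.exp_pos _).le (fun i j ↦ (hW _ _).2)
  have hnrm1 : 1 ≤ nrm D := H32.T3.one_le_nrm hD0
  have hlog0 : 0 ≤ Real.log (nrm D) := Real.log_nonneg hnrm1
  have hLpos : (0 : ℝ) < Fintype.card Λ := by exact_mod_cast hL0
  have hlogD : Real.log (nrm D) ≤ Fintype.card Λ * (Nn : ℝ) + Fintype.card Λ * (Nn : ℝ) := by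
    have h1 := Real.log_le_log (by linarith) hnrm
    rw [Real.log_mul (by positivity) (by positivity), Real.log_pow, Real.log_pow,
      Real.log_exp] at h1
    have h2 : (Fintype.card Λ : ℝ) * Real.log (Fintype.card Λ) ≤ Fintype.card Λ * (Nn : ℝ) :=
      mul_le_mul_of_nonneg_left hcard hLpos.le
    linarith
  have hcardS : ((S.card : ℕ) : ℝ) ≤ t := by
    have h1 : S.card ≤ Module.finrank ℚ E := by
      rw [← NumberField.Embeddings.card E ℂ]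
      exact Finset.card_le_univ S
    exact le_trans (by exact_mod_cast h1) hEt
  have hsum : ∑ i, hE (x i) ≤ (k : ℝ) * t := by
    calc ∑ i, hE (x i) ≤ ∑ _i : Fin k, t := Finset.sum_le_sum fun i _ ↦ hxt i
      _ = (k : ℝ) * t := by simp
  have hsl : (Fintype.card Λ : ℝ) / 2 * ∑ φ ∈ S, min U (d φ)
      - (S.card : ℝ) * (2 * Fintype.card Λ * T) ≤
      -∑ φ ∈ S, Real.log ‖φ (aeval x D)‖ := by
    rw [← Finset.sum_neg_distrib]
    refine le_trans (le_of_eq ?_) (Finset.sum_le_sum hlow)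
    rw [Finset.sum_sub_distrib, ← Finset.mul_sum, Finset.sum_const, nsmul_eq_mul]
  have hN0 : (0 : ℝ) ≤ Nn := Nat.cast_nonneg _
  have hNB : 0 ≤ (Nn : ℝ) * Real.log B := mul_nonneg hN0 hlB
  have hNT : (Nn : ℝ) ≤ T := by linarith
  have hT : 0 ≤ T := by linarith
  have hfin := hsl.trans hli
  push_cast at hfin
  exact ce_arith (Fintype.card Λ : ℝ) t (∑ i, hE (x i)) T (Real.log (nrm D))
    (Nn : ℝ) Nn k _ (Module.finrank ℚ E) (S.card : ℝ) hLpos (by positivity) hEt hcardS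
    hNT hNT (by positivity) hT hN0 hlog0 hlogD hsum hfin

theorem core_gen {k : ℕ} (P : Fin k → ℂ) : ∃ C : ℕ, 1 ≤ C ∧ ∀ τ X U : ℝ, (C : ℝ) ≤ τ →
    C * τ ≤ X → 0 ≤ U →
    ∀ (Λ : Type) (_ : Fintype Λ) (R : Type) (W : R → Λ → MvPolynomial (Fin k) ℤ),
      0 < Fintype.card Λ → Real.log (Fintype.card Λ) ≤ τ →
      (∀ s l, ((W s l).totalDegree : ℝ) ≤ τ ∧ nrm (W s l) ≤ Real.exp τ) →
      (∀ c : Λ → ℂ, (∀ l, ‖c l‖ ≤ 1) → (∃ l, ‖c l‖ = 1) →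
        ∃ s, Real.exp (-X) ≤ ‖∑ l, c l * aeval P (W s l)‖) →
      (∃ V : Submodule ℂ (Λ → ℂ), Fintype.card Λ ≤ 2 * Module.finrank ℂ V ∧
        ∀ c ∈ V, (∀ l, ‖c l‖ ≤ 1) → ∀ s,
          ‖∑ l, c l * aeval P (W s l)‖ ≤ Real.exp (-U)) →
    ∀ (E : Type) (_ : Field E) (_ : NumberField E) (x : Fin k → E) (S : Finset (E →+* ℂ))
      (d : (E →+* ℂ) → ℝ) (t : ℝ), (Module.finrank ℚ E : ℝ) ≤ t → (∀ i, hE (x i) ≤ t) →
      (∀ φ ∈ S, 0 ≤ d φ ∧ ∀ i, ‖φ (x i) - P i‖ ≤ Real.exp (-d φ)) →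
      (∃ φ ∈ S, 3 * X ≤ d φ) →
      ∑ φ ∈ S, min U (d φ) ≤ C * t * τ := by
  obtain ⟨B, hB⟩ : ∃ B : ℝ, B = 2 + ∑ i, ‖P i‖ := ⟨_, rfl⟩
  have hs0 : 0 ≤ ∑ i, ‖P i‖ := Finset.sum_nonneg fun i _ => norm_nonneg _
  have hB1 : 1 ≤ B := by rw [hB]; linarith
  have hlB : 0 ≤ Real.log B := Real.log_nonneg hB1
  obtain ⟨C, hC⟩ : ∃ C : ℕ, (2 * (k : ℝ) + 10) * (2 * (7 + Real.log B)) ≤ C :=
    exists_nat_ge _
  have hk0 : (0 : ℝ) ≤ k := Nat.cast_nonneg _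
  have hC1 : 20 * (7 + Real.log B) ≤ C := by nlinarith [mul_nonneg hk0 hlB]
  have hC2 : (1 : ℝ) ≤ C := by linarith
  refine ⟨C, by exact_mod_cast hC2, ?_⟩
  intro τ X U hτ hX hU Λ _ R W hL0 hcard hW hZ hV E _ _ x S d t hEt hxt hS hbig
  have hτ1 : 1 ≤ τ := hC2.trans hτ
  have hNle : τ ≤ (⌈τ⌉₊ : ℝ) := Nat.le_ceil τ
  have hNlt : (⌈τ⌉₊ : ℝ) < τ + 1 := Nat.ceil_lt_add_one (by linarith)
  have hN2 : (⌈τ⌉₊ : ℝ) ≤ 2 * τ := by linarith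
  have hNn : 1 ≤ ⌈τ⌉₊ := by
    have : (1 : ℝ) ≤ (⌈τ⌉₊ : ℝ) := hτ1.trans hNle
    exact_mod_cast this
  have hX0 : 0 < X := by nlinarith
  have hNZ : ((⌈τ⌉₊ : ℕ) : ℝ) * (3 + Real.log B) < 2 * X := by
    have h1 : ((⌈τ⌉₊ : ℕ) : ℝ) * (3 + Real.log B) ≤ 2 * τ * (3 + Real.log B) :=
      mul_le_mul_of_nonneg_right hN2 (by linarith)
    have h2 : 2 * τ * (3 + Real.log B) < 2 * (C * τ) := by nlinarith
    linarith
  have hTN : 4 * ((⌈τ⌉₊ : ℕ) : ℝ) + 2 * (⌈τ⌉₊ : ℕ) + (⌈τ⌉₊ : ℕ) * Real.log B + 1 ≤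
      2 * (7 + Real.log B) * τ := by
    have h1 : ((⌈τ⌉₊ : ℕ) : ℝ) * Real.log B ≤ 2 * τ * Real.log B :=
      mul_le_mul_of_nonneg_right hN2 hlB
    linarith
  have hW' : ∀ s l, (W s l).totalDegree ≤ ⌈τ⌉₊ ∧ nrm (W s l) ≤ Real.exp ((⌈τ⌉₊ : ℕ) : ℝ) := by
    intro s l
    obtain ⟨h1, h2⟩ := hW s l
    exact ⟨by exact_mod_cast h1.trans hNle, h2.trans (Real.exp_le_exp.2 hNle)⟩
  have key := gen_core P B hB ⌈τ⌉₊ X U (2 * (7 + Real.log B) * τ) hNn hX0 hNZ hTN Λ R W hL0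
    (hcard.trans hNle) hW' hZ hV E x S d t hEt hxt hS hbig
  refine key.trans ?_
  have ht0 : 0 ≤ t := le_trans (Nat.cast_nonneg _) hEt
  calc (2 * (k : ℝ) + 10) * t * (2 * (7 + Real.log B) * τ)
      = ((2 * (k : ℝ) + 10) * (2 * (7 + Real.log B))) * (t * τ) := by ring
    _ ≤ C * (t * τ) := mul_le_mul_of_nonneg_right hC (by positivity)
    _ = C * t * τ := by ring

end U2
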