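import Pool.Agent.H22.U2.DefA
import Pool.Agent.H22.U2.Co

/-!
# MP_ede373, theorem (U2), row Co2: the inequality from the data

`Cc` from `core_gen P`. `τ = C Q log (Q + 2)` (`≥ Cc` if `Q ≥ Cc`), `C1 = 6 Cc C` (a natural number), `X = C1 N Q^2/3 = 2 Cc C N Q^2 ≥ C N Q^2` (so `exp (-X) ≤ exp (-C N Q^2)`)
and `Cc τ = Cc C Q log (Q + 2) ≤ 2 Cc C Q^2 ≤ X` (`log (Q + 2) ≤ 2 Q` for `Q ≥ 1`), `U = N Q^2/C`. `d φ ≤ 64 C1 N Q^2 = 64 C1 C U`, so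
`d φ ≤ 64 C1 C min U (d φ)`. Hence `∑ d φ ≤ 64 C1 C Cc t τ = C2 t Q log (Q + 2)`, `C2 = 64 C1 C^2 Cc`.
-/

set_option autoImplicit false

namespace U2

open MvPolynomial CZ
open H32.T3 (nrm)

theorem sum_le {k : ℕ} (P : Fin k → ℂ) (C : ℕ) (hC : 1 ≤ C) : ∃ C1 C2 : ℕ, 1 ≤ C1 ∧ C1 ≤ C2 ∧
    ∀ N Q : ℕ, 1 ≤ N → C2 ≤ Q → Dat P C N Q →
    ∀ (E : Type) (_ : Field E) (_ : NumberField E) (x : Fin k → E) (S : Finset (E →+* ℂ))
      (d : (E →+* ℂ) → ℝ) (t : ℝ), (Module.finrank ℚ E : ℝ) ≤ t → (∀ i, hE (x i) ≤ t) →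
      (∀ φ ∈ S, 0 ≤ d φ ∧ ∀ i, ‖φ (x i) - P i‖ ≤ Real.exp (-d φ)) →
      (∃ φ ∈ S, C1 * N * (Q : ℝ) ^ 2 ≤ d φ) → (∀ φ ∈ S, d φ ≤ 64 * (C1 * N * (Q : ℝ) ^ 2)) →
      ∑ φ ∈ S, d φ ≤ C2 * t * (Q * Real.log (Q + 2)) := by
  obtain ⟨Cc, hCc, hcore⟩ := core_gen P
  have hc12 : 6 * Cc * C ≤ 64 * (6 * Cc * C) * C ^ 2 * Cc := by
    have h1 : 1 ≤ C ^ 2 * Cc := Nat.one_le_iff_ne_zero.2 (by positivity)
    calc 6 * Cc * C = (6 * Cc * C) * 1 := (mul_one _).symm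
      _ ≤ (6 * Cc * C) * (64 * (C ^ 2 * Cc)) := Nat.mul_le_mul_left _ (by omega)
      _ = _ := by ring
  have hcc2 : Cc ≤ 6 * Cc * C := by
    calc Cc = Cc * 1 := (mul_one _).symm
      _ ≤ Cc * (6 * C) := Nat.mul_le_mul_left _ (by omega)
      _ = _ := by ring
  refine ⟨6 * Cc * C, 64 * (6 * Cc * C) * C ^ 2 * Cc, by omega, hc12, ?_⟩
  intro N Q hN hQ hD E iF iN x S d t hfin hh hS hbig hsm
  obtain ⟨Λ, iΛ, R, W, hcard, hlog, hW, hlow, hup⟩ := hD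
  have hQc : Cc ≤ Q := hcc2.trans (hc12.trans hQ)
  have hCr : (1 : ℝ) ≤ C := by exact_mod_cast hC
  have hCcr : (1 : ℝ) ≤ Cc := by exact_mod_cast hCc
  have hNr : (1 : ℝ) ≤ N := by exact_mod_cast hN
  have hQcr : (Cc : ℝ) ≤ Q := by exact_mod_cast hQc
  have hQ1 : (1 : ℝ) ≤ Q := hCcr.trans hQcr
  have hQ0 : (0 : ℝ) < Q := by linarith
  have hC0 : (0 : ℝ) < C := by linarith
  obtain ⟨L, hL⟩ : ∃ L : ℝ, L = Real.log (Q + 2) := ⟨_, rfl⟩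
  have hL1 : 1 ≤ L := by
    rw [hL, Real.le_log_iff_exp_le (by linarith)]
    exact (Real.exp_one_lt_d9.le.trans (by norm_num : (2.7182818286 : ℝ) ≤ 3)).trans (by linarith)
  have hL2 : L ≤ 2 * Q := by
    rw [hL]
    have := Real.log_le_sub_one_of_pos (show (0 : ℝ) < Q + 2 by linarith)
    linarith
  rw [← hL] at hlog hW ⊢
  obtain ⟨X, hX⟩ : ∃ X : ℝ, X = 2 * Cc * C * N * (Q : ℝ) ^ 2 := ⟨_, rfl⟩
  obtain ⟨U, hU⟩ : ∃ U : ℝ, U = N * (Q : ℝ) ^ 2 / C := ⟨_, rfl⟩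
  have hU0 : 0 ≤ U := by rw [hU]; positivity
  have hCU : C * U = N * (Q : ℝ) ^ 2 := by
    rw [hU]
    field_simp
  have ht1 : (Cc : ℝ) ≤ C * Q * L := by
    have h1 : (Q : ℝ) ≤ C * Q := le_mul_of_one_le_left hQ0.le hCr
    have h2 : C * (Q : ℝ) ≤ C * Q * L := le_mul_of_one_le_right (by positivity) hL1
    linarith
  have ht2 : Cc * (C * Q * L) ≤ X := by
    have h1 : (Q : ℝ) * L ≤ Q * (2 * (N * Q)) := by
      refine mul_le_mul_of_nonneg_left ?_ hQ0.le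
      have h3 : (Q : ℝ) ≤ N * Q := le_mul_of_one_le_left hQ0.le hNr
      linarith
    have h2 : Cc * (C * Q * L) = (Cc * C : ℝ) * (Q * L) := by ring
    rw [h2, hX]
    have h3 : (Cc * C : ℝ) * (Q * L) ≤ (Cc * C : ℝ) * (Q * (2 * (N * Q))) :=
      mul_le_mul_of_nonneg_left h1 (by positivity)
    refine h3.trans (le_of_eq ?_)
    ring
  have hXl : C * N * (Q : ℝ) ^ 2 ≤ X := by
    have h1 : (1 : ℝ) ≤ 2 * Cc := by linarith
    have h2 : C * N * (Q : ℝ) ^ 2 ≤ 2 * Cc * (C * N * (Q : ℝ) ^ 2) :=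
      le_mul_of_one_le_left (by positivity) h1
    rw [hX]
    refine h2.trans (le_of_eq ?_)
    ring
  have h3X : (6 * Cc * C : ℕ) * N * (Q : ℝ) ^ 2 = 3 * X := by
    rw [hX]
    push_cast
    ring
  rw [h3X] at hbig hsm
  have key := hcore (C * Q * L) X U ht1 ht2 hU0 Λ iΛ R W hcard hlog hW (fun c hc1 hc2 => by
      obtain ⟨s, hs⟩ := hlow c hc1 hc2
      exact ⟨s, (Real.exp_le_exp.2 (neg_le_neg hXl)).trans hs⟩) (by
      rw [hU]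
      exact hup) E iF iN x S d t hfin hh hS hbig
  have hB : (1 : ℝ) ≤ 64 * (6 * Cc * C) * C := by
    have h1 : (1 : ℝ) ≤ Cc * C := one_le_mul_of_one_le_of_one_le hCcr hCr
    have h2 : (1 : ℝ) ≤ Cc * C * C := one_le_mul_of_one_le_of_one_le h1 hCr
    nlinarith
  have hterm : ∀ φ ∈ S, d φ ≤ 64 * (6 * Cc * C) * C * min U (d φ) := by
    intro φ hφ
    have h1 := (hS φ hφ).1
    have h2 := hsm φ hφ
    rcases le_total U (d φ) with h3 | h3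
    · rw [min_eq_left h3]
      have h4 : 64 * (6 * Cc * C) * C * U = 64 * (6 * Cc * C) * (C * U) := by ring
      rw [h4, hCU]
      refine h2.trans (le_of_eq ?_)
      rw [hX]
      ring
    · rw [min_eq_right h3]
      exact le_mul_of_one_le_left h1 hB
  refine (Finset.sum_le_sum hterm).trans ?_
  rw [← Finset.mul_sum]
  refine (mul_le_mul_of_nonneg_left key (by positivity)).trans (le_of_eq ?_)
  push_cast
  ring

end U2
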