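import Pool.Agent.H22.U2.Bas
import Pool.Agent.H22.U2.Cau

/-!
# MP_ede373, theorem (U2), row Dec: local decomposition near a lattice point

`s` real, `|s| ≤ 2/N`, `μ = mu z`, `P = π T / Y`, `Y = z.im`.
* For every `e`, `Fe e ξ = ∑' a, J a e ξ^a` is entire (the double series converges absolutely at `(R, 1)`, `R ≥ 1` real: `(hF.ser R 1)` is
  `HasSum` in `ℂ`, hence its norm is summable), and `F ξ1 ξ2 = ∑_{e < S1} ξ2^e Fe e ξ1 + ξ2^S1 ∑' e, Fe (e + S1) ξ1 ξ2^e`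
  (`HasSum.sigma`/`HasSum.prod_fiberwise` after swapping the two indices, `sum_add_tsum_nat_add`).
  `a ζ = ∑_{e < S1} (μ ζ)^e Fe e (ζ - s)`, `b ζ = μ^S1 ∑' e, (μ ζ)^e Fe (e + S1) (ζ - s)`. Both are entire in `ζ` (for the infinite sum:
  `differentiableOn_tsum_of_summable_norm` on balls `‖ζ‖ < R`; its terms are bounded by `∑_a ‖J a (e+S1)‖ R'^a R'^e`, `R' ≥ max (1, R + |s|, ‖μ‖ R)`, and
  `R'^e ≤ R'^(e + S1)`, so they are dominated by the double series of norms at `(R', R')`).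
* Bound of `a` for `‖ζ‖ ≤ 1/(C N)`: put `κ = 32/N`. `‖ζ - s‖ ≤ 1/N + 2/N ≤ κ/8` and `‖μ ζ‖ ≤ κ/8` (`C ≥ ‖μ‖`). By `cauchy2` with radius `κ`:
  `‖J a e‖ ≤ B / κ^(a + e)`, `B = Ms exp (2 P κ^2)` where for `‖ξ1‖ = ‖ξ2‖ = κ`: `|bet z ξ1 ξ2| ≤ C1 2 κ ≤ C/N` (`bet_le`), so `Nw ≤ Ms` and
  `‖F ξ1 ξ2‖ ≤ Ms exp (P (ξ1.im^2 + ξ2.im^2)) ≤ B`, `κ ≤ 32`. (`Ms ≥ 0` as `Nw ≥ 0` at the origin; `bet z 0 0 = 0`.)
  Split the sum over `a` and `e < S1` of `‖J a e‖ ‖ξ1‖^a ‖ξ2‖^e` with `‖ξ1‖, ‖ξ2‖ ≤ κ/8 ≤ 4`: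
  - `a + e < S1 + S2`: at most `(S1 + S2)^2 ≤ 4^(S1 + S2)` terms, each `≤ η 4^(S1 + S2)`;
  - `a + e ≥ S1 + S2`, `e < S1` so `a > S2`: `≤ ∑_{a ≥ S2 + 1} ∑_{e ≥ 0} B 8^(-a-e) ≤ B 8^(-S2)`.
  Total `≤ 16^(S1 + S2) η + B 8^(-S2)`, `exp (2 P κ^2) ≤ exp (C T)`.
-/

set_option autoImplicit false

namespace U2

open Complex Finset

private theorem Dec_split {F : ℂ → ℂ → ℂ} {J : ℕ → ℕ → ℂ}
    (hser : ∀ x1 x2 : ℂ, HasSum (fun p : ℕ × ℕ ↦ J p.1 p.2 * x1 ^ p.1 * x2 ^ p.2) (F x1 x2))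
    (S1 : ℕ) : ∃ G1 G2 : ℂ → ℂ → ℂ,
      (∀ x1 x2 : ℂ, HasSum (fun p : ℕ × ℕ ↦
        (fun a e : ℕ => if e < S1 then J a e else 0) p.1 p.2 * x1 ^ p.1 * x2 ^ p.2) (G1 x1 x2)) ∧
      (∀ x1 x2 : ℂ, HasSum (fun p : ℕ × ℕ ↦
        (fun a e : ℕ => J a (e + S1)) p.1 p.2 * x1 ^ p.1 * x2 ^ p.2) (G2 x1 x2)) ∧
      ∀ x1 x2 : ℂ, F x1 x2 = G1 x1 x2 + x2 ^ S1 * G2 x1 x2 := by
  have hinj : Function.Injective (fun p : ℕ × ℕ => (p.1, p.2 + S1)) := by
    intro p q h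
    simp only [Prod.mk.injEq, Nat.add_right_cancel_iff] at h
    exact Prod.ext h.1 h.2
  have s1 : ∀ x1 x2 : ℂ, Summable (fun p : ℕ × ℕ ↦
      (fun a e : ℕ => if e < S1 then J a e else 0) p.1 p.2 * x1 ^ p.1 * x2 ^ p.2) := by
    intro x1 x2
    refine Summable.of_norm_bounded (hser x1 x2).summable.norm fun p => ?_
    by_cases h : p.2 < S1
    · simp [h]
    · simp [h]
      positivity
  have s2 : ∀ x1 x2 : ℂ, Summable (fun p : ℕ × ℕ ↦
      (fun a e : ℕ => J a (e + S1)) p.1 p.2 * x1 ^ p.1 * x2 ^ p.2) := by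
    intro x1 x2
    have h1 := (hser ((‖x1‖ : ℝ) : ℂ) ((max 1 ‖x2‖ : ℝ) : ℂ)).summable.norm
    have h2 := h1.comp_injective hinj
    refine Summable.of_norm_bounded h2 fun p => ?_
    have hR1 : 1 ≤ max 1 ‖x2‖ := le_max_left _ _
    have hR2 : ‖x2‖ ≤ max 1 ‖x2‖ := le_max_right _ _
    simp only [Function.comp_apply, norm_mul, norm_pow, Complex.norm_real, norm_norm,
      Real.norm_eq_abs]
    have hR0 : (0 : ℝ) < max 1 ‖x2‖ := zero_lt_one.trans_le hR1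
    rw [abs_of_pos hR0, abs_of_nonneg (norm_nonneg x1)]
    have h5 : ‖x2‖ ^ p.2 ≤ (max 1 ‖x2‖) ^ (p.2 + S1) :=
      (pow_le_pow_left₀ (norm_nonneg _) hR2 _).trans
        (pow_le_pow_right₀ hR1 (Nat.le_add_right _ _))
    exact mul_le_mul_of_nonneg_left h5
      (mul_nonneg (norm_nonneg _) (pow_nonneg (norm_nonneg _) _))
  refine ⟨fun x1 x2 => ∑' p : ℕ × ℕ,
      (fun a e : ℕ => if e < S1 then J a e else 0) p.1 p.2 * x1 ^ p.1 * x2 ^ p.2,
    fun x1 x2 => ∑' p : ℕ × ℕ, (fun a e : ℕ => J a (e + S1)) p.1 p.2 * x1 ^ p.1 * x2 ^ p.2,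
    fun x1 x2 => (s1 x1 x2).hasSum, fun x1 x2 => (s2 x1 x2).hasSum, fun x1 x2 => ?_⟩
  have h3 : HasSum (fun p : ℕ × ℕ => (if p.2 < S1 then 0 else J p.1 p.2) * x1 ^ p.1 * x2 ^ p.2)
      (x2 ^ S1 * ∑' p : ℕ × ℕ, (fun a e : ℕ => J a (e + S1)) p.1 p.2 * x1 ^ p.1 * x2 ^ p.2) := by
    rw [← hinj.hasSum_iff]
    · have h4 := ((s2 x1 x2).hasSum).mul_left (x2 ^ S1)
      have h5 : ((fun p : ℕ × ℕ => (if p.2 < S1 then 0 else J p.1 p.2) * x1 ^ p.1 * x2 ^ p.2) ∘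
          fun p : ℕ × ℕ => (p.1, p.2 + S1)) =
          fun i : ℕ × ℕ => x2 ^ S1 * ((fun a e => J a (e + S1)) i.1 i.2 * x1 ^ i.1 * x2 ^ i.2) := by
        funext p
        simp only [Function.comp_apply]
        rw [if_neg (by omega)]
        ring
      rw [h5]
      exact h4
    · intro p hp
      rw [if_pos, zero_mul, zero_mul]
      by_contra hcon
      push Not at hcon
      exact hp ⟨(p.1, p.2 - S1), by simp [Nat.sub_add_cancel hcon]⟩
  have h5 := (s1 x1 x2).hasSum.add h3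
  have h6 := hser x1 x2
  refine h6.unique ?_
  convert h5 using 1
  funext p
  by_cases h : p.2 < S1
  · simp [h]
  · simp [h]

private theorem Dec_pow (n : ℕ) : (n : ℝ) ^ 2 * 4 ^ n ≤ 16 ^ n := by
  have h1 : (n : ℝ) ≤ 2 ^ n := by exact_mod_cast (Nat.lt_two_pow_self (n := n)).le
  have h2 : (n : ℝ) ^ 2 ≤ 4 ^ n := by
    calc (n : ℝ) ^ 2 ≤ (2 ^ n) ^ 2 := pow_le_pow_left₀ (by positivity) h1 2
      _ = 4 ^ n := by
        rw [← pow_mul, mul_comm, pow_mul]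
        norm_num
  calc (n : ℝ) ^ 2 * 4 ^ n ≤ 4 ^ n * 4 ^ n := by gcongr
    _ = 16 ^ n := by
      rw [← mul_pow]
      norm_num

/-- The sum of the bounding series. -/
private theorem Dec_sum (n : ℕ) (u v : ℝ) (hu : 0 ≤ u) (hv : 0 ≤ v) :
    ∃ σ : ℝ, HasSum (fun p : ℕ × ℕ => (if p.1 + p.2 < n then u else 0) +
      v * ((3 / 8 : ℝ) ^ p.1 * (3 / 8 : ℝ) ^ p.2)) σ ∧ σ ≤ n ^ 2 * u + v * (64 / 25) := by
  have h1 : HasSum (fun p : ℕ × ℕ => (if p.1 + p.2 < n then u else 0))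
      (∑ p ∈ range n ×ˢ range n, if p.1 + p.2 < n then u else 0) := by
    refine hasSum_sum_of_ne_finset_zero fun p hp => ?_
    rw [if_neg]
    intro h
    apply hp
    rw [mem_product, mem_range, mem_range]
    constructor <;> omega
  have hg : HasSum (fun k : ℕ => (3 / 8 : ℝ) ^ k) (8 / 5) := by
    have := hasSum_geometric_of_lt_one (r := (3 / 8 : ℝ)) (by norm_num) (by norm_num)
    convert this using 1
    norm_num
  have h2 : HasSum (fun p : ℕ × ℕ => (3 / 8 : ℝ) ^ p.1 * (3 / 8 : ℝ) ^ p.2) (8 / 5 * (8 / 5)) :=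
    hg.mul hg (hg.summable.mul_of_nonneg hg.summable (fun k => by positivity)
      (fun k => by positivity))
  have h3 := h1.add (h2.mul_left v)
  refine ⟨_, h3, ?_⟩
  have h4 : (∑ p ∈ range n ×ˢ range n, if p.1 + p.2 < n then u else 0) ≤ n ^ 2 * u := by
    calc (∑ p ∈ range n ×ˢ range n, if p.1 + p.2 < n then u else 0)
        ≤ ∑ _p ∈ range n ×ˢ range n, u := sum_le_sum fun p _ => by
          split_ifs
          · exact le_rfl
          · exact hu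
      _ = n ^ 2 * u := by
          rw [sum_const, card_product, card_range, nsmul_eq_mul]
          push_cast
          ring
  have h5 : v * (8 / 5 * (8 / 5)) = v * (64 / 25) := by norm_num
  linarith

theorem loc_dec {z : ℂ} (hz : 0 < z.im) : ∃ C : ℕ, 1 ≤ C ∧
    ∀ (T : ℕ) (F : ℂ → ℂ → ℂ) (J : ℕ → ℕ → ℂ) (A : ℝ), 1 ≤ T → FD z T F J A →
    ∀ (S1 S2 N : ℕ) (η Ms s : ℝ), 1 ≤ N → 0 ≤ η →
      (∀ a e, e < S1 → a + e < S1 + S2 → ‖J a e‖ ≤ η) →
      (∀ y1 y2, |bet z y1 y2| ≤ C / N → Nw z T F y1 y2 ≤ Ms) → |s| ≤ 2 / (N : ℝ) →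
      ∃ a b : ℂ → ℂ, Differentiable ℂ a ∧ Differentiable ℂ b ∧
        (∀ ζ : ℂ, F (ζ - s) (mu z * ζ) = a ζ + ζ ^ S1 * b ζ) ∧
        ∀ ζ : ℂ, ‖ζ‖ ≤ 1 / (C * N) →
          ‖a ζ‖ ≤ Real.exp (C * T) * Ms / 8 ^ S2 + (C : ℝ) ^ (S1 + S2) * η := by
  obtain ⟨C1, hC1, hbet⟩ := bet_le z
  obtain ⟨C2, hC2⟩ := exists_nat_ge ‖mu z‖
  obtain ⟨C3, hC3⟩ := exists_nat_ge (8192 * Real.pi / z.im)
  refine ⟨128 * C1 + C2 + C3 + 16, by omega, ?_⟩
  intro T F J A hT hF S1 S2 N η Ms s hN hη hJ hNw hs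
  set C : ℕ := 128 * C1 + C2 + C3 + 16 with hC
  have hN1 : (1 : ℝ) ≤ N := by exact_mod_cast hN
  have hN0 : (0 : ℝ) < N := by linarith
  have hCr : (C : ℝ) = 128 * C1 + C2 + C3 + 16 := by
    rw [hC]
    push_cast
    ring
  have hC10 : (0 : ℝ) ≤ C1 := by positivity
  have hC20 : (0 : ℝ) ≤ C2 := by positivity
  have hC30 : (0 : ℝ) ≤ C3 := by positivity
  have hC16 : (16 : ℝ) ≤ C := by linarith
  have hC0 : (0 : ℝ) < C := by linarith
  obtain ⟨G1, G2, hG1, hG2, hFG⟩ := Dec_split hF.ser S1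
  refine ⟨fun ζ => G1 (-s + ζ * 1) (0 + ζ * mu z),
    fun ζ => mu z ^ S1 * G2 (-s + ζ * 1) (0 + ζ * mu z),
    line_diff (J := fun a e : ℕ => if e < S1 then J a e else 0) hG1 _ _ _ _,
    (line_diff (J := fun a e : ℕ => J a (e + S1)) hG2 _ _ _ _).const_mul _, fun ζ => ?_,
    fun ζ hζ => ?_⟩
  · have e1 : ζ - (s : ℂ) = -s + ζ * 1 := by ring
    have e2 : mu z * ζ = 0 + ζ * mu z := by ring
    rw [hFG, e1, e2, zero_add, mul_pow]
    ring
  -- the bound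
  have hMs : 0 ≤ Ms := by
    refine le_trans ?_ (hNw 0 0 ?_)
    · unfold Nw
      positivity
    · have : bet z 0 0 = 0 := by simp [bet]
      rw [this, abs_zero]
      positivity
  set B : ℝ := Ms * Real.exp (C * T) with hB
  have hB0 : 0 ≤ B := by positivity
  have hcau : ∀ a e : ℕ, ‖J a e‖ ≤ B / (64 / N : ℝ) ^ (a + e) := by
    refine cauchy2 F J hF.ser (64 / N) B (by positivity) fun x1 x2 hx1 hx2 => ?_
    have h1 : Nw z T F x1 x2 ≤ Ms := by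
      refine hNw x1 x2 ((hbet x1 x2).trans ?_)
      rw [hx1, hx2]
      have : (C1 : ℝ) * (64 / N + 64 / N) = 128 * C1 / N := by ring
      rw [this]
      gcongr
      linarith
    have h2 : ‖F x1 x2‖ = Nw z T F x1 x2 *
        Real.exp (Real.pi * T / z.im * (x1.im ^ 2 + x2.im ^ 2)) := by
      unfold Nw
      rw [mul_assoc, ← Real.exp_add, neg_add_cancel, Real.exp_zero, mul_one]
    rw [h2, hB]
    have h3 : Real.pi * T / z.im * (x1.im ^ 2 + x2.im ^ 2) ≤ C * T := by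
      have h4 : x1.im ^ 2 ≤ 4096 := by
        have h5 : |x1.im| ≤ 64 := by
          refine (Complex.abs_im_le_norm x1).trans ?_
          rw [hx1]
          exact div_le_self (by norm_num) hN1
        have h6 := abs_le.1 h5
        nlinarith [h6.1, h6.2]
      have h4' : x2.im ^ 2 ≤ 4096 := by
        have h5 : |x2.im| ≤ 64 := by
          refine (Complex.abs_im_le_norm x2).trans ?_
          rw [hx2]
          exact div_le_self (by norm_num) hN1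
        have h6 := abs_le.1 h5
        nlinarith [h6.1, h6.2]
      calc Real.pi * T / z.im * (x1.im ^ 2 + x2.im ^ 2)
          ≤ Real.pi * T / z.im * (4096 + 4096) := by
            refine mul_le_mul_of_nonneg_left (add_le_add h4 h4') ?_
            positivity
        _ = 8192 * Real.pi / z.im * T := by ring
        _ ≤ C * T := by
            refine mul_le_mul_of_nonneg_right ?_ (by positivity)
            linarith
    exact mul_le_mul h1 (Real.exp_le_exp.2 h3) (Real.exp_pos _).le hMs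
  -- the arguments are small
  have hCN : 1 / ((C : ℝ) * N) ≤ 1 / N := by
    refine one_div_le_one_div_of_le hN0 ?_
    nlinarith
  have hx1 : ‖(-s + ζ * 1 : ℂ)‖ ≤ 3 / N := by
    calc ‖(-s + ζ * 1 : ℂ)‖ ≤ ‖(-s : ℂ)‖ + ‖(ζ * 1 : ℂ)‖ := norm_add_le _ _
      _ = |s| + ‖ζ‖ := by rw [norm_neg, mul_one, Complex.norm_real, Real.norm_eq_abs]
      _ ≤ 2 / N + 1 / N := add_le_add hs (hζ.trans hCN)
      _ = 3 / N := by ring
  have hx2 : ‖(0 + ζ * mu z : ℂ)‖ ≤ 3 / N := by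
    rw [zero_add, norm_mul]
    calc ‖ζ‖ * ‖mu z‖ ≤ 1 / ((C : ℝ) * N) * C := by
          refine mul_le_mul hζ (hC2.trans (by linarith)) (norm_nonneg _) (by positivity)
      _ = 1 / N := by field_simp
      _ ≤ 3 / N := by
          gcongr
          norm_num
  have h3N : (3 : ℝ) / N ≤ 4 := (div_le_self (by norm_num) hN1).trans (by norm_num)
  have h3N0 : (0 : ℝ) ≤ 3 / N := by positivity
  show ‖G1 (-s + ζ * 1) (0 + ζ * mu z)‖ ≤ _
  generalize (-s + ζ * 1 : ℂ) = y1 at hx1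
  generalize (0 + ζ * mu z : ℂ) = y2 at hx2
  obtain ⟨σ, hσ, hσle⟩ := Dec_sum (S1 + S2) (4 ^ (S1 + S2) * η) (B * (1 / 8) ^ (S2 + 1))
    (by positivity) (by positivity)
  have hterm : ∀ p : ℕ × ℕ,
      ‖(fun a e : ℕ => if e < S1 then J a e else 0) p.1 p.2 * y1 ^ p.1 * y2 ^ p.2‖ ≤
      (if p.1 + p.2 < S1 + S2 then 4 ^ (S1 + S2) * η else 0) +
        B * (1 / 8) ^ (S2 + 1) * ((3 / 8 : ℝ) ^ p.1 * (3 / 8 : ℝ) ^ p.2) := by
    rintro ⟨a, e⟩
    simp only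
    have hpos : 0 ≤ B * (1 / 8) ^ (S2 + 1) * ((3 / 8 : ℝ) ^ a * (3 / 8 : ℝ) ^ e) := by positivity
    by_cases he : e < S1
    · rw [if_pos he, norm_mul, norm_mul, norm_pow, norm_pow]
      have hyy : ‖y1‖ ^ a * ‖y2‖ ^ e ≤ (3 / N : ℝ) ^ (a + e) := by
        rw [pow_add]
        exact mul_le_mul (pow_le_pow_left₀ (norm_nonneg _) hx1 _)
          (pow_le_pow_left₀ (norm_nonneg _) hx2 _) (by positivity) (by positivity)
      by_cases hn : a + e < S1 + S2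
      · rw [if_pos hn]
        have h1 : ‖J a e‖ * ‖y1‖ ^ a * ‖y2‖ ^ e ≤ 4 ^ (S1 + S2) * η := by
          calc ‖J a e‖ * ‖y1‖ ^ a * ‖y2‖ ^ e = ‖J a e‖ * (‖y1‖ ^ a * ‖y2‖ ^ e) := by ring
            _ ≤ η * 4 ^ (S1 + S2) := by
                refine mul_le_mul (hJ a e he hn) (hyy.trans ?_) (by positivity) hη
                calc (3 / N : ℝ) ^ (a + e) ≤ 4 ^ (a + e) := pow_le_pow_left₀ h3N0 h3N _
                  _ ≤ 4 ^ (S1 + S2) := pow_le_pow_right₀ (by norm_num) hn.le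
            _ = _ := by ring
        linarith
      · rw [if_neg hn, zero_add]
        have hk : S2 + 1 ≤ a + e := by omega
        calc ‖J a e‖ * ‖y1‖ ^ a * ‖y2‖ ^ e = ‖J a e‖ * (‖y1‖ ^ a * ‖y2‖ ^ e) := by ring
          _ ≤ B / (64 / N : ℝ) ^ (a + e) * (3 / N : ℝ) ^ (a + e) :=
              mul_le_mul (hcau a e) hyy (by positivity) (by positivity)
          _ = B * ((1 / 8 : ℝ) ^ (a + e) * (3 / 8) ^ (a + e)) := by
              rw [← mul_pow, div_mul_eq_mul_div, mul_div_assoc, ← div_pow]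
              congr 2
              field_simp
              norm_num
          _ ≤ B * ((1 / 8 : ℝ) ^ (S2 + 1) * (3 / 8) ^ (a + e)) := by
              refine mul_le_mul_of_nonneg_left (mul_le_mul_of_nonneg_right ?_ (by positivity)) hB0
              exact pow_le_pow_of_le_one (by norm_num) (by norm_num) hk
          _ = _ := by
              rw [pow_add (3 / 8 : ℝ)]
              ring
    · rw [if_neg he, zero_mul, zero_mul, norm_zero]
      have h1 : 0 ≤ (if a + e < S1 + S2 then 4 ^ (S1 + S2) * η else 0) := by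
        split_ifs
        · positivity
        · exact le_rfl
      linarith
  have hfin : ‖G1 y1 y2‖ ≤ σ := by
    rw [← (hG1 y1 y2).tsum_eq]
    exact tsum_of_norm_bounded hσ hterm
  refine hfin.trans (hσle.trans ?_)
  have h1 : ((S1 + S2 : ℕ) : ℝ) ^ 2 * (4 ^ (S1 + S2) * η) ≤ (C : ℝ) ^ (S1 + S2) * η := by
    rw [← mul_assoc]
    refine mul_le_mul_of_nonneg_right ((Dec_pow _).trans ?_) hη
    exact pow_le_pow_left₀ (by norm_num) hC16 _
  have h2 : B * (1 / 8) ^ (S2 + 1) * (64 / 25) ≤ Real.exp (C * T) * Ms / 8 ^ S2 := by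
    have h3 : B * (1 / 8) ^ (S2 + 1) * (64 / 25) = B / 8 ^ S2 * (8 / 25) := by
      rw [pow_succ, one_div, inv_pow]
      ring
    rw [h3, hB, mul_comm Ms]
    have h4 : 0 ≤ Real.exp (C * T) * Ms / 8 ^ S2 := by positivity
    linarith
  linarith

end U2
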