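import Pool.Agent.H22.U2.Defs
import Pool.Agent.H32.AZ.A0
import Pool.Agent.H32.CZ.N0

/-!
# MP_ede373, theorem (U2): definitions of the arithmetic part and of the data for the criterion
-/

set_option autoImplicit false

namespace U2

open MvPolynomial CZ
open H32.T3 (nrm)

/-- The polynomial of the `p`-th derivative of `HH b D i` at the origin. -/
noncomputable def hp (D i p : ℕ) : MvPolynomial (Fin 5) ℤ :=
  (TD AZ.tdv (C ((2 * D : ℕ) : ℤ) * X 2))^[p] (X 0 ^ i)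

/-- `hp` in seven variables. -/
noncomputable def hp7 (D i p : ℕ) : MvPolynomial (Fin 7) ℤ :=
  rename (Fin.castLE (by decide : 5 ≤ 7)) (hp D i p)

/-- The polynomial of the Taylor coefficient `jc D i1 i2 k a e`. -/
noncomputable def WP (D i1 i2 k a e : ℕ) : MvPolynomial (Fin 7) ℤ :=
  ∑ p ∈ Finset.HasAntidiagonal.antidiagonal k, ∑ q ∈ Finset.HasAntidiagonal.antidiagonal p.2,
    if q.1 ≤ e then
      C ((k.choose p.1 * p.2.choose q.1 * e.descFactorial q.1 * (2 * D) ^ q.1 : ℕ) : ℤ) *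
        (hp7 D i1 (a + p.1) * hp7 D i2 (e - q.1 + q.2) * (X 5 ^ q.1 * X 6 ^ q.2))
    else 0

/-- The values of the variables. -/
noncomputable def cs7 (z lam h kap ep : ℂ) : Fin 7 → ℂ :=
  ![ep, 0, 0, h, kap, 2 * Real.pi * Complex.I / lam ^ 2, z]

/-- Data for the criterion: sizes `C Q log (Q + 2)`, lower bound `exp (-C N Q^2)`, upper bound
`exp (-N Q^2 / C)` on a subspace of at least half the dimension. -/
def Dat {m : ℕ} (P : Fin m → ℂ) (C N Q : ℕ) : Prop :=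
  ∃ (Λ : Type) (_ : Fintype Λ) (R : Type) (W : R → Λ → MvPolynomial (Fin m) ℤ),
    0 < Fintype.card Λ ∧ Real.log (Fintype.card Λ) ≤ C * Q * Real.log (Q + 2) ∧
    (∀ s l, ((W s l).totalDegree : ℝ) ≤ C * Q * Real.log (Q + 2) ∧
      nrm (W s l) ≤ Real.exp (C * Q * Real.log (Q + 2))) ∧
    (∀ c : Λ → ℂ, (∀ l, ‖c l‖ ≤ 1) → (∃ l, ‖c l‖ = 1) →
      ∃ s, Real.exp (-(C * N * (Q : ℝ) ^ 2)) ≤ ‖∑ l, c l * aeval P (W s l)‖) ∧
    ∃ V : Submodule ℂ (Λ → ℂ), Fintype.card Λ ≤ 2 * Module.finrank ℂ V ∧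
      ∀ c ∈ V, (∀ l, ‖c l‖ ≤ 1) → ∀ s,
        ‖∑ l, c l * aeval P (W s l)‖ ≤ Real.exp (-(N * (Q : ℝ) ^ 2 / C))

/-- Lower bound for the values of integer polynomials of degree at most two at `z`. -/
def Low (z : ℂ) : Prop :=
  ∃ C : ℕ, ∀ (H : ℕ) (p0 p1 p2 : ℤ), 1 ≤ H → |p0| ≤ (H : ℤ) → |p1| ≤ (H : ℤ) → |p2| ≤ (H : ℤ) →
    (p0 ≠ 0 ∨ p1 ≠ 0 ∨ p2 ≠ 0) →
    Real.exp (-(C * Real.log (H + 2) ^ 5)) ≤ ‖(p0 : ℂ) * z ^ 2 - p1 * z + p2‖

end U2
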