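import Mathlib
import Pool.Agent.H22.CZ.Defs

/-!
# MP_ede373, theorem (U2): every point which is not a CM point. Definitions of the analytic part

Blueprint: `/team-store/H22_U2.md`. `z = X + iY` in the upper half plane, functions of two complex variables
`x1, x2`, theta degree `T = 2 D`. `bet z x1 x2 = Re x2 - X Im x2 / Y - Im x1 / Y` is the (real linear) function which
vanishes on the real span of the lattice `(m0 + m1 z, m1 + m2 z)`; `mu z = -1 / conj z`: the complex line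
`(1, mu z)` lies in `bet = 0`. All names live in the namespace `U2`.
-/

set_option autoImplicit false

namespace U2

open Complex Finset

/-- The real linear function `β`. -/
noncomputable def bet (z x1 x2 : ℂ) : ℝ := x2.re - z.re * (x2.im / z.im) - x1.im / z.im

/-- The weighted size (theta degree `T`). -/
noncomputable def Nw (z : ℂ) (T : ℕ) (F : ℂ → ℂ → ℂ) (x1 x2 : ℂ) : ℝ :=
  ‖F x1 x2‖ * Real.exp (-(Real.pi * T / z.im * (x1.im ^ 2 + x2.im ^ 2)))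

/-- The direction of the complex line in `β = 0`. -/
noncomputable def mu (z : ℂ) : ℂ := -1 / (starRingEnd ℂ) z

/-- The automorphy factor of the lattice point `(m0 + m1 z, m1 + m2 z)`. -/
noncomputable def ef (z : ℂ) (T : ℕ) (m1 m2 : ℤ) (x1 x2 : ℂ) : ℂ :=
  exp (-(Real.pi * I * T * z * ((m1 : ℂ) ^ 2 + (m2 : ℂ) ^ 2)) - 2 * Real.pi * I * T * (m1 * x1 + m2 * x2))

/-- The position on the line `x + v (1, mu z)` of the lattice point `m`. -/
noncomputable def uu (z x2 : ℂ) (m : ℤ × ℤ × ℤ) : ℂ := ((m.2.1 : ℂ) + m.2.2 * z - x2) / mu z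

/-- The (real) offset of the lattice point `m` from this line. -/
noncomputable def ss (z x1 x2 : ℂ) (m : ℤ × ℤ × ℤ) : ℝ :=
  ((m.1 : ℂ) + m.2.1 * z - x1 - uu z x2 m).re

/-- The hypotheses of the Schwarz lemma: `F` is entire with Taylor coefficients `J`, has the automorphy
factors `ef` for the lattice, and its weighted size grows at most like `exp (A (1 + log (1 + |β|)))`. -/
structure FD (z : ℂ) (T : ℕ) (F : ℂ → ℂ → ℂ) (J : ℕ → ℕ → ℂ) (A : ℝ) : Prop where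
  ser : ∀ x1 x2 : ℂ, HasSum (fun p : ℕ × ℕ ↦ J p.1 p.2 * x1 ^ p.1 * x2 ^ p.2) (F x1 x2)
  inv : ∀ (m0 m1 m2 : ℤ) (x1 x2 : ℂ),
    F (x1 + (m0 + m1 * z)) (x2 + (m1 + m2 * z)) = ef z T m1 m2 x1 x2 * F x1 x2
  gr : ∀ x1 x2 : ℂ, Nw z T F x1 x2 ≤ Real.exp (A * (1 + Real.log (1 + |bet z x1 x2|)))

/-- The covering hypothesis. -/
def COV (z : ℂ) (N K : ℕ) : Prop :=
  ∀ θ : ℝ, ∃ m0 m1 m2 : ℤ, |m1| ≤ (K : ℤ) ∧ |m2| ≤ (K : ℤ) ∧
    |(m0 : ℝ) + m1 * (2 * z.re) + m2 * ‖z‖ ^ 2 - θ| ≤ 1 / (N : ℝ)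

section Fun

variable {z : ℂ} (b : CZ.BaseFn z)

/-- `A ^ (2 (D - i)) B ^ i`. -/
noncomputable def HH (D i : ℕ) (s : ℂ) : ℂ := b.A s ^ (2 * (D - i)) * b.B s ^ i

/-- `v_1 = 1 / (2 π i T)`, `T = 2 D`. -/
noncomputable def v1 (D : ℕ) : ℂ := 1 / (2 * Real.pi * I * (2 * D))

/-- `v_2 = z / (2 π i T)`. -/
noncomputable def v2 (z : ℂ) (D : ℕ) : ℂ := z / (2 * Real.pi * I * (2 * D))

/-- The generating function. -/
noncomputable def Psi (D i1 i2 : ℕ) (x1 x2 t : ℂ) : ℂ :=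
  exp (t * x2) * HH b D i1 (x1 + t * v1 D) * HH b D i2 (x2 + t * v2 z D)

/-- The functions. -/
noncomputable def Phi (D i1 i2 k : ℕ) (x1 x2 : ℂ) : ℂ :=
  iteratedDeriv k (fun t ↦ Psi b D i1 i2 x1 x2 t) 0

/-- The Taylor coefficients of `Phi` at the origin. -/
noncomputable def jc (D i1 i2 k a c : ℕ) : ℂ :=
  ∑ p ∈ antidiagonal k, ∑ q ∈ antidiagonal p.2,
    if q.1 ≤ c then
      (k.choose p.1 : ℂ) * (p.2.choose q.1 : ℂ) * v1 D ^ p.1 * v2 z D ^ q.2 *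
        (iteratedDeriv (a + p.1) (HH b D i1) 0 / (a.factorial : ℂ)) *
        (iteratedDeriv (c - q.1 + q.2) (HH b D i2) 0 / ((c - q.1).factorial : ℂ))
    else 0

/-- The index set. -/
abbrev Ix (D Q : ℕ) : Type := Fin (D + 1) × Fin (D + 1) × Fin Q

/-- Linear combinations. -/
noncomputable def FF (D Q : ℕ) (c : Ix D Q → ℂ) (x1 x2 : ℂ) : ℂ :=
  ∑ l, c l * Phi b D l.1 l.2.1 l.2.2 x1 x2

/-- Their Taylor coefficients. -/
noncomputable def JJ (D Q : ℕ) (c : Ix D Q → ℂ) (a e : ℕ) : ℂ :=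
  ∑ l, c l * jc b D l.1 l.2.1 l.2.2 a e

end Fun

end U2
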