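import Pool.Agent.H32.AZ.L

/-!
# MP_ede373, theorem (U2), row Di: approximations of one transcendental number, with constants

Extract from the proof of `AZ.line` in `Pool/Agent/H32/AZ/L.lean` (up to `hW0`).
-/

set_option autoImplicit false

namespace U2

open Polynomial CZ

theorem line_const (θ : ℂ) (hθ : Transcendental ℚ θ) : ∃ T0 : ℕ, 1 ≤ T0 ∧ ∀ T : ℕ, T0 ≤ T →
    ∃ s W : ℝ, 1 ≤ s ∧ s ≤ 4 * T ∧ T * s ≤ 12 * W ∧ ApprAt ![θ] s W := by
  have hae : ∀ f : ℤ[X], f ≠ 0 → aeval θ f ≠ 0 := by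
    intro f hf h
    exact hθ ((IsFractionRing.isAlgebraic_iff ℤ ℚ ℂ).1 ⟨f, hf, h⟩)
  obtain ⟨T0, hT0⟩ := AZ.line_poly θ
  refine ⟨max T0 1, le_max_right _ _, fun T hTT => ?_⟩
  have hTT0 : T0 ≤ T := (le_max_left _ _).trans hTT
  have hT1 : 1 ≤ T := (le_max_right _ _).trans hTT
  have hT1r : (1 : ℝ) ≤ T := by exact_mod_cast hT1
  have hT0r : (0 : ℝ) < T := by linarith
  obtain ⟨f, hf0, hfs, hfv⟩ := hT0 T hTT0
  obtain ⟨r, hr, hn, -, hsz, hV⟩ := good_factor f hf0 θ ((T : ℝ) ^ 2 / 3) (by positivity) (hae f hf0) hfv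
  obtain ⟨W, hA, hW⟩ := AZ.line_local θ hθ r hr hn
  obtain ⟨s, hs⟩ : ∃ s : ℝ, s = r.natDegree + Real.log (mah r) := ⟨_, rfl⟩
  rw [← hs] at hA hsz hV
  have hmah : 1 ≤ mah r := one_le_mah hr.ne_zero
  have hlog0 : 0 ≤ Real.log (mah r) := Real.log_nonneg hmah
  have hn1 : (1 : ℝ) ≤ r.natDegree := by exact_mod_cast hn
  have hs1 : 1 ≤ s := by linarith
  have hs4 : s ≤ 4 * T := hsz.trans hfs
  have hW0 : T * s ≤ 12 * W := by
    have h0 : 0 < (T : ℝ) ^ 2 / 3 * s := by positivity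
    have h2 : 0 < -Real.log ‖aeval θ r‖ := by
      by_contra hcon
      have h3 : -Real.log ‖aeval θ r‖ ≤ 0 := not_lt.1 hcon
      have h4 : 0 ≤ (f.natDegree : ℝ) + Real.log (mah f) := by linarith
      have h5 := mul_nonpos_of_nonneg_of_nonpos h4 h3
      linarith
    have h3 : (T : ℝ) ^ 2 / 3 * s ≤ 4 * T * (-Real.log ‖aeval θ r‖) :=
      hV.trans (mul_le_mul_of_nonneg_right hfs h2.le)
    have h4 : (T : ℝ) ^ 2 / 3 * s ≤ 4 * T * W :=
      h3.trans (mul_le_mul_of_nonneg_left hW (by positivity))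
    have h5 : (T : ℝ) * (T * s) ≤ T * (12 * W) := by nlinarith
    exact le_of_mul_le_mul_left h5 hT0r
  exact ⟨s, W, hs1, hs4, hW0, hA⟩

end U2
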