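import Pool.Agent.H22.U2.Defs

/-!
# MP_ede373, theorem (U2), row Dt1: scaling of the lower bound

`ρ = 2 π I (2 D)/lam ≠ 0`, `c' l = c l ρ^(l.2.2)`. By the relation
`∑ l, c l * Wv l a e = (a! e! lam^(-(a+e))) ∑ l, c' l * J l a e`. `|ρ| ≥ 4 π/|lam| ≥ r0` with `0 < r0 ≤ 1`. Let `m = max ‖c' l‖` (attained): `m ≥ ‖c l0‖ |ρ|^(l0.2.2) ≥ r0^Q`
where `‖c l0‖ = 1`. Apply the hypothesis to `c'/m`: `(a, e)` with `‖∑ c' J‖ ≥ m exp (-(Ch N Q^2))`. `a! e! ≥ 1`, `|lam|^(-(a+e)) ≥ max(1, |lam|)^(-Ch Q)`. All in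
all the lower bound `exp (-(Ch N Q^2) - C1 Q)`, `C1` depending only on `lam, Ch`, and `Q ≤ N Q^2`.
-/

set_option autoImplicit false

namespace U2

open Complex

theorem dat_low (lam : ℂ) (hlam : lam ≠ 0) (Ch : ℕ) : ∃ C' : ℕ, Ch ≤ C' ∧
    ∀ D N Q : ℕ, 1 ≤ D → D ≤ Q → 1 ≤ N → ∀ J Wv : Ix D Q → ℕ → ℕ → ℂ,
    (∀ l a e, (a.factorial : ℂ) * e.factorial *
      (2 * Real.pi * Complex.I * (2 * D) / lam) ^ (l.2.2 : ℕ) * J l a e =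
        lam ^ (a + e) * Wv l a e) →
    (∀ c : Ix D Q → ℂ, (∀ l, ‖c l‖ ≤ 1) → (∃ l, ‖c l‖ = 1) → ∃ a e : ℕ, a + e ≤ Ch * Q ∧
      Real.exp (-(Ch * N * (Q : ℝ) ^ 2)) ≤ ‖∑ l, c l * J l a e‖) →
    ∀ c : Ix D Q → ℂ, (∀ l, ‖c l‖ ≤ 1) → (∃ l, ‖c l‖ = 1) → ∃ a e : ℕ, a + e ≤ Ch * Q ∧
      Real.exp (-(C' * N * (Q : ℝ) ^ 2)) ≤ ‖∑ l, c l * Wv l a e‖ := by
  obtain ⟨r0, hr0⟩ : ∃ r0 : ℝ, r0 = min 1 (4 * Real.pi / ‖lam‖) := ⟨_, rfl⟩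
  have hl : 0 < ‖lam‖ := norm_pos_iff.2 hlam
  have hr0p : 0 < r0 := by
    rw [hr0]
    exact lt_min one_pos (div_pos (by positivity) hl)
  have hr01 : r0 ≤ 1 := by rw [hr0]; exact min_le_left _ _
  obtain ⟨B, hB⟩ : ∃ B : ℝ, B = max 1 ‖lam‖ := ⟨_, rfl⟩
  have hB1 : 1 ≤ B := by rw [hB]; exact le_max_left _ _
  have hBp : 0 < B := by linarith
  have hBl : ‖lam‖ ≤ B := by rw [hB]; exact le_max_right _ _
  obtain ⟨C1, hC1⟩ := exists_nat_ge (-Real.log r0 + Ch * Real.log B)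
  refine ⟨Ch + C1, Nat.le_add_right _ _, ?_⟩
  intro D N Q hD hDQ hN J Wv hrel hlow c hc hc1
  obtain ⟨l0, hl0⟩ := hc1
  obtain ⟨ρ, hρ⟩ : ∃ ρ : ℂ, ρ = 2 * Real.pi * Complex.I * (2 * D) / lam := ⟨_, rfl⟩
  rw [← hρ] at hrel
  have hD1 : (1 : ℝ) ≤ D := by exact_mod_cast hD
  have hρn : ‖ρ‖ = 4 * Real.pi * D / ‖lam‖ := by
    rw [hρ, norm_div, norm_mul, norm_mul, norm_mul, norm_mul, Complex.norm_I, Complex.norm_natCast,
      Complex.norm_ofNat, Complex.norm_real, Real.norm_eq_abs, abs_of_pos Real.pi_pos]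
    ring
  have hρr : r0 ≤ ‖ρ‖ := by
    rw [hρn, hr0]
    refine (min_le_right _ _).trans ?_
    rw [div_le_div_iff_of_pos_right hl]
    have := Real.pi_pos
    nlinarith
  obtain ⟨c', hc'⟩ : ∃ c' : Ix D Q → ℂ, ∀ l, c' l = c l * ρ ^ (l.2.2 : ℕ) := ⟨_, fun _ => rfl⟩
  have hsum : ∀ a e : ℕ, lam ^ (a + e) * ∑ l, c l * Wv l a e =
      (a.factorial : ℂ) * e.factorial * ∑ l, c' l * J l a e := by
    intro a e
    rw [Finset.mul_sum, Finset.mul_sum]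
    refine Finset.sum_congr rfl fun l _ => ?_
    rw [hc']
    linear_combination (-(c l)) * hrel l a e
  have : Nonempty (Ix D Q) := ⟨l0⟩
  obtain ⟨l1, hl1⟩ := Finite.exists_max (fun l => ‖c' l‖)
  obtain ⟨m, hm⟩ : ∃ m : ℝ, m = ‖c' l1‖ := ⟨_, rfl⟩
  have hm1 : r0 ^ Q ≤ m := by
    have h1 : ‖c' l0‖ = ‖ρ‖ ^ (l0.2.2 : ℕ) := by
      rw [hc', norm_mul, hl0, one_mul, norm_pow]
    rw [hm]
    refine le_trans ?_ (hl1 l0)
    rw [h1]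
    refine le_trans ?_ (pow_le_pow_left₀ hr0p.le hρr _)
    exact pow_le_pow_of_le_one hr0p.le hr01 l0.2.2.2.le
  have hmp : 0 < m := lt_of_lt_of_le (pow_pos hr0p Q) hm1
  obtain ⟨a, e, hae, h2⟩ := hlow (fun l => c' l / (m : ℂ)) (by
    intro l
    rw [norm_div, Complex.norm_real, Real.norm_eq_abs, abs_of_pos hmp, div_le_one hmp, hm]
    exact hl1 l) ⟨l1, by
      rw [norm_div, Complex.norm_real, Real.norm_eq_abs, abs_of_pos hmp, ← hm, div_self hmp.ne']⟩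
  refine ⟨a, e, hae, ?_⟩
  have h3 : ∑ l, c' l / (m : ℂ) * J l a e = (∑ l, c' l * J l a e) / (m : ℂ) := by
    rw [Finset.sum_div]
    exact Finset.sum_congr rfl fun l _ => by ring
  rw [h3, norm_div, Complex.norm_real, Real.norm_eq_abs, abs_of_pos hmp, le_div_iff₀ hmp] at h2
  have h4 : ‖lam‖ ^ (a + e) * ‖∑ l, c l * Wv l a e‖ =
      (a.factorial : ℝ) * e.factorial * ‖∑ l, c' l * J l a e‖ := by
    rw [← norm_pow, ← norm_mul, hsum, norm_mul, norm_mul, Complex.norm_natCast,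
      Complex.norm_natCast]
  have hfa : (1 : ℝ) ≤ a.factorial := by exact_mod_cast Nat.one_le_iff_ne_zero.2 (Nat.factorial_ne_zero a)
  have hfe : (1 : ℝ) ≤ e.factorial := by exact_mod_cast Nat.one_le_iff_ne_zero.2 (Nat.factorial_ne_zero e)
  have hfae : (1 : ℝ) ≤ (a.factorial : ℝ) * e.factorial := by nlinarith
  have h5 : ‖∑ l, c' l * J l a e‖ ≤ ‖lam‖ ^ (a + e) * ‖∑ l, c l * Wv l a e‖ := by
    rw [h4]
    exact le_mul_of_one_le_left (norm_nonneg _) hfae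
  have h6 : ‖lam‖ ^ (a + e) ≤ B ^ (Ch * Q) :=
    (pow_le_pow_left₀ (norm_nonneg _) hBl _).trans (pow_le_pow_right₀ hB1 hae)
  have h7 : Real.exp (-(Ch * N * (Q : ℝ) ^ 2)) * r0 ^ Q ≤
      B ^ (Ch * Q) * ‖∑ l, c l * Wv l a e‖ := by
    calc Real.exp (-(Ch * N * (Q : ℝ) ^ 2)) * r0 ^ Q
        ≤ Real.exp (-(Ch * N * (Q : ℝ) ^ 2)) * m :=
          mul_le_mul_of_nonneg_left hm1 (Real.exp_pos _).le
      _ ≤ ‖∑ l, c' l * J l a e‖ := h2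
      _ ≤ ‖lam‖ ^ (a + e) * ‖∑ l, c l * Wv l a e‖ := h5
      _ ≤ _ := mul_le_mul_of_nonneg_right h6 (norm_nonneg _)
  have hQ1 : (1 : ℝ) ≤ Q := by exact_mod_cast hD.trans hDQ
  have hN1 : (1 : ℝ) ≤ N := by exact_mod_cast hN
  have hNQ : (Q : ℝ) ≤ N * (Q : ℝ) ^ 2 := by
    have e1 : (1 : ℝ) ≤ N * Q := by nlinarith
    nlinarith
  have h8 : Real.exp (-(((Ch + C1 : ℕ) : ℝ) * N * (Q : ℝ) ^ 2)) * B ^ (Ch * Q) ≤
      Real.exp (-(Ch * N * (Q : ℝ) ^ 2)) * r0 ^ Q := by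
    have e1 : B ^ (Ch * Q) = Real.exp ((Ch * Q : ℕ) * Real.log B) := by
      rw [Real.exp_nat_mul, Real.exp_log hBp]
    have e2 : r0 ^ Q = Real.exp ((Q : ℕ) * Real.log r0) := by
      rw [Real.exp_nat_mul, Real.exp_log hr0p]
    rw [e1, e2, ← Real.exp_add, ← Real.exp_add, Real.exp_le_exp]
    push_cast
    have e3 : (0 : ℝ) ≤ C1 := Nat.cast_nonneg _
    have e4 : (C1 : ℝ) * Q ≤ C1 * (N * (Q : ℝ) ^ 2) := mul_le_mul_of_nonneg_left hNQ e3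
    have e5 : (-Real.log r0 + Ch * Real.log B) * Q ≤ C1 * Q :=
      mul_le_mul_of_nonneg_right hC1 (by linarith)
    nlinarith
  have hBQ : 0 < B ^ (Ch * Q) := pow_pos hBp _
  have h9 : Real.exp (-(((Ch + C1 : ℕ) : ℝ) * N * (Q : ℝ) ^ 2)) * B ^ (Ch * Q) ≤
      ‖∑ l, c l * Wv l a e‖ * B ^ (Ch * Q) := by
    refine (h8.trans h7).trans (le_of_eq ?_)
    ring
  exact le_of_mul_le_mul_right h9 hBQ

end U2
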