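import Pool.Agent.H22.U2.Defs

/-!
# MP_ede373, theorem (U2), row Dt2: scaling of the upper bound

`ρ = 2 π I (2 D)/lam ≠ 0`, `c' l = c l ρ^(l.2.2)`, `V' = {c | c' ∈ V}`: the preimage of `V` under the linear equivalence `c ↦ c'`
(`LinearEquiv.piCongrRight` of multiplications by units, or `Submodule.comap` and injectivity/surjectivity), so `finrank V' = finrank V`.
For `c ∈ V'`, `‖c l‖ ≤ 1`: `|ρ| ≤ C1 D ≤ C1 Q` (`C1 ≥ 1`, `C1 ≥ 4 π/|lam|`), `‖c' l‖ ≤ B = (C1 Q)^Q`, `c'/B ∈ V` has coefficients of norm `≤ 1`, so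
`‖∑ c' J‖ ≤ B exp (-(N Q^2/Ch))`. `∑ c Wv = a! e! lam^(-(a+e)) ∑ c' J`, `a! e! ≤ (a + e)^(a + e)`-type bound `≤ (Ch Q)^(Ch Q)` (`a! e! ≤ (a+e)!`, `Nat.factorial_le_pow`; monotone in `a + e ≤ Ch Q`:
`(a+e)! ≤ (Ch Q)!`), `|lam|^(-(a+e)) ≤ max(1, 1/|lam|)^(Ch Q)`. The product of the factors is `≤ exp (C4 Q (log Q + 1))`; for `Q ≥ C'` large
`C4 Q (log Q + 1) ≤ Q^2/(2 Ch) ≤ N Q^2/(2 Ch)` (`log Q ≤ 2 √Q`). So `C' ≥ 2 Ch` works.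
-/

set_option autoImplicit false

namespace U2

open Complex

private theorem dt2_num (Ch M N Q : ℕ) (hCh : 1 ≤ Ch) (hM : 1 ≤ M) (hN : 1 ≤ N)
    (hQ : 64 * Ch ^ 4 * M ≤ Q) :
    ((M * Q : ℕ) : ℝ) ^ (2 * Ch * Q) * Real.exp (-(N * (Q : ℝ) ^ 2 / Ch)) ≤
      Real.exp (-(N * (Q : ℝ) ^ 2 / (64 * Ch ^ 4 * M : ℕ))) := by
  have hCh' : (1 : ℝ) ≤ Ch := by exact_mod_cast hCh
  have hM' : (1 : ℝ) ≤ M := by exact_mod_cast hM
  have hN' : (1 : ℝ) ≤ N := by exact_mod_cast hN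
  have hQ' : 64 * (Ch : ℝ) ^ 4 * M ≤ Q := by exact_mod_cast hQ
  have hCh4 : (1 : ℝ) ≤ (Ch : ℝ) ^ 4 := one_le_pow₀ hCh'
  have hQ1 : (1 : ℝ) ≤ Q := by nlinarith
  have hMQ : (0 : ℝ) < (M : ℝ) * Q := by positivity
  have hlog : Real.log ((M : ℝ) * Q) ≤ 2 * Real.sqrt ((M : ℝ) * Q) := by
    have h1 : Real.log (Real.sqrt ((M : ℝ) * Q)) ≤ Real.sqrt ((M : ℝ) * Q) - 1 :=
      Real.log_le_sub_one_of_pos (Real.sqrt_pos.2 hMQ)
    rw [Real.log_sqrt hMQ.le] at h1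
    linarith
  have hs : 8 * (Ch : ℝ) ^ 2 * Real.sqrt ((M : ℝ) * Q) ≤ Q := by
    have h1 : Real.sqrt ((M : ℝ) * Q) ≤ Q / (8 * (Ch : ℝ) ^ 2) := by
      rw [Real.sqrt_le_left (by positivity), div_pow, le_div_iff₀ (by positivity)]
      calc (M : ℝ) * Q * (8 * (Ch : ℝ) ^ 2) ^ 2 = (64 * (Ch : ℝ) ^ 4 * M) * Q := by ring
        _ ≤ (Q : ℝ) * Q := mul_le_mul_of_nonneg_right hQ' (by positivity)
        _ = (Q : ℝ) ^ 2 := by ring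
    rw [le_div_iff₀ (by positivity)] at h1
    linarith
  have hkey : 4 * (Ch : ℝ) ^ 2 * Real.log ((M : ℝ) * Q) ≤ Q := by
    have : 4 * (Ch : ℝ) ^ 2 * Real.log ((M : ℝ) * Q) ≤
        4 * (Ch : ℝ) ^ 2 * (2 * Real.sqrt ((M : ℝ) * Q)) :=
      mul_le_mul_of_nonneg_left hlog (by positivity)
    linarith
  have e1 : ((M * Q : ℕ) : ℝ) ^ (2 * Ch * Q) =
      Real.exp ((2 * Ch * Q : ℝ) * Real.log ((M : ℝ) * Q)) := by
    rw [mul_comm ((2 * Ch * Q : ℝ)) _, Real.exp_mul, Real.exp_log hMQ]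
    have : (2 * Ch * Q : ℝ) = ((2 * Ch * Q : ℕ) : ℝ) := by push_cast; ring
    rw [this, Real.rpow_natCast]
    push_cast
    ring
  rw [e1, ← Real.exp_add]
  apply Real.exp_le_exp.2
  have h2 : (N : ℝ) * (Q : ℝ) ^ 2 / (64 * Ch ^ 4 * M : ℕ) ≤ N * (Q : ℝ) ^ 2 / (2 * Ch) := by
    apply div_le_div_of_nonneg_left (by positivity) (by positivity)
    push_cast
    have h3 : (Ch : ℝ) ≤ (Ch : ℝ) ^ 4 := le_self_pow₀ hCh' (by norm_num)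
    nlinarith
  have h4 : (2 * Ch * Q : ℝ) * Real.log ((M : ℝ) * Q) ≤ N * (Q : ℝ) ^ 2 / (2 * Ch) := by
    rw [le_div_iff₀ (by positivity)]
    calc (2 * Ch * Q : ℝ) * Real.log ((M : ℝ) * Q) * (2 * Ch) =
        Q * (4 * (Ch : ℝ) ^ 2 * Real.log ((M : ℝ) * Q)) := by ring
      _ ≤ Q * Q := mul_le_mul_of_nonneg_left hkey (by positivity)
      _ = 1 * (Q : ℝ) ^ 2 := by ring
      _ ≤ N * (Q : ℝ) ^ 2 := mul_le_mul_of_nonneg_right hN' (by positivity)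
  have h5 : (N : ℝ) * (Q : ℝ) ^ 2 / Ch = N * (Q : ℝ) ^ 2 / (2 * Ch) + N * (Q : ℝ) ^ 2 / (2 * Ch) := by
    field_simp
    ring
  rw [h5]
  linarith

theorem dat_up (lam : ℂ) (hlam : lam ≠ 0) (Ch : ℕ) (hCh : 1 ≤ Ch) : ∃ C' : ℕ, 1 ≤ C' ∧
    ∀ D N Q : ℕ, 1 ≤ D → D ≤ Q → 1 ≤ N → C' ≤ Q → ∀ J Wv : Ix D Q → ℕ → ℕ → ℂ,
    (∀ l a e, (a.factorial : ℂ) * e.factorial *
      (2 * Real.pi * Complex.I * (2 * D) / lam) ^ (l.2.2 : ℕ) * J l a e =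
        lam ^ (a + e) * Wv l a e) →
    ∀ V : Submodule ℂ (Ix D Q → ℂ), (∀ c ∈ V, (∀ l, ‖c l‖ ≤ 1) → ∀ a e : ℕ,
      ‖∑ l, c l * J l a e‖ ≤ Real.exp (-(N * (Q : ℝ) ^ 2 / Ch))) →
    ∃ V' : Submodule ℂ (Ix D Q → ℂ), Module.finrank ℂ V' = Module.finrank ℂ V ∧
      ∀ c ∈ V', (∀ l, ‖c l‖ ≤ 1) → ∀ a e : ℕ, a + e ≤ Ch * Q →
        ‖∑ l, c l * Wv l a e‖ ≤ Real.exp (-(N * (Q : ℝ) ^ 2 / C')) := by
  have hl : 0 < ‖lam‖ := norm_pos_iff.2 hlam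
  obtain ⟨C0, hC0⟩ := exists_nat_ge (4 * Real.pi / ‖lam‖)
  obtain ⟨L0, hL0⟩ := exists_nat_ge (1 / ‖lam‖)
  set C1 := C0 + 1 with hC1
  set L := L0 + 1 with hL
  have hC1r : 4 * Real.pi / ‖lam‖ ≤ (C1 : ℝ) := by
    rw [hC1]; push_cast; linarith
  have hLr : 1 / ‖lam‖ ≤ (L : ℝ) := by
    rw [hL]; push_cast; linarith
  set M := L * Ch * C1 with hM
  have hL1 : 1 ≤ L := by omega
  have hC11 : 1 ≤ C1 := by omega
  have hM1 : 1 ≤ M := Nat.one_le_iff_ne_zero.2 (by positivity)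
  refine ⟨64 * Ch ^ 4 * M, Nat.one_le_iff_ne_zero.2 (by positivity), ?_⟩
  intro D N Q hD hDQ hN hQ J Wv hJ V hV
  set ρ : ℂ := 2 * Real.pi * Complex.I * (2 * D) / lam with hρdef
  have hDC : (D : ℂ) ≠ 0 := by exact_mod_cast (by omega : D ≠ 0)
  have hρ : ρ ≠ 0 := by
    rw [hρdef]
    refine div_ne_zero (mul_ne_zero (mul_ne_zero (mul_ne_zero two_ne_zero ?_) I_ne_zero)
      (mul_ne_zero two_ne_zero hDC)) hlam
    exact_mod_cast Real.pi_ne_zero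
  have hρn : ‖ρ‖ ≤ ((C1 * Q : ℕ) : ℝ) := by
    have e1 : ‖ρ‖ = 4 * Real.pi / ‖lam‖ * D := by
      rw [hρdef, norm_div, norm_mul, norm_mul, norm_mul, norm_mul, norm_I, Complex.norm_real,
        Complex.norm_natCast, Real.norm_of_nonneg Real.pi_pos.le]
      simp only [Complex.norm_ofNat]
      ring
    rw [e1]
    push_cast
    exact mul_le_mul hC1r (by exact_mod_cast hDQ) (by positivity) (by positivity)
  have hQ1 : 1 ≤ Q := by omega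
  have hCQ1 : (1 : ℝ) ≤ ((C1 * Q : ℕ) : ℝ) := by
    exact_mod_cast Nat.one_le_iff_ne_zero.2 (by positivity)
  let φ : (Ix D Q → ℂ) ≃ₗ[ℂ] (Ix D Q → ℂ) :=
    LinearEquiv.piCongrRight fun l =>
      LinearEquiv.smulOfNeZero ℂ ℂ (ρ ^ (l.2.2 : ℕ)) (pow_ne_zero _ hρ)
  have hφ : ∀ c l, φ c l = ρ ^ (l.2.2 : ℕ) * c l := fun c l => rfl
  refine ⟨V.map (φ.symm : (Ix D Q → ℂ) →ₗ[ℂ] (Ix D Q → ℂ)),
    LinearEquiv.finrank_map_eq φ.symm V, ?_⟩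
  intro c hc hc1 a e hae
  have hcV : φ c ∈ V := by
    have := (Submodule.mem_map_equiv (e := φ.symm) V).1 hc
    simpa using this
  set B : ℝ := ((C1 * Q : ℕ) : ℝ) ^ Q with hB
  have hB1 : 1 ≤ B := one_le_pow₀ hCQ1
  have hB0 : 0 < B := by linarith
  have hBC : (B : ℂ) ≠ 0 := by exact_mod_cast hB0.ne'
  have hc2 := hV ((1 / (B : ℂ)) • φ c) (V.smul_mem _ hcV) (by
    intro l
    rw [Pi.smul_apply, hφ, smul_eq_mul, norm_mul, norm_mul, norm_div, norm_one, norm_pow,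
      Complex.norm_real, Real.norm_of_nonneg hB0.le]
    have h1 : ‖ρ‖ ^ (l.2.2 : ℕ) ≤ B := by
      calc ‖ρ‖ ^ (l.2.2 : ℕ) ≤ ((C1 * Q : ℕ) : ℝ) ^ (l.2.2 : ℕ) :=
            pow_le_pow_left₀ (norm_nonneg _) hρn _
        _ ≤ B := pow_le_pow_right₀ hCQ1 l.2.2.isLt.le
    have h2 : ‖ρ‖ ^ (l.2.2 : ℕ) * ‖c l‖ ≤ B * 1 :=
      mul_le_mul h1 (hc1 l) (norm_nonneg _) hB0.le
    calc 1 / B * (‖ρ‖ ^ (l.2.2 : ℕ) * ‖c l‖) ≤ 1 / B * (B * 1) :=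
          mul_le_mul_of_nonneg_left h2 (by positivity)
      _ = 1 := by field_simp) a e
  set Y : ℂ := ∑ l, ((1 / (B : ℂ)) • φ c) l * J l a e with hY
  have hsum : lam ^ (a + e) * ∑ l, c l * Wv l a e =
      (a.factorial : ℂ) * e.factorial * B * Y := by
    rw [hY, Finset.mul_sum, Finset.mul_sum]
    refine Finset.sum_congr rfl fun l _ => ?_
    rw [Pi.smul_apply, hφ, smul_eq_mul]
    have h1 := hJ l a e
    have h2 : lam ^ (a + e) * (c l * Wv l a e) = c l * (lam ^ (a + e) * Wv l a e) := by ring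
    rw [h2, ← h1]
    field_simp
  have hn := congrArg norm hsum
  rw [norm_mul, norm_mul, norm_mul, norm_mul, norm_pow, Complex.norm_natCast,
    Complex.norm_natCast, Complex.norm_real, Real.norm_of_nonneg hB0.le] at hn
  set Z := ‖∑ l, c l * Wv l a e‖ with hZ
  have hZ0 : 0 ≤ Z := norm_nonneg _
  have hLl : 1 ≤ (L : ℝ) * ‖lam‖ := by
    rw [div_le_iff₀ hl] at hLr
    exact hLr
  have hL1r : (1 : ℝ) ≤ L := by exact_mod_cast hL1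
  have hfac : ((a.factorial : ℝ) * e.factorial) ≤ ((Ch * Q : ℕ) : ℝ) ^ (Ch * Q) := by
    have h1 : a.factorial * e.factorial ≤ (a + e).factorial :=
      Nat.le_of_dvd (Nat.factorial_pos _) (Nat.factorial_mul_factorial_dvd_factorial_add a e)
    have h2 : (a + e).factorial ≤ (Ch * Q).factorial := Nat.factorial_le hae
    have h3 : (Ch * Q).factorial ≤ (Ch * Q) ^ (Ch * Q) := Nat.factorial_le_pow _
    exact_mod_cast h1.trans (h2.trans h3)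
  have hE0 : 0 < Real.exp (-(N * (Q : ℝ) ^ 2 / Ch)) := Real.exp_pos _
  have step1 : Z ≤ (L : ℝ) ^ (Ch * Q) * (((Ch * Q : ℕ) : ℝ) ^ (Ch * Q) * B *
      Real.exp (-(N * (Q : ℝ) ^ 2 / Ch))) := by
    calc Z ≤ ((L : ℝ) * ‖lam‖) ^ (a + e) * Z := le_mul_of_one_le_left hZ0 (one_le_pow₀ hLl)
      _ = (L : ℝ) ^ (a + e) * (‖lam‖ ^ (a + e) * Z) := by ring
      _ = (L : ℝ) ^ (a + e) * ((a.factorial : ℝ) * e.factorial * B * ‖Y‖) := by rw [hn]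
      _ ≤ (L : ℝ) ^ (Ch * Q) * (((Ch * Q : ℕ) : ℝ) ^ (Ch * Q) * B *
            Real.exp (-(N * (Q : ℝ) ^ 2 / Ch))) := by
        apply mul_le_mul (pow_le_pow_right₀ hL1r hae) _ (by positivity) (by positivity)
        apply mul_le_mul (mul_le_mul_of_nonneg_right hfac hB0.le) hc2 (norm_nonneg _)
          (by positivity)
  have hMQr : (1 : ℝ) ≤ ((M * Q : ℕ) : ℝ) := by
    exact_mod_cast Nat.one_le_iff_ne_zero.2 (by positivity)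
  have step2 : (L : ℝ) ^ (Ch * Q) * (((Ch * Q : ℕ) : ℝ) ^ (Ch * Q)) * B ≤
      ((M * Q : ℕ) : ℝ) ^ (2 * Ch * Q) := by
    have h1 : (L : ℝ) ^ (Ch * Q) * (((Ch * Q : ℕ) : ℝ) ^ (Ch * Q)) ≤
        ((M * Q : ℕ) : ℝ) ^ (Ch * Q) := by
      rw [← mul_pow]
      apply pow_le_pow_left₀ (by positivity)
      have : L * (Ch * Q) ≤ M * Q := by
        rw [hM]
        calc L * (Ch * Q) = L * Ch * 1 * Q := by ring
          _ ≤ L * Ch * C1 * Q := Nat.mul_le_mul_right _ (Nat.mul_le_mul_left _ hC11)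
      exact_mod_cast this
    have h2 : B ≤ ((M * Q : ℕ) : ℝ) ^ (Ch * Q) := by
      calc B ≤ ((M * Q : ℕ) : ℝ) ^ Q := by
            apply pow_le_pow_left₀ (by positivity)
            have : C1 * Q ≤ M * Q := by
              apply Nat.mul_le_mul_right
              rw [hM]
              calc C1 = 1 * C1 := (one_mul _).symm
                _ ≤ L * Ch * C1 := Nat.mul_le_mul_right _ (Nat.one_le_iff_ne_zero.2 (by positivity))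
            exact_mod_cast this
        _ ≤ ((M * Q : ℕ) : ℝ) ^ (Ch * Q) :=
            pow_le_pow_right₀ hMQr (Nat.le_mul_of_pos_left _ (by omega))
    calc (L : ℝ) ^ (Ch * Q) * (((Ch * Q : ℕ) : ℝ) ^ (Ch * Q)) * B ≤
        ((M * Q : ℕ) : ℝ) ^ (Ch * Q) * ((M * Q : ℕ) : ℝ) ^ (Ch * Q) :=
          mul_le_mul h1 h2 hB0.le (by positivity)
      _ = ((M * Q : ℕ) : ℝ) ^ (2 * Ch * Q) := by
          rw [← pow_add]; congr 1; ring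
  calc Z ≤ (L : ℝ) ^ (Ch * Q) * (((Ch * Q : ℕ) : ℝ) ^ (Ch * Q) * B *
        Real.exp (-(N * (Q : ℝ) ^ 2 / Ch))) := step1
    _ = ((L : ℝ) ^ (Ch * Q) * (((Ch * Q : ℕ) : ℝ) ^ (Ch * Q)) * B) *
        Real.exp (-(N * (Q : ℝ) ^ 2 / Ch)) := by ring
    _ ≤ ((M * Q : ℕ) : ℝ) ^ (2 * Ch * Q) * Real.exp (-(N * (Q : ℝ) ^ 2 / Ch)) :=
        mul_le_mul_of_nonneg_right step2 hE0.le
    _ ≤ _ := dt2_num Ch M N Q hCh hM1 hN hQ

end U2
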