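import Pool.Agent.H22.U2.Inv

/-!
# MP_ede373, theorem (U2), row Ser: Taylor series of the functions `Phi`

* `lei`: Leibniz rule twice for `Psi = exp (t x2) * f t * g t`, `f t = HH b D i1 (x1 + t v1)`, `g t = HH b D i2 (x2 + t v2)`:
  `Phi b D i1 i2 k x1 x2 = ∑_{p ∈ antidiagonal k} ∑_{q ∈ antidiagonal p.2} (k.choose p.1) (p.2.choose q.1) (v1^p.1 iteratedDeriv p.1 (HH i1) x1)
  (x2^q.1) (v2^q.2 iteratedDeriv q.2 (HH i2) x2)`; `iteratedDeriv j (fun t ↦ h (x + t v)) 0 = v^j iteratedDeriv j h x`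
  (induction, or `iteratedDeriv_comp_mul_left` / `iteratedDeriv_comp_const_add`), `iteratedDeriv j (fun t ↦ exp (t x2)) 0 = x2^j`.
* `tay`: for `h` entire and every `j`: `HasSum (fun a ↦ iteratedDeriv (a + j) h 0 / a! * x^a) (iteratedDeriv j h x)`, with summable norms
  (`Complex.hasSum_taylorSeries_of_entire`-type lemma applied to the entire function `iteratedDeriv j h`,
  `iteratedDeriv a (iteratedDeriv j h) = iteratedDeriv (a + j) h`; summability of norms: a power series converging everywhere converges absolutely).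
* `x2^l * iteratedDeriv m (HH i2) x2 = ∑_c [l ≤ c] iteratedDeriv (c - l + m) (HH i2) 0 / (c - l)! x2^c` (shift of the index).
* product of two absolutely convergent series over `ℕ × ℕ` (`HasSum.mul_of_nonneg`/`summable_mul_of_summable_norm`, `HasSum.mul`), finite sums.
-/

set_option autoImplicit false

namespace U2

open Complex Finset

variable {z : ℂ} (b : CZ.BaseFn z)

private theorem Ser_diff {h : ℂ → ℂ} (hh : Differentiable ℂ h) (j : ℕ) :
    Differentiable ℂ (iteratedDeriv j h) := by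
  have h1 : ContDiff ℂ ⊤ h := hh.contDiff
  exact h1.differentiable_iteratedDeriv j (by exact_mod_cast WithTop.coe_lt_top _)

private theorem Ser_iter (h : ℂ → ℂ) (a j : ℕ) :
    iteratedDeriv a (iteratedDeriv j h) = iteratedDeriv (a + j) h := by
  rw [iteratedDeriv_eq_iterate, iteratedDeriv_eq_iterate, iteratedDeriv_eq_iterate,
    Function.iterate_add_apply]

private theorem Ser_tay {h : ℂ → ℂ} (hh : Differentiable ℂ h) (j : ℕ) (x : ℂ) :
    HasSum (fun a : ℕ ↦ iteratedDeriv (a + j) h 0 / (a.factorial : ℂ) * x ^ a)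
      (iteratedDeriv j h x) := by
  have h1 := hasSum_taylorSeries_of_entire (Ser_diff hh j) 0 x
  have h2 : (fun n : ℕ ↦ ((n.factorial : ℂ))⁻¹ • (x - 0) ^ n •
      iteratedDeriv n (iteratedDeriv j h) 0) =
      fun a : ℕ ↦ iteratedDeriv (a + j) h 0 / (a.factorial : ℂ) * x ^ a := by
    funext a
    rw [Ser_iter, sub_zero, smul_eq_mul, smul_eq_mul, div_eq_mul_inv]
    ring
  rw [h2] at h1
  exact h1

/-- the shifted series -/
private theorem Ser_shift {h : ℂ → ℂ} (hh : Differentiable ℂ h) (l j : ℕ) (x : ℂ) :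
    HasSum (fun c : ℕ ↦ if l ≤ c then
      iteratedDeriv (c - l + j) h 0 / ((c - l).factorial : ℂ) * x ^ c else 0)
      (x ^ l * iteratedDeriv j h x) := by
  have h1 := (Ser_tay hh j x).mul_left (x ^ l)
  have hinj : Function.Injective (fun c : ℕ => c + l) := fun a b h => Nat.add_right_cancel h
  have h2 : HasSum ((fun c : ℕ ↦ if l ≤ c then
      iteratedDeriv (c - l + j) h 0 / ((c - l).factorial : ℂ) * x ^ c else 0) ∘
      (fun c : ℕ => c + l)) (x ^ l * iteratedDeriv j h x) := by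
    have he : ((fun c : ℕ ↦ if l ≤ c then
      iteratedDeriv (c - l + j) h 0 / ((c - l).factorial : ℂ) * x ^ c else 0) ∘
      (fun c : ℕ => c + l)) =
        fun c ↦ x ^ l * (iteratedDeriv (c + j) h 0 / (c.factorial : ℂ) * x ^ c) := by
      funext c
      show (if l ≤ c + l then
        iteratedDeriv (c + l - l + j) h 0 / ((c + l - l).factorial : ℂ) * x ^ (c + l) else 0) = _
      rw [if_pos (Nat.le_add_left l c), Nat.add_sub_cancel, pow_add]
      ring
    rw [he]
    exact h1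
  refine (hinj.hasSum_iff ?_).1 h2
  intro c hc
  rw [if_neg]
  intro hlc
  exact hc ⟨c - l, Nat.sub_add_cancel hlc⟩

private theorem Ser_comp {h : ℂ → ℂ} (hh : Differentiable ℂ h) (j : ℕ) (x v : ℂ) :
    iteratedDeriv j (fun t ↦ h (x + t * v)) 0 = v ^ j * iteratedDeriv j h x := by
  have h1 : (fun t : ℂ ↦ h (x + t * v)) = fun t ↦ (fun s ↦ h (x + s)) (v * t) := by
    funext t
    show _ = h (x + v * t)
    rw [mul_comm v t]
  have hc : ContDiff ℂ j (fun s ↦ h (x + s)) :=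
    (hh.comp (differentiable_id.const_add x)).contDiff
  rw [h1, iteratedDeriv_comp_const_mul hc]
  show v ^ j * iteratedDeriv j (fun s ↦ h (x + s)) (v * 0) = _
  rw [iteratedDeriv_comp_const_add]
  show v ^ j * iteratedDeriv j h (x + v * 0) = _
  rw [mul_zero, add_zero]

private theorem Ser_exp (j : ℕ) (x : ℂ) :
    iteratedDeriv j (fun t : ℂ ↦ exp (t * x)) 0 = x ^ j := by
  have h1 : (fun t : ℂ ↦ exp (t * x)) = fun t ↦ exp (x * t) := by
    funext t
    rw [mul_comm]
  rw [h1, iteratedDeriv_cexp_const_mul]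
  simp

private theorem Ser_lei {f g : ℂ → ℂ} (hf : Differentiable ℂ f) (hg : Differentiable ℂ g) (k : ℕ) :
    iteratedDeriv k (fun t ↦ f t * g t) 0 =
      ∑ p ∈ antidiagonal k, (k.choose p.1 : ℂ) * iteratedDeriv p.1 f 0 * iteratedDeriv p.2 g 0 := by
  have h1 := iteratedDeriv_fun_mul (n := k) (x := (0 : ℂ)) (f := f) (g := g)
    hf.contDiff.contDiffAt hg.contDiff.contDiffAt
  rw [h1, Finset.Nat.sum_antidiagonal_eq_sum_range_succ_mk]

private theorem Ser_P (D i1 i2 k : ℕ) (x1 x2 : ℂ) :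
    Phi b D i1 i2 k x1 x2 = ∑ p ∈ antidiagonal k, ∑ q ∈ antidiagonal p.2,
      ((k.choose p.1 : ℂ) * (p.2.choose q.1 : ℂ) * v1 D ^ p.1 * v2 z D ^ q.2) *
        (iteratedDeriv p.1 (HH b D i1) x1 * (x2 ^ q.1 * iteratedDeriv q.2 (HH b D i2) x2)) := by
  have hH1 := HH_diff b D i1
  have hH2 := HH_diff b D i2
  have hd1 : Differentiable ℂ (fun t : ℂ ↦ HH b D i1 (x1 + t * v1 D)) :=
    hH1.comp ((differentiable_id.mul_const _).const_add _)
  have hd2 : Differentiable ℂ (fun t : ℂ ↦ HH b D i2 (x2 + t * v2 z D)) :=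
    hH2.comp ((differentiable_id.mul_const _).const_add _)
  have hd0 : Differentiable ℂ (fun t : ℂ ↦ exp (t * x2)) :=
    (differentiable_id.mul_const _).cexp
  have hd3 : Differentiable ℂ (fun t : ℂ ↦ exp (t * x2) * HH b D i2 (x2 + t * v2 z D)) :=
    hd0.mul hd2
  have e1 : (fun t ↦ Psi b D i1 i2 x1 x2 t) = fun t ↦ HH b D i1 (x1 + t * v1 D) *
      (exp (t * x2) * HH b D i2 (x2 + t * v2 z D)) := by
    funext t
    unfold Psi
    ring
  unfold Phi
  rw [e1, Ser_lei hd1 hd3]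
  refine Finset.sum_congr rfl fun p _ => ?_
  rw [Ser_comp hH1, Ser_lei hd0 hd2 p.2, Finset.mul_sum]
  refine Finset.sum_congr rfl fun q _ => ?_
  rw [Ser_exp, Ser_comp hH2]
  ring

private theorem Ser_J (D i1 i2 k : ℕ) (x1 x2 : ℂ) (r : ℕ × ℕ) :
    jc b D i1 i2 k r.1 r.2 * x1 ^ r.1 * x2 ^ r.2 =
      ∑ p ∈ antidiagonal k, ∑ q ∈ antidiagonal p.2,
      ((k.choose p.1 : ℂ) * (p.2.choose q.1 : ℂ) * v1 D ^ p.1 * v2 z D ^ q.2) *
        ((iteratedDeriv (r.1 + p.1) (HH b D i1) 0 / (r.1.factorial : ℂ) * x1 ^ r.1) *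
          (if q.1 ≤ r.2 then
            iteratedDeriv (r.2 - q.1 + q.2) (HH b D i2) 0 / ((r.2 - q.1).factorial : ℂ) * x2 ^ r.2
            else 0)) := by
  unfold jc
  rw [mul_assoc, Finset.sum_mul]
  refine Finset.sum_congr rfl fun p _ => ?_
  rw [Finset.sum_mul]
  refine Finset.sum_congr rfl fun q _ => ?_
  by_cases hq : q.1 ≤ r.2
  · rw [if_pos hq, if_pos hq]
    ring
  · rw [if_neg hq, if_neg hq, zero_mul, mul_zero, mul_zero]

private theorem Ser_mul {f g : ℕ → ℂ} {s t : ℂ} (hf : HasSum f s) (hg : HasSum g t) :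
    HasSum (fun r : ℕ × ℕ ↦ f r.1 * g r.2) (s * t) :=
  hf.mul hg (summable_mul_of_summable_norm hf.summable.norm hg.summable.norm)

theorem Phi_ser (D i1 i2 k : ℕ) (x1 x2 : ℂ) :
    HasSum (fun p : ℕ × ℕ ↦ jc b D i1 i2 k p.1 p.2 * x1 ^ p.1 * x2 ^ p.2)
      (Phi b D i1 i2 k x1 x2) := by
  have e := funext (Ser_J b D i1 i2 k x1 x2)
  rw [Ser_P b, e]
  apply hasSum_sum
  intro p _
  apply hasSum_sum
  intro q _
  apply HasSum.mul_left
  have h1 := Ser_tay (HH_diff b D i1) p.1 x1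
  have h2 := Ser_shift (HH_diff b D i2) q.1 q.2 x2
  have h3 := Ser_mul h1 h2
  exact h3

end U2
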