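import Pool.Agent.H22.U2.Gro
import Pool.Agent.H22.U2.Ser

/-!
# MP_ede373, theorem (U2), row Fdt: the functions satisfy the hypotheses of the Schwarz lemma; dimension count

`fdat`: `ser`: finite linear combination of `Phi_ser` (`hasSum_sum`, `HasSum.mul_left`); `inv`: `Phi_inv`; `gr`: `Nw (FF c) ≤ ∑_l Nw (Phi l)`
`≤ (D+1)^2 Q C^(D+Q) (Q + 1 + |bet|)^Q`, and `log` of this is at most `2 D + Q + (D + Q) log C + Q (log (Q + 1) + log (1 + |bet|))`
`≤ C' (D + Q) log (Q + 2) (1 + log (1 + |bet|))` (`log (Q + 2) ≥ 1`; `Q + 1 + |bet| ≤ (Q + 1)(1 + |bet|)`).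

`dim_V`: the kernel `V` of the linear map `c ↦ (JJ b D Q c a e)_{(e, a)}`, `e < S1`, `a < S1 + S2` into `Fin S1 × Fin (S1 + S2) → ℂ` has
`finrank V ≥ card (Ix D Q) - S1 (S1 + S2) ≥ card (Ix D Q)/2` (`LinearMap.finrank_range_add_finrank_ker`); `card (Ix D Q) = (D+1)^2 Q`.
-/

set_option autoImplicit false

namespace U2

open Complex Finset

variable {z : ℂ} (b : CZ.BaseFn z)

private theorem fdt_bound {C0 D Q : ℕ} (hC : 1 ≤ C0) (hD : 1 ≤ D) (hQ : 1 ≤ Q) {β : ℝ} (hβ : 0 ≤ β) :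
    ((D : ℝ) + 1) * ((D : ℝ) + 1) * Q * ((C0 : ℝ) ^ (D + Q) * ((Q : ℝ) + 1 + β) ^ Q) ≤
      Real.exp (((3 + C0 : ℕ) : ℝ) * (D + Q) * Real.log (Q + 2) * (1 + Real.log (1 + β))) := by
  have hD0 : (1 : ℝ) ≤ D := by exact_mod_cast hD
  have hQ0 : (1 : ℝ) ≤ Q := by exact_mod_cast hQ
  have hC0 : (1 : ℝ) ≤ C0 := by exact_mod_cast hC
  set Lq := Real.log ((Q : ℝ) + 2) with hLq
  set u := Real.log (1 + β) with hu
  have hLq1 : 1 ≤ Lq := by
    rw [hLq, Real.le_log_iff_exp_le (by linarith)]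
    have := Real.exp_one_lt_d9
    linarith
  have hu0 : 0 ≤ u := Real.log_nonneg (by linarith)
  have e1 : (D : ℝ) + 1 ≤ Real.exp D := Real.add_one_le_exp _
  have e2 : (Q : ℝ) ≤ Real.exp Q := by
    have := Real.add_one_le_exp (Q : ℝ)
    linarith
  have e3 : (C0 : ℝ) ^ (D + Q) = Real.exp (((D : ℝ) + Q) * Real.log C0) := by
    rw [← Real.rpow_natCast, Real.rpow_def_of_pos (by linarith)]
    push_cast
    ring_nf
  have e4 : ((Q : ℝ) + 1 + β) ^ Q ≤ Real.exp (Q * (Lq + u)) := by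
    have h1 : (Q : ℝ) + 1 + β ≤ Real.exp (Lq + u) := by
      rw [Real.exp_add, hLq, hu, Real.exp_log (by linarith), Real.exp_log (by linarith)]
      nlinarith [mul_nonneg (by linarith : (0 : ℝ) ≤ Q) hβ]
    calc ((Q : ℝ) + 1 + β) ^ Q ≤ Real.exp (Lq + u) ^ Q := pow_le_pow_left₀ (by linarith) h1 Q
      _ = Real.exp (Q * (Lq + u)) := (Real.exp_nat_mul _ _).symm
  have e5 : Real.log C0 ≤ C0 := by
    have := Real.log_le_sub_one_of_pos (show (0 : ℝ) < C0 by linarith)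
    linarith
  have e6 : 0 ≤ Real.log C0 := Real.log_nonneg hC0
  calc ((D : ℝ) + 1) * ((D : ℝ) + 1) * Q * ((C0 : ℝ) ^ (D + Q) * ((Q : ℝ) + 1 + β) ^ Q)
      ≤ Real.exp D * Real.exp D * Real.exp Q *
        (Real.exp (((D : ℝ) + Q) * Real.log C0) * Real.exp (Q * (Lq + u))) := by
        rw [e3]
        have h1 : (0 : ℝ) ≤ (D : ℝ) + 1 := by linarith
        have h2 : (0 : ℝ) ≤ (Q : ℝ) := by linarith
        have h3 : (0 : ℝ) ≤ ((Q : ℝ) + 1 + β) ^ Q := pow_nonneg (by linarith) _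
        have := Real.exp_pos (D : ℝ)
        have := Real.exp_pos (Q : ℝ)
        have := Real.exp_pos (((D : ℝ) + Q) * Real.log C0)
        gcongr
    _ = Real.exp ((D : ℝ) + D + Q + (((D : ℝ) + Q) * Real.log C0 + Q * (Lq + u))) := by
        rw [← Real.exp_add, ← Real.exp_add, ← Real.exp_add, ← Real.exp_add]
    _ ≤ Real.exp (((3 + C0 : ℕ) : ℝ) * (D + Q) * Lq * (1 + u)) := by
        rw [Real.exp_le_exp]
        push_cast
        have a1 : (1 : ℝ) ≤ Lq * (1 + u) := by nlinarith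
        have a2 : (Lq + u) ≤ Lq * (1 + u) := by nlinarith
        have hDQ : (0 : ℝ) ≤ (D : ℝ) + Q := by linarith
        have b1 : (D : ℝ) + D + Q ≤ 2 * ((D : ℝ) + Q) * (Lq * (1 + u)) := by
          have := mul_le_mul_of_nonneg_left a1 (by linarith : (0 : ℝ) ≤ 2 * ((D : ℝ) + Q))
          linarith
        have b2 : ((D : ℝ) + Q) * Real.log C0 ≤ C0 * ((D : ℝ) + Q) * (Lq * (1 + u)) := by
          have h1 : ((D : ℝ) + Q) * Real.log C0 ≤ C0 * ((D : ℝ) + Q) := by nlinarith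
          have h2 := mul_le_mul_of_nonneg_left a1 (by positivity : (0 : ℝ) ≤ C0 * ((D : ℝ) + Q))
          linarith
        have b3 : (Q : ℝ) * (Lq + u) ≤ ((D : ℝ) + Q) * (Lq * (1 + u)) := by
          have h1 := mul_le_mul_of_nonneg_left a2 (by linarith : (0 : ℝ) ≤ (Q : ℝ))
          have h2 : (Q : ℝ) * (Lq * (1 + u)) ≤ ((D : ℝ) + Q) * (Lq * (1 + u)) := by
            refine mul_le_mul_of_nonneg_right (by linarith) (by linarith)
          linarith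
        nlinarith

theorem fdat (hz : 0 < z.im) : ∃ C : ℕ, 1 ≤ C ∧ ∀ D Q : ℕ, 1 ≤ D → 1 ≤ Q → ∀ c : Ix D Q → ℂ,
    (∀ l, ‖c l‖ ≤ 1) →
      FD z (2 * D) (FF b D Q c) (JJ b D Q c) (C * (D + Q) * Real.log (Q + 2)) := by
  obtain ⟨C0, hC0, hgr⟩ := Phi_gr b hz
  refine ⟨3 + C0, by omega, fun D Q hD hQ c hc => ⟨?_, ?_, ?_⟩⟩
  · intro x1 x2
    have h := hasSum_sum (s := (univ : Finset (Ix D Q)))
      (f := fun (l : Ix D Q) (p : ℕ × ℕ) => c l * (jc b D l.1 l.2.1 l.2.2 p.1 p.2 * x1 ^ p.1 * x2 ^ p.2))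
      (a := fun l : Ix D Q => c l * Phi b D l.1 l.2.1 l.2.2 x1 x2)
      (fun l _ => (Phi_ser b D l.1 l.2.1 l.2.2 x1 x2).mul_left (c l))
    have e : (fun p : ℕ × ℕ => JJ b D Q c p.1 p.2 * x1 ^ p.1 * x2 ^ p.2) = fun p : ℕ × ℕ =>
        ∑ l : Ix D Q, c l * (jc b D l.1 l.2.1 l.2.2 p.1 p.2 * x1 ^ p.1 * x2 ^ p.2) := by
      funext p
      unfold JJ
      rw [sum_mul, sum_mul]
      exact sum_congr rfl fun l _ => by ring
    rw [e]
    exact h
  · intro m0 m1 m2 x1 x2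
    unfold FF
    rw [mul_sum]
    refine sum_congr rfl fun l _ => ?_
    rw [Phi_inv b D l.1 l.2.1 l.2.2 hD (Nat.lt_succ_iff.1 l.1.2) (Nat.lt_succ_iff.1 l.2.1.2)]
    ring
  · intro x1 x2
    set β := |bet z x1 x2| with hβ
    have hβ0 : 0 ≤ β := abs_nonneg _
    set E := Real.exp (-(Real.pi * ((2 * D : ℕ) : ℝ) / z.im * (x1.im ^ 2 + x2.im ^ 2))) with hE
    have hE0 : 0 < E := Real.exp_pos _
    have h1 : Nw z (2 * D) (FF b D Q c) x1 x2 ≤
        ∑ l : Ix D Q, Nw z (2 * D) (Phi b D l.1 l.2.1 l.2.2) x1 x2 := by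
      unfold Nw FF
      rw [← sum_mul]
      refine mul_le_mul_of_nonneg_right ?_ hE0.le
      refine (norm_sum_le _ _).trans (sum_le_sum fun l _ => ?_)
      rw [norm_mul]
      exact mul_le_of_le_one_left (norm_nonneg _) (hc l)
    have hC0' : (1 : ℝ) ≤ C0 := by exact_mod_cast hC0
    have h2 : ∀ l : Ix D Q, Nw z (2 * D) (Phi b D l.1 l.2.1 l.2.2) x1 x2 ≤
        (C0 : ℝ) ^ (D + Q) * ((Q : ℝ) + 1 + β) ^ Q := by
      intro l
      have hk : (l.2.2 : ℕ) ≤ Q := l.2.2.2.le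
      have hk' : ((l.2.2 : ℕ) : ℝ) ≤ Q := by exact_mod_cast hk
      refine (hgr D l.1 l.2.1 l.2.2 hD (Nat.lt_succ_iff.1 l.1.2) (Nat.lt_succ_iff.1 l.2.1.2) x1 x2).trans ?_
      have a1 : (C0 : ℝ) ^ (D + (l.2.2 : ℕ)) ≤ (C0 : ℝ) ^ (D + Q) := pow_le_pow_right₀ hC0' (by omega)
      have a2 : (((l.2.2 : ℕ) : ℝ) + 1 + β) ^ (l.2.2 : ℕ) ≤ ((Q : ℝ) + 1 + β) ^ Q := by
        have b1 : (((l.2.2 : ℕ) : ℝ) + 1 + β) ^ (l.2.2 : ℕ) ≤ ((Q : ℝ) + 1 + β) ^ (l.2.2 : ℕ) :=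
          pow_le_pow_left₀ (by positivity) (by linarith) _
        refine b1.trans ?_
        exact pow_le_pow_right₀ (by have : (0 : ℝ) ≤ Q := Nat.cast_nonneg Q; linarith) hk
      exact mul_le_mul a1 a2 (pow_nonneg (by positivity) _) (by positivity)
    have h3 : ∑ l : Ix D Q, Nw z (2 * D) (Phi b D l.1 l.2.1 l.2.2) x1 x2 ≤
        ((D : ℝ) + 1) * ((D : ℝ) + 1) * Q * ((C0 : ℝ) ^ (D + Q) * ((Q : ℝ) + 1 + β) ^ Q) := by
      refine (sum_le_sum fun l _ => h2 l).trans ?_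
      rw [sum_const, card_univ, nsmul_eq_mul]
      have hcard : ((Fintype.card (Ix D Q) : ℕ) : ℝ) = ((D : ℝ) + 1) * ((D : ℝ) + 1) * Q := by
        rw [Fintype.card_prod, Fintype.card_prod, Fintype.card_fin, Fintype.card_fin]
        push_cast
        ring
      rw [hcard]
    exact h1.trans (h3.trans (fdt_bound hC0 hD hQ hβ0))

theorem dim_V (D Q S1 S2 : ℕ) (h : 2 * (S1 * (S1 + S2)) ≤ (D + 1) ^ 2 * Q) :
    ∃ V : Submodule ℂ (Ix D Q → ℂ), Fintype.card (Ix D Q) ≤ 2 * Module.finrank ℂ V ∧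
      ∀ c ∈ V, ∀ a e : ℕ, e < S1 → a + e < S1 + S2 → JJ b D Q c a e = 0 := by
  let Λ : (Ix D Q → ℂ) →ₗ[ℂ] (Fin S1 × Fin (S1 + S2) → ℂ) :=
    { toFun := fun c p => JJ b D Q c p.2 p.1
      map_add' := by
        intro c c'
        funext p
        simp only [JJ, Pi.add_apply, add_mul, sum_add_distrib]
      map_smul' := by
        intro t c
        funext p
        simp only [JJ, Pi.smul_apply, smul_eq_mul, RingHom.id_apply, mul_sum, mul_assoc] }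
  refine ⟨LinearMap.ker Λ, ?_, ?_⟩
  · have h1 := LinearMap.finrank_range_add_finrank_ker Λ
    have h2 : Module.finrank ℂ (LinearMap.range Λ) ≤ Module.finrank ℂ (Fin S1 × Fin (S1 + S2) → ℂ) :=
      Submodule.finrank_le _
    rw [Module.finrank_fintype_fun_eq_card, Fintype.card_prod, Fintype.card_fin, Fintype.card_fin] at h2
    rw [Module.finrank_fintype_fun_eq_card] at h1
    have h3 : Fintype.card (Ix D Q) = (D + 1) ^ 2 * Q := by
      rw [Fintype.card_prod, Fintype.card_prod, Fintype.card_fin, Fintype.card_fin]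
      ring
    rw [h3] at h1 ⊢
    omega
  · intro c hc a e he hae
    have h1 : Λ c = 0 := LinearMap.mem_ker.1 hc
    have h2 := congrFun h1 (⟨e, he⟩, ⟨a, by omega⟩)
    exact h2

end U2
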