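import Pool.Agent.H22.U2.Bas
import Pool.Agent.H60.AZ.Int

/-!
# MP_ede373, theorem (U2), row Int: three lines

Compare `Pool/Agent/H60/AZ/Int.lean` (`KD.interp`): same proof with the direction `(-Y, 0)`, `Y = z.im`.
Let `t = bet z x1 x2`. If `t = 0` the hypothesis gives the claim. Let `t > 0` (for `t < 0` use `w ↦ -w`). Base point `(y1, y2)` with
`y1 = x1 + i Y t` (as complex: `x1 = y1 - Y (i t)`), `y2 = x2`: `bet z y1 y2 = 0` by `bet_im1`. For `w ∈ ℂ`: `bet z (y1 - Y w) y2 = w.im`.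
By `quad` with `P = π T / Y`, `(e1, e2) = (-Y, 0)`: `G w = F (y1 - Y w) y2 exp (-(α w^2 + β w + γ))` is entire (`line_diff`) with
`‖G w‖ = Nw z T F (y1 - Y w) y2 exp (π T Y w.im^2)`. In the strip `0 ≤ Im w ≤ R` it is bounded (`FD.gr`).
On `Im w = 0`: `‖G w‖ ≤ exp (-L)`; on `Im w = R`: `‖G w‖ ≤ exp (A1 + π T Y R^2)`. Hadamard three lines at `w = i t`:
`Nw z T F x1 x2 ≤ ‖G (i t)‖ ≤ exp (-L (1 - t/R) + (A1 + π T Y R^2) t/R)`.
-/

set_option autoImplicit false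

namespace U2

open Complex Finset

theorem interp {z : ℂ} (hz : 0 < z.im) : ∃ C : ℕ, 1 ≤ C ∧
    ∀ (T : ℕ) (F : ℂ → ℂ → ℂ) (J : ℕ → ℕ → ℂ) (A : ℝ), 1 ≤ T → 0 ≤ A → FD z T F J A →
    ∀ R L A1 : ℝ, 0 < R → (∀ x1 x2, bet z x1 x2 = 0 → Nw z T F x1 x2 ≤ Real.exp (-L)) →
      (∀ x1 x2, |bet z x1 x2| = R → Nw z T F x1 x2 ≤ Real.exp A1) →
      ∀ x1 x2, |bet z x1 x2| ≤ R → Nw z T F x1 x2 ≤
        Real.exp (-(L * (1 - |bet z x1 x2| / R)) + (A1 + C * T * R ^ 2) * (|bet z x1 x2| / R)) := by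
  obtain ⟨C, hC⟩ := exists_nat_ge (max 1 (Real.pi * z.im))
  have hC1 : (1 : ℝ) ≤ C := (le_max_left _ _).trans hC
  have hC2 : Real.pi * z.im ≤ C := (le_max_right _ _).trans hC
  refine ⟨C, by exact_mod_cast hC1, ?_⟩
  intro T F J A hT hA hF R L A1 hR hV hR1 x1 x2 hx
  obtain ⟨t, ht⟩ : ∃ t, t = bet z x1 x2 := ⟨_, rfl⟩
  obtain ⟨τ, hτ⟩ : ∃ τ, τ = |bet z x1 x2| := ⟨_, rfl⟩
  rw [← hτ] at hx ⊢
  have hτ0 : 0 ≤ τ := by rw [hτ]; exact abs_nonneg _
  obtain ⟨σ, hσ, hσt⟩ : ∃ σ : ℝ, σ ^ 2 = 1 ∧ t = σ * τ := by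
    rcases le_total 0 t with h | h
    · refine ⟨1, by norm_num, ?_⟩
      rw [hτ, ← ht, abs_of_nonneg h, one_mul]
    · refine ⟨-1, by norm_num, ?_⟩
      rw [hτ, ← ht, abs_of_nonpos h]
      ring
  have hσa : |σ| = 1 := by
    have h1 : |σ| ^ 2 = 1 := by rw [sq_abs, hσ]
    have h2 := abs_nonneg σ
    nlinarith
  have hY : (z.im : ℂ) ≠ 0 := by exact_mod_cast hz.ne'
  obtain ⟨y1, hy1⟩ : ∃ y1 : ℂ, y1 = x1 - z.im * (-(I * (t : ℂ))) := ⟨_, rfl⟩
  have hx1 : x1 = y1 - z.im * (I * (t : ℂ)) := by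
    rw [hy1]
    ring
  have hby : bet z y1 x2 = 0 := by
    rw [hy1, bet_im1 hz, ← ht]
    simp
  have hbw : ∀ w : ℂ, bet z (y1 - z.im * w) x2 = w.im := by
    intro w
    rw [bet_im1 hz, hby, zero_add]
  obtain ⟨α, β, γ, hq⟩ := quad (Real.pi * T / z.im) y1 x2 (-(z.im : ℂ)) 0
  obtain ⟨G, hG⟩ : ∃ G : ℂ → ℂ, G = fun w => F (y1 - z.im * w) x2 *
    exp (-(α * w ^ 2 + β * w + γ)) := ⟨_, rfl⟩
  have hFd : Differentiable ℂ fun w : ℂ => F (y1 - z.im * w) x2 := by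
    have h1 := line_diff hF.ser y1 x2 (-(z.im : ℂ)) 0
    have h2 : (fun w : ℂ => F (y1 + w * -(z.im : ℂ)) (x2 + w * 0)) =
        fun w : ℂ => F (y1 - z.im * w) x2 := by
      funext w
      rw [mul_zero, add_zero]
      congr 1
      ring
    rwa [h2] at h1
  have hGd : Differentiable ℂ G := by
    rw [hG]
    exact hFd.mul (by fun_prop)
  have hGn : ∀ w : ℂ, ‖G w‖ = Nw z T F (y1 - z.im * w) x2 *
      Real.exp (Real.pi * T * z.im * w.im ^ 2) := by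
    intro w
    rw [hG]
    show ‖F (y1 - z.im * w) x2 * exp (-(α * w ^ 2 + β * w + γ))‖ = _
    rw [norm_mul, Complex.norm_exp, Nw, mul_assoc, ← Real.exp_add]
    congr 2
    have e1 := hq w
    have e2 : y1 + w * -(z.im : ℂ) = y1 - z.im * w := by ring
    rw [e2, mul_zero, add_zero, norm_neg, norm_zero, Complex.norm_real, Real.norm_eq_abs,
      sq_abs] at e1
    rw [e1, Complex.neg_re]
    field_simp
    ring
  have hNw0 : ∀ y y', 0 ≤ Nw z T F y y' := by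
    intro y y'
    unfold Nw
    positivity
  -- the function on the vertical strip
  have him : ∀ s : ℂ, ((σ : ℂ) * (I * s)).im = σ * s.re := by
    intro s
    simp
  have hGs : ∀ s : ℂ, ‖G ((σ : ℂ) * (I * s))‖ =
      Nw z T F (y1 - z.im * ((σ : ℂ) * (I * s))) x2 *
        Real.exp (Real.pi * T * z.im * s.re ^ 2) := by
    intro s
    rw [hGn, him, mul_pow, hσ, one_mul]
  have hbet : ∀ s : ℂ, |bet z (y1 - z.im * ((σ : ℂ) * (I * s))) x2| = |s.re| := by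
    intro s
    rw [hbw, him, abs_mul, hσa, one_mul]
  have hbd : ∀ s : ℂ, |s.re| ≤ R →
      Real.exp (Real.pi * T * z.im * s.re ^ 2) ≤ Real.exp (C * T * R ^ 2) := by
    intro s hs
    apply Real.exp_le_exp.2
    have h1 : s.re ^ 2 ≤ R ^ 2 := by
      rw [← sq_abs]
      exact pow_le_pow_left₀ (abs_nonneg _) hs 2
    have hT0 : (0 : ℝ) ≤ T := Nat.cast_nonneg T
    calc Real.pi * T * z.im * s.re ^ 2 = (Real.pi * z.im) * (T * s.re ^ 2) := by ring
      _ ≤ C * (T * s.re ^ 2) := mul_le_mul_of_nonneg_right hC2 (by positivity)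
      _ ≤ C * (T * R ^ 2) := mul_le_mul_of_nonneg_left
          (mul_le_mul_of_nonneg_left h1 hT0) (Nat.cast_nonneg C)
      _ = C * T * R ^ 2 := by ring
  have hfd : Differentiable ℂ (fun s : ℂ => G ((σ : ℂ) * (I * s))) :=
    hGd.comp ((differentiable_id.const_mul I).const_mul (σ : ℂ))
  have h3l := Complex.HadamardThreeLines.norm_le_interp_of_mem_verticalClosedStrip'
    (f := fun s : ℂ => G ((σ : ℂ) * (I * s))) (z := (τ : ℂ)) (a := Real.exp (-L))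
    (b := Real.exp (A1 + C * T * R ^ 2)) (l := 0) (u := R) hR
    (by
      show (τ : ℂ).re ∈ Set.Icc 0 R
      rw [Complex.ofReal_re]
      exact ⟨hτ0, hx⟩)
    hfd.diffContOnCl
    (by
      refine ⟨Real.exp (A * (1 + Real.log (1 + R))) * Real.exp (C * T * R ^ 2), ?_⟩
      rintro _ ⟨s, hs, rfl⟩
      have hs' : s.re ∈ Set.Icc 0 R := hs
      have habs : |s.re| = s.re := abs_of_nonneg hs'.1
      show ‖G ((σ : ℂ) * (I * s))‖ ≤ _
      rw [hGs]
      refine mul_le_mul ?_ (hbd s (by rw [habs]; exact hs'.2)) (Real.exp_pos _).le (Real.exp_pos _).le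
      refine (hF.gr _ _).trans (Real.exp_le_exp.2 ?_)
      rw [hbet, habs]
      refine mul_le_mul_of_nonneg_left ?_ hA
      have h1 : Real.log (1 + s.re) ≤ Real.log (1 + R) :=
        Real.log_le_log (by linarith [hs'.1]) (by linarith [hs'.2])
      linarith)
    (by
      intro s hs
      have hs' : s.re = 0 := hs
      show ‖G ((σ : ℂ) * (I * s))‖ ≤ _
      rw [hGs, hs']
      have h1 : bet z (y1 - z.im * ((σ : ℂ) * (I * s))) x2 = 0 := by
        rw [← abs_eq_zero, hbet, hs', abs_zero]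
      have h2 := hV _ _ h1
      simpa using h2)
    (by
      intro s hs
      have hs' : s.re = R := hs
      have habs : |s.re| = R := by rw [hs', abs_of_pos hR]
      show ‖G ((σ : ℂ) * (I * s))‖ ≤ _
      rw [hGs, Real.exp_add]
      refine mul_le_mul ?_ (hbd s habs.le) (Real.exp_pos _).le (Real.exp_pos _).le
      refine hR1 _ _ ?_
      rw [hbet, habs])
  have hIt : (σ : ℂ) * (I * (τ : ℂ)) = I * (t : ℂ) := by
    rw [hσt]
    push_cast
    ring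
  have h5 : Nw z T F x1 x2 ≤ ‖G ((σ : ℂ) * (I * (τ : ℂ)))‖ := by
    rw [hGs, hIt, ← hx1, Complex.ofReal_re]
    have h6 : 1 ≤ Real.exp (Real.pi * T * z.im * τ ^ 2) := Real.one_le_exp (by positivity)
    exact le_mul_of_one_le_right (hNw0 x1 x2) h6
  refine h5.trans (h3l.trans (le_of_eq ?_))
  rw [Complex.ofReal_re, sub_zero, sub_zero, ← Real.exp_mul, ← Real.exp_mul, ← Real.exp_add]
  congr 1
  ring

end U2
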