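import Pool.Agent.H22.U2.Sc1
import Pool.Agent.H22.U2.Int

/-!
# MP_ede373, theorem (U2), row Sc2: the Schwarz lemma

`C, C'` from `sc1` (`C'` is its `C2`), `Ci` from `interp`. `M0 = sup of Nw over bet = 0`, `Ms = sup of Nw over |bet| ≤ C'/N` (both finite by
`FD.gr`, `M0 ≤ exp A`). `sc1`: `M0 ≤ exp (-S2) Ms + exp (C' S2) η`. If `M0 ≤ 2 exp (C' S2) η ≤ exp (C2 S2) η` done. Otherwise
`M0 > 0` and `M0 ≤ 2 exp (-S2) Ms`. Put `r = S2 N / (8 Ci C' T)`, `Bd = exp (A1 + Ci T r^2)`, `A1 = A (1 + log (1 + r))`; `r ≥ C'/N` because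
`S2 ≥ C2 T M^2 ≥ C2 T N^2` (`C2 ≥ 8 Ci C'^2`). `interp` with `L = -log M0`, radius `r`: for `|bet| = t ≤ C'/N`:
`Nw ≤ M0^(1 - t/r) Bd^(t/r) ≤ M0^(1 - ϑ) Bd^ϑ`, `ϑ = C'/(N r)` (as `M0 ≤ exp A ≤ Bd`). So `Ms ≤ M0^(1 - ϑ) Bd^ϑ` and
`M0^ϑ ≤ 2 exp (-S2) Bd^ϑ`, i.e. `log M0 ≤ A1 + Ci T r^2 - (S2 - log 2)/ϑ ≤ A1 + Ci T r^2 - S2 N r/(4 C')` (`S2 ≥ 1`, `log 2 ≤ 3/4`),
`Ci T r^2 = S2^2 N^2/(64 Ci C'^2 T)`, `S2 N r/(4 C') = S2^2 N^2/(32 Ci C'^2 T)`. Hence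
`M0 ≤ exp (A (1 + log (1 + r)) - S2^2 N^2/(64 Ci C'^2 T))`, `1 + log (1 + r) ≤ C2 log (S2 N + 2)`.

-/

set_option autoImplicit false

namespace U2

private theorem sc2_one_le_log {x : ℝ} (hx : 3 ≤ x) : 1 ≤ Real.log x := by
  rw [Real.le_log_iff_exp_le (by linarith)]
  have := Real.exp_one_lt_d9
  linarith

theorem schwarz {z : ℂ} (hz : 0 < z.im) : ∃ C C2 : ℕ, 1 ≤ C ∧ C ≤ C2 ∧
    ∀ (T N K M S2 : ℕ) (F : ℂ → ℂ → ℂ) (J : ℕ → ℕ → ℂ) (A : ℝ), 1 ≤ T → 1 ≤ N → 1 ≤ S2 →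
    0 ≤ A → FD z T F J A → COV z N K → K + 1 ≤ M → N ≤ M →
    C2 * T * (M : ℝ) ^ 2 * Real.log (M * N + 2) ≤ S2 → ∀ η : ℝ, 0 ≤ η →
    (∀ a e, e < C * T * N → a + e < C * T * N + S2 → ‖J a e‖ ≤ η) →
    ∀ x1 x2, bet z x1 x2 = 0 →
      Nw z T F x1 x2 ≤ Real.exp (-(((S2 : ℝ) * N) ^ 2 / (C2 * T)) +
        C2 * A * Real.log (S2 * N + 2)) + Real.exp (C2 * S2) * η := by
  obtain ⟨C, Cp, hC1, hCCp, hsc⟩ := sc1 hz
  obtain ⟨Ci, hCi, hint⟩ := interp hz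
  refine ⟨C, 64 * Ci * Cp ^ 2 + Cp + 1, hC1, by omega, ?_⟩
  intro T N K M S2 F J A hT hN hS2 hA hFD hcov hKM hNM hS η hη hJ x1 x2 hx
  have hCp1 : 1 ≤ Cp := hC1.trans hCCp
  set C2 : ℕ := 64 * Ci * Cp ^ 2 + Cp + 1 with hC2
  have hTr : (1 : ℝ) ≤ T := by exact_mod_cast hT
  have hNr : (1 : ℝ) ≤ N := by exact_mod_cast hN
  have hMr : (1 : ℝ) ≤ M := by exact_mod_cast (hN.trans hNM)
  have hSr : (1 : ℝ) ≤ S2 := by exact_mod_cast hS2
  have hCir : (1 : ℝ) ≤ Ci := by exact_mod_cast hCi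
  have hCpr : (1 : ℝ) ≤ Cp := by exact_mod_cast hCp1
  have hC2r : (C2 : ℝ) = 64 * Ci * Cp ^ 2 + Cp + 1 := by rw [hC2]; push_cast; ring
  have hC2a : (64 : ℝ) * Ci * Cp ^ 2 ≤ C2 := by rw [hC2r]; linarith
  have hC2b : (Cp : ℝ) + 1 ≤ C2 := by
    rw [hC2r]
    have : (0 : ℝ) ≤ 64 * Ci * Cp ^ 2 := by positivity
    linarith
  have hlogM : 1 ≤ Real.log ((M : ℝ) * N + 2) := by
    apply sc2_one_le_log
    have : (1 : ℝ) ≤ (M : ℝ) * N := one_le_mul_of_one_le_of_one_le hMr hNr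
    linarith
  have hlogS : 1 ≤ Real.log ((S2 : ℝ) * N + 2) := by
    apply sc2_one_le_log
    have : (1 : ℝ) ≤ (S2 : ℝ) * N := one_le_mul_of_one_le_of_one_le hSr hNr
    linarith
  -- the condition of `sc1`
  have hX : (0 : ℝ) ≤ T * (M : ℝ) ^ 2 * Real.log ((M : ℝ) * N + 2) := by positivity
  have hSc1 : (Cp : ℝ) * T * (M : ℝ) ^ 2 * Real.log ((M : ℝ) * N + 2) ≤ S2 := by
    refine le_trans ?_ hS
    have : (Cp : ℝ) * (T * (M : ℝ) ^ 2 * Real.log ((M : ℝ) * N + 2)) ≤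
        C2 * (T * (M : ℝ) ^ 2 * Real.log ((M : ℝ) * N + 2)) :=
      mul_le_mul_of_nonneg_right (by linarith) hX
    linarith [this]
  have hSbig : (C2 : ℝ) * T ≤ S2 := by
    refine le_trans ?_ hS
    have h1 : (1 : ℝ) ≤ (M : ℝ) ^ 2 * Real.log ((M : ℝ) * N + 2) :=
      one_le_mul_of_one_le_of_one_le (one_le_pow₀ hMr) hlogM
    have h2 : (0 : ℝ) ≤ (C2 : ℝ) * T := by positivity
    have h3 := mul_le_mul_of_nonneg_left h1 h2
    linarith
  -- the supremum on `bet = 0`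
  set S : Set ℝ := {r | ∃ y1 y2, bet z y1 y2 = 0 ∧ r = Nw z T F y1 y2} with hSdef
  have hNw0 : ∀ y1 y2, 0 ≤ Nw z T F y1 y2 := fun y1 y2 ↦ by
    unfold Nw; positivity
  have hbdd : BddAbove S := by
    refine ⟨Real.exp A, ?_⟩
    rintro r ⟨y1, y2, hy, rfl⟩
    have h := hFD.gr y1 y2
    rw [hy] at h
    simpa using h
  set M0 : ℝ := sSup S with hM0
  have hM0le : ∀ y1 y2, bet z y1 y2 = 0 → Nw z T F y1 y2 ≤ M0 := fun y1 y2 hy ↦
    le_csSup hbdd ⟨y1, y2, hy, rfl⟩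
  have hSne : S.Nonempty := ⟨_, x1, x2, hx, rfl⟩
  have hM0A : M0 ≤ Real.exp A := by
    refine csSup_le hSne ?_
    rintro r ⟨y1, y2, hy, rfl⟩
    have h := hFD.gr y1 y2
    rw [hy] at h
    simpa using h
  have hM00 : 0 ≤ M0 := (hNw0 x1 x2).trans (hM0le x1 x2 hx)
  have hmain : Nw z T F x1 x2 ≤ M0 := hM0le x1 x2 hx
  rcases hM00.eq_or_lt with h0 | hpos
  · have h1 : 0 ≤ Real.exp (C2 * S2) * η := by positivity
    have h2 := (Real.exp_pos (-(((S2 : ℝ) * N) ^ 2 / (C2 * T)) +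
        C2 * A * Real.log (S2 * N + 2))).le
    linarith
  set r : ℝ := S2 * N / (8 * Ci * Cp * T) with hr
  have hden : (0 : ℝ) < 8 * Ci * Cp * T := by positivity
  have hrpos : 0 < r := by rw [hr]; positivity
  set A1 : ℝ := A * (1 + Real.log (1 + r)) with hA1
  set W : ℝ := A1 + Ci * T * r ^ 2 with hW
  set l : ℝ := Real.log M0 with hl
  have hexpl : Real.exp l = M0 := Real.exp_log hpos
  have hlA : l ≤ A := by
    rw [hl, Real.log_le_iff_le_exp hpos]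
    exact hM0A
  have hlog1r : 0 ≤ Real.log (1 + r) := Real.log_nonneg (by linarith)
  have hAA1 : A ≤ A1 := by
    rw [hA1]
    nlinarith
  have hWl : 0 ≤ W - l := by
    have : (0 : ℝ) ≤ Ci * T * r ^ 2 := by positivity
    rw [hW]; linarith
  have hin := hint T F J A hT hA hFD r (-l) A1 hrpos
    (fun y1 y2 hy ↦ by rw [neg_neg, hexpl]; exact hM0le y1 y2 hy)
    (fun y1 y2 hy ↦ by rw [hA1, ← hy]; exact hFD.gr y1 y2)
  set ϑ : ℝ := Cp / (N * r) with hϑ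
  have hNpos : (0 : ℝ) < N := by linarith
  have hϑpos : 0 < ϑ := by rw [hϑ]; positivity
  have hCpNr : (Cp : ℝ) / N ≤ r := by
    rw [div_le_iff₀ hNpos, hr, div_mul_eq_mul_div, le_div_iff₀ hden]
    have h1 : (64 : ℝ) * Ci * Cp ^ 2 * T ≤ S2 := by
      refine le_trans (mul_le_mul_of_nonneg_right hC2a (by positivity)) hSbig
    have h2 : (S2 : ℝ) ≤ S2 * N * N := by
      rw [mul_assoc]
      exact le_mul_of_one_le_right (Nat.cast_nonneg _) (one_le_mul_of_one_le_of_one_le hNr hNr)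
    have h3 : (Cp : ℝ) * (8 * Ci * Cp * T) ≤ 64 * Ci * Cp ^ 2 * T := by
      have h4 : (0 : ℝ) ≤ Ci * Cp ^ 2 * T := by positivity
      have h5 : (Cp : ℝ) * (8 * Ci * Cp * T) = 8 * (Ci * Cp ^ 2 * T) := by ring
      have h6 : (64 : ℝ) * Ci * Cp ^ 2 * T = 64 * (Ci * Cp ^ 2 * T) := by ring
      rw [h5, h6]
      exact mul_le_mul_of_nonneg_right (by norm_num) h4
    linarith
  have hMs : ∀ y1 y2, |bet z y1 y2| ≤ Cp / N →
      Nw z T F y1 y2 ≤ Real.exp (l + ϑ * (W - l)) := by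
    intro y1 y2 hy
    refine (hin y1 y2 (hy.trans hCpNr)).trans ?_
    rw [Real.exp_le_exp]
    have h1 : |bet z y1 y2| / r ≤ ϑ := by
      rw [hϑ, ← div_div]
      exact div_le_div_of_nonneg_right hy hrpos.le
    have h2 : |bet z y1 y2| / r * (W - l) ≤ ϑ * (W - l) := mul_le_mul_of_nonneg_right h1 hWl
    have h3 : -(-l * (1 - |bet z y1 y2| / r)) + W * (|bet z y1 y2| / r) =
        l + |bet z y1 y2| / r * (W - l) := by ring
    rw [h3]
    linarith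
  have hsc' := hsc T N K M S2 F J A hT hN hS2 hA hFD hcov hKM hNM hSc1 η
    (Real.exp (l + ϑ * (W - l))) hη hJ hMs
  have hM0b : M0 ≤ Real.exp (-S2) * Real.exp (l + ϑ * (W - l)) + Real.exp (Cp * S2) * η := by
    refine csSup_le hSne ?_
    rintro r' ⟨y1, y2, hy, rfl⟩
    exact hsc' y1 y2 hy
  by_cases hcase : M0 ≤ 2 * (Real.exp (Cp * S2) * η)
  · have h1 : 2 * Real.exp (Cp * S2) ≤ Real.exp (C2 * S2) := by
      have h2 : (2 : ℝ) ≤ Real.exp S2 := by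
        have := Real.add_one_le_exp (S2 : ℝ)
        linarith
      have h3 : Real.exp S2 * Real.exp (Cp * S2) ≤ Real.exp (C2 * S2) := by
        rw [← Real.exp_add, Real.exp_le_exp]
        nlinarith
      have h4 := Real.exp_pos ((Cp : ℝ) * S2)
      nlinarith
    have h2 := (Real.exp_pos (-(((S2 : ℝ) * N) ^ 2 / (C2 * T)) +
        C2 * A * Real.log (S2 * N + 2))).le
    have h3 : 2 * (Real.exp (Cp * S2) * η) ≤ Real.exp (C2 * S2) * η := by
      have := mul_le_mul_of_nonneg_right h1 hη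
      linarith
    linarith
  · push Not at hcase
    have h1 : M0 ≤ 2 * (Real.exp (-S2) * Real.exp (l + ϑ * (W - l))) := by linarith
    have h2 : l ≤ Real.log 2 + (-S2 + (l + ϑ * (W - l))) := by
      have h3 : Real.exp l ≤ Real.exp (Real.log 2 + (-S2 + (l + ϑ * (W - l)))) := by
        rw [hexpl, Real.exp_add, Real.exp_log (by norm_num : (0:ℝ) < 2), Real.exp_add]
        exact h1
      exact Real.exp_le_exp.1 h3
    have hlog2 : Real.log 2 ≤ 3 / 4 := by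
      have := Real.log_two_lt_d9
      linarith
    have h3 : (S2 : ℝ) / 4 ≤ ϑ * (W - l) := by linarith
    have hϑr : ϑ * (N * r) = Cp := by
      rw [hϑ]; field_simp
    have h4 : (S2 : ℝ) * N * r / (4 * Cp) ≤ W - l := by
      rw [div_le_iff₀ (by positivity)]
      have h5 : (S2 : ℝ) / 4 * (N * r) ≤ ϑ * (W - l) * (N * r) :=
        mul_le_mul_of_nonneg_right h3 (by positivity)
      have h6 : ϑ * (W - l) * (N * r) = Cp * (W - l) := by
        rw [← hϑr]; ring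
      rw [h6] at h5
      linarith
    have hCipos : (0 : ℝ) < Ci := by linarith
    have hCppos : (0 : ℝ) < Cp := by linarith
    have hTpos : (0 : ℝ) < T := by linarith
    have h7 : (Ci : ℝ) * T * r ^ 2 - S2 * N * r / (4 * Cp) =
        -(((S2 : ℝ) * N) ^ 2 / (64 * Ci * Cp ^ 2 * T)) := by
      rw [hr]; field_simp; ring
    have h8 : ((S2 : ℝ) * N) ^ 2 / (C2 * T) ≤ ((S2 : ℝ) * N) ^ 2 / (64 * Ci * Cp ^ 2 * T) := by
      apply div_le_div_of_nonneg_left (by positivity) (by positivity)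
      exact mul_le_mul_of_nonneg_right hC2a hTpos.le
    have h9 : r ≤ S2 * N := by
      rw [hr]
      apply div_le_self (by positivity)
      have h91 : (1 : ℝ) ≤ Ci * Cp * T :=
        one_le_mul_of_one_le_of_one_le (one_le_mul_of_one_le_of_one_le hCir hCpr) hTr
      have h92 : (8 : ℝ) * Ci * Cp * T = 8 * (Ci * Cp * T) := by ring
      rw [h92]
      exact one_le_mul_of_one_le_of_one_le (by norm_num) h91
    have h10 : Real.log (1 + r) ≤ Real.log (S2 * N + 2) :=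
      Real.log_le_log (by linarith) (by linarith)
    have h11 : A1 ≤ C2 * A * Real.log (S2 * N + 2) := by
      have h12 : 1 + Real.log (1 + r) ≤ 2 * Real.log (S2 * N + 2) := by linarith
      have h13 : (2 : ℝ) * Real.log (S2 * N + 2) ≤ C2 * Real.log (S2 * N + 2) :=
        mul_le_mul_of_nonneg_right (by linarith) (by linarith)
      rw [hA1]
      have := mul_le_mul_of_nonneg_left (h12.trans h13) hA
      linarith
    have h14 : l ≤ -(((S2 : ℝ) * N) ^ 2 / (C2 * T)) + C2 * A * Real.log (S2 * N + 2) := by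
      rw [hW] at h4
      linarith
    have h15 : M0 ≤ Real.exp (-(((S2 : ℝ) * N) ^ 2 / (C2 * T)) +
        C2 * A * Real.log (S2 * N + 2)) := by
      rw [← hexpl]; exact Real.exp_le_exp.2 h14
    have h16 : 0 ≤ Real.exp (C2 * S2) * η := by positivity
    linarith

end U2
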