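import Pool.Agent.H22.U2.Int

/-!
# MP_ede373, theorem (U2), row Spr: spreading of smallness from `bet = 0`

`interp` with `R = 2 r`, `A1 = A (1 + log (1 + 2 r))` (`FD.gr`, `|bet| = 2 r`), `|bet|/R ≤ 1/2`, `L ≥ 0`:
`-(L (1 - |bet|/R)) ≤ -(L/2)` and `(A1 + Ci T R^2) |bet|/R ≤ A1/2 + 2 Ci T r^2`; `1 + log (1 + 2 r) ≤ 3 log (r + 2)` (`r ≥ 1`: `log (r + 2) ≥ 1`).
-/

set_option autoImplicit false

namespace U2

theorem spread {z : ℂ} (hz : 0 < z.im) : ∃ C : ℕ, 1 ≤ C ∧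
    ∀ (T : ℕ) (F : ℂ → ℂ → ℂ) (J : ℕ → ℕ → ℂ) (A : ℝ), 1 ≤ T → 0 ≤ A → FD z T F J A →
    ∀ L r : ℝ, 0 ≤ L → 1 ≤ r → (∀ x1 x2, bet z x1 x2 = 0 → Nw z T F x1 x2 ≤ Real.exp (-L)) →
      ∀ x1 x2, |bet z x1 x2| ≤ r → Nw z T F x1 x2 ≤
        Real.exp (-(L / 2) + C * A * Real.log (r + 2) + C * T * r ^ 2) := by
  obtain ⟨Ci, hCi, hI⟩ := interp hz
  refine ⟨2 * Ci, by omega, ?_⟩
  intro T F J A hT hA hF L r hL hr h0 x1 x2 hx
  have hCi' : (1 : ℝ) ≤ Ci := by exact_mod_cast hCi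
  have hT' : (1 : ℝ) ≤ T := by exact_mod_cast hT
  have hR : (0 : ℝ) < 2 * r := by linarith
  have h1 := hI T F J A hT hA hF (2 * r) L (A * (1 + Real.log (1 + 2 * r))) hR h0 (by
    intro y1 y2 hy
    have := hF.gr y1 y2
    rw [hy] at this
    exact this) x1 x2 (by linarith)
  refine h1.trans (Real.exp_le_exp.2 ?_)
  set s : ℝ := |bet z x1 x2| / (2 * r) with hs
  have hs0 : 0 ≤ s := div_nonneg (abs_nonneg _) hR.le
  have hs1 : s ≤ 1 / 2 := by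
    rw [hs, div_le_iff₀ hR]
    linarith
  have hl1 : 1 ≤ Real.log (r + 2) := by
    rw [Real.le_log_iff_exp_le (by linarith)]
    have := Real.exp_one_lt_d9
    linarith
  have hl2 : Real.log (1 + 2 * r) ≤ 2 * Real.log (r + 2) := by
    have h2 : 2 * Real.log (r + 2) = Real.log ((r + 2) ^ 2) := by
      rw [Real.log_pow]
      norm_num
    rw [h2]
    apply Real.log_le_log (by linarith)
    nlinarith
  have hl0 : 0 ≤ Real.log (1 + 2 * r) := Real.log_nonneg (by linarith)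
  have hA1 : 0 ≤ A * (1 + Real.log (1 + 2 * r)) + Ci * T * (2 * r) ^ 2 := by positivity
  have e1 : -(L * (1 - s)) ≤ -(L / 2) := by nlinarith
  have e2 : (A * (1 + Real.log (1 + 2 * r)) + Ci * T * (2 * r) ^ 2) * s ≤
      (A * (1 + Real.log (1 + 2 * r)) + Ci * T * (2 * r) ^ 2) * (1 / 2) := mul_le_mul_of_nonneg_left hs1 hA1
  have e3 : A * (1 + Real.log (1 + 2 * r)) ≤ A * (3 * Real.log (r + 2)) := mul_le_mul_of_nonneg_left (by linarith) hA
  have e4 : (3 / 2 : ℝ) * (A * Real.log (r + 2)) ≤ (2 * Ci : ℝ) * (A * Real.log (r + 2)) := by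
    apply mul_le_mul_of_nonneg_right (by linarith)
    positivity
  push_cast
  nlinarith [e1, e2, e3, e4]

end U2
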