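import Pool.Agent.H22.U2.Ze
import Pool.Agent.H22.U2.Fdt
import Pool.Agent.H22.U2.Sc2
import Pool.Agent.H22.U2.Spr

/-!
# MP_ede373, theorem (U2), row Hyp: the analytic result

Constants: `Cs, Cs2` from `schwarz`, `Cp` from `spread`, `Cf` from `fdat`, `Cz` from `ze`, `Cb` from `bet_le`. `C0 = 8 Cs`, `D = C0 N`, `T = 2 D`,
`S1 = Cs T N = 2 Cs C0 N^2`, `M = K + N`, `A = Cf (D + Q) log (Q + 2)`. The hypothesis `C N (K + N)^2 log ((K + N) N + 2) ≤ Q` with `C` large gives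
`Cs2 T M^2 log (M N + 2) ≤ Q`, `S1 ≤ Q`, `D ≤ Q`, `Q ≥ C`. We use `Q ≥ C` large: `log (Q + 2)^2 ≤ ϵ Q` for any fixed `ϵ` when `C` is large
(`log (Q N + 2) ≤ 2 log (Q + 2)`).

(SU) `dim_V` with `S2 = Q`: `2 S1 (S1 + Q) ≤ 4 S1 Q = 8 Cs C0 N^2 Q = (C0 N)^2 Q ≤ (D + 1)^2 Q`. For `c ∈ V`, `‖c‖ ≤ 1`: `schwarz` with `η = 0`,
`S2 = Q`: on `bet = 0`: `Nw ≤ exp (-(Q N)^2/(Cs2 T) + Cs2 A log (Q N + 2)) ≤ exp (-N Q^2/C1)` (`T = 2 C0 N`, `A log ≤ C Q log^2`). `spread` with `r = 2 Cb`: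
on `|bet| ≤ 2 Cb` we get `Nw ≤ exp (-N Q^2/(2 C1) + Cp A log (r + 2) + Cp T r^2) ≤ exp (-N Q^2/C2)`; on the torus `‖x1‖ = ‖x2‖ = 1`
`‖FF‖ ≤ exp (2 π T/Y) exp (-N Q^2/C2) ≤ exp (-N Q^2/C3)`; `cauchy2` with `κ = 1`: `‖JJ a e‖ ≤ exp (-N Q^2/C)` for all `a, e`.

(ZE) `max ‖c‖ = 1`. Suppose `‖JJ a e‖ < η = exp (-C N Q^2)` whenever `a + e ≤ C Q`. `schwarz` with `S2 = C6 Q`, `S1 + C6 Q ≤ C Q`:
on `bet = 0`: `Nw ≤ exp (-(C6 Q N)^2/(Cs2 T) + Cs2 A log (C6 Q N + 2)) + exp (Cs2 C6 Q) η ≤ exp (-L)`, `L = c C6^2 N Q^2` with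
`c = 1/(4 Cs2 C0)` roughly, if `C` is large compared with `C6^2` (the second term is `≤ exp (Cs2 C6 Q - C N Q^2)`). `spread` with `r = Q + Cz`:
`Nw ≤ exp (-L/2 + Cp A log (r + 2) + Cp T r^2)` on `|bet| ≤ Q + Cz`, where `Cp T r^2 ≤ 8 Cp C0 N Q^2`, `Cp A log (r + 2) ≤ N Q^2`. Choose `C6` so
large that `L/2 ≥ (8 Cp C0 + 3 + 2 Cz C0) N Q^2 + …`: this contradicts `ze`: `Nw ≥ exp (-Cz Q (D + log (Q + 2))) ≥ exp (-2 Cz C0 N Q^2)` at one point.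
-/

set_option autoImplicit false

namespace U2

open Complex Finset

variable {z : ℂ} (b : CZ.BaseFn z)

theorem Hyp_log {E Q : ℕ} (hE : 1 ≤ E) (hQ : 1024 * E ^ 2 ≤ Q) :
    (E : ℝ) * Real.log ((Q : ℝ) + 2) ^ 2 ≤ Q := by
  have hE' : (1 : ℝ) ≤ E := by exact_mod_cast hE
  have hQ' : 1024 * (E : ℝ) ^ 2 ≤ Q := by exact_mod_cast hQ
  have hQ1 : (1 : ℝ) ≤ Q := by nlinarith
  have hx : (0 : ℝ) ≤ (Q : ℝ) + 2 := by linarith
  obtain ⟨s, hs⟩ : ∃ s, s = Real.sqrt ((Q : ℝ) + 2) := ⟨_, rfl⟩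
  obtain ⟨t, ht⟩ : ∃ t, t = Real.sqrt s := ⟨_, rfl⟩
  have hs0 : 0 ≤ s := by
    rw [hs]
    exact Real.sqrt_nonneg _
  have ht0 : 0 ≤ t := by
    rw [ht]
    exact Real.sqrt_nonneg _
  have hs2 : s ^ 2 = (Q : ℝ) + 2 := by
    rw [hs]
    exact Real.sq_sqrt hx
  have ht2 : t ^ 2 = s := by
    rw [ht]
    exact Real.sq_sqrt hs0
  have hs1 : 1 ≤ s := by nlinarith
  have ht1 : 1 ≤ t := by nlinarith
  have hlog : Real.log ((Q : ℝ) + 2) = 4 * Real.log t := by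
    rw [← hs2, ← ht2, ← pow_mul, Real.log_pow]
    norm_num
  have h1 : Real.log t ≤ t := by
    have := Real.log_le_sub_one_of_pos (by linarith : 0 < t)
    linarith
  have h0 : 0 ≤ Real.log t := Real.log_nonneg ht1
  have h2 : Real.log ((Q : ℝ) + 2) ^ 2 ≤ 16 * s := by
    rw [hlog, ← ht2]
    nlinarith
  obtain ⟨w, hw⟩ : ∃ w, w = Real.sqrt (Q : ℝ) := ⟨_, rfl⟩
  have hw0 : 0 ≤ w := by
    rw [hw]
    exact Real.sqrt_nonneg _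
  have hw2 : w ^ 2 = (Q : ℝ) := by
    rw [hw]
    exact Real.sq_sqrt (by linarith)
  have h3 : s ≤ 2 * w := by
    have h4 : s ^ 2 ≤ (2 * w) ^ 2 := by nlinarith
    exact (pow_le_pow_iff_left₀ hs0 (by linarith) two_ne_zero).1 h4
  have h5 : 32 * (E : ℝ) ≤ w := by
    have h6 : (32 * (E : ℝ)) ^ 2 ≤ w ^ 2 := by nlinarith
    exact (pow_le_pow_iff_left₀ (by linarith) hw0 two_ne_zero).1 h6
  calc (E : ℝ) * Real.log ((Q : ℝ) + 2) ^ 2 ≤ E * (16 * s) :=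
        mul_le_mul_of_nonneg_left h2 (by linarith)
    _ ≤ E * (16 * (2 * w)) := mul_le_mul_of_nonneg_left (by linarith) (by linarith)
    _ = (32 * E) * w := by ring
    _ ≤ w * w := mul_le_mul_of_nonneg_right h5 hw0
    _ = Q := by rw [← hw2]; ring

theorem Hyp_lg {Q : ℕ} {y : ℝ} (k : ℕ) (hy : 0 < y) (h : y ≤ ((Q : ℝ) + 2) ^ k) :
    Real.log y ≤ k * Real.log ((Q : ℝ) + 2) := by
  rw [← Real.log_pow]
  exact Real.log_le_log hy h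

theorem Hyp_one_le_log {y : ℝ} (h : 3 ≤ y) : 1 ≤ Real.log y := by
  rw [Real.le_log_iff_exp_le (by linarith)]
  have := Real.exp_one_lt_d9
  linarith

theorem Hyp_c {c E q l : ℝ} (hc : c ≤ E) (h : E * l ^ 2 ≤ q) (hq : 0 ≤ q) :
    c * (q * l ^ 2) ≤ q ^ 2 := by
  have h1 : c * l ^ 2 ≤ q := (mul_le_mul_of_nonneg_right hc (sq_nonneg l)).trans h
  calc c * (q * l ^ 2) = (c * l ^ 2) * q := by ring
    _ ≤ q * q := mul_le_mul_of_nonneg_right h1 hq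
    _ = q ^ 2 := by ring

theorem Hyp_A {Cf D q l A : ℝ} (hCf : 0 ≤ Cf) (hD : D ≤ q) (hl : 0 ≤ l)
    (hA : A = Cf * (D + q) * l) : A ≤ 2 * Cf * q * l := by
  rw [hA]
  have h1 : Cf * (D + q) ≤ 2 * Cf * q := by nlinarith
  exact mul_le_mul_of_nonneg_right h1 hl

theorem Hyp_torus {z : ℂ} (hz : 0 < z.im) {Cy : ℕ} (hCy : 2 * Real.pi / z.im ≤ Cy) (T : ℕ)
    (F : ℂ → ℂ → ℂ) (e : ℝ) (x1 x2 : ℂ) (h1 : ‖x1‖ = 1) (h2 : ‖x2‖ = 1)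
    (h : Nw z T F x1 x2 ≤ Real.exp e) : ‖F x1 x2‖ ≤ Real.exp (e + Cy * T) := by
  have hT : (0 : ℝ) ≤ T := Nat.cast_nonneg T
  have hP : 0 ≤ Real.pi * T / z.im := div_nonneg (mul_nonneg Real.pi_pos.le hT) hz.le
  have i1 : x1.im ^ 2 ≤ 1 := by
    have h3 := Complex.abs_im_le_norm x1
    rw [h1] at h3
    have h4 := abs_le.1 h3
    nlinarith
  have i2 : x2.im ^ 2 ≤ 1 := by
    have h3 := Complex.abs_im_le_norm x2
    rw [h2] at h3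
    have h4 := abs_le.1 h3
    nlinarith
  have h5 : Real.pi * T / z.im * (x1.im ^ 2 + x2.im ^ 2) ≤ Cy * T := by
    calc Real.pi * T / z.im * (x1.im ^ 2 + x2.im ^ 2) ≤ Real.pi * T / z.im * 2 :=
          mul_le_mul_of_nonneg_left (by linarith) hP
      _ = 2 * Real.pi / z.im * T := by ring
      _ ≤ Cy * T := mul_le_mul_of_nonneg_right hCy hT
  unfold Nw at h
  have h6 : ‖F x1 x2‖ = ‖F x1 x2‖ * Real.exp (-(Real.pi * T / z.im * (x1.im ^ 2 + x2.im ^ 2))) *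
      Real.exp (Real.pi * T / z.im * (x1.im ^ 2 + x2.im ^ 2)) := by
    rw [mul_assoc, ← Real.exp_add, neg_add_cancel, Real.exp_zero, mul_one]
  rw [h6, Real.exp_add]
  exact mul_le_mul h (Real.exp_le_exp.2 h5) (Real.exp_pos _).le (Real.exp_pos _).le

theorem Hyp_q {C n k lg q : ℝ} (hC : 1 ≤ C) (hn : 1 ≤ n) (hk : 0 ≤ k) (hlg : 1 ≤ lg)
    (h : C * n * (k + n) ^ 2 * lg ≤ q) :
    C * (n * n) ≤ q ∧ C ≤ q ∧ C * n ≤ q ∧ n ≤ q ∧ 1 ≤ q := by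
  have h0 : n ≤ n * n := by nlinarith
  have h1 : n ≤ (k + n) ^ 2 := by nlinarith
  have h2 : C * n * n ≤ C * n * (k + n) ^ 2 := mul_le_mul_of_nonneg_left h1 (by positivity)
  have h3 : C * n * (k + n) ^ 2 * 1 ≤ C * n * (k + n) ^ 2 * lg :=
    mul_le_mul_of_nonneg_left hlg (by positivity)
  have h4 : C * (n * n) ≤ q := by linarith
  have h5 : C * n ≤ C * (n * n) := mul_le_mul_of_nonneg_left h0 (by linarith)
  have h6 : C * 1 ≤ C * n := mul_le_mul_of_nonneg_left hn (by linarith)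
  have h7 : 1 * n ≤ C * n := mul_le_mul_of_nonneg_right hC (by linarith)
  exact ⟨h4, by linarith, by linarith, by linarith, by linarith⟩

theorem Hyp_sq2 {q n : ℝ} (hn : n ≤ q) (hq : 1 ≤ q) : q * n + 2 ≤ (q + 2) ^ 2 := by
  have h1 : q * n ≤ q * q := mul_le_mul_of_nonneg_left hn (by linarith)
  nlinarith

theorem Hyp_sq3 {c q n : ℝ} (hc : c ≤ q) (hn : n ≤ q) (hq : 1 ≤ q) (hn0 : 0 ≤ n) :
    c * q * n + 2 ≤ (q + 2) ^ 3 := by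
  have h1 : c * q ≤ q * q := mul_le_mul_of_nonneg_right hc (by linarith)
  have h2 : c * q * n ≤ q * q * q := mul_le_mul h1 hn hn0 (by positivity)
  nlinarith [sq_nonneg q]

theorem Hyp_sq4 {q c : ℝ} (hc : c ≤ q) (hq : 1 ≤ q) : q + c + 2 ≤ (q + 2) ^ 2 := by
  nlinarith

theorem Hyp_cAl {c A lg Cf q l k : ℝ} (hc : 0 ≤ c) (hA0 : 0 ≤ A) (hA2 : A ≤ 2 * Cf * q * l)
    (hlg : lg ≤ k * l) (hl : 0 ≤ l) (hk : 0 ≤ k) : c * A * lg ≤ 2 * k * c * Cf * (q * l ^ 2) := by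
  calc c * A * lg ≤ c * A * (k * l) := mul_le_mul_of_nonneg_left hlg (mul_nonneg hc hA0)
    _ ≤ c * (2 * Cf * q * l) * (k * l) :=
        mul_le_mul_of_nonneg_right (mul_le_mul_of_nonneg_left hA2 hc) (mul_nonneg hk hl)
    _ = 2 * k * c * Cf * (q * l ^ 2) := by ring

theorem Hyp_r1 {P c A lg q l W E Cf : ℝ} (hP : 1 ≤ P) (hc : 0 ≤ c) (hA0 : 0 ≤ A)
    (hA2 : A ≤ 2 * Cf * q * l) (hlg : lg ≤ 2 * l) (hl : 0 ≤ l) (hE : 128 * P * c * Cf ≤ E)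
    (hlog : E * l ^ 2 ≤ q) (hq : 0 ≤ q) (hW : q ^ 2 ≤ W) :
    -(W / (16 * P)) + c * A * lg ≤ -(W / (32 * P)) := by
  have e3 := Hyp_cAl hc hA0 hA2 hlg hl (by norm_num)
  have e4 := Hyp_c hE hlog hq
  have e5 : 2 * 2 * c * Cf * (q * l ^ 2) ≤ W / (32 * P) := by
    rw [le_div_iff₀ (by linarith)]
    calc 2 * 2 * c * Cf * (q * l ^ 2) * (32 * P) = 128 * P * c * Cf * (q * l ^ 2) := by ring
      _ ≤ W := e4.trans hW
  have e6 : W / (16 * P) = W / (32 * P) + W / (32 * P) := by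
    field_simp
    ring
  rw [e6]
  linarith

theorem Hyp_r2 {P Cp Cf Cb Cs Cy E C q n l A W lg : ℝ} (hP : 1 ≤ P) (hCp : 0 ≤ Cp)
    (hCf : 0 ≤ Cf) (hCb : 0 ≤ Cb) (hA0 : 0 ≤ A) (hA2 : A ≤ 2 * Cf * q * l)
    (hlg : lg ≤ 2 * Cb + 1) (hl : 1 ≤ l)
    (hE : 512 * P * Cp * Cf * (2 * Cb + 1) ≤ E) (hlog : E * l ^ 2 ≤ q) (hq : 1 ≤ q)
    (hW : q ^ 2 ≤ W) (hCn : C * n ≤ q) (hn : 0 ≤ n) (h128 : 128 * P ≤ C)
    (hC : 256 * P * (64 * Cp * Cs * Cb ^ 2 + 16 * Cs * Cy) ≤ C) :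
    -(W / (32 * P) / 2) + Cp * A * lg + Cp * (16 * Cs * n) * (2 * Cb) ^ 2 + Cy * (16 * Cs * n) ≤
      -(W / C) := by
  have hll : l ≤ l ^ 2 := by nlinarith
  have hqq : q ≤ q ^ 2 := by nlinarith
  have e2 : Cp * A * lg ≤ 2 * Cp * Cf * (2 * Cb + 1) * (q * l ^ 2) := by
    calc Cp * A * lg ≤ Cp * A * (2 * Cb + 1) :=
          mul_le_mul_of_nonneg_left hlg (mul_nonneg hCp hA0)
      _ ≤ Cp * (2 * Cf * q * l) * (2 * Cb + 1) :=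
          mul_le_mul_of_nonneg_right (mul_le_mul_of_nonneg_left hA2 hCp) (by linarith)
      _ = 2 * Cp * Cf * (2 * Cb + 1) * q * l := by ring
      _ ≤ 2 * Cp * Cf * (2 * Cb + 1) * q * l ^ 2 :=
          mul_le_mul_of_nonneg_left hll (by positivity)
      _ = 2 * Cp * Cf * (2 * Cb + 1) * (q * l ^ 2) := by ring
  have e3 := Hyp_c hE hlog (by linarith)
  have e4 : 2 * Cp * Cf * (2 * Cb + 1) * (q * l ^ 2) ≤ W / (256 * P) := by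
    rw [le_div_iff₀ (by linarith)]
    calc 2 * Cp * Cf * (2 * Cb + 1) * (q * l ^ 2) * (256 * P) =
        512 * P * Cp * Cf * (2 * Cb + 1) * (q * l ^ 2) := by ring
      _ ≤ W := e3.trans hW
  have e5 : Cp * (16 * Cs * n) * (2 * Cb) ^ 2 + Cy * (16 * Cs * n) ≤ W / (256 * P) := by
    rw [le_div_iff₀ (by linarith)]
    calc (Cp * (16 * Cs * n) * (2 * Cb) ^ 2 + Cy * (16 * Cs * n)) * (256 * P) =
        256 * P * (64 * Cp * Cs * Cb ^ 2 + 16 * Cs * Cy) * n := by ring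
      _ ≤ C * n := mul_le_mul_of_nonneg_right hC hn
      _ ≤ W := by linarith
  have e6 : W / (32 * P) / 2 = W / (256 * P) + W / (256 * P) + W / (128 * P) := by
    field_simp
    ring
  have e7 : W / C ≤ W / (128 * P) :=
    div_le_div_of_nonneg_left (by linarith) (by linarith) h128
  rw [e6]
  linarith

theorem Hyp_r3 {P c A lg q l W E Cf C6 G : ℝ} (hP : 1 ≤ P) (hc : 0 ≤ c) (hA0 : 0 ≤ A)
    (hA2 : A ≤ 2 * Cf * q * l) (hlg : lg ≤ 3 * l) (hl : 0 ≤ l) (hE : 6 * c * Cf ≤ E)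
    (hlog : E * l ^ 2 ≤ q) (hq : 1 ≤ q) (hW : q ^ 2 ≤ W) (hG : 1 ≤ G) (hC6 : 64 * P * G ≤ C6) :
    -(C6 ^ 2 * W / (16 * P)) + c * A * lg ≤ -(C6 ^ 2 * W / (32 * P)) - 1 := by
  have e3 := Hyp_cAl hc hA0 hA2 hlg hl (by norm_num)
  have e4 := Hyp_c hE hlog (by linarith)
  have hW1 : 1 ≤ W := by nlinarith
  have f4 : W + 1 ≤ C6 ^ 2 * W / (32 * P) := by
    rw [le_div_iff₀ (by linarith)]
    have h4 : 64 * P ≤ C6 := by nlinarith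
    have h3 : 64 * P ≤ C6 ^ 2 := by nlinarith
    calc (W + 1) * (32 * P) ≤ (2 * W) * (32 * P) :=
          mul_le_mul_of_nonneg_right (by linarith) (by linarith)
      _ = 64 * P * W := by ring
      _ ≤ C6 ^ 2 * W := mul_le_mul_of_nonneg_right h3 (by linarith)
  have f6 : C6 ^ 2 * W / (16 * P) = C6 ^ 2 * W / (32 * P) + C6 ^ 2 * W / (32 * P) := by
    field_simp
    ring
  have e5 : c * A * lg ≤ W := by
    refine e3.trans (le_trans (le_of_eq ?_) (e4.trans hW))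
    ring
  rw [f6]
  linarith

theorem Hyp_r4 {P c q W C C6 : ℝ} (hP : 1 ≤ P) (hc : 0 ≤ c) (hC60 : 0 ≤ C6) (hqW : q ≤ W)
    (hW : 1 ≤ W) (hC : c * C6 + C6 ^ 2 + 1 ≤ C) :
    c * (C6 * q) + -(C * W) ≤ -(C6 ^ 2 * W / (32 * P)) - 1 := by
  have f5 : C6 ^ 2 * W / (32 * P) ≤ C6 ^ 2 * W := div_le_self (by positivity) (by linarith)
  have h4 : (c * C6 + C6 ^ 2 + 1) * W ≤ C * W := mul_le_mul_of_nonneg_right hC (by linarith)
  have h5 : c * C6 * q ≤ c * C6 * W := mul_le_mul_of_nonneg_left hqW (by positivity)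
  linarith

theorem Hyp_r5 {P Cp Cf Cs Cz E q n l A W lg C6 d : ℝ} (hP : 1 ≤ P) (hCp : 0 ≤ Cp)
    (hCs : 0 ≤ Cs) (hCz : 0 ≤ Cz) (hCzq : Cz ≤ q) (hA0 : 0 ≤ A) (hA2 : A ≤ 2 * Cf * q * l)
    (hlg : lg ≤ 2 * l) (hl : 1 ≤ l) (hE : 4 * Cp * Cf ≤ E) (hEz : Cz ≤ E)
    (hlog : E * l ^ 2 ≤ q) (hq : 1 ≤ q) (hn : 1 ≤ n) (hW : W = n * q ^ 2)
    (hC60 : 1 ≤ C6) (hC6 : 64 * P * (64 * Cp * Cs + 8 * Cz * Cs + 3) ≤ C6) (hd : d = 8 * Cs * n) :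
    -(C6 ^ 2 * W / (32 * P) / 2) + Cp * A * lg + Cp * (16 * Cs * n) * (q + Cz) ^ 2 <
      -(Cz * q * (d + l)) := by
  have hll : l ≤ l ^ 2 := by nlinarith
  have hqq : q ≤ q ^ 2 := by nlinarith
  have hqW : q ^ 2 ≤ W := by
    rw [hW]
    nlinarith [sq_nonneg q]
  have hW1 : 1 ≤ W := by linarith
  have e1 : (64 * Cp * Cs + 8 * Cz * Cs + 3) * W ≤ C6 ^ 2 * W / (32 * P) / 2 := by
    rw [div_div, le_div_iff₀ (by linarith)]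
    have h3 : 64 * P * (64 * Cp * Cs + 8 * Cz * Cs + 3) ≤ C6 ^ 2 := by nlinarith
    calc (64 * Cp * Cs + 8 * Cz * Cs + 3) * W * (32 * P * 2) =
        64 * P * (64 * Cp * Cs + 8 * Cz * Cs + 3) * W := by ring
      _ ≤ C6 ^ 2 * W := mul_le_mul_of_nonneg_right h3 (by linarith)
  have e3 : Cp * A * lg ≤ W := by
    refine (Hyp_cAl hCp hA0 hA2 hlg (by linarith) (by norm_num)).trans
      (le_trans (le_of_eq ?_) ((Hyp_c hE hlog (by linarith)).trans hqW))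
    ring
  have e4 : Cp * (16 * Cs * n) * (q + Cz) ^ 2 ≤ 64 * Cp * Cs * W := by
    have h3 : (q + Cz) ^ 2 ≤ (2 * q) ^ 2 := pow_le_pow_left₀ (by linarith) (by linarith) 2
    calc Cp * (16 * Cs * n) * (q + Cz) ^ 2 ≤ Cp * (16 * Cs * n) * (2 * q) ^ 2 :=
          mul_le_mul_of_nonneg_left h3 (by positivity)
      _ = 64 * Cp * Cs * W := by
        rw [hW]
        ring
  have e5 : Cz * q * (d + l) ≤ (8 * Cz * Cs + 1) * W := by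
    rw [hd]
    have h3 : Cz * (q * l ^ 2) ≤ q ^ 2 := Hyp_c hEz hlog (by linarith)
    have h5 : Cz * q * l ≤ Cz * q * l ^ 2 := mul_le_mul_of_nonneg_left hll (by positivity)
    have h6 : n * q ≤ W := by
      rw [hW]
      exact mul_le_mul_of_nonneg_left hqq (by linarith)
    have h7 : 8 * Cz * Cs * (n * q) ≤ 8 * Cz * Cs * W := mul_le_mul_of_nonneg_left h6 (by positivity)
    linarith
  linarith

theorem hyp_ana (hz : 0 < z.im) : ∃ C0 C : ℕ, 1 ≤ C0 ∧ 1 ≤ C ∧ ∀ N K Q : ℕ, 1 ≤ N → COV z N K →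
    C * N * ((K : ℝ) + N) ^ 2 * Real.log (((K : ℝ) + N) * N + 2) ≤ Q →
    (∃ V : Submodule ℂ (Ix (C0 * N) Q → ℂ),
      Fintype.card (Ix (C0 * N) Q) ≤ 2 * Module.finrank ℂ V ∧
      ∀ c ∈ V, (∀ l, ‖c l‖ ≤ 1) → ∀ a e : ℕ,
        ‖JJ b (C0 * N) Q c a e‖ ≤ Real.exp (-(N * (Q : ℝ) ^ 2 / C))) ∧
    ∀ c : Ix (C0 * N) Q → ℂ, (∀ l, ‖c l‖ ≤ 1) → (∃ l, ‖c l‖ = 1) →
      ∃ a e : ℕ, a + e ≤ C * Q ∧ Real.exp (-(C * N * (Q : ℝ) ^ 2)) ≤ ‖JJ b (C0 * N) Q c a e‖ := by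
  obtain ⟨Cs, Cs2, hCs, hCs2, hschw⟩ := schwarz hz
  obtain ⟨Cp, hCp, hspr⟩ := spread hz
  obtain ⟨Cf, hCf, hfd⟩ := fdat b hz
  obtain ⟨Cz, hCz, hze⟩ := ze b hz
  obtain ⟨Cb, hCb, hbet⟩ := bet_le z
  obtain ⟨Cy, hCy⟩ := exists_nat_ge (2 * Real.pi / z.im)
  obtain ⟨E, hE0, hE1, hE2, hE3, hE4, hE5⟩ : ∃ E : ℕ, 1 ≤ E ∧ 128 * (Cs * Cs2) * Cs2 * Cf ≤ E ∧
      512 * (Cs * Cs2) * Cp * Cf * (2 * Cb + 1) ≤ E ∧ 6 * Cs2 * Cf ≤ E ∧ 4 * Cp * Cf ≤ E ∧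
      Cz ≤ E :=
    ⟨1 + 128 * (Cs * Cs2) * Cs2 * Cf + 512 * (Cs * Cs2) * Cp * Cf * (2 * Cb + 1) + 6 * Cs2 * Cf +
      4 * Cp * Cf + Cz, by omega, by omega, by omega, by omega, by omega, by omega⟩
  obtain ⟨C6, hC60, hC6⟩ : ∃ C6 : ℕ, 1 ≤ C6 ∧
      64 * (Cs * Cs2) * (64 * Cp * Cs + 8 * Cz * Cs + 3) ≤ C6 :=
    ⟨1 + 64 * (Cs * Cs2) * (64 * Cp * Cs + 8 * Cz * Cs + 3), by omega, by omega⟩
  obtain ⟨C, hC0, hC1, hC2, hC3, hC4, hC5, hC7, hC8, hC9, hC10⟩ : ∃ C : ℕ, 1 ≤ C ∧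
      16 * (Cs * Cs2) ≤ C ∧ 16 * (Cs * Cs) ≤ C ∧ 8 * Cs ≤ C ∧ 1024 * E ^ 2 ≤ C ∧
      128 * (Cs * Cs2) ≤ C ∧ 256 * (Cs * Cs2) * (64 * Cp * Cs * Cb ^ 2 + 16 * Cs * Cy) ≤ C ∧
      C6 + 1 ≤ C ∧ Cs2 * C6 + C6 ^ 2 + 1 ≤ C ∧ Cz ≤ C :=
    ⟨1 + 16 * (Cs * Cs2) + 16 * (Cs * Cs) + 8 * Cs + 1024 * E ^ 2 + 128 * (Cs * Cs2) +
      256 * (Cs * Cs2) * (64 * Cp * Cs * Cb ^ 2 + 16 * Cs * Cy) + (C6 + 1) +
      (Cs2 * C6 + C6 ^ 2 + 1) + Cz, by omega, by omega, by omega, by omega, by omega, by omega,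
      by omega, by omega, by omega, by omega⟩
  refine ⟨8 * Cs, C, by omega, hC0, ?_⟩
  intro N K Q hN hcov hQ
  -- real versions
  have rN : (1 : ℝ) ≤ N := by exact_mod_cast hN
  have rK : (0 : ℝ) ≤ K := Nat.cast_nonneg K
  have rCs : (1 : ℝ) ≤ Cs := by exact_mod_cast hCs
  have rCs2 : (1 : ℝ) ≤ Cs2 := by exact_mod_cast hCs.trans hCs2
  have rCs0 : (0 : ℝ) ≤ Cs := Nat.cast_nonneg Cs
  have rCs20 : (0 : ℝ) ≤ Cs2 := Nat.cast_nonneg Cs2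
  have rCp0 : (0 : ℝ) ≤ Cp := Nat.cast_nonneg Cp
  have rCf0 : (0 : ℝ) ≤ Cf := Nat.cast_nonneg Cf
  have rCz0 : (0 : ℝ) ≤ Cz := Nat.cast_nonneg Cz
  have rCb : (1 : ℝ) ≤ Cb := by exact_mod_cast hCb
  have rCb0 : (0 : ℝ) ≤ Cb := Nat.cast_nonneg Cb
  have rC6 : (1 : ℝ) ≤ C6 := by exact_mod_cast hC60
  have rC : (1 : ℝ) ≤ C := by exact_mod_cast hC0
  obtain ⟨P, hP⟩ : ∃ P : ℝ, P = Cs * Cs2 := ⟨_, rfl⟩
  have rP : 1 ≤ P := by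
    rw [hP]
    exact one_le_mul_of_one_le_of_one_le rCs rCs2
  have rE1 : 128 * P * Cs2 * Cf ≤ (E : ℝ) := by
    rw [hP]
    exact_mod_cast hE1
  have rE2 : 512 * P * Cp * Cf * (2 * Cb + 1) ≤ (E : ℝ) := by
    rw [hP]
    exact_mod_cast hE2
  have rE3 : 6 * (Cs2 : ℝ) * Cf ≤ (E : ℝ) := by exact_mod_cast hE3
  have rE4 : 4 * (Cp : ℝ) * Cf ≤ (E : ℝ) := by exact_mod_cast hE4
  have rE5 : (Cz : ℝ) ≤ (E : ℝ) := by exact_mod_cast hE5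
  have rC6' : 64 * P * (64 * Cp * Cs + 8 * Cz * Cs + 3) ≤ (C6 : ℝ) := by
    rw [hP]
    exact_mod_cast hC6
  have rC1 : 16 * P ≤ (C : ℝ) := by
    rw [hP]
    exact_mod_cast hC1
  have rC2 : 16 * ((Cs : ℝ) * Cs) ≤ C := by exact_mod_cast hC2
  have rC3 : 8 * (Cs : ℝ) ≤ C := by exact_mod_cast hC3
  have rC5 : 128 * P ≤ (C : ℝ) := by
    rw [hP]
    exact_mod_cast hC5
  have rC7 : 256 * P * (64 * Cp * Cs * Cb ^ 2 + 16 * Cs * Cy) ≤ (C : ℝ) := by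
    rw [hP]
    exact_mod_cast hC7
  have rC8 : (C6 : ℝ) + 1 ≤ C := by exact_mod_cast hC8
  have rC9 : (Cs2 : ℝ) * C6 + C6 ^ 2 + 1 ≤ C := by exact_mod_cast hC9
  have rC10 : (Cz : ℝ) ≤ C := by exact_mod_cast hC10
  clear hE1 hE2 hE3 hE4 hE5 hC6 hC1 hC2 hC3 hC5 hC7 hC9 hC10 hCp hCf hCz hCb hC0
  have hlg1 : 1 ≤ Real.log (((K : ℝ) + N) * N + 2) := by
    refine Hyp_one_le_log ?_
    have h1 : (1 : ℝ) * 1 ≤ ((K : ℝ) + N) * N :=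
      mul_le_mul (by linarith only [rN, rK]) rN zero_le_one (by positivity)
    linarith only [h1]
  -- consequences of the hypothesis
  obtain ⟨hQ1, hQC, hQCN, rNQ, rQ⟩ := Hyp_q rC rN rK hlg1 hQ
  have rQ0 : (0 : ℝ) ≤ Q := Nat.cast_nonneg Q
  have rN0 : (0 : ℝ) ≤ N := Nat.cast_nonneg N
  have hQnat : 1 ≤ Q := by exact_mod_cast rQ
  have hCQ : C ≤ Q := by exact_mod_cast hQC
  have hlog := Hyp_log hE0 (hC4.trans hCQ)
  clear hC4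
  obtain ⟨l, hl⟩ : ∃ l, l = Real.log ((Q : ℝ) + 2) := ⟨_, rfl⟩
  rw [← hl] at hlog
  have l1 : 1 ≤ l := by
    rw [hl]
    exact Hyp_one_le_log (by linarith only [rQ])
  have l0 : 0 ≤ l := zero_le_one.trans l1
  obtain ⟨W, hW⟩ : ∃ W : ℝ, W = N * (Q : ℝ) ^ 2 := ⟨_, rfl⟩
  have hQW : (Q : ℝ) ^ 2 ≤ W := by
    rw [hW]
    exact le_mul_of_one_le_left (sq_nonneg _) rN
  have hQQ : (Q : ℝ) ≤ (Q : ℝ) ^ 2 := le_self_pow₀ rQ two_ne_zero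
  have hW1 : 1 ≤ W := rQ.trans (hQQ.trans hQW)
  have hW0 : 0 ≤ W := zero_le_one.trans hW1
  have hT : ((2 * (8 * Cs * N) : ℕ) : ℝ) = 16 * Cs * N := by
    push_cast
    ring
  have hD : ((8 * Cs * N : ℕ) : ℝ) = 8 * Cs * N := by push_cast; ring
  have hD1 : 1 ≤ 8 * Cs * N := Nat.mul_pos (Nat.mul_pos (by norm_num) hCs) hN
  have hDQ : ((8 * Cs * N : ℕ) : ℝ) ≤ Q := by
    rw [hD]
    exact (mul_le_mul_of_nonneg_right rC3 rN0).trans hQCN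
  have hS1 : Cs * (2 * (8 * Cs * N)) * N ≤ Q := by
    have h1 : ((Cs * (2 * (8 * Cs * N)) * N : ℕ) : ℝ) ≤ Q := by
      push_cast
      have h2 : 16 * ((Cs : ℝ) * Cs) * (N * N) ≤ C * (N * N) :=
        mul_le_mul_of_nonneg_right rC2 (by positivity)
      linarith only [h2, hQ1]
    exact_mod_cast h1
  obtain ⟨A, hA⟩ : ∃ A : ℝ, A = Cf * (((8 * Cs * N : ℕ) : ℝ) + Q) * l := ⟨_, rfl⟩
  have hA0 : 0 ≤ A := by
    rw [hA]
    positivity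
  have hA2 : A ≤ 2 * Cf * Q * l := Hyp_A rCf0 hDQ l0 hA
  have hschw' : ∀ S2 : ℕ, Q ≤ S2 → Cs2 * ((2 * (8 * Cs * N) : ℕ) : ℝ) * ((K + N : ℕ) : ℝ) ^ 2 *
      Real.log (((K + N : ℕ) : ℝ) * N + 2) ≤ S2 := by
    intro S2 hS2
    have h1 : (Q : ℝ) ≤ S2 := by exact_mod_cast hS2
    refine le_trans ?_ h1
    refine le_trans ?_ hQ
    rw [hT]
    push_cast
    have h2 : (Cs2 : ℝ) * (16 * Cs * N) ≤ C * N := by
      have h3 : 16 * P * N ≤ C * N := mul_le_mul_of_nonneg_right rC1 rN0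
      rw [hP] at h3
      linarith only [h3]
    have h4 : 0 ≤ ((K : ℝ) + N) ^ 2 := sq_nonneg _
    exact mul_le_mul_of_nonneg_right (mul_le_mul_of_nonneg_right h2 h4) (zero_le_one.trans hlg1)
  constructor
  · obtain ⟨V, hV1, hV2⟩ := dim_V b (8 * Cs * N) Q (Cs * (2 * (8 * Cs * N)) * N) Q (by
      have h1 : Cs * (2 * (8 * Cs * N)) * N + Q ≤ 2 * Q := by omega
      calc 2 * (Cs * (2 * (8 * Cs * N)) * N * (Cs * (2 * (8 * Cs * N)) * N + Q))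
          ≤ 2 * (Cs * (2 * (8 * Cs * N)) * N * (2 * Q)) :=
            Nat.mul_le_mul_left _ (Nat.mul_le_mul_left _ h1)
        _ = (8 * Cs * N) ^ 2 * Q := by ring
        _ ≤ (8 * Cs * N + 1) ^ 2 * Q :=
            Nat.mul_le_mul_right _ (Nat.pow_le_pow_left (Nat.le_succ _) 2))
    refine ⟨V, hV1, fun c hc hc1 => ?_⟩
    have hF := hfd (8 * Cs * N) Q hD1 hQnat c hc1
    rw [← hl, ← hA] at hF
    have s1 : ∀ x1 x2, bet z x1 x2 = 0 →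
        Nw z (2 * (8 * Cs * N)) (FF b (8 * Cs * N) Q c) x1 x2 ≤ Real.exp (-(W / (32 * P))) := by
      intro x1 x2 hx
      have h1 := hschw (2 * (8 * Cs * N)) N K (K + N) Q _ _ A (by omega) hN hQnat hA0 hF hcov
        (by omega) (by omega) (hschw' Q le_rfl) 0 le_rfl
        (fun a e h1 h2 => by rw [hV2 c hc a e h1 h2, norm_zero]) x1 x2 hx
      rw [mul_zero, add_zero] at h1
      refine h1.trans (Real.exp_le_exp.2 ?_)
      rw [hT]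
      have e1 : ((Q : ℝ) * N) ^ 2 / (Cs2 * (16 * Cs * N)) = W / (16 * P) := by
        rw [hW, hP]
        field_simp
      have e2 : Real.log ((Q : ℝ) * N + 2) ≤ 2 * l := by
        rw [hl]
        exact_mod_cast Hyp_lg (Q := Q) 2 (by positivity) (Hyp_sq2 rNQ rQ)
      rw [e1]
      exact Hyp_r1 rP rCs20 hA0 hA2 e2 l0 rE1 hlog rQ0 hQW
    intro a e
    have s2 := hspr (2 * (8 * Cs * N)) _ _ A (by omega) hA0 hF (W / (32 * P)) (2 * Cb)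
      (by positivity) (by linarith only [rCb]) s1
    have s3 : ∀ x1 x2 : ℂ, ‖x1‖ = 1 → ‖x2‖ = 1 → ‖FF b (8 * Cs * N) Q c x1 x2‖ ≤
        Real.exp (-(N * (Q : ℝ) ^ 2 / C)) := by
      intro x1 x2 h1 h2
      have h3 : |bet z x1 x2| ≤ 2 * Cb := by
        have := hbet x1 x2
        rw [h1, h2] at this
        linarith only [this]
      refine (Hyp_torus hz hCy _ _ _ x1 x2 h1 h2 (s2 x1 x2 h3)).trans (Real.exp_le_exp.2 ?_)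
      rw [hT, ← hW]
      have e1 : Real.log (2 * (Cb : ℝ) + 2) ≤ 2 * Cb + 1 := by
        have := Real.log_le_sub_one_of_pos (by linarith only [rCb] : (0 : ℝ) < 2 * Cb + 2)
        linarith only [this]
      exact Hyp_r2 rP rCp0 rCf0 rCb0 hA0 hA2 e1 l1 rE2 hlog rQ hQW hQCN rN0 rC5 rC7
    have s4 := cauchy2 _ _ hF.ser 1 _ one_pos s3 a e
    rw [one_pow, div_one] at s4
    exact s4
  · intro c hc1 hc2
    by_contra hcon
    push Not at hcon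
    have hF := hfd (8 * Cs * N) Q hD1 hQnat c hc1
    rw [← hl, ← hA] at hF
    have hC6Q : (C6 : ℝ) ≤ Q := by linarith only [rC8, hQC]
    have s1 : ∀ x1 x2, bet z x1 x2 = 0 →
        Nw z (2 * (8 * Cs * N)) (FF b (8 * Cs * N) Q c) x1 x2 ≤
          Real.exp (-((C6 : ℝ) ^ 2 * W / (32 * P))) := by
      intro x1 x2 hx
      have h0 : Q ≤ C6 * Q := Nat.le_mul_of_pos_left Q hC60
      have h1 := hschw (2 * (8 * Cs * N)) N K (K + N) (C6 * Q) _ _ A (by omega) hN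
        (hQnat.trans h0) hA0 hF hcov (by omega) (by omega) (hschw' (C6 * Q) h0)
        (Real.exp (-(C * N * (Q : ℝ) ^ 2))) (Real.exp_pos _).le
        (fun a e h1 h2 => (hcon a e (by
          have h3 : (C6 + 1) * Q ≤ C * Q := Nat.mul_le_mul_right Q hC8
          have h4 : (C6 + 1) * Q = C6 * Q + Q := by ring
          omega)).le) x1 x2 hx
      have f1 : (((C6 * Q : ℕ) : ℝ) * N) ^ 2 / (Cs2 * ((2 * (8 * Cs * N) : ℕ) : ℝ)) =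
          (C6 : ℝ) ^ 2 * W / (16 * P) := by
        rw [hT, hW, hP]
        push_cast
        field_simp
      have f2 : Real.log (((C6 * Q : ℕ) : ℝ) * N + 2) ≤ 3 * l := by
        rw [hl]
        have h3 : (0 : ℝ) < ((C6 * Q : ℕ) : ℝ) * N + 2 := by positivity
        have h4 : ((C6 * Q : ℕ) : ℝ) * N + 2 ≤ ((Q : ℝ) + 2) ^ 3 := by
          push_cast
          exact Hyp_sq3 hC6Q rNQ rQ rN0
        exact_mod_cast Hyp_lg (Q := Q) 3 h3 h4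
      have g1 : Real.exp (-((((C6 * Q : ℕ) : ℝ) * N) ^ 2 /
          (Cs2 * ((2 * (8 * Cs * N) : ℕ) : ℝ))) + Cs2 * A *
            Real.log (((C6 * Q : ℕ) : ℝ) * N + 2)) ≤
          Real.exp (-((C6 : ℝ) ^ 2 * W / (32 * P)) - 1) := by
        refine Real.exp_le_exp.2 ?_
        rw [f1]
        refine Hyp_r3 (G := 64 * Cp * Cs + 8 * Cz * Cs + 3) rP rCs20 hA0 hA2 f2 l0 rE3 hlog rQ
          hQW ?_ rC6'
        have h5 : 0 ≤ 64 * (Cp : ℝ) * Cs + 8 * Cz * Cs := by positivity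
        linarith only [h5]
      have g2 : Real.exp (Cs2 * ((C6 * Q : ℕ) : ℝ)) * Real.exp (-(C * N * (Q : ℝ) ^ 2)) ≤
          Real.exp (-((C6 : ℝ) ^ 2 * W / (32 * P)) - 1) := by
        rw [← Real.exp_add]
        refine Real.exp_le_exp.2 ?_
        push_cast
        have h3 : (C : ℝ) * N * (Q : ℝ) ^ 2 = C * W := by
          rw [hW]
          ring
        rw [h3]
        exact Hyp_r4 rP rCs20 (zero_le_one.trans rC6) (hQQ.trans hQW) hW1 rC9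
      have g3 : Real.exp (-((C6 : ℝ) ^ 2 * W / (32 * P)) - 1) ≤
          Real.exp (-((C6 : ℝ) ^ 2 * W / (32 * P))) / 2 := by
        rw [Real.exp_sub]
        refine div_le_div_of_nonneg_left (Real.exp_pos _).le (by norm_num) ?_
        have := Real.add_one_le_exp (1 : ℝ)
        linarith only [this]
      linarith only [h1, g1, g2, g3]
    obtain ⟨x1, x2, hx, hx'⟩ := hze (8 * Cs * N) Q hD1 hQnat c hc1 hc2
    have s2 := hspr (2 * (8 * Cs * N)) _ _ A (by omega) hA0 hF ((C6 : ℝ) ^ 2 * W / (32 * P))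
      (Q + Cz) (by positivity) (by linarith only [rQ, rCz0]) s1 x1 x2 hx
    have rCzQ : (Cz : ℝ) ≤ Q := rC10.trans hQC
    have e2 : Real.log ((Q : ℝ) + Cz + 2) ≤ 2 * l := by
      rw [hl]
      exact_mod_cast Hyp_lg (Q := Q) 2 (by positivity) (Hyp_sq4 rCzQ rQ)
    rw [← hl] at hx'
    have h9 := hx'.trans s2
    rw [Real.exp_le_exp, hT] at h9
    have h10 := Hyp_r5 rP rCp0 rCs0 rCz0 rCzQ hA0 hA2 e2 l1 rE4 rE5 hlog rQ rN hW rC6 rC6' hD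
    linarith only [h9, h10]

end U2
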