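import Pool.Agent.H22.U2.Ari
import Pool.Agent.H22.U2.Hyp
import Pool.Agent.H22.U2.Dt1
import Pool.Agent.H22.U2.Dt2

/-!
# MP_ede373, theorem (U2), row Dta: the data for the criterion

`b, lam, P, Ca` from `arith_u2`; `C0, Ch` from `hyp_ana b hz`; `C1` from `dat_low`, `C2` from `dat_up` (with this `lam`, `Ch`). `D = C0 N`; the hypothesis with `C` large gives
`Q ≥ C` and `D ≤ Q` (`log (.. + 2) ≥ log 3 ≥ 1`, `K + N ≥ 1`). `Λ = Ix D Q`, `R = {p : ℕ × ℕ // p.1 + p.2 ≤ Ch Q}`, `W (a, e) l = WP D l.1 l.2.1 l.2.2 a e`,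
`J l a e = jc b D l.1 l.2.1 l.2.2 a e`, `Wv l a e = aeval P (W (a, e) l)`; `JJ b D Q c a e = ∑ l, c l * J l a e` by definition.
* card: `(D + 1)^2 Q ≤ (Q + 1)^2 Q`, `log ≤ 3 log (Q + 2)`.
* degrees: `D + k + a + e + 1 ≤ (3 + Ch) Q` (`k < Q`), `log (D + k + a + e + 2) ≤ log ((5 + Ch) Q) ≤ C3 log (Q + 2)`.
* lower bound: `dat_low`; subspace: `dat_up`; `exp (-(C1 N Q^2)) ≥ exp (-(C N Q^2))` for `C ≥ C1`, `exp (-(N Q^2/C2)) ≤ exp (-(N Q^2/C))` for `C ≥ C2`.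
-/

set_option autoImplicit false

namespace U2

open MvPolynomial CZ
open H32.T3 (nrm)

/-- Consequences of the size hypothesis. -/
theorem dta_num {C N K Q c : ℕ} (hN : 1 ≤ N) (hc : c ≤ C)
    (h : C * N * ((K : ℝ) + N) ^ 2 * Real.log (((K : ℝ) + N) * N + 2) ≤ Q) :
    c * N * ((K : ℝ) + N) ^ 2 * Real.log (((K : ℝ) + N) * N + 2) ≤ Q ∧ c * N ≤ Q ∧ c ≤ Q := by
  have hN' : (1 : ℝ) ≤ N := by exact_mod_cast hN
  have hK' : (0 : ℝ) ≤ K := Nat.cast_nonneg K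
  have hc' : (c : ℝ) ≤ C := by exact_mod_cast hc
  have hc0 : (0 : ℝ) ≤ c := Nat.cast_nonneg c
  have h1 : (1 : ℝ) ≤ (K : ℝ) + N := by linarith
  have h2 : (1 : ℝ) ≤ ((K : ℝ) + N) ^ 2 := one_le_pow₀ h1
  have h3 : (1 : ℝ) ≤ ((K : ℝ) + N) * N := one_le_mul_of_one_le_of_one_le h1 hN'
  have h4 : (1 : ℝ) ≤ Real.log (((K : ℝ) + N) * N + 2) := by
    rw [← Real.log_exp 1]
    apply Real.log_le_log (Real.exp_pos 1)
    have := Real.exp_one_lt_d9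
    linarith
  have h5 : (c : ℝ) * N * ((K : ℝ) + N) ^ 2 * Real.log (((K : ℝ) + N) * N + 2) ≤ Q := by
    refine le_trans ?_ h
    have ha : (0 : ℝ) ≤ Real.log (((K : ℝ) + N) * N + 2) := by linarith
    have hb : (0 : ℝ) ≤ ((K : ℝ) + N) ^ 2 := by positivity
    have hd : (0 : ℝ) ≤ N := by linarith
    exact mul_le_mul_of_nonneg_right (mul_le_mul_of_nonneg_right
      (mul_le_mul_of_nonneg_right hc' hd) hb) ha
  have h6 : (c : ℝ) * N ≤ c * N * ((K : ℝ) + N) ^ 2 * Real.log (((K : ℝ) + N) * N + 2) := by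
    have ha : (0 : ℝ) ≤ (c : ℝ) * N := by positivity
    have hb : (1 : ℝ) ≤ ((K : ℝ) + N) ^ 2 * Real.log (((K : ℝ) + N) * N + 2) :=
      one_le_mul_of_one_le_of_one_le h2 h4
    calc (c : ℝ) * N = c * N * 1 := (mul_one _).symm
      _ ≤ c * N * (((K : ℝ) + N) ^ 2 * Real.log (((K : ℝ) + N) * N + 2)) :=
        mul_le_mul_of_nonneg_left hb ha
      _ = _ := by ring
  have h7 : (c : ℝ) * N ≤ Q := h6.trans h5
  have h8 : (c : ℝ) ≤ c * N := le_mul_of_one_le_right hc0 hN'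
  refine ⟨h5, ?_, ?_⟩
  · exact_mod_cast h7
  · exact_mod_cast h8.trans h7

theorem dat_u2 (z : ℂ) (hz : 0 < z.im)
    (hcm : ¬ ∃ a b c : ℤ, (a ≠ 0 ∨ b ≠ 0 ∨ c ≠ 0) ∧ (a : ℂ) * z ^ 2 + b * z + c = 0)
    (E4 E6 Jf : ℂ → ℂ)
    (h4 : ∀ τ : ℂ, E4 τ = 1 + 240 * ∑' m : ℕ, ((ArithmeticFunction.sigma 3 (m + 1) : ℕ) : ℂ) *
          Complex.exp (2 * (Real.pi : ℂ) * Complex.I * ((m : ℂ) + 1) * τ))
    (h6 : ∀ τ : ℂ, E6 τ = 1 - 504 * ∑' m : ℕ, ((ArithmeticFunction.sigma 5 (m + 1) : ℕ) : ℂ) *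
          Complex.exp (2 * (Real.pi : ℂ) * Complex.I * ((m : ℂ) + 1) * τ))
    (hJ : ∀ τ : ℂ, Jf τ = 1728 * E4 τ ^ 3 / (E4 τ ^ 3 - E6 τ ^ 2)) :
    ∃ (P : Fin 7 → ℂ) (C : ℕ), 1 ≤ C ∧
      (∀ i, IsAlgebraic (IntermediateField.adjoin ℚ
        (Set.range (![z, Jf z, deriv Jf z, deriv (deriv Jf) z] : Fin 4 → ℂ))) (P i)) ∧
      ∀ N K Q : ℕ, 1 ≤ N → COV z N K →
        C * N * ((K : ℝ) + N) ^ 2 * Real.log (((K : ℝ) + N) * N + 2) ≤ Q → Dat P C N Q := by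
  obtain ⟨b, lam, P, Ca, hlam, hCa, hP, har⟩ := arith_u2 z hz hcm E4 E6 Jf h4 h6 hJ
  obtain ⟨C0, Ch, hC0, hCh, hyp⟩ := hyp_ana b hz
  obtain ⟨C1, hC1, hlow⟩ := dat_low lam hlam Ch
  obtain ⟨C2, hC2, hup⟩ := dat_up lam hlam Ch hCh
  obtain ⟨C, hC⟩ : ∃ C : ℕ, C = 2 * Ca * (2 + Ch) + 3 + (3 + Ch) + C1 + C2 + C0 + Ch := ⟨_, rfl⟩
  refine ⟨P, C, by omega, hP, ?_⟩
  intro N K Q hN hcov hQ
  obtain ⟨-, hDQ, -⟩ := dta_num (c := C0) hN (by omega) hQ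
  obtain ⟨hQh, -, -⟩ := dta_num (c := Ch) hN (by omega) hQ
  obtain ⟨-, -, hC2Q⟩ := dta_num (c := C2) hN (by omega) hQ
  obtain ⟨-, -, hC3Q⟩ := dta_num (c := 3 + Ch) hN (by omega) hQ
  have hyp' := hyp N K Q hN hcov hQh
  obtain ⟨D, hD⟩ : ∃ D : ℕ, D = C0 * N := ⟨_, rfl⟩
  rw [← hD] at hDQ hyp'
  obtain ⟨⟨V, hVd, hV⟩, hlo⟩ := hyp'
  have hD1 : 1 ≤ D := by
    rw [hD]
    exact Nat.mul_pos hC0 hN
  have hQ1 : 1 ≤ Q := by omega
  have hQr : (1 : ℝ) ≤ Q := by exact_mod_cast hQ1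
  have hNr : (1 : ℝ) ≤ N := by exact_mod_cast hN
  have hlog1 : (1 : ℝ) ≤ Real.log ((Q : ℝ) + 2) := by
    rw [← Real.log_exp 1]
    apply Real.log_le_log (Real.exp_pos 1)
    have := Real.exp_one_lt_d9
    linarith
  have hrel : ∀ (l : Ix D Q) (a e : ℕ), (a.factorial : ℂ) * e.factorial *
      (2 * Real.pi * Complex.I * (2 * D) / lam) ^ (l.2.2 : ℕ) * jc b D l.1 l.2.1 l.2.2 a e =
        lam ^ (a + e) * aeval P (WP D l.1 l.2.1 l.2.2 a e) := by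
    intro l a e
    exact (har D l.1 l.2.1 l.2.2 a e hD1 (Nat.lt_succ_iff.mp l.1.2)
      (Nat.lt_succ_iff.mp l.2.1.2)).2.2
  have hlow' := hlow D N Q hD1 hDQ hN
    (fun l a e => jc b D l.1 l.2.1 l.2.2 a e)
    (fun l a e => aeval P (WP D l.1 l.2.1 l.2.2 a e)) hrel hlo
  obtain ⟨V', hV'd, hV'⟩ := hup D N Q hD1 hDQ hN hC2Q
    (fun l a e => jc b D l.1 l.2.1 l.2.2 a e)
    (fun l a e => aeval P (WP D l.1 l.2.1 l.2.2 a e)) hrel V hV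
  refine ⟨Ix D Q, inferInstance, {p : ℕ × ℕ // p.1 + p.2 ≤ Ch * Q},
    fun s l => WP D l.1 l.2.1 l.2.2 s.1.1 s.1.2, ?_, ?_, ?_, ?_, V', ?_, ?_⟩
  · haveI : Nonempty (Fin Q) := ⟨⟨0, hQ1⟩⟩
    exact Fintype.card_pos
  · have hcard : Fintype.card (Ix D Q) = (D + 1) * ((D + 1) * Q) := by
      rw [Fintype.card_prod, Fintype.card_prod, Fintype.card_fin, Fintype.card_fin]
    rw [hcard]
    have h1 : (((D + 1) * ((D + 1) * Q) : ℕ) : ℝ) ≤ ((Q : ℝ) + 2) ^ 3 := by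
      push_cast
      have hDr : (D : ℝ) ≤ Q := by exact_mod_cast hDQ
      have hD0 : (0 : ℝ) ≤ D := Nat.cast_nonneg D
      have h2 : ((D : ℝ) + 1) ≤ Q + 2 := by linarith
      have h3 : (Q : ℝ) ≤ Q + 2 := by linarith
      calc ((D : ℝ) + 1) * (((D : ℝ) + 1) * Q) ≤ ((Q : ℝ) + 2) * (((Q : ℝ) + 2) * (Q + 2)) := by
            gcongr
        _ = _ := by ring
    have h0 : (0 : ℝ) < (((D + 1) * ((D + 1) * Q) : ℕ) : ℝ) := by
      have : 0 < (D + 1) * ((D + 1) * Q) := by positivity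
      exact_mod_cast this
    have h4 : Real.log (((D + 1) * ((D + 1) * Q) : ℕ) : ℝ) ≤ 3 * Real.log ((Q : ℝ) + 2) := by
      refine (Real.log_le_log h0 h1).trans (le_of_eq ?_)
      rw [Real.log_pow]
      norm_num
    refine h4.trans ?_
    have h5 : (3 : ℝ) ≤ C * Q := by
      have : 3 ≤ C * Q := le_trans (by omega) (Nat.le_mul_of_pos_right C hQ1)
      exact_mod_cast this
    exact mul_le_mul_of_nonneg_right h5 (by linarith)
  · intro s l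
    obtain ⟨⟨a, e⟩, hae⟩ := s
    have hl1 : (l.1 : ℕ) ≤ D := Nat.lt_succ_iff.mp l.1.2
    have hl2 : (l.2.1 : ℕ) ≤ D := Nat.lt_succ_iff.mp l.2.1.2
    have hk : (l.2.2 : ℕ) + 1 ≤ Q := l.2.2.2
    have hae' : a + e ≤ Ch * Q := hae
    obtain ⟨hdeg, hnrm, -⟩ := har D l.1 l.2.1 l.2.2 a e hD1 hl1 hl2
    have hsz : (D : ℝ) + (l.2.2 : ℕ) + a + e + 1 ≤ (2 + Ch) * Q := by
      have h1 : D + (l.2.2 : ℕ) + a + e + 1 ≤ (2 + Ch) * Q := by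
        have h2 : (2 + Ch) * Q = Q + Q + Ch * Q := by ring
        omega
      exact_mod_cast h1
    have hsz0 : (0 : ℝ) ≤ (D : ℝ) + (l.2.2 : ℕ) + a + e + 1 := by positivity
    have hCa0 : (0 : ℝ) ≤ Ca := Nat.cast_nonneg Ca
    have hlg : Real.log ((D : ℝ) + (l.2.2 : ℕ) + a + e + 2) ≤ 2 * Real.log ((Q : ℝ) + 2) := by
      have h1 : (D : ℝ) + (l.2.2 : ℕ) + a + e + 2 ≤ ((Q : ℝ) + 2) ^ 2 := by
        have h2 : ((3 + Ch : ℕ) : ℝ) ≤ Q := by exact_mod_cast hC3Q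
        push_cast at h2
        have h3 : ((3 : ℝ) + Ch) * Q ≤ Q * Q := mul_le_mul_of_nonneg_right h2 (by linarith)
        nlinarith
      have h0 : (0 : ℝ) < (D : ℝ) + (l.2.2 : ℕ) + a + e + 2 := by positivity
      refine (Real.log_le_log h0 h1).trans (le_of_eq ?_)
      rw [Real.log_pow]
      norm_num
    have hlg0 : (0 : ℝ) ≤ Real.log ((D : ℝ) + (l.2.2 : ℕ) + a + e + 2) := by
      apply Real.log_nonneg
      have : (0 : ℝ) ≤ (D : ℝ) + (l.2.2 : ℕ) + a + e := by positivity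
      linarith
    have hCC : (2 : ℝ) * Ca * (2 + Ch) ≤ C := by
      have : 2 * Ca * (2 + Ch) ≤ C := by omega
      exact_mod_cast this
    have hmain : (Ca : ℝ) * ((D : ℝ) + (l.2.2 : ℕ) + a + e + 1) ≤ Ca * ((2 + Ch) * Q) :=
      mul_le_mul_of_nonneg_left hsz hCa0
    have hmain2 : (2 : ℝ) * (Ca * ((2 + Ch) * Q)) ≤ C * Q := by
      have := mul_le_mul_of_nonneg_right hCC (by linarith : (0 : ℝ) ≤ Q)
      linarith
    have hpos : (0 : ℝ) ≤ Ca * ((2 + Ch) * Q) := by positivity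
    constructor
    · refine hdeg.trans (hmain.trans ?_)
      have h1 : (Ca : ℝ) * ((2 + Ch) * Q) ≤ C * Q := by linarith
      refine h1.trans ?_
      have h2 : (0 : ℝ) ≤ C * Q := by positivity
      calc (C : ℝ) * Q = C * Q * 1 := (mul_one _).symm
        _ ≤ C * Q * Real.log ((Q : ℝ) + 2) := mul_le_mul_of_nonneg_left hlog1 h2
    · refine hnrm.trans ?_
      apply Real.exp_le_exp.mpr
      calc (Ca : ℝ) * ((D : ℝ) + (l.2.2 : ℕ) + a + e + 1) *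
            Real.log ((D : ℝ) + (l.2.2 : ℕ) + a + e + 2)
          ≤ Ca * ((2 + Ch) * Q) * (2 * Real.log ((Q : ℝ) + 2)) :=
            mul_le_mul hmain hlg hlg0 hpos
        _ = 2 * (Ca * ((2 + Ch) * Q)) * Real.log ((Q : ℝ) + 2) := by ring
        _ ≤ C * Q * Real.log ((Q : ℝ) + 2) :=
            mul_le_mul_of_nonneg_right hmain2 (by linarith)
  · intro c hc1 hc2
    obtain ⟨a, e, hae, hle⟩ := hlow' c hc1 hc2
    refine ⟨⟨(a, e), hae⟩, le_trans ?_ hle⟩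
    apply Real.exp_le_exp.mpr
    apply neg_le_neg
    have h1 : (C1 : ℝ) ≤ C := by
      have : C1 ≤ C := by omega
      exact_mod_cast this
    have h2 : (0 : ℝ) ≤ N := Nat.cast_nonneg N
    have h3 : (0 : ℝ) ≤ (Q : ℝ) ^ 2 := by positivity
    exact mul_le_mul_of_nonneg_right (mul_le_mul_of_nonneg_right h1 h2) h3
  · rw [hV'd]
    exact hVd
  · intro c hc hc1 s
    refine (hV' c hc hc1 s.1.1 s.1.2 s.2).trans ?_
    apply Real.exp_le_exp.mpr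
    apply neg_le_neg
    have h1 : (C2 : ℝ) ≤ C := by
      have : C2 ≤ C := by omega
      exact_mod_cast this
    have h2 : (0 : ℝ) ≤ (N : ℝ) * (Q : ℝ) ^ 2 := by positivity
    have h3 : (0 : ℝ) < C2 := by
      have : 0 < C2 := by omega
      exact_mod_cast this
    exact div_le_div_of_nonneg_left h2 h3 h1

end U2
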