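import Pool.Agent.H32.AZ.Crit

/-!
# MP_ede373, theorem (U2), row Ext: extension of approximations, with constants

`ext_one`: `alg_rel P y h` gives `n, G`; `xd_local` gives `d1`; `N = max totalDegree`, `Bn = 1 + ∑ nrm` as in `appr_ext` (`Pool/Agent/H32/CZ/Xd.lean`);
`xd_alg` gives `ApprAt (Fin.snoc P y) (n (1 + log (n Bn) + N k) t) (V/(4 n^2))` if `t d1 ≤ V/2`, `0 < V`. Take the natural number
`C ≥ n (1 + log (n Bn) + N k), 4 n^2, 2 d1, 1` and use monotonicity of `ApprAt` in `t` (increasing) and `V` (decreasing).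
`ext_const`: induction as in `AZ.appr_of_alg1_aux` (`Pool/Agent/H32/AZ/Crit.lean`): for every `j` there are `m`, `Q : Fin m → ℂ` and `C` such that
`range ![θ] ⊆ range Q`, `P i ∈ range Q` for `i < j`, and `ApprAt ![θ] t V → ApprAt Q (C t) (V/C)` for `1 ≤ t`, `C t ≤ V`. (If `C` works for `Q` and
`C1` for the next step take `C * C * C1` or larger: `C1 (C t) ≤ V/C`.) Finally reindex (as in `appr_reindex`, `Pool/Agent/H32/CZ/Xe.lean`).
-/

set_option autoImplicit false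

namespace U2

open CZ

theorem Ext_mono {k : ℕ} {P : Fin k → ℂ} {t V t' V' : ℝ} (ht : t ≤ t') (hV : V' ≤ V)
    (hA : ApprAt P t V) : ApprAt P t' V' := by
  obtain ⟨E, _, _, x, S, d, h1, h2, h3, h4⟩ := hA
  exact ⟨E, inferInstance, inferInstance, x, S, d, h1.trans ht, fun i => (h2 i).trans ht, h3,
    hV.trans h4⟩

theorem Ext_reindex {k m : ℕ} (P : Fin k → ℂ) (f : Fin m → Fin k) {t V : ℝ}
    (hA : ApprAt P t V) : ApprAt (fun i ↦ P (f i)) t V := by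
  obtain ⟨E, _, _, x, S, d, h1, h2, h3, h4⟩ := hA
  exact ⟨E, inferInstance, inferInstance, fun i ↦ x (f i), S, d, h1,
    fun i ↦ h2 (f i), fun φ hφ ↦ ⟨(h3 φ hφ).1, fun i ↦ (h3 φ hφ).2 (f i)⟩, h4⟩

theorem ext_one {k : ℕ} (P : Fin k → ℂ) (y : ℂ)
    (h : IsAlgebraic (IntermediateField.adjoin ℚ (Set.range P)) y) :
    ∃ C : ℕ, 1 ≤ C ∧ ∀ t V : ℝ, 1 ≤ t → C * t ≤ V → ApprAt P t V →
      ApprAt (Fin.snoc P y : Fin (k + 1) → ℂ) (C * t) (V / C) := by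
  obtain ⟨n, G, hn, hGn, hs⟩ := alg_rel P y h
  obtain ⟨d1, hd1, hloc⟩ := xd_local P y n G hn hGn hs
  obtain ⟨N, hN⟩ : ∃ N : ℕ, ∀ j ≤ n, (G j).totalDegree ≤ N :=
    ⟨(Finset.range (n + 1)).sup fun j => (G j).totalDegree, fun j hj =>
      Finset.le_sup (f := fun j => (G j).totalDegree) (Finset.mem_range.2 (Nat.lt_succ_of_le hj))⟩
  obtain ⟨Bn, hBn1, hBn⟩ : ∃ Bn : ℝ, 1 ≤ Bn ∧ ∀ j ≤ n, H32.T3.nrm (G j) ≤ Bn := by
    refine ⟨1 + ∑ j ∈ Finset.range (n + 1), H32.T3.nrm (G j), ?_, fun j hj => ?_⟩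
    · have := Finset.sum_nonneg (s := Finset.range (n + 1)) (f := fun j => H32.T3.nrm (G j))
        fun j _ => H32.T3.nrm_nonneg _
      linarith
    · have := Finset.single_le_sum (f := fun j => H32.T3.nrm (G j)) (fun j _ => H32.T3.nrm_nonneg _)
        (Finset.mem_range.2 (Nat.lt_succ_of_le hj))
      linarith
  obtain ⟨K, hK⟩ : ∃ K : ℝ, K = n * (1 + Real.log (n * Bn) + N * k) := ⟨_, rfl⟩
  obtain ⟨C, hC⟩ : ∃ C : ℕ, C = ⌈K⌉₊ + 4 * n ^ 2 + ⌈2 * d1⌉₊ + 1 := ⟨_, rfl⟩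
  have hCr : (C : ℝ) = (⌈K⌉₊ : ℝ) + 4 * (n : ℝ) ^ 2 + (⌈2 * d1⌉₊ : ℝ) + 1 := by
    rw [hC]
    push_cast
    ring
  have c1 : K ≤ (⌈K⌉₊ : ℝ) := Nat.le_ceil K
  have c2 : 2 * d1 ≤ (⌈2 * d1⌉₊ : ℝ) := Nat.le_ceil _
  have c3 : (0 : ℝ) ≤ (⌈K⌉₊ : ℝ) := Nat.cast_nonneg _
  have c4 : (0 : ℝ) ≤ (⌈2 * d1⌉₊ : ℝ) := Nat.cast_nonneg _
  have hn' : (0 : ℝ) < n := by exact_mod_cast hn
  have c5 : 0 < 4 * (n : ℝ) ^ 2 := by positivity
  have hKC : K ≤ C := by linarith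
  have hdC : 2 * d1 ≤ C := by linarith
  have hnC : 4 * (n : ℝ) ^ 2 ≤ C := by linarith
  have hC0 : (0 : ℝ) < C := by linarith
  refine ⟨C, by omega, fun t V ht hV hA => ?_⟩
  have ht0 : 0 ≤ t := by linarith
  have hV0 : 0 < V := lt_of_lt_of_le (by positivity) hV
  have htd : t * d1 ≤ V / 2 := by
    have h1 : 2 * d1 * t ≤ C * t := mul_le_mul_of_nonneg_right hdC ht0
    linarith
  have h2 := xd_alg P y n G hn N hN Bn hBn1 hBn d1 hd1 hloc t V ht hV0 htd hA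
  rw [← hK] at h2
  refine Ext_mono (mul_le_mul_of_nonneg_right hKC ht0) ?_ h2
  exact div_le_div_of_nonneg_left hV0.le c5 hnC

theorem Ext_aux {k : ℕ} (θ : ℂ) (P : Fin k → ℂ)
    (hP : ∀ i, IsAlgebraic (IntermediateField.adjoin ℚ (Set.range ![θ])) (P i)) (j : ℕ) :
    ∃ (m : ℕ) (Q : Fin m → ℂ) (C : ℕ), 1 ≤ C ∧ Set.range ![θ] ⊆ Set.range Q ∧
      (∀ i : Fin k, (i : ℕ) < j → P i ∈ Set.range Q) ∧
      ∀ t V : ℝ, 1 ≤ t → C * t ≤ V → ApprAt ![θ] t V → ApprAt Q (C * t) (V / C) := by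
  induction j with
  | zero =>
    refine ⟨1, ![θ], 1, le_rfl, subset_rfl, fun i hi ↦ absurd hi (Nat.not_lt_zero _), ?_⟩
    intro t V _ _ hA
    rw [Nat.cast_one, one_mul, div_one]
    exact hA
  | succ j ih =>
    obtain ⟨m, Q, C, hC, hQ, hQP, hA⟩ := ih
    by_cases hj : j < k
    · obtain ⟨C1, hC1, h1⟩ := ext_one Q (P ⟨j, hj⟩) (isAlgebraic_of_adjoin_le hQ _ (hP ⟨j, hj⟩))
      have hCr : (1 : ℝ) ≤ C := by exact_mod_cast hC
      have hC1r : (1 : ℝ) ≤ C1 := by exact_mod_cast hC1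
      refine ⟨m + 1, (Fin.snoc Q (P ⟨j, hj⟩) : Fin (m + 1) → ℂ), C * C * C1, ?_, ?_, ?_, ?_⟩
      · exact Nat.mul_pos (Nat.mul_pos hC hC) hC1
      · intro z hz
        obtain ⟨i, rfl⟩ := hQ hz
        exact ⟨i.castSucc, by simp⟩
      · intro i hi
        rcases Nat.lt_succ_iff_lt_or_eq.mp hi with h | h
        · obtain ⟨l, hl⟩ := hQP i h
          exact ⟨l.castSucc, by simpa using hl⟩
        · refine ⟨Fin.last m, ?_⟩
          have : i = ⟨j, hj⟩ := Fin.ext h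
          simp [this]
      · intro t V ht hV hAt
        have ht0 : 0 ≤ t := by linarith
        have hCC : (1 : ℝ) ≤ C * C := by nlinarith
        have e : (((C * C * C1 : ℕ) : ℕ) : ℝ) = C * C * C1 := by push_cast; ring
        rw [e] at hV ⊢
        have k1 : (C : ℝ) ≤ C * C * C1 := by
          have : (1 : ℝ) ≤ C * C1 := by nlinarith
          nlinarith
        have k2 : (C : ℝ) * t ≤ V := (mul_le_mul_of_nonneg_right k1 ht0).trans hV
        have k3 : (1 : ℝ) ≤ C * t := by nlinarith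
        have hC0 : (0 : ℝ) < C := by linarith
        have hC10 : (0 : ℝ) < C1 := by linarith
        have k4 : (C1 : ℝ) * (C * t) ≤ V / C := by
          rw [le_div_iff₀ hC0]
          linarith
        have hV0 : 0 ≤ V := by linarith
        refine Ext_mono ?_ ?_ (h1 (C * t) (V / C) k3 k4 (hA t V ht k2 hAt))
        · have k5 : (C1 : ℝ) * C ≤ C * C * C1 := by nlinarith [mul_pos hC0 hC10]
          calc (C1 : ℝ) * (C * t) = C1 * C * t := by ring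
            _ ≤ C * C * C1 * t := mul_le_mul_of_nonneg_right k5 ht0
        · rw [div_div]
          refine div_le_div_of_nonneg_left hV0 (mul_pos hC0 hC10) ?_
          nlinarith [mul_pos hC0 hC10]
    · refine ⟨m, Q, C, hC, hQ, fun i hi ↦ hQP i ?_, hA⟩
      have := i.2
      omega

theorem ext_const {k : ℕ} (θ : ℂ) (P : Fin k → ℂ)
    (hP : ∀ i, IsAlgebraic (IntermediateField.adjoin ℚ (Set.range ![θ])) (P i)) :
    ∃ C : ℕ, 1 ≤ C ∧ ∀ t V : ℝ, 1 ≤ t → C * t ≤ V → ApprAt ![θ] t V →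
      ApprAt P (C * t) (V / C) := by
  obtain ⟨m, Q, C, hC, -, hQP, hA⟩ := Ext_aux θ P hP k
  choose f hf using fun i : Fin k ↦ hQP i i.2
  refine ⟨C, hC, fun t V ht hV h => ?_⟩
  have h1 := Ext_reindex Q f (hA t V ht hV h)
  have hPQ : (fun i ↦ Q (f i)) = P := funext hf
  rwa [hPQ] at h1

end U2
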