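import Pool.Agent.H22.U2.Co2
import Pool.Agent.H22.U2.Di
import Pool.Agent.H22.U2.Ext

/-!
# MP_ede373, theorem (U2), row Fi: the final contradiction

`C1, C2` from `sum_le P C`, `Ce` from `ext_const`, `T0` from `line_const`. Let `l1 ≥ l0, 1` with `2^l1 ≥ C2` and (see below) `l1 > C6`. For `T ≥ T0` large: `s, W`
with `1 ≤ s ≤ 4 T`, `T s ≤ 12 W`, `ApprAt ![θ] s W`; `Ce s ≤ W` if `T ≥ 12 Ce`. So `ApprAt P t V`, `t = Ce s`, `V = W/Ce ≥ T t/(12 Ce^2)`: `E, x, S, d`, `∑ d ≥ V > 0`.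
`φ0` with maximal `d`, `dm = d φ0`, `∑ d ≤ |S| dm ≤ t dm` (`|S| ≤ finrank ≤ t`), so `dm ≥ T/(12 Ce^2)`: take `T ≥ 12 Ce^2 C1 l1^3 4^l1`. Let `l ≥ l1` be maximal with
`C1 l^3 4^l ≤ dm` (`Nat.findGreatest` or `Nat.find`): `dm < C1 (l+1)^3 4^(l+1) ≤ 64 C1 l^3 4^l` (`(l+1)^3 ≤ 8 l^3`, `8 * 4 = 32`). `sum_le` with `N = l^3`, `Q = 2^l`:
`∑ d ≤ C2 t 2^l log (2^l + 2) ≤ C2 t 2^l (l + 2)`. Hence `T t/(12 Ce^2) ≤ C2 t 2^l (l + 2)`, so `T ≤ C4 2^l (l + 2)`, `C4 = 12 Ce^2 C2`; and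
`C1 l^3 4^l ≤ dm ≤ ∑ d ≤ C2 t 2^l (l + 2)`, `t ≤ 4 Ce T`: `l^3 4^l ≤ 4 C2 Ce C4 4^l (l + 2)^2`, so `l^3 ≤ C5 (l + 2)^2 ≤ 9 C5 l^2` and `l ≤ 9 C5 =: C6`: contradiction.
(The constants `C2, Ce, C4, C5, C6` do not depend on `l1`, so `l1` can be chosen after them.)
-/

set_option autoImplicit false

namespace U2

open CZ

theorem Fi_find (dm : ℝ) (C1 l1 : ℕ) (hC1 : 1 ≤ C1) (hl1 : 1 ≤ l1)
    (h : (C1 : ℝ) * (l1 : ℝ) ^ 3 * 4 ^ l1 ≤ dm) :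
    ∃ l : ℕ, l1 ≤ l ∧ (C1 : ℝ) * (l : ℝ) ^ 3 * 4 ^ l ≤ dm ∧
      dm ≤ 64 * ((C1 : ℝ) * (l : ℝ) ^ 3 * 4 ^ l) := by
  classical
  have hC1r : (1 : ℝ) ≤ C1 := by exact_mod_cast hC1
  have hex : ∃ n : ℕ, l1 ≤ n ∧ dm < (C1 : ℝ) * (n : ℝ) ^ 3 * 4 ^ n := by
    obtain ⟨n, hn⟩ := exists_nat_gt dm
    refine ⟨l1 + n, by omega, ?_⟩
    have h1 : (1 : ℝ) ≤ ((l1 + n : ℕ) : ℝ) := by exact_mod_cast (by omega : 1 ≤ l1 + n)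
    have h2 : (n : ℝ) ≤ ((l1 + n : ℕ) : ℝ) := by exact_mod_cast (by omega : n ≤ l1 + n)
    have h3 : ((l1 + n : ℕ) : ℝ) ≤ ((l1 + n : ℕ) : ℝ) ^ 3 := by
      calc ((l1 + n : ℕ) : ℝ) = ((l1 + n : ℕ) : ℝ) ^ 1 := (pow_one _).symm
        _ ≤ ((l1 + n : ℕ) : ℝ) ^ 3 := pow_le_pow_right₀ h1 (by norm_num)
    have h4 : (1 : ℝ) ≤ 4 ^ (l1 + n) := one_le_pow₀ (by norm_num)
    have h5 : (n : ℝ) ≤ (C1 : ℝ) * ((l1 + n : ℕ) : ℝ) ^ 3 := by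
      calc (n : ℝ) ≤ ((l1 + n : ℕ) : ℝ) ^ 3 := h2.trans h3
        _ ≤ (C1 : ℝ) * ((l1 + n : ℕ) : ℝ) ^ 3 := le_mul_of_one_le_left (by positivity) hC1r
    calc dm < n := hn
      _ ≤ (C1 : ℝ) * ((l1 + n : ℕ) : ℝ) ^ 3 := h5
      _ ≤ (C1 : ℝ) * ((l1 + n : ℕ) : ℝ) ^ 3 * 4 ^ (l1 + n) :=
        le_mul_of_one_le_right (by positivity) h4
  obtain ⟨n, hn⟩ : ∃ n, n = Nat.find hex := ⟨_, rfl⟩
  have hspec : l1 ≤ n ∧ dm < (C1 : ℝ) * (n : ℝ) ^ 3 * 4 ^ n := by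
    rw [hn]
    exact Nat.find_spec hex
  have hne : n ≠ l1 := by
    intro h0
    rw [h0] at hspec
    exact absurd hspec.2 (not_lt.2 h)
  obtain ⟨l, rfl⟩ : ∃ l, n = l + 1 := ⟨n - 1, by omega⟩
  have hll : l1 ≤ l := by omega
  have hmin : ¬ (l1 ≤ l ∧ dm < (C1 : ℝ) * (l : ℝ) ^ 3 * 4 ^ l) :=
    Nat.find_min hex (by omega)
  have h6 : (C1 : ℝ) * (l : ℝ) ^ 3 * 4 ^ l ≤ dm := by
    by_contra h7
    exact hmin ⟨hll, not_le.1 h7⟩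
  refine ⟨l, hll, h6, ?_⟩
  have hl1r : (1 : ℝ) ≤ (l : ℝ) := by exact_mod_cast (by omega : 1 ≤ l)
  have h8 : ((l + 1 : ℕ) : ℝ) ^ 3 ≤ 8 * (l : ℝ) ^ 3 := by
    push_cast
    have : (l : ℝ) + 1 ≤ 2 * l := by linarith
    calc ((l : ℝ) + 1) ^ 3 ≤ (2 * l) ^ 3 := pow_le_pow_left₀ (by linarith) this 3
      _ = 8 * (l : ℝ) ^ 3 := by ring
  calc dm ≤ (C1 : ℝ) * ((l + 1 : ℕ) : ℝ) ^ 3 * 4 ^ (l + 1) := hspec.2.le
    _ ≤ (C1 : ℝ) * (8 * (l : ℝ) ^ 3) * 4 ^ (l + 1) :=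
        mul_le_mul_of_nonneg_right (mul_le_mul_of_nonneg_left h8 (by linarith)) (by positivity)
    _ = 32 * ((C1 : ℝ) * (l : ℝ) ^ 3 * 4 ^ l) := by rw [pow_succ]; ring
    _ ≤ 64 * ((C1 : ℝ) * (l : ℝ) ^ 3 * 4 ^ l) :=
        mul_le_mul_of_nonneg_right (by norm_num) (by positivity)

theorem Fi_log (l : ℕ) : Real.log (((2 ^ l : ℕ) : ℝ) + 2) ≤ l + 2 := by
  have h1 : ((2 ^ l : ℕ) : ℝ) + 2 ≤ 2 ^ (l + 2) := by
    push_cast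
    have : (1 : ℝ) ≤ 2 ^ l := one_le_pow₀ (by norm_num)
    rw [pow_add]
    linarith
  have h0 : (0 : ℝ) < ((2 ^ l : ℕ) : ℝ) + 2 := by positivity
  calc Real.log (((2 ^ l : ℕ) : ℝ) + 2) ≤ Real.log (2 ^ (l + 2)) := Real.log_le_log h0 h1
    _ = ((l + 2 : ℕ) : ℝ) * Real.log 2 := by rw [Real.log_pow]
    _ ≤ ((l + 2 : ℕ) : ℝ) * 1 := by
        apply mul_le_mul_of_nonneg_left _ (by positivity)
        have := Real.log_two_lt_d9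
        linarith
    _ = l + 2 := by push_cast; ring

theorem Fi_arith {T t s Ce C1 C2 l F : ℝ} (ht : 0 < t) (hCe : 1 ≤ Ce) (hC1 : 1 ≤ C1)
    (hC2 : 0 ≤ C2) (hl : 1 ≤ l) (hF : 0 < F) (hts : t = Ce * s) (hs : s ≤ 4 * T)
    (h1 : T * t / (12 * Ce ^ 2) ≤ C2 * t * (F * (l + 2)))
    (h2 : C1 * l ^ 3 * F ^ 2 ≤ C2 * t * (F * (l + 2))) :
    l ≤ 432 * Ce ^ 3 * C2 ^ 2 := by
  have hCe0 : 0 < Ce := by linarith
  have hT' : T ≤ 12 * Ce ^ 2 * C2 * (F * (l + 2)) := by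
    rw [div_le_iff₀ (by positivity)] at h1
    have h3 : t * T ≤ t * (12 * Ce ^ 2 * C2 * (F * (l + 2))) := by
      calc t * T = T * t := mul_comm _ _
        _ ≤ C2 * t * (F * (l + 2)) * (12 * Ce ^ 2) := h1
        _ = t * (12 * Ce ^ 2 * C2 * (F * (l + 2))) := by ring
    exact le_of_mul_le_mul_left h3 ht
  have hG : 0 ≤ F * (l + 2) := by positivity
  have ht4 : t ≤ 4 * Ce * T := by
    rw [hts]
    calc Ce * s ≤ Ce * (4 * T) := mul_le_mul_of_nonneg_left hs hCe0.le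
      _ = 4 * Ce * T := by ring
  have h3 : C1 * l ^ 3 * F ^ 2 ≤ 48 * Ce ^ 3 * C2 ^ 2 * (F * (l + 2)) ^ 2 := by
    calc C1 * l ^ 3 * F ^ 2 ≤ C2 * t * (F * (l + 2)) := h2
      _ ≤ C2 * (4 * Ce * T) * (F * (l + 2)) :=
          mul_le_mul_of_nonneg_right (mul_le_mul_of_nonneg_left ht4 hC2) hG
      _ = (4 * Ce * C2 * (F * (l + 2))) * T := by ring
      _ ≤ (4 * Ce * C2 * (F * (l + 2))) * (12 * Ce ^ 2 * C2 * (F * (l + 2))) :=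
          mul_le_mul_of_nonneg_left hT' (by positivity)
      _ = 48 * Ce ^ 3 * C2 ^ 2 * (F * (l + 2)) ^ 2 := by ring
  have h4 : (l + 2) ^ 2 ≤ 9 * l ^ 2 := by nlinarith
  have h5 : l ^ 3 * F ^ 2 ≤ (48 * Ce ^ 3 * C2 ^ 2 * (9 * l ^ 2)) * F ^ 2 := by
    calc l ^ 3 * F ^ 2 ≤ C1 * l ^ 3 * F ^ 2 := by
          have : 0 ≤ l ^ 3 * F ^ 2 := by positivity
          nlinarith
      _ ≤ 48 * Ce ^ 3 * C2 ^ 2 * (F * (l + 2)) ^ 2 := h3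
      _ = 48 * Ce ^ 3 * C2 ^ 2 * F ^ 2 * (l + 2) ^ 2 := by ring
      _ ≤ 48 * Ce ^ 3 * C2 ^ 2 * F ^ 2 * (9 * l ^ 2) :=
          mul_le_mul_of_nonneg_left h4 (by positivity)
      _ = (48 * Ce ^ 3 * C2 ^ 2 * (9 * l ^ 2)) * F ^ 2 := by ring
  have h6 : l ^ 3 ≤ 48 * Ce ^ 3 * C2 ^ 2 * (9 * l ^ 2) :=
    le_of_mul_le_mul_right h5 (by positivity)
  have h7 : l ^ 2 * l ≤ l ^ 2 * (432 * Ce ^ 3 * C2 ^ 2) := by
    calc l ^ 2 * l = l ^ 3 := by ring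
      _ ≤ 48 * Ce ^ 3 * C2 ^ 2 * (9 * l ^ 2) := h6
      _ = l ^ 2 * (432 * Ce ^ 3 * C2 ^ 2) := by ring
  exact le_of_mul_le_mul_left h7 (by positivity)

theorem final {k : ℕ} (θ : ℂ) (hθ : Transcendental ℚ θ) (P : Fin k → ℂ)
    (hP : ∀ i, IsAlgebraic (IntermediateField.adjoin ℚ (Set.range ![θ])) (P i)) (C l0 : ℕ)
    (hC : 1 ≤ C) (h : ∀ l : ℕ, l0 ≤ l → Dat P C (l ^ 3) (2 ^ l)) : False := by
  classical
  obtain ⟨C1, C2, hC1, hC12, hsum⟩ := sum_le P C hC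
  obtain ⟨Ce, hCe, hext⟩ := ext_const θ P hP
  obtain ⟨T0, hT0, hline⟩ := line_const θ hθ
  obtain ⟨l1, hl1⟩ : ∃ l1 : ℕ, l1 = l0 + C2 + 432 * Ce ^ 3 * C2 ^ 2 + 1 := ⟨_, rfl⟩
  obtain ⟨T, hT⟩ : ∃ T : ℕ, T = T0 + 12 * Ce + 12 * Ce ^ 2 * (C1 * l1 ^ 3 * 4 ^ l1) := ⟨_, rfl⟩
  have hTT0 : T0 ≤ T := by rw [hT]; omega
  have hT12 : 12 * Ce ≤ T := by rw [hT]; omega
  have hTbig : 12 * Ce ^ 2 * (C1 * l1 ^ 3 * 4 ^ l1) ≤ T := by rw [hT]; omega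
  obtain ⟨s, W, hs1, hs4, hsW, hA⟩ := hline T hTT0
  have hCer : (1 : ℝ) ≤ Ce := by exact_mod_cast hCe
  have hCe0 : (0 : ℝ) < Ce := by linarith
  have hT12r : 12 * (Ce : ℝ) ≤ T := by exact_mod_cast hT12
  have hT0r : (0 : ℝ) < T := by linarith
  have hs0 : 0 < s := by linarith
  have hCsW : (Ce : ℝ) * s ≤ W := by
    have h1 : 12 * (Ce : ℝ) * s ≤ T * s := mul_le_mul_of_nonneg_right hT12r hs0.le
    linarith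
  obtain ⟨E, i1, i2, x, S, d, hfin, hht, hd, hV⟩ := hext s W hs1 hCsW hA
  obtain ⟨t, ht⟩ : ∃ t : ℝ, t = Ce * s := ⟨_, rfl⟩
  rw [← ht] at hfin hht
  have ht0 : 0 < t := by rw [ht]; positivity
  have hTt : (T : ℝ) * t / (12 * Ce ^ 2) ≤ ∑ φ ∈ S, d φ := by
    refine le_trans ?_ hV
    rw [div_le_div_iff₀ (by positivity) hCe0, ht]
    calc (T : ℝ) * (Ce * s) * Ce = (T * s) * Ce ^ 2 := by ring
      _ ≤ (12 * W) * Ce ^ 2 := mul_le_mul_of_nonneg_right hsW (by positivity)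
      _ = W * (12 * Ce ^ 2) := by ring
  have hpos : 0 < ∑ φ ∈ S, d φ := lt_of_lt_of_le (by positivity) hTt
  have hSne : S.Nonempty := by
    by_contra hne
    rw [Finset.not_nonempty_iff_eq_empty] at hne
    rw [hne, Finset.sum_empty] at hpos
    exact lt_irrefl _ hpos
  obtain ⟨φ0, hφ0, hmax⟩ := Finset.exists_max_image S d hSne
  have hdm0 : 0 ≤ d φ0 := (hd φ0 hφ0).1
  have hScard : (S.card : ℝ) ≤ t := by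
    have h1 : S.card ≤ Module.finrank ℚ E := by
      rw [← NumberField.Embeddings.card E ℂ]
      exact Finset.card_le_univ S
    have h2 : (S.card : ℝ) ≤ Module.finrank ℚ E := by exact_mod_cast h1
    linarith
  have hsumle : ∑ φ ∈ S, d φ ≤ t * d φ0 := by
    calc ∑ φ ∈ S, d φ ≤ ∑ _φ ∈ S, d φ0 := Finset.sum_le_sum fun φ hφ => hmax φ hφ
      _ = S.card * d φ0 := by rw [Finset.sum_const, nsmul_eq_mul]
      _ ≤ t * d φ0 := mul_le_mul_of_nonneg_right hScard hdm0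
  have hdmT : (T : ℝ) / (12 * Ce ^ 2) ≤ d φ0 := by
    have h1 : t * ((T : ℝ) / (12 * Ce ^ 2)) ≤ t * d φ0 := by
      calc t * ((T : ℝ) / (12 * Ce ^ 2)) = (T : ℝ) * t / (12 * Ce ^ 2) := by ring
        _ ≤ _ := hTt.trans hsumle
    exact le_of_mul_le_mul_left h1 ht0
  have hdml : (C1 : ℝ) * (l1 : ℝ) ^ 3 * 4 ^ l1 ≤ d φ0 := by
    refine le_trans ?_ hdmT
    rw [le_div_iff₀ (by positivity)]
    have h1 : ((12 * Ce ^ 2 * (C1 * l1 ^ 3 * 4 ^ l1) : ℕ) : ℝ) ≤ T := by exact_mod_cast hTbig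
    push_cast at h1
    calc (C1 : ℝ) * (l1 : ℝ) ^ 3 * 4 ^ l1 * (12 * (Ce : ℝ) ^ 2) =
          12 * (Ce : ℝ) ^ 2 * (C1 * (l1 : ℝ) ^ 3 * 4 ^ l1) := by ring
      _ ≤ (T : ℝ) := h1
  obtain ⟨l, hll, hlow, hup⟩ := Fi_find (d φ0) C1 l1 hC1 (by omega) hdml
  have hl0 : l0 ≤ l := by omega
  have hl1' : 1 ≤ l := by omega
  have hC2Q : C2 ≤ 2 ^ l := by
    have h1 : l < 2 ^ l := Nat.lt_two_pow_self
    omega
  have e4 : (C1 : ℝ) * ((l ^ 3 : ℕ) : ℝ) * (((2 ^ l : ℕ) : ℝ)) ^ 2 = C1 * (l : ℝ) ^ 3 * 4 ^ l := by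
    push_cast
    rw [← pow_mul, mul_comm l 2, pow_mul]
    norm_num
  have hres := hsum (l ^ 3) (2 ^ l) (Nat.one_le_pow _ _ hl1') hC2Q (h l hl0) E i1 i2 x S d t hfin
    hht hd ⟨φ0, hφ0, by rw [e4]; exact hlow⟩ (fun φ hφ => by
      rw [e4]
      exact (hmax φ hφ).trans hup)
  obtain ⟨F, hF⟩ : ∃ F : ℝ, F = ((2 ^ l : ℕ) : ℝ) := ⟨_, rfl⟩
  have hF0 : 0 < F := by rw [hF]; positivity
  have hF4 : F ^ 2 = 4 ^ l := by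
    rw [hF]
    push_cast
    rw [← pow_mul, mul_comm l 2, pow_mul]
    norm_num
  have hres2 : ∑ φ ∈ S, d φ ≤ C2 * t * (F * ((l : ℝ) + 2)) := by
    refine hres.trans ?_
    rw [← hF]
    apply mul_le_mul_of_nonneg_left _ (by positivity)
    apply mul_le_mul_of_nonneg_left _ hF0.le
    rw [hF]
    exact Fi_log l
  have hdsum : d φ0 ≤ ∑ φ ∈ S, d φ :=
    Finset.single_le_sum (f := d) (fun φ hφ => (hd φ hφ).1) hφ0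
  have hfinal : (l : ℝ) ≤ 432 * (Ce : ℝ) ^ 3 * (C2 : ℝ) ^ 2 := by
    refine Fi_arith (T := T) (t := t) (s := s) (C1 := C1) (F := F) ht0 hCer
      (by exact_mod_cast hC1) (by positivity) (by exact_mod_cast hl1') hF0 ht hs4
      (hTt.trans hres2) ?_
    rw [hF4]
    exact (hlow.trans hdsum).trans hres2
  have hfin2 : l ≤ 432 * Ce ^ 3 * C2 ^ 2 := by exact_mod_cast hfinal
  omega

end U2
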