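import Pool.Agent.H22.U2.Bas

/-!
# MP_ede373, theorem (U2), row Geo: many lattice points close to a complex line

Let `α = 2 Re z`, `α' = ‖z‖^2`, `θ = Re (x1 + conj z x2)`. `ss_val`: `ss = m0 + α m1 + α' m2 - θ`, and
`uu z x2 m = -conj z (m1 + m2 z - x2)`.
* Pigeonhole: map `(i, j) ∈ [0, M)^2` to `⌊N fract (α i + α' j)⌋ ∈ [0, N)`: some fibre has at least `M^2 / N` elements
  (`Finset.exists_le_card_fiber_of_mul_le_card_of_maps_to`, `(M^2/N) N ≤ M^2`). Let `p` be an element of the fibre (if `M^2/N = 0`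
  nothing to do). For `q` in the fibre, `d = q - p`, `|d_1|, |d_2| < M`, and with `I = ⌊α q_1 + α' q_2⌋ - ⌊α p_1 + α' p_2⌋`:
  `|α d_1 + α' d_2 - I| < 1/N`. Different `q` give different `d`.
* Rounding: `a2 = round (Im x2 / Y)`, `a1 = round (Re x2 - X Im x2 / Y)`: `x2 = r1 + r2 z` with `r2 = Im x2/Y`, `r1 = Re x2 - X r2`, so
  `‖a1 + a2 z - x2‖ ≤ (1 + ‖z‖)/2`.
* `COV` with `θ' = θ - a1 α - a2 α'` gives `c0, c1, c2`, `|c1|, |c2| ≤ K < M`.
* `m = (c0 - I, a1 + c1 + d1, a2 + c2 + d2)`: `|ss| ≤ 1/N + 1/N`, `‖uu‖ ≤ ‖z‖ ((2M)(1 + ‖z‖) + (1 + ‖z‖)) ≤ 3 ‖z‖ (1 + ‖z‖) M`.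
* Separation: `uu - uu' = -conj z (Δ1 + Δ2 z)` with integers `Δ` not both `0`: if `Δ2 ≠ 0` then `|Im (Δ1 + Δ2 z)| ≥ Y`, else `|Δ1| ≥ 1`.
-/

set_option autoImplicit false

namespace U2

open Complex

theorem Geo_uu {z : ℂ} (x2 : ℂ) (m : ℤ × ℤ × ℤ) :
    ‖uu z x2 m‖ = ‖z‖ * ‖(m.2.1 : ℂ) + m.2.2 * z - x2‖ := by
  rw [uu, mu, norm_div, norm_div, norm_neg, norm_one, Complex.norm_conj, one_div, div_inv_eq_mul,
    mul_comm]

theorem Geo_uu_sub {z : ℂ} (x2 : ℂ) (m m' : ℤ × ℤ × ℤ) :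
    ‖uu z x2 m - uu z x2 m'‖ =
      ‖z‖ * ‖((m.2.1 - m'.2.1 : ℤ) : ℂ) + ((m.2.2 - m'.2.2 : ℤ) : ℂ) * z‖ := by
  have : uu z x2 m - uu z x2 m' =
      (((m.2.1 - m'.2.1 : ℤ) : ℂ) + ((m.2.2 - m'.2.2 : ℤ) : ℂ) * z) / mu z := by
    rw [uu, uu, ← sub_div]
    congr 1
    push_cast
    ring
  rw [this, mu, norm_div, norm_div, norm_neg, norm_one, Complex.norm_conj, one_div, div_inv_eq_mul,
    mul_comm]

theorem Geo_round {z : ℂ} (hz : 0 < z.im) (x2 : ℂ) : ∃ a1 a2 : ℤ,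
    ‖(a1 : ℂ) + a2 * z - x2‖ ≤ (1 + ‖z‖) / 2 := by
  set r2 : ℝ := x2.im / z.im with hr2
  set r1 : ℝ := x2.re - z.re * r2 with hr1
  refine ⟨round r1, round r2, ?_⟩
  have hx : x2 = (r1 : ℂ) + r2 * z := by
    apply Complex.ext
    · simp [hr1]
      ring
    · simp [hr2]
      field_simp
  have e : ((round r1 : ℤ) : ℂ) + ((round r2 : ℤ) : ℂ) * z - x2 =
      (((round r1 : ℝ) - r1 : ℝ) : ℂ) + (((round r2 : ℝ) - r2 : ℝ) : ℂ) * z := by
    conv_lhs => rw [hx]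
    push_cast
    ring
  rw [e]
  have h1 : |(round r1 : ℝ) - r1| ≤ 1 / 2 := by
    rw [abs_sub_comm]
    exact abs_sub_round r1
  have h2 : |(round r2 : ℝ) - r2| ≤ 1 / 2 := by
    rw [abs_sub_comm]
    exact abs_sub_round r2
  calc ‖(((round r1 : ℝ) - r1 : ℝ) : ℂ) + (((round r2 : ℝ) - r2 : ℝ) : ℂ) * z‖
      ≤ ‖(((round r1 : ℝ) - r1 : ℝ) : ℂ)‖ + ‖(((round r2 : ℝ) - r2 : ℝ) : ℂ) * z‖ :=
        norm_add_le _ _
    _ = |(round r1 : ℝ) - r1| + |(round r2 : ℝ) - r2| * ‖z‖ := by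
        rw [norm_mul, Complex.norm_real, Complex.norm_real, Real.norm_eq_abs, Real.norm_eq_abs]
    _ ≤ 1 / 2 + 1 / 2 * ‖z‖ := by
        have := mul_le_mul_of_nonneg_right h2 (norm_nonneg z)
        linarith
    _ = (1 + ‖z‖) / 2 := by ring

theorem Geo_sep {z : ℂ} (hz : 0 < z.im) (a b : ℤ) (h : a ≠ 0 ∨ b ≠ 0) :
    min 1 z.im ≤ ‖(a : ℂ) + b * z‖ := by
  by_cases hb : b = 0
  · have ha : a ≠ 0 := by
      rcases h with h | h
      · exact h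
      · exact absurd hb h
    rw [hb]
    have h1 : (1 : ℝ) ≤ |(a : ℝ)| := by
      have := Int.one_le_abs ha
      exact_mod_cast this
    have h2 : ‖(a : ℂ) + ((0 : ℤ) : ℂ) * z‖ = |(a : ℝ)| := by
      rw [Int.cast_zero, zero_mul, add_zero, Complex.norm_intCast]
    rw [h2]
    exact (min_le_left _ _).trans h1
  · have h1 : (1 : ℝ) ≤ |(b : ℝ)| := by
      have := Int.one_le_abs hb
      exact_mod_cast this
    have h2 : |((a : ℂ) + b * z).im| ≤ ‖(a : ℂ) + b * z‖ := Complex.abs_im_le_norm _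
    have h3 : ((a : ℂ) + b * z).im = b * z.im := by simp
    rw [h3, abs_mul, abs_of_pos hz] at h2
    have h4 : z.im ≤ |(b : ℝ)| * z.im := by
      have := mul_le_mul_of_nonneg_right h1 hz.le
      linarith
    exact (min_le_right _ _).trans (h4.trans h2)

/-- pigeonhole -/
theorem Geo_pig (α α' : ℝ) (N M : ℕ) (hN : 1 ≤ N) : ∃ g : Fin (M ^ 2 / N) → ℕ × ℕ,
    Function.Injective g ∧ (∀ i, (g i).1 < M ∧ (g i).2 < M) ∧
    ∀ i j, |Int.fract (α * (g i).1 + α' * (g i).2) - Int.fract (α * (g j).1 + α' * (g j).2)| ≤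
      1 / (N : ℝ) := by
  classical
  have hN0 : (0 : ℝ) < N := by exact_mod_cast hN
  set fr : ℕ × ℕ → ℝ := fun p => Int.fract (α * p.1 + α' * p.2) with hfr
  have hfr0 : ∀ p, 0 ≤ fr p := fun p => Int.fract_nonneg _
  have hfr1 : ∀ p, fr p < 1 := fun p => Int.fract_lt_one _
  obtain ⟨y, -, hy⟩ := Finset.exists_le_card_fiber_of_mul_le_card_of_maps_to
    (s := Finset.range M ×ˢ Finset.range M) (t := Finset.range N)
    (f := fun p => ⌊(N : ℝ) * fr p⌋₊) (n := M ^ 2 / N)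
    (by
      intro p _
      rw [Finset.mem_range, Nat.floor_lt (mul_nonneg hN0.le (hfr0 p))]
      have := mul_lt_mul_of_pos_left (hfr1 p) hN0
      linarith)
    ⟨0, Finset.mem_range.2 hN⟩
    (by
      rw [Finset.card_range, Finset.card_product, Finset.card_range, ← sq]
      exact Nat.mul_div_le _ _)
  obtain ⟨S, hS, hSc⟩ := Finset.exists_subset_card_eq hy
  refine ⟨fun i => ((Finset.equivFinOfCardEq hSc).symm i : ℕ × ℕ), ?_, ?_, ?_⟩
  · intro i j hij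
    exact (Finset.equivFinOfCardEq hSc).symm.injective (Subtype.ext hij)
  · intro i
    have := hS ((Finset.equivFinOfCardEq hSc).symm i).2
    rw [Finset.mem_filter, Finset.mem_product, Finset.mem_range, Finset.mem_range] at this
    exact this.1
  · have hb : ∀ i, (y : ℝ) ≤ N * fr ((Finset.equivFinOfCardEq hSc).symm i : ℕ × ℕ) ∧
        N * fr ((Finset.equivFinOfCardEq hSc).symm i : ℕ × ℕ) < y + 1 := by
      intro i
      have := hS ((Finset.equivFinOfCardEq hSc).symm i).2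
      rw [Finset.mem_filter] at this
      have h2 := this.2
      rw [Nat.floor_eq_iff (mul_nonneg hN0.le (hfr0 _))] at h2
      exact h2
    intro i j
    have hi := hb i
    have hj := hb j
    change |fr _ - fr _| ≤ _
    have hab : ∀ p q : ℕ × ℕ, (y : ℝ) ≤ N * fr p ∧ N * fr p < y + 1 →
        (y : ℝ) ≤ N * fr q ∧ N * fr q < y + 1 → |fr p - fr q| ≤ 1 / (N : ℝ) := by
      intro p q hp hq
      rw [abs_le, le_div_iff₀ hN0, neg_le, le_div_iff₀ hN0]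
      constructor <;> nlinarith [hp.1, hp.2, hq.1, hq.2]
    exact hab _ _ hi hj

theorem geo {z : ℂ} (hz : 0 < z.im) : ∃ C : ℕ, 1 ≤ C ∧ ∀ N K M : ℕ, 1 ≤ N → COV z N K → K + 1 ≤ M →
    ∀ x1 x2 : ℂ, bet z x1 x2 = 0 → ∃ f : Fin (M ^ 2 / N) → ℤ × ℤ × ℤ,
      (∀ i, ‖uu z x2 (f i)‖ ≤ C * M ∧ |ss z x1 x2 (f i)| ≤ 2 / (N : ℝ)) ∧
      ∀ i j, i ≠ j → 1 / (C : ℝ) ≤ ‖uu z x2 (f i) - uu z x2 (f j)‖ := by
  have hz0 : 0 < ‖z‖ := norm_pos_iff.2 (by rintro rfl; simp at hz)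
  have hmin : 0 < min 1 z.im := lt_min one_pos hz
  obtain ⟨C, hC⟩ := exists_nat_ge (1 + 3 * ‖z‖ * (1 + ‖z‖) + 1 / (‖z‖ * min 1 z.im))
  have hp1 : 0 ≤ 3 * ‖z‖ * (1 + ‖z‖) := by positivity
  have hp2 : 0 ≤ 1 / (‖z‖ * min 1 z.im) := by positivity
  have hC1 : (1 : ℝ) ≤ C := by linarith
  refine ⟨C, by exact_mod_cast hC1, ?_⟩
  intro N K M hN hcov hKM x1 x2 hb
  have hN0 : (0 : ℝ) < N := by exact_mod_cast hN
  set α : ℝ := 2 * z.re with hα
  set α' : ℝ := ‖z‖ ^ 2 with hα'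
  set θ : ℝ := (x1 + (starRingEnd ℂ) z * x2).re with hθ
  obtain ⟨a1, a2, ha⟩ := Geo_round hz x2
  obtain ⟨c0, c1, c2, hc1, hc2, hc⟩ := hcov (θ - a1 * α - a2 * α')
  obtain ⟨g, hgi, hgM, hgf⟩ := Geo_pig α α' N M hN
  by_cases hM0 : M ^ 2 / N = 0
  · have : IsEmpty (Fin (M ^ 2 / N)) := by
      rw [hM0]
      infer_instance
    exact ⟨isEmptyElim, isEmptyElim, isEmptyElim⟩
  set i0 : Fin (M ^ 2 / N) := ⟨0, Nat.pos_of_ne_zero hM0⟩ with hi0
  refine ⟨fun i => (c0 - (⌊α * (g i).1 + α' * (g i).2⌋ - ⌊α * (g i0).1 + α' * (g i0).2⌋),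
    a1 + c1 + (((g i).1 : ℤ) - (g i0).1), a2 + c2 + (((g i).2 : ℤ) - (g i0).2)), ?_, ?_⟩
  · intro i
    have hd : ∀ a b : ℕ, a < M → b < M → |((a : ℤ) : ℝ) - ((b : ℤ) : ℝ)| ≤ M := by
      intro a b ha hb
      have h1 : (a : ℝ) ≤ M := by exact_mod_cast ha.le
      have h2 : (b : ℝ) ≤ M := by exact_mod_cast hb.le
      have h3 : (0 : ℝ) ≤ a := Nat.cast_nonneg _
      have h4 : (0 : ℝ) ≤ b := Nat.cast_nonneg _
      rw [Int.cast_natCast, Int.cast_natCast, abs_le]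
      constructor <;> linarith
    have hd1 := hd _ _ (hgM i).1 (hgM i0).1
    have hd2 := hd _ _ (hgM i).2 (hgM i0).2
    have hcr : ∀ c : ℤ, |c| ≤ (K : ℤ) → |(c : ℝ)| ≤ M := by
      intro c hc
      have h1 : |(c : ℝ)| ≤ K := by exact_mod_cast hc
      have h2 : ((K : ℝ)) + 1 ≤ M := by exact_mod_cast hKM
      linarith
    have hc1' := hcr c1 hc1
    have hc2' := hcr c2 hc2
    have hM1 : (1 : ℝ) ≤ M := by
      have : 1 ≤ M := by omega
      exact_mod_cast this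
    constructor
    · rw [Geo_uu]
      have e : (((a1 + c1 + (((g i).1 : ℤ) - (g i0).1) : ℤ)) : ℂ) +
          (((a2 + c2 + (((g i).2 : ℤ) - (g i0).2) : ℤ)) : ℂ) * z - x2 =
          ((a1 : ℂ) + a2 * z - x2) +
          (((c1 : ℝ) + ((((g i).1 : ℤ) : ℝ) - (((g i0).1 : ℤ) : ℝ)) : ℝ) : ℂ) +
          (((c2 : ℝ) + ((((g i).2 : ℤ) : ℝ) - (((g i0).2 : ℤ) : ℝ)) : ℝ) : ℂ) * z := by
        push_cast
        ring
      have h1 : ‖(((c1 : ℝ) + ((((g i).1 : ℤ) : ℝ) - (((g i0).1 : ℤ) : ℝ)) : ℝ) : ℂ)‖ ≤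
          2 * M := by
        rw [Complex.norm_real, Real.norm_eq_abs]
        refine (abs_add_le _ _).trans ?_
        linarith
      have h2 : ‖(((c2 : ℝ) + ((((g i).2 : ℤ) : ℝ) - (((g i0).2 : ℤ) : ℝ)) : ℝ) : ℂ) * z‖ ≤
          2 * M * ‖z‖ := by
        rw [norm_mul, Complex.norm_real, Real.norm_eq_abs]
        refine mul_le_mul_of_nonneg_right ?_ hz0.le
        refine (abs_add_le _ _).trans ?_
        linarith
      have h3 : ‖(((a1 + c1 + (((g i).1 : ℤ) - (g i0).1) : ℤ)) : ℂ) +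
          (((a2 + c2 + (((g i).2 : ℤ) - (g i0).2) : ℤ)) : ℂ) * z - x2‖ ≤
          3 * (1 + ‖z‖) * M := by
        rw [e]
        refine (norm_add_le _ _).trans ?_
        have h4 := norm_add_le ((a1 : ℂ) + a2 * z - x2)
          (((c1 : ℝ) + ((((g i).1 : ℤ) : ℝ) - (((g i0).1 : ℤ) : ℝ)) : ℝ) : ℂ)
        have h5 : (1 + ‖z‖) / 2 ≤ (1 + ‖z‖) * M := by
          have : 0 ≤ (1 + ‖z‖) := by positivity
          nlinarith
        nlinarith
      calc ‖z‖ * ‖(((a1 + c1 + (((g i).1 : ℤ) - (g i0).1) : ℤ)) : ℂ) +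
          (((a2 + c2 + (((g i).2 : ℤ) - (g i0).2) : ℤ)) : ℂ) * z - x2‖
          ≤ ‖z‖ * (3 * (1 + ‖z‖) * M) := mul_le_mul_of_nonneg_left h3 hz0.le
        _ = (3 * ‖z‖ * (1 + ‖z‖)) * M := by ring
        _ ≤ C * M := by
            refine mul_le_mul_of_nonneg_right ?_ (by linarith)
            linarith
    · rw [ss_val hz]
      have hf := hgf i i0
      have e1 := Int.self_sub_floor (α * (g i).1 + α' * (g i).2)
      have e2 := Int.self_sub_floor (α * (g i0).1 + α' * (g i0).2)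
      have e : ((c0 - (⌊α * (g i).1 + α' * (g i).2⌋ - ⌊α * (g i0).1 + α' * (g i0).2⌋) : ℤ) : ℝ) +
          ((a1 + c1 + (((g i).1 : ℤ) - (g i0).1) : ℤ) : ℝ) * (2 * z.re) +
          ((a2 + c2 + (((g i).2 : ℤ) - (g i0).2) : ℤ) : ℝ) * ‖z‖ ^ 2 -
          (x1 + (starRingEnd ℂ) z * x2).re =
          ((c0 : ℝ) + c1 * (2 * z.re) + c2 * ‖z‖ ^ 2 - (θ - a1 * α - a2 * α')) +
          (Int.fract (α * (g i).1 + α' * (g i).2) -
            Int.fract (α * (g i0).1 + α' * (g i0).2)) := by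
        rw [← e1, ← e2, hα, hα', hθ]
        push_cast
        ring
      rw [e]
      refine (abs_add_le _ _).trans ?_
      have : 2 / (N : ℝ) = 1 / N + 1 / N := by ring
      rw [this]
      exact add_le_add hc hf
  · intro i j hij
    rw [Geo_uu_sub]
    have hne : ((g i).1 : ℤ) - (g j).1 ≠ 0 ∨ ((g i).2 : ℤ) - (g j).2 ≠ 0 := by
      by_contra hcon
      push Not at hcon
      apply hij
      apply hgi
      apply Prod.ext
      · omega
      · omega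
    have h1 := Geo_sep hz _ _ hne
    have e1 : (a1 + c1 + (((g i).1 : ℤ) - (g i0).1)) - (a1 + c1 + (((g j).1 : ℤ) - (g i0).1)) =
        ((g i).1 : ℤ) - (g j).1 := by ring
    have e2 : (a2 + c2 + (((g i).2 : ℤ) - (g i0).2)) - (a2 + c2 + (((g j).2 : ℤ) - (g i0).2)) =
        ((g i).2 : ℤ) - (g j).2 := by ring
    rw [e1, e2]
    have h2 := mul_le_mul_of_nonneg_left h1 hz0.le
    have h3 : 0 < ‖z‖ * min 1 z.im := mul_pos hz0 hmin
    have h4 : 1 / (C : ℝ) ≤ ‖z‖ * min 1 z.im := by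
      rw [div_le_iff₀ (by linarith)]
      have h5 : 1 / (‖z‖ * min 1 z.im) ≤ C := by linarith
      rw [div_le_iff₀ h3] at h5
      linarith
    exact h4.trans h2

end U2
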