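import Pool.Agent.H22.U2.Inv

/-!
# MP_ede373, theorem (U2), row Gro: growth of the functions `Phi`

* `A_bd`: `φ s = ‖b.A s‖ exp (-(π/Y)(Im s)^2)` is continuous and invariant under `s ↦ s + 1` and `s ↦ s + z`
  (`‖exp (-(π I z) - 2 π I s)‖ = exp (π Y + 2 π Im s)` and `(Im s + Y)^2 = (Im s)^2 + 2 Y Im s + Y^2`), hence bounded: every `s` is congruent modulo
  `ℤ + ℤ z` to a point of the compact set `{x + y z : x, y ∈ [0, 1]}`. The same for `‖b.B s‖ exp (-(2π/Y)(Im s)^2)`. So (`C0 ≥ 1` a common bound)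
  `‖HH b D i s‖ ≤ C0^(2 D) exp ((π T/Y)(Im s)^2)`, `T = 2 D`, `i ≤ D`.
* `Psi_bd`: `Im (t v1) = -Re t/(2 π T)`, `Im (t v2) = -Re (t z)/(2 π T)` (`1/(2 π I T) = -I/(2 π T)`). With `v' = Im x / Y`:
  `(π T/Y) ((Im x1 + Im (t v1))^2 + (Im x2 + Im (t v2))^2) - (π T/Y)(x1.im^2 + x2.im^2)
    = -(v1' Re t + v2' Re (t z)) + ((Re t)^2 + (Re (t z))^2)/(4 π T Y)`, and
  `Re (t x2) - v1' Re t - v2' Re (t z) = Re (t (x2 - v1' - z v2')) = Re t * bet z x1 x2` because `x2 - v1' - z v2' = bet z x1 x2` (real: its imaginary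
  part is `Im x2 - Y v2' = 0`). So `‖Psi b D i1 i2 x1 x2 t‖ exp (-(π T/Y)(x1.im^2 + x2.im^2)) ≤ C0^(4 D) exp (‖t‖ |bet| + C1 ‖t‖^2)`,
  `C1 = (1 + ‖z‖^2)/(4 π Y)`.
* `Phi_gr`: `k = 0`: `Phi = Psi` at `t = 0`. `k ≥ 1`: Cauchy's estimate for the `k`-th derivative on `‖t‖ = ρ`, `ρ = k/(√k + |bet|)`
  (`Complex.norm_iteratedDeriv_le_of_forall_mem_sphere_norm_le`): `ρ |bet| ≤ k`, `ρ^2 ≤ k`, `k! ρ^(-k) ≤ (√k + |bet|)^k ≤ (k + 1 + |bet|)^k`.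
-/


set_option autoImplicit false

namespace U2

open Complex Finset

theorem Gro_per {z : ℂ} (hz : 0 < z.im) (g : ℂ → ℝ) (hg : Continuous g)
    (h1 : ∀ s, g (s + 1) = g s) (h2 : ∀ s, g (s + z) = g s) :
    ∃ C : ℕ, 1 ≤ C ∧ ∀ s, g s ≤ C := by
  obtain ⟨C, hC⟩ := (isCompact_closedBall (0:ℂ) (1 + z.im)).exists_bound_of_continuousOn
    hg.continuousOn
  have p1 : Function.Periodic g (1 : ℂ) := h1
  have p2 : Function.Periodic g z := h2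
  refine ⟨⌈C⌉₊ + 1, by omega, fun s => ?_⟩
  have key : ∀ s : ℂ, 0 ≤ s.im → s.im ≤ z.im → 0 ≤ s.re → s.re ≤ 1 → g s ≤ C := by
    intro s a1 a2 a3 a4
    refine (le_abs_self _).trans (hC s ?_)
    rw [mem_closedBall_zero_iff]
    refine (Complex.norm_le_abs_re_add_abs_im s).trans ?_
    rw [abs_of_nonneg a1, abs_of_nonneg a3]
    linarith
  have e1 : ∀ (n : ℤ) (s : ℂ), g (s - n * z) = g s := fun n s => p2.sub_int_mul_eq n
  have e2 : ∀ (n : ℤ) (s : ℂ), g (s - n) = g s := fun n s => by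
    have := p1.sub_int_mul_eq (x := s) n
    rwa [mul_one] at this
  set s' : ℂ := s - (⌊s.im / z.im⌋ : ℤ) * z with hs'
  set s'' : ℂ := s' - (⌊s'.re⌋ : ℤ) with hs''
  have e3 : g s'' = g s := by
    rw [hs'', e2, hs', e1]
  have i1 : s''.im = s.im - ⌊s.im / z.im⌋ * z.im := by
    rw [hs'', hs']
    simp
  have i2 : s''.re = s'.re - ⌊s'.re⌋ := by
    rw [hs'']
    simp
  have f1 := Int.floor_le (s.im / z.im)
  have f2 := Int.lt_floor_add_one (s.im / z.im)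
  rw [le_div_iff₀ hz] at f1
  rw [div_lt_iff₀ hz] at f2
  have f3 := Int.floor_le s'.re
  have f4 := Int.lt_floor_add_one s'.re
  have h := key s'' (by rw [i1]; linarith) (by rw [i1]; linarith) (by rw [i2]; linarith)
    (by rw [i2]; linarith)
  rw [e3] at h
  have h5 := Nat.le_ceil C
  push_cast
  linarith

theorem Gro_th {z : ℂ} (hz : 0 < z.im) (f : ℂ → ℂ) (c : ℝ) (hf : Continuous f)
    (h1 : ∀ s, f (s + 1) = f s)
    (h2 : ∀ s, ‖f (s + z)‖ = Real.exp (c * (Real.pi * z.im + 2 * Real.pi * s.im)) * ‖f s‖) :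
    ∃ C : ℕ, 1 ≤ C ∧ ∀ s, ‖f s‖ ≤ C * Real.exp (c * (Real.pi / z.im * s.im ^ 2)) := by
  obtain ⟨C, hC1, hC⟩ := Gro_per hz
    (fun s => ‖f s‖ * Real.exp (-(c * (Real.pi / z.im * s.im ^ 2)))) (by
      refine hf.norm.mul (Real.continuous_exp.comp ?_)
      fun_prop) (by
      intro s
      simp only [h1, Complex.add_im, Complex.one_im, add_zero]) (by
      intro s
      simp only [h2, Complex.add_im]
      rw [mul_assoc, mul_comm ‖f s‖, ← mul_assoc, ← Real.exp_add, mul_comm]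
      congr 2
      field_simp
      ring)
  refine ⟨C, hC1, fun s => ?_⟩
  have h := hC s
  rw [Real.exp_neg, ← div_eq_mul_inv, div_le_iff₀ (Real.exp_pos _)] at h
  exact h

variable {z : ℂ} (b : CZ.BaseFn z)

theorem Gro_base (hz : 0 < z.im) : ∃ C : ℕ, 1 ≤ C ∧ ∀ s : ℂ,
    ‖b.A s‖ ≤ C * Real.exp (Real.pi / z.im * s.im ^ 2) ∧
    ‖b.B s‖ ≤ C * Real.exp (2 * (Real.pi / z.im * s.im ^ 2)) := by
  have n1 : ∀ s : ℂ, (-(Real.pi * I * z) - 2 * Real.pi * I * s).re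
      = Real.pi * z.im + 2 * Real.pi * s.im := by
    intro s
    simp
  obtain ⟨C1, h11, h12⟩ := Gro_th hz b.A 1 b.dA.continuous b.A1 (by
    intro s
    rw [b.Az, norm_neg, norm_mul, Complex.norm_exp, n1, one_mul])
  obtain ⟨C2, h21, h22⟩ := Gro_th hz b.B 2 b.dB.continuous b.B1 (by
    intro s
    rw [b.Bz, norm_mul, Complex.norm_exp]
    have : (2 * (-(Real.pi * I * z) - 2 * Real.pi * I * s)).re
        = 2 * (Real.pi * z.im + 2 * Real.pi * s.im) := by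
      rw [← n1]
      have h2 : (2 : ℂ) = ((2 : ℝ) : ℂ) := by norm_num
      rw [h2, Complex.re_ofReal_mul]
    rw [this])
  have hc1 : (1 : ℝ) ≤ C1 := by exact_mod_cast h11
  have hc2 : (1 : ℝ) ≤ C2 := by exact_mod_cast h21
  refine ⟨C1 * C2, Nat.mul_le_mul h11 h21, fun s => ⟨?_, ?_⟩⟩
  · refine (h12 s).trans ?_
    rw [one_mul]
    push_cast
    gcongr
    nlinarith
  · refine (h22 s).trans ?_
    push_cast
    gcongr
    nlinarith

theorem HH_bd (hz : 0 < z.im) : ∃ C : ℕ, 1 ≤ C ∧ ∀ D i : ℕ, i ≤ D → ∀ s : ℂ,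
    ‖HH b D i s‖ ≤ (C : ℝ) ^ D * Real.exp (Real.pi * ((2 * D : ℕ) : ℝ) / z.im * s.im ^ 2) := by
  obtain ⟨C, hC1, hC⟩ := Gro_base b hz
  have hc : (1 : ℝ) ≤ C := by exact_mod_cast hC1
  refine ⟨C ^ 2, Nat.one_le_pow _ _ hC1, fun D i hi s => ?_⟩
  obtain ⟨hA, hB⟩ := hC s
  obtain ⟨j, rfl⟩ := Nat.exists_eq_add_of_le hi
  have hij : i + j - i = j := by omega
  unfold HH
  rw [norm_mul, norm_pow, norm_pow, hij]
  have e1 : ‖b.A s‖ ^ (2 * j) ≤ (C * Real.exp (Real.pi / z.im * s.im ^ 2)) ^ (2 * j) := by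
    gcongr
  have e2 : ‖b.B s‖ ^ i ≤ (C * Real.exp (2 * (Real.pi / z.im * s.im ^ 2))) ^ i := by
    gcongr
  refine (mul_le_mul e1 e2 (by positivity) (by positivity)).trans ?_
  rw [mul_pow, mul_pow, ← Real.exp_nat_mul, ← Real.exp_nat_mul]
  have e3 : (C : ℝ) ^ (2 * j) * Real.exp (((2 * j : ℕ) : ℝ) * (Real.pi / z.im * s.im ^ 2))
      * ((C : ℝ) ^ i * Real.exp ((i : ℝ) * (2 * (Real.pi / z.im * s.im ^ 2))))
      = (C : ℝ) ^ (2 * j + i)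
        * Real.exp (Real.pi * ((2 * (i + j) : ℕ) : ℝ) / z.im * s.im ^ 2) := by
    have e4 : Real.pi * ((2 * (i + j) : ℕ) : ℝ) / z.im * s.im ^ 2
        = ((2 * j : ℕ) : ℝ) * (Real.pi / z.im * s.im ^ 2)
          + (i : ℝ) * (2 * (Real.pi / z.im * s.im ^ 2)) := by
      push_cast
      ring
    rw [e4, Real.exp_add, pow_add]
    ring
  rw [e3]
  have e5 : (C : ℝ) ^ (2 * j + i) ≤ (((C ^ 2 : ℕ) : ℝ)) ^ (i + j) := by
    push_cast
    rw [← pow_mul]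
    exact pow_le_pow_right₀ hc (by omega)
  gcongr

theorem Gro_im1 {D : ℕ} (hD : 1 ≤ D) (t : ℂ) :
    (t * v1 D).im = -(t.re / (2 * Real.pi * (2 * D))) := by
  have hD' : (D : ℂ) ≠ 0 := by exact_mod_cast (by omega : D ≠ 0)
  have hp : (Real.pi : ℂ) ≠ 0 := by exact_mod_cast Real.pi_ne_zero
  have h : t * v1 D = (((1 / (2 * Real.pi * (2 * D)) : ℝ)) : ℂ) * (-(I * t)) := by
    unfold v1
    push_cast
    field_simp
    rw [Complex.I_sq]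
    ring
  rw [h, Complex.im_ofReal_mul]
  simp
  ring

theorem Gro_im2 {D : ℕ} (hD : 1 ≤ D) (t : ℂ) :
    (t * v2 z D).im = -((t * z).re / (2 * Real.pi * (2 * D))) := by
  have h : t * v2 z D = (t * z) * v1 D := by
    unfold v1 v2
    ring
  rw [h, Gro_im1 hD]

theorem Psi_bd (hz : 0 < z.im) : ∃ C : ℕ, 1 ≤ C ∧ ∀ D i1 i2 : ℕ, 1 ≤ D → i1 ≤ D → i2 ≤ D →
    ∀ x1 x2 t : ℂ, Nw z (2 * D) (fun y1 y2 ↦ Psi b D i1 i2 y1 y2 t) x1 x2 ≤
      (C : ℝ) ^ D * Real.exp (‖t‖ * |bet z x1 x2| + C * ‖t‖ ^ 2) := by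
  obtain ⟨C, hC1, hC⟩ := HH_bd b hz
  have hc : (1 : ℝ) ≤ C := by exact_mod_cast hC1
  set C3 : ℕ := ⌈(1 + ‖z‖ ^ 2) / (4 * Real.pi * z.im)⌉₊ with hC3
  have hC3' : (1 + ‖z‖ ^ 2) / (4 * Real.pi * z.im) ≤ C3 := Nat.le_ceil _
  refine ⟨C ^ 2 + C3, by nlinarith, ?_⟩
  intro D i1 i2 hD h1 h2 x1 x2 t
  have hDr : (1 : ℝ) ≤ D := by exact_mod_cast hD
  have hpi := Real.pi_pos
  unfold Nw Psi
  rw [norm_mul, norm_mul, Complex.norm_exp]
  have b1 := hC D i1 h1 (x1 + t * v1 D)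
  have b2 := hC D i2 h2 (x2 + t * v2 z D)
  have b3 : Real.exp (t * x2).re * ‖HH b D i1 (x1 + t * v1 D)‖ * ‖HH b D i2 (x2 + t * v2 z D)‖
      * Real.exp (-(Real.pi * ((2 * D : ℕ) : ℝ) / z.im * (x1.im ^ 2 + x2.im ^ 2)))
      ≤ Real.exp (t * x2).re * ((C : ℝ) ^ D *
        Real.exp (Real.pi * ((2 * D : ℕ) : ℝ) / z.im * (x1 + t * v1 D).im ^ 2))
      * ((C : ℝ) ^ D * Real.exp (Real.pi * ((2 * D : ℕ) : ℝ) / z.im * (x2 + t * v2 z D).im ^ 2))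
      * Real.exp (-(Real.pi * ((2 * D : ℕ) : ℝ) / z.im * (x1.im ^ 2 + x2.im ^ 2))) := by
    gcongr
  refine b3.trans ?_
  have b4 : Real.exp (t * x2).re * ((C : ℝ) ^ D *
        Real.exp (Real.pi * ((2 * D : ℕ) : ℝ) / z.im * (x1 + t * v1 D).im ^ 2))
      * ((C : ℝ) ^ D * Real.exp (Real.pi * ((2 * D : ℕ) : ℝ) / z.im * (x2 + t * v2 z D).im ^ 2))
      * Real.exp (-(Real.pi * ((2 * D : ℕ) : ℝ) / z.im * (x1.im ^ 2 + x2.im ^ 2)))
      = ((C : ℝ) ^ 2) ^ D * Real.exp ((t * x2).re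
        + Real.pi * ((2 * D : ℕ) : ℝ) / z.im * (x1 + t * v1 D).im ^ 2
        + Real.pi * ((2 * D : ℕ) : ℝ) / z.im * (x2 + t * v2 z D).im ^ 2
        - Real.pi * ((2 * D : ℕ) : ℝ) / z.im * (x1.im ^ 2 + x2.im ^ 2)) := by
    rw [sub_eq_add_neg, Real.exp_add, Real.exp_add, Real.exp_add, ← pow_mul, two_mul, pow_add]
    ring
  rw [b4]
  have b5 : (t * x2).re
        + Real.pi * ((2 * D : ℕ) : ℝ) / z.im * (x1 + t * v1 D).im ^ 2
        + Real.pi * ((2 * D : ℕ) : ℝ) / z.im * (x2 + t * v2 z D).im ^ 2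
        - Real.pi * ((2 * D : ℕ) : ℝ) / z.im * (x1.im ^ 2 + x2.im ^ 2)
      = t.re * bet z x1 x2 + (t.re ^ 2 + (t * z).re ^ 2) / (4 * Real.pi * (2 * D) * z.im) := by
    rw [Complex.add_im, Complex.add_im, Gro_im1 hD, Gro_im2 hD]
    unfold bet
    have hz' : z.im ≠ 0 := hz.ne'
    have hD0 : (D : ℝ) ≠ 0 := by positivity
    simp only [Complex.mul_re]
    push_cast
    field_simp
    ring
  rw [b5]
  have c1 : t.re * bet z x1 x2 ≤ ‖t‖ * |bet z x1 x2| := by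
    refine (le_abs_self _).trans ?_
    rw [abs_mul]
    gcongr
    exact Complex.abs_re_le_norm t
  have c2 : (t.re ^ 2 + (t * z).re ^ 2) / (4 * Real.pi * (2 * D) * z.im)
      ≤ (((C ^ 2 + C3 : ℕ) : ℝ)) * ‖t‖ ^ 2 := by
    have d1 : t.re ^ 2 ≤ ‖t‖ ^ 2 := by
      rw [← sq_abs t.re]
      gcongr
      exact Complex.abs_re_le_norm t
    have d2 : (t * z).re ^ 2 ≤ ‖t‖ ^ 2 * ‖z‖ ^ 2 := by
      rw [← sq_abs (t * z).re, ← mul_pow, ← norm_mul]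
      gcongr
      exact Complex.abs_re_le_norm _
    have d3 : (t.re ^ 2 + (t * z).re ^ 2) / (4 * Real.pi * (2 * D) * z.im)
        ≤ (‖t‖ ^ 2 * (1 + ‖z‖ ^ 2)) / (4 * Real.pi * z.im) := by
      have : 4 * Real.pi * z.im ≤ 4 * Real.pi * (2 * D) * z.im := by
        have hq : 0 < 4 * Real.pi * z.im := by positivity
        nlinarith
      have hn : t.re ^ 2 + (t * z).re ^ 2 ≤ ‖t‖ ^ 2 * (1 + ‖z‖ ^ 2) := by linarith
      exact div_le_div₀ (by positivity) hn (by positivity) this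
    refine d3.trans ?_
    have d4 : (‖t‖ ^ 2 * (1 + ‖z‖ ^ 2)) / (4 * Real.pi * z.im)
        = (1 + ‖z‖ ^ 2) / (4 * Real.pi * z.im) * ‖t‖ ^ 2 := by ring
    rw [d4]
    gcongr
    push_cast
    nlinarith
  have c3 : (C : ℝ) ^ 2 ≤ (((C ^ 2 + C3 : ℕ) : ℝ)) := by
    push_cast
    have : (0:ℝ) ≤ C3 := by positivity
    linarith
  gcongr

theorem Gro_Psi_diff (D i1 i2 : ℕ) (x1 x2 : ℂ) :
    Differentiable ℂ fun t ↦ Psi b D i1 i2 x1 x2 t := by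
  unfold Psi
  have h1 : Differentiable ℂ fun t : ℂ ↦ HH b D i1 (x1 + t * v1 D) :=
    (HH_diff b D i1).comp (by fun_prop)
  have h2 : Differentiable ℂ fun t : ℂ ↦ HH b D i2 (x2 + t * v2 z D) :=
    (HH_diff b D i2).comp (by fun_prop)
  have h3 : Differentiable ℂ fun t : ℂ ↦ exp (t * x2) := by fun_prop
  exact (h3.mul h1).mul h2

theorem Phi_gr (hz : 0 < z.im) : ∃ C : ℕ, 1 ≤ C ∧ ∀ D i1 i2 k : ℕ, 1 ≤ D → i1 ≤ D → i2 ≤ D →
    ∀ x1 x2 : ℂ, Nw z (2 * D) (Phi b D i1 i2 k) x1 x2 ≤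
      (C : ℝ) ^ (D + k) * ((k : ℝ) + 1 + |bet z x1 x2|) ^ k := by
  obtain ⟨C, hC1, hC⟩ := Psi_bd b hz
  have hc : (1 : ℝ) ≤ C := by exact_mod_cast hC1
  set C4 : ℕ := ⌈Real.exp (1 + C)⌉₊ with hC4
  have hC4' : Real.exp (1 + C) ≤ C4 := Nat.le_ceil _
  have hC41 : (1 : ℝ) ≤ C4 := by
    have : (1:ℝ) ≤ Real.exp (1 + C) := Real.one_le_exp (by positivity)
    linarith
  have hC41' : 1 ≤ C4 := by exact_mod_cast hC41
  refine ⟨C * C4, Nat.mul_le_mul hC1 hC41', ?_⟩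
  intro D i1 i2 k hD h1 h2 x1 x2
  set B : ℝ := |bet z x1 x2| with hB
  have hB0 : 0 ≤ B := abs_nonneg _
  set K : ℝ := (k : ℝ) + 1 with hK
  have hK1 : 1 ≤ K := by
    have : (0:ℝ) ≤ k := by positivity
    linarith
  have hsK : 1 ≤ Real.sqrt K := by
    rw [Real.one_le_sqrt]
    exact hK1
  have hsK2 : Real.sqrt K * Real.sqrt K = K := Real.mul_self_sqrt (by linarith)
  set ρ : ℝ := K / (Real.sqrt K + B) with hρ
  have hden : 0 < Real.sqrt K + B := by linarith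
  have hρ0 : 0 < ρ := by positivity
  have hρB : ρ * B ≤ K := by
    rw [hρ, div_mul_eq_mul_div, div_le_iff₀ hden]
    nlinarith
  have hρs : ρ ≤ Real.sqrt K := by
    rw [hρ, div_le_iff₀ hden]
    nlinarith
  have hρ2 : ρ ^ 2 ≤ K := by
    nlinarith
  set W : ℝ := Real.pi * ((2 * D : ℕ) : ℝ) / z.im * (x1.im ^ 2 + x2.im ^ 2) with hW
  have hsph : ∀ t ∈ Metric.sphere (0:ℂ) ρ, ‖Psi b D i1 i2 x1 x2 t‖
      ≤ (C : ℝ) ^ D * Real.exp (K * (1 + C)) * Real.exp W := by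
    intro t ht
    have ht' : ‖t‖ = ρ := by simpa using ht
    have h := hC D i1 i2 hD h1 h2 x1 x2 t
    unfold Nw at h
    rw [Real.exp_neg, ← div_eq_mul_inv, div_le_iff₀ (Real.exp_pos _)] at h
    refine h.trans ?_
    gcongr
    rw [ht', ← hB]
    nlinarith
  have hcau := Complex.norm_iteratedDeriv_le_of_forall_mem_sphere_norm_le k hρ0
    (Gro_Psi_diff b D i1 i2 x1 x2).diffContOnCl hsph
  unfold Nw Phi
  rw [← hW, Real.exp_neg, ← div_eq_mul_inv, div_le_iff₀ (Real.exp_pos _)]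
  refine hcau.trans ?_
  have hfac : (k.factorial : ℝ) ≤ K ^ k := by
    have h5 : k.factorial ≤ k ^ k := Nat.factorial_le_pow k
    have h6 : (k.factorial : ℝ) ≤ (k : ℝ) ^ k := by exact_mod_cast h5
    refine h6.trans ?_
    gcongr
    linarith
  have hq : (k.factorial : ℝ) / ρ ^ k ≤ (K + B) ^ k := by
    rw [div_le_iff₀ (by positivity), ← mul_pow]
    refine hfac.trans ?_
    gcongr
    rw [hρ, mul_div_assoc', le_div_iff₀ hden]
    have hsK3 : Real.sqrt K ≤ K := by nlinarith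
    have hK0 : 0 ≤ K := by linarith
    nlinarith [mul_le_mul_of_nonneg_left hsK3 hK0]
  have hexp : Real.exp (K * (1 + C)) ≤ (C4 : ℝ) ^ (D + k) := by
    have h7 : Real.exp (K * (1 + C)) = Real.exp (1 + C) ^ (k + 1) := by
      rw [← Real.exp_nat_mul]
      congr 1
      rw [hK]
      push_cast
      ring
    rw [h7]
    calc Real.exp (1 + C) ^ (k + 1) ≤ (C4 : ℝ) ^ (k + 1) := by gcongr
      _ ≤ (C4 : ℝ) ^ (D + k) := pow_le_pow_right₀ hC41 (by omega)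
  have hCD : (C : ℝ) ^ D ≤ (C : ℝ) ^ (D + k) := pow_le_pow_right₀ hc (by omega)
  calc (k.factorial : ℝ) * ((C : ℝ) ^ D * Real.exp (K * (1 + C)) * Real.exp W) / ρ ^ k
      = (k.factorial : ℝ) / ρ ^ k * ((C : ℝ) ^ D * Real.exp (K * (1 + C))) * Real.exp W := by
        ring
    _ ≤ (K + B) ^ k * ((C : ℝ) ^ (D + k) * (C4 : ℝ) ^ (D + k)) * Real.exp W := by
        gcongr
    _ = (((C * C4 : ℕ) : ℝ)) ^ (D + k) * (K + B) ^ k * Real.exp W := by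
        push_cast
        rw [mul_pow]
        ring

end U2
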