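import Mathlib

/-!
# MP_ede373, theorem (U2), row Hm: Schwarz lemma with several approximate zeros (one variable)

`gen`: induction on `m = ∑ i, s i` (generalising `g, s, ε, M`). Local structure: for every `i` there are functions `a, b`, continuous on the
closed ball `closedBall (u i) δ` and differentiable on the open ball (`DiffContOnCl`), with `g = a + (v - u i)^(s i) b` and `‖a‖ ≤ ε` on the
closed ball. Bound: `‖g 0‖ ≤ 3^(-m) M + Bm m ε` with `Bm 0 = 0`, `Bm m = 1 + 3^(-m) + (2R/δ) Bm (m-1)`, so `Bm m ≤ 2 m (2R/δ)^m` (`2R/δ ≥ 2`).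
* `m = 0`: `‖g 0‖ ≤ M` (maximum principle on `‖v‖ ≤ 4R`, or the hypothesis `hM` itself).
* `m ≥ 1`: take `j` with `s j ≥ 1`; `g (u j) = a_j (u j)` so `‖g (u j)‖ ≤ ε`. Put `g1 = dslope g (u j)`: entire
  (`Differentiable.dslope`-type lemma: `differentiableOn_dslope`), `g v = g (u j) + (v - u j) g1 v` (`sub_smul_dslope`).
  Local structure of `g1` with `s' = update s j (s j - 1)` and `ε' = 2 ε / δ`:
  - `i ≠ j`: on `closedBall (u i) δ` we have `‖v - u j‖ ≥ 2δ - δ = δ`: `a' = (a_i - g (u j))/(v - u j)`, `b' = b_i / (v - u j)`.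
  - `i = j`: `a' = dslope a_j (u j)` and `b' = b_j` (`g - g (u j) = (a_j - a_j (u j)) + (v - u j)^(s j) b_j`; for `v ≠ u j` divide; at `v = u j` by
    continuity, or take `b'`, `a'` and the identity on the punctured ball plus continuity). `‖a'‖ ≤ 2ε/δ` on the circle `‖v - u j‖ = δ`, hence on the
    closed ball by the maximum principle.
  Bound of `g1` on `‖v‖ ≤ 4R`: on the circle `‖v‖ = 4R`: `‖v - u j‖ ≥ 3R`, so `‖g1‖ ≤ (M + ε)/(3R)`; maximum principle
  (`Complex.norm_le_of_forall_mem_frontier_norm_le`).
  Induction hypothesis: `‖g1 0‖ ≤ 3^(-(m-1)) (M + ε)/(3R) + Bm (m-1) (2ε/δ)`; `‖g 0‖ ≤ ε + ‖u j‖ ‖g1 0‖ ≤ ε + R ‖g1 0‖`. Done.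
`hermite`: `s i = S` for all `i : Fin n`, `m = n S`.
-/

set_option autoImplicit false

namespace U2

open Complex Metric

theorem Hm_gen (n : ℕ) (u : Fin n → ℂ) (δ R : ℝ)
    (hδ : 0 < δ) (hδR : δ ≤ R) (hu : ∀ i, ‖u i‖ ≤ R)
    (hsep : ∀ i j, i ≠ j → 2 * δ ≤ ‖u i - u j‖) (m : ℕ) :
    ∀ (g : ℂ → ℂ) (s : Fin n → ℕ) (ε M : ℝ), Differentiable ℂ g → ∑ i, s i = m → 0 ≤ ε →
    (∀ i, ∃ a b : ℂ → ℂ, DifferentiableOn ℂ a (ball (u i) δ) ∧
      ContinuousOn a (closedBall (u i) δ) ∧ ContinuousAt b (u i) ∧
      (∀ v ∈ closedBall (u i) δ, g v = a v + (v - u i) ^ (s i) * b v) ∧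
      ∀ v ∈ closedBall (u i) δ, ‖a v‖ ≤ ε) →
    (∀ v, ‖v‖ ≤ 4 * R → ‖g v‖ ≤ M) →
    ‖g 0‖ ≤ (1 / 3) ^ m * M + 2 * (m : ℝ) * (2 * R / δ) ^ m * ε := by
  have hR : 0 < R := lt_of_lt_of_le hδ hδR
  have hq : 1 ≤ 2 * R / δ := by
    rw [le_div_iff₀ hδ]
    linarith
  induction m with
  | zero =>
    intro g s ε M _ _ _ _ hM
    have := hM 0 (by rw [norm_zero]; positivity)
    simpa using this
  | succ m ih =>
    intro g s ε M hg hs hε hloc hM
    obtain ⟨j, hj⟩ : ∃ j, 0 < s j := by
      by_contra hcon
      push Not at hcon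
      have : ∑ i, s i = 0 := Finset.sum_eq_zero fun i _ => Nat.le_zero.1 (hcon i)
      omega
    obtain ⟨k, hk⟩ : ∃ k, s j = k + 1 := ⟨s j - 1, by omega⟩
    choose a b ha1 ha2 hb hab hae using hloc
    set c := g (u j) with hc
    have hmem : ∀ i, u i ∈ closedBall (u i) δ := fun i => mem_closedBall_self hδ.le
    have hcj : c = a j (u j) := by
      rw [hc, hab j (u j) (hmem j), sub_self, hk]
      simp
    have hcε : ‖c‖ ≤ ε := by
      rw [hcj]
      exact hae j _ (hmem j)
    set g1 : ℂ → ℂ := dslope g (u j) with hg1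
    have hg1d : Differentiable ℂ g1 := by
      rw [← differentiableOn_univ, hg1, Complex.differentiableOn_dslope Filter.univ_mem]
      exact hg.differentiableOn
    have hg1v : ∀ v, v ≠ u j → g1 v = (g v - c) / (v - u j) := by
      intro v hv
      rw [hg1, dslope_of_ne _ hv, slope_def_field]
    have hgv : ∀ v, g v = c + (v - u j) * g1 v := by
      intro v
      have := sub_smul_dslope g (u j) v
      rw [smul_eq_mul] at this
      rw [hg1, this, hc]
      ring
    -- the bound of `g1` on the big ball
    have hM1 : ∀ v, ‖v‖ ≤ 4 * R → ‖g1 v‖ ≤ (M + ε) / (3 * R) := by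
      intro v hv
      have hfr : ∀ z ∈ frontier (ball (0 : ℂ) (4 * R)), ‖g1 z‖ ≤ (M + ε) / (3 * R) := by
        intro z hz
        rw [frontier_ball _ (by positivity), mem_sphere_zero_iff_norm] at hz
        have h3 : 3 * R ≤ ‖z - u j‖ := by
          have := norm_sub_norm_le z (u j)
          have := hu j
          linarith
        have hne : z ≠ u j := by
          intro h
          rw [h, sub_self, norm_zero] at h3
          linarith
        rw [hg1v z hne, norm_div]
        have h4 : ‖g z - c‖ ≤ M + ε := by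
          have h5 := norm_sub_le (g z) c
          have h6 := hM z hz.le
          linarith
        have h7 : 0 ≤ M + ε := (norm_nonneg _).trans h4
        exact div_le_div₀ h7 h4 (by positivity) h3
      refine Complex.norm_le_of_forall_mem_frontier_norm_le (U := ball (0 : ℂ) (4 * R))
        isBounded_ball hg1d.diffContOnCl hfr ?_
      rw [closure_ball _ (by positivity), mem_closedBall_zero_iff]
      exact hv
    -- the local structure of `g1`
    have hloc1 : ∀ i, ∃ a' b' : ℂ → ℂ, DifferentiableOn ℂ a' (ball (u i) δ) ∧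
        ContinuousOn a' (closedBall (u i) δ) ∧ ContinuousAt b' (u i) ∧
        (∀ v ∈ closedBall (u i) δ, g1 v = a' v + (v - u i) ^ (Function.update s j k i) * b' v) ∧
        ∀ v ∈ closedBall (u i) δ, ‖a' v‖ ≤ 2 * ε / δ := by
      intro i
      by_cases hij : i = j
      · subst hij
        have hnb : ball (u i) δ ∈ nhds (u i) := ball_mem_nhds _ hδ
        have hncb : closedBall (u i) δ ∈ nhds (u i) := closedBall_mem_nhds _ hδ
        have hdd : DifferentiableOn ℂ (dslope (a i) (u i)) (ball (u i) δ) :=
          (Complex.differentiableOn_dslope hnb).2 (ha1 i)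
        have hda : DifferentiableAt ℂ (a i) (u i) := (ha1 i).differentiableAt hnb
        have hdc : ContinuousOn (dslope (a i) (u i)) (closedBall (u i) δ) :=
          (continuousOn_dslope hncb).2 ⟨ha2 i, hda⟩
        refine ⟨dslope (a i) (u i), b i, hdd, hdc, hb i, ?_, ?_⟩
        · rw [Function.update_self]
          have hne : ∀ v ∈ closedBall (u i) δ, v ≠ u i →
              g1 v = dslope (a i) (u i) v + (v - u i) ^ k * b i v := by
            intro v hv hvne
            have hvv : v - u i ≠ 0 := sub_ne_zero.2 hvne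
            rw [hg1v v hvne, dslope_of_ne _ hvne, slope_def_field, hab i v hv, hcj, hk]
            field_simp
            ring
          intro v hv
          by_cases hvi : v = u i
          · subst hvi
            have hev : g1 =ᶠ[nhdsWithin (u i) {u i}ᶜ]
                fun v => dslope (a i) (u i) v + (v - u i) ^ k * b i v := by
              have h1 : closedBall (u i) δ ∈ nhdsWithin (u i) {u i}ᶜ :=
                mem_nhdsWithin_of_mem_nhds hncb
              filter_upwards [h1, self_mem_nhdsWithin] with v hv1 hv2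
              exact hne v hv1 hv2
            have t1 : Filter.Tendsto g1 (nhdsWithin (u i) {u i}ᶜ) (nhds (g1 (u i))) :=
              (hg1d.continuous.tendsto _).mono_left nhdsWithin_le_nhds
            have t2 : Filter.Tendsto (fun v => dslope (a i) (u i) v + (v - u i) ^ k * b i v)
                (nhdsWithin (u i) {u i}ᶜ)
                (nhds (dslope (a i) (u i) (u i) + (u i - u i) ^ k * b i (u i))) := by
              refine Filter.Tendsto.mono_left ?_ nhdsWithin_le_nhds
              have c1 : ContinuousAt (dslope (a i) (u i)) (u i) := hdc.continuousAt hncb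
              have c2 : ContinuousAt (fun v : ℂ => (v - u i) ^ k) (u i) := by fun_prop
              exact (c1.add (c2.mul (hb i)))
            exact tendsto_nhds_unique_of_eventuallyEq t1 t2 hev
          · exact hne v hv hvi
        · have hfr : ∀ z ∈ frontier (ball (u i) δ), ‖dslope (a i) (u i) z‖ ≤ 2 * ε / δ := by
            intro z hz
            rw [frontier_ball _ hδ.ne', mem_sphere_iff_norm] at hz
            have hne : z ≠ u i := by
              intro h
              rw [h, sub_self, norm_zero] at hz
              exact hδ.ne hz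
            rw [dslope_of_ne _ hne, slope_def_field, norm_div, hz]
            have h1 := norm_sub_le (a i z) (a i (u i))
            have h2 := hae i z (by rw [mem_closedBall_iff_norm]; exact hz.le)
            have h3 := hae i (u i) (hmem i)
            gcongr
            linarith
          intro v hv
          refine Complex.norm_le_of_forall_mem_frontier_norm_le (U := ball (u i) δ)
            isBounded_ball ⟨hdd, ?_⟩ hfr ?_
          · rw [closure_ball _ hδ.ne']
            exact hdc
          · rw [closure_ball _ hδ.ne']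
            exact hv
      · have hfar : ∀ v ∈ closedBall (u i) δ, δ ≤ ‖v - u j‖ := by
          intro v hv
          rw [mem_closedBall_iff_norm] at hv
          have h1 := hsep i j hij
          have h2 : ‖u i - u j‖ ≤ ‖v - u j‖ + ‖v - u i‖ := by
            have : u i - u j = (v - u j) - (v - u i) := by ring
            rw [this]
            exact norm_sub_le _ _
          linarith
        have hnz : ∀ v ∈ closedBall (u i) δ, v - u j ≠ 0 := by
          intro v hv h
          have := hfar v hv
          rw [h, norm_zero] at this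
          linarith
        refine ⟨fun v => (a i v - c) / (v - u j), fun v => b i v / (v - u j), ?_, ?_, ?_, ?_, ?_⟩
        · intro v hv
          have h1 := ha1 i v hv
          have h2 := hnz v (ball_subset_closedBall hv)
          exact (h1.sub_const c).div
            ((differentiableAt_id.sub_const (u j)).differentiableWithinAt) h2
        · intro v hv
          have h1 := ha2 i v hv
          exact (h1.sub continuousWithinAt_const).div
            (continuousWithinAt_id.sub continuousWithinAt_const) (hnz v hv)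
        · exact (hb i).div (continuousAt_id.sub continuousAt_const) (hnz _ (hmem i))
        · intro v hv
          rw [Function.update_of_ne hij]
          have h2 := hnz v hv
          rw [hg1v v (sub_ne_zero.1 h2), hab i v hv]
          field_simp
          ring
        · intro v hv
          have h1 := hfar v hv
          have h2 := norm_sub_le (a i v) c
          have h3 := hae i v hv
          rw [norm_div]
          exact div_le_div₀ (by positivity) (by linarith) hδ h1
    have hsum : ∑ i, Function.update s j k i = m := by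
      have h1 := Finset.sum_update_of_mem (Finset.mem_univ j) s k
      have h2 := Finset.add_sum_erase Finset.univ s (Finset.mem_univ j)
      rw [Finset.sdiff_singleton_eq_erase] at h1
      omega
    have hfin := ih g1 (Function.update s j k) (2 * ε / δ) ((M + ε) / (3 * R)) hg1d hsum
      (by positivity) hloc1 hM1
    have h0 : ‖g 0‖ ≤ ε + R * ‖g1 0‖ := by
      rw [hgv 0]
      refine (norm_add_le _ _).trans ?_
      rw [norm_mul, zero_sub, norm_neg]
      have := hu j
      gcongr
    have h1 : R * ‖g1 0‖ ≤ (1 / 3) ^ (m + 1) * (M + ε)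
        + 2 * (m : ℝ) * (2 * R / δ) ^ (m + 1) * ε := by
      refine (mul_le_mul_of_nonneg_left hfin hR.le).trans (le_of_eq ?_)
      rw [pow_succ, pow_succ]
      field_simp
    have h2 : ε * (1 / 3) ^ (m + 1) ≤ ε := by
      have : ((1 : ℝ) / 3) ^ (m + 1) ≤ 1 := pow_le_one₀ (by norm_num) (by norm_num)
      nlinarith
    have h3 : ε ≤ (2 * R / δ) ^ (m + 1) * ε := by
      have : 1 ≤ (2 * R / δ) ^ (m + 1) := one_le_pow₀ hq
      nlinarith
    push_cast
    nlinarith

theorem hermite (g : ℂ → ℂ) (hg : Differentiable ℂ g) (n S : ℕ) (u : Fin n → ℂ) (δ R ε M : ℝ)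
    (hδ : 0 < δ) (hδR : δ ≤ R) (hu : ∀ i, ‖u i‖ ≤ R)
    (hsep : ∀ i j, i ≠ j → 2 * δ ≤ ‖u i - u j‖) (hε : 0 ≤ ε)
    (hloc : ∀ i, ∃ a b : ℂ → ℂ, Differentiable ℂ a ∧ Differentiable ℂ b ∧
      (∀ v, g v = a v + (v - u i) ^ S * b v) ∧ ∀ v, ‖v - u i‖ ≤ δ → ‖a v‖ ≤ ε)
    (hM : ∀ v, ‖v‖ ≤ 4 * R → ‖g v‖ ≤ M) :
    ‖g 0‖ ≤ (1 / 3) ^ (n * S) * M + 2 * (n * S : ℕ) * (2 * R / δ) ^ (n * S) * ε := by
  refine Hm_gen n u δ R hδ hδR hu hsep (n * S) g (fun _ => S) ε M hg ?_ hε ?_ hM
  · simp
  · intro i
    obtain ⟨a, b, ha, hb, hab, hae⟩ := hloc i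
    refine ⟨a, b, ha.differentiableOn, ha.continuous.continuousOn, hb.continuous.continuousAt,
      fun v _ => hab v, fun v hv => hae v ?_⟩
    rwa [← mem_closedBall_iff_norm]

end U2
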