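import Pool.Agent.H22.U2.DefA
import Pool.Agent.H32.AZ.At

/-!
# MP_ede373, theorem (U2), row Hpp: the derivatives of `HH b D i` at the origin

Copy of `Pool/Agent/H32/AZ/At.lean`.
`hp_val`: for `‖s‖ < ε`: `HH b D i s = b.A s^(2 (D - i)) (b.A s^2 X s)^i = b.A s^(2 D) X s^i` (`hb.hB`, `i ≤ D`), so the functions
are eventually equal near `0` and have the same iterated derivatives at `0` (`Filter.EventuallyEq.iteratedDeriv_eq`). `iteratedDeriv_TD` with
`m = fun s ↦ b.A s^(2 D)`, `dv = AZ.tdv`, `g = C (2 D) * X 2`, `P = X 0 ^ i`: `m' = 2 D b.A^(2 D - 1) b.A' = lam (m (2 D Y))`, because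
`b.mu * deriv b.A s = b.A s * Y s` and `b.mu = lam⁻¹`. At `0`: `b.A 0 = 1`, `X 0 = ep`, `X1 0 = 0`, `Y 0 = 0`.
`hp_bd`: `deg_TD_iter`, `nrm_TD_iter` with `e = 1`, `a = 7`, `ag = 2 D` (degrees of `tdv` at most `2`, `nrm` at most `7`, as in `AZ/At.lean`), `nrm (X 0 ^ i) ≤ 1`.
-/

set_option autoImplicit false

namespace U2

open MvPolynomial CZ
open H32.T3 (nrm)

theorem Hpp_nrm (i : Fin 5) : nrm (AZ.tdv i) ≤ 7 := by
  fin_cases i
  · change nrm (X 1) ≤ 7
    rw [H32.T3.nrm_X]; norm_num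
  · change nrm (C 6 * X 0 ^ 2 - X 3) ≤ 7
    rw [sub_eq_add_neg]
    refine (H32.T3.nrm_add_le _ _).trans ?_
    rw [H32.T3.nrm_neg, H32.T3.nrm_X]
    have h1 := H32.T3.nrm_mul_le (C 6 : MvPolynomial (Fin 5) ℤ) (X 0 ^ 2)
    have h2 := H32.T3.nrm_pow_le (X 0 : MvPolynomial (Fin 5) ℤ) 2
    rw [H32.T3.nrm_X, one_pow] at h2
    rw [H32.T3.nrm_C] at h1
    have h3 := H32.T3.nrm_nonneg (X 0 ^ 2 : MvPolynomial (Fin 5) ℤ)
    have h4 : |((6 : ℤ) : ℝ)| = 6 := by norm_num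
    rw [h4] at h1
    linarith
  · change nrm (-X 0 - X 4) ≤ 7
    rw [sub_eq_add_neg]
    refine (H32.T3.nrm_add_le _ _).trans ?_
    rw [H32.T3.nrm_neg, H32.T3.nrm_neg, H32.T3.nrm_X, H32.T3.nrm_X]; norm_num
  · change nrm 0 ≤ 7
    rw [H32.T3.nrm_zero]; norm_num
  · change nrm 0 ≤ 7
    rw [H32.T3.nrm_zero]; norm_num

theorem Hpp_deg (i : Fin 5) : (AZ.tdv i).totalDegree ≤ 1 + 1 := by
  fin_cases i
  · change (X 1 : MvPolynomial (Fin 5) ℤ).totalDegree ≤ 2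
    rw [totalDegree_X]; norm_num
  · change (C 6 * X 0 ^ 2 - X 3 : MvPolynomial (Fin 5) ℤ).totalDegree ≤ 2
    refine (totalDegree_sub _ _).trans (max_le ?_ ?_)
    · refine (totalDegree_mul _ _).trans ?_
      rw [totalDegree_C, zero_add]
      refine (totalDegree_pow _ _).trans ?_
      rw [totalDegree_X]
    · rw [totalDegree_X]; norm_num
  · change (-X 0 - X 4 : MvPolynomial (Fin 5) ℤ).totalDegree ≤ 2
    refine (totalDegree_sub _ _).trans (max_le ?_ ?_)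
    · rw [totalDegree_neg, totalDegree_X]; norm_num
    · rw [totalDegree_X]; norm_num
  · change (0 : MvPolynomial (Fin 5) ℤ).totalDegree ≤ 2
    simp
  · change (0 : MvPolynomial (Fin 5) ℤ).totalDegree ≤ 2
    simp

theorem hp_val {z : ℂ} (b : BaseFn z) (lam h kap ep : ℂ) (ε : ℝ) (Xf X1f Yf : ℂ → ℂ)
    (hb : BaseSys b lam h kap ep ε Xf X1f Yf) (D i p : ℕ) (hi : i ≤ D) :
    iteratedDeriv p (HH b D i) 0 =
      lam ^ p * aeval (![ep, 0, 0, h, kap] : Fin 5 → ℂ) (hp D i p) := by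
  obtain ⟨f, hf⟩ : ∃ f : Fin 5 → ℂ → ℂ, f = ![Xf, X1f, Yf, fun _ ↦ h, fun _ ↦ kap] := ⟨_, rfl⟩
  have h0 : ∀ u, f 0 u = Xf u := fun u ↦ by rw [hf]; rfl
  have h1 : ∀ u, f 1 u = X1f u := fun u ↦ by rw [hf]; rfl
  have h2 : ∀ u, f 2 u = Yf u := fun u ↦ by rw [hf]; rfl
  have h3 : ∀ u, f 3 u = h := fun u ↦ by rw [hf]; rfl
  have h4 : ∀ u, f 4 u = kap := fun u ↦ by rw [hf]; rfl
  have hD : ∀ u ∈ Metric.ball (0 : ℂ) ε, ∀ i,
      HasDerivAt (f i) (lam * aeval (fun j ↦ f j u) (AZ.tdv i)) u := by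
    intro u hu i
    have hu' : ‖u‖ < ε := by simpa using hu
    fin_cases i
    · have e : aeval (fun j ↦ f j u) (AZ.tdv 0) = X1f u := by
        change aeval (fun j ↦ f j u) (X 1) = X1f u
        rw [aeval_X, h1]
      have e2 : f 0 = Xf := funext h0
      change HasDerivAt (f 0) (lam * aeval (fun j ↦ f j u) (AZ.tdv 0)) u
      rw [e, e2]
      exact hb.dX u hu'
    · have e : aeval (fun j ↦ f j u) (AZ.tdv 1) = 6 * Xf u ^ 2 - h := by
        change aeval (fun j ↦ f j u) (C 6 * X 0 ^ 2 - X 3) = _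
        simp only [map_sub, map_mul, map_pow, aeval_X, h0, h3]
        simp
      have e2 : f 1 = X1f := funext h1
      change HasDerivAt (f 1) (lam * aeval (fun j ↦ f j u) (AZ.tdv 1)) u
      rw [e, e2]
      exact hb.dX1 u hu'
    · have e : aeval (fun j ↦ f j u) (AZ.tdv 2) = -Xf u - kap := by
        change aeval (fun j ↦ f j u) (-X 0 - X 4) = _
        simp only [map_sub, map_neg, aeval_X, h0, h4]
      have e2 : f 2 = Yf := funext h2
      change HasDerivAt (f 2) (lam * aeval (fun j ↦ f j u) (AZ.tdv 2)) u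
      rw [e, e2]
      exact hb.dY u hu'
    · have e : aeval (fun j ↦ f j u) (AZ.tdv 3) = 0 := by
        change aeval (fun j ↦ f j u) (0 : MvPolynomial (Fin 5) ℤ) = 0
        simp
      have e2 : f 3 = fun _ ↦ h := funext h3
      change HasDerivAt (f 3) (lam * aeval (fun j ↦ f j u) (AZ.tdv 3)) u
      rw [e, e2, mul_zero]
      exact hasDerivAt_const _ _
    · have e : aeval (fun j ↦ f j u) (AZ.tdv 4) = 0 := by
        change aeval (fun j ↦ f j u) (0 : MvPolynomial (Fin 5) ℤ) = 0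
        simp
      have e2 : f 4 = fun _ ↦ kap := funext h4
      change HasDerivAt (f 4) (lam * aeval (fun j ↦ f j u) (AZ.tdv 4)) u
      rw [e, e2, mul_zero]
      exact hasDerivAt_const _ _
  have hM : ∀ u ∈ Metric.ball (0 : ℂ) ε,
      HasDerivAt (fun v ↦ b.A v ^ (2 * D)) (lam * (b.A u ^ (2 * D) *
        aeval (fun j ↦ f j u) (C ((2 * D : ℕ) : ℤ) * X 2 : MvPolynomial (Fin 5) ℤ))) u := by
    intro u hu
    have hu' : ‖u‖ < ε := by simpa using hu
    have h5 := hb.hA u hu'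
    rw [hb.hmu] at h5
    have h6 : deriv b.A u = lam * (b.A u * Yf u) := by
      rw [← h5, ← mul_assoc, mul_inv_cancel₀ hb.hlam, one_mul]
    have h7 : HasDerivAt b.A (lam * (b.A u * Yf u)) u := by
      rw [← h6]
      exact (b.dA u).hasDerivAt
    have h8 := h7.pow (2 * D)
    have h9 : lam * (b.A u ^ (2 * D) *
        aeval (fun j ↦ f j u) (C ((2 * D : ℕ) : ℤ) * X 2 : MvPolynomial (Fin 5) ℤ)) =
        ((2 * D : ℕ) : ℂ) * b.A u ^ (2 * D - 1) * (lam * (b.A u * Yf u)) := by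
      rw [map_mul, aeval_X, h2]
      have h10 : aeval (fun j ↦ f j u) (C ((2 * D : ℕ) : ℤ) : MvPolynomial (Fin 5) ℤ) =
          ((2 * D : ℕ) : ℂ) := by
        rw [aeval_C]
        simp
      rw [h10]
      rcases Nat.eq_zero_or_pos D with hD0 | hD0
      · subst hD0
        simp
      · have h11 : b.A u ^ (2 * D) = b.A u ^ (2 * D - 1) * b.A u := by
          rw [← pow_succ]
          congr 1
          omega
        rw [h11]
        ring
    rw [h9]
    exact h8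
  have h7 := iteratedDeriv_TD (f := f) (m := fun v ↦ b.A v ^ (2 * D)) (lam := lam) AZ.tdv
    (C ((2 * D : ℕ) : ℤ) * X 2) (Metric.ball 0 ε)
    Metric.isOpen_ball hD hM (X 0 ^ i) p 0 (Metric.mem_ball_self hb.hε)
  have h8 : HH b D i =ᶠ[nhds 0] (fun v ↦ b.A v ^ (2 * D) *
      aeval (fun j ↦ f j v) (X 0 ^ i : MvPolynomial (Fin 5) ℤ)) := by
    filter_upwards [Metric.ball_mem_nhds (0 : ℂ) hb.hε] with v hv
    have hv' : ‖v‖ < ε := by simpa using hv
    unfold HH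
    rw [map_pow, aeval_X, h0, hb.hB v hv', mul_pow, ← pow_mul, ← mul_assoc, ← pow_add]
    congr 2
    omega
  have h9 : (fun j ↦ f j 0) = (![ep, 0, 0, h, kap] : Fin 5 → ℂ) := by
    funext j
    fin_cases j
    · exact (h0 0).trans hb.X0
    · exact (h1 0).trans hb.X10
    · exact (h2 0).trans hb.Y0
    · exact h3 0
    · exact h4 0
  rw [h9] at h7
  simp only [b.A0, one_pow, one_mul] at h7
  rw [h8.iteratedDeriv_eq p, h7]
  rfl

theorem hp_bd (D i p : ℕ) (hi : i ≤ D) : (hp D i p).totalDegree ≤ D + p ∧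
    nrm (hp D i p) ≤ (9 * ((D : ℝ) + p + 1)) ^ p := by
  have hdC : (C ((2 * D : ℕ) : ℤ) * X 2 : MvPolynomial (Fin 5) ℤ).totalDegree ≤ 1 := by
    refine (totalDegree_mul _ _).trans ?_
    rw [totalDegree_C, zero_add, totalDegree_X]
  have hdX : (X 0 ^ i : MvPolynomial (Fin 5) ℤ).totalDegree ≤ D := by
    refine (totalDegree_pow _ _).trans ?_
    rw [totalDegree_X, mul_one]
    exact hi
  have hnX : nrm (X 0 ^ i : MvPolynomial (Fin 5) ℤ) ≤ 1 := by
    have h2 := H32.T3.nrm_pow_le (X 0 : MvPolynomial (Fin 5) ℤ) i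
    rwa [H32.T3.nrm_X, one_pow] at h2
  have hnC : nrm (C ((2 * D : ℕ) : ℤ) * X 2 : MvPolynomial (Fin 5) ℤ) ≤ 2 * D := by
    have h1 := H32.T3.nrm_mul_le (C ((2 * D : ℕ) : ℤ) : MvPolynomial (Fin 5) ℤ) (X 2)
    rw [H32.T3.nrm_X, H32.T3.nrm_C, mul_one] at h1
    refine h1.trans (le_of_eq ?_)
    push_cast
    rw [abs_of_nonneg (by positivity)]
  constructor
  · have h := deg_TD_iter AZ.tdv (C ((2 * D : ℕ) : ℤ) * X 2) 1 Hpp_deg hdC (X 0 ^ i) p
    unfold hp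
    omega
  · have h := nrm_TD_iter AZ.tdv (C ((2 * D : ℕ) : ℤ) * X 2) 1 Hpp_deg hdC 7 (2 * D)
      (by norm_num) Hpp_nrm hnC (X 0 ^ i) p
    unfold hp
    refine h.trans ?_
    have hdX' : ((X 0 ^ i : MvPolynomial (Fin 5) ℤ).totalDegree : ℝ) ≤ D := by
      exact_mod_cast hdX
    have hnn := H32.T3.nrm_nonneg (X 0 ^ i : MvPolynomial (Fin 5) ℤ)
    have hb1 : (0 : ℝ) ≤ 7 * (((X 0 ^ i : MvPolynomial (Fin 5) ℤ).totalDegree : ℝ) + (1 : ℕ) * p)
        + 2 * D := by positivity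
    calc (7 * (((X 0 ^ i : MvPolynomial (Fin 5) ℤ).totalDegree : ℝ) + (1 : ℕ) * p) + 2 * D) ^ p
          * nrm (X 0 ^ i : MvPolynomial (Fin 5) ℤ)
        ≤ (9 * ((D : ℝ) + p + 1)) ^ p * 1 := by
          refine mul_le_mul (pow_le_pow_left₀ hb1 ?_ _) hnX hnn (by positivity)
          push_cast
          have : (0 : ℝ) ≤ p := Nat.cast_nonneg _
          linarith
      _ = _ := mul_one _

end U2
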