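import Pool.Agent.H22.U2.Bas

/-!
# MP_ede373, theorem (U2), row Inv: automorphy of the functions `Phi`, integer shifts

* `HH_int`: `b.A (s + n) = b.A s`, `b.B (s + n) = b.B s` for `n : ℤ` (induction from `A1`, `B1`).
* `HH_z`: `b.A (s + n z)^2 = exp (2 n (-(π I z) n - 2 π I s)) b.A s^2`. Precisely by induction on `n` (both directions): `b.A (s + z)^2 =
  exp (2 (-(π I z) - 2 π I s)) b.A s^2` and the same factor for `b.B`; so with `T = 2 D`, `i ≤ D`,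
  `HH b D i (s + n z) = exp (-(π I T z n^2) - 2 π I T n s) HH b D i s` (`2 (D - i) + 2 i = 2 D`, `A^(2 (D-i)) = (A^2)^(D-i)`).
* `Psi_inv`: with `γ = (m0 + m1 z, m1 + m2 z)`: `HH b D i1 (x1 + m0 + m1 z + t v1) HH b D i2 (x2 + m1 + m2 z + t v2)
  = exp (-(π I T z (m1^2 + m2^2)) - 2 π I T (m1 (x1 + t v1) + m2 (x2 + t v2))) (...)`, `2 π I T (m1 v1 + m2 v2) = m1 + m2 z`, and
  `exp (t (x2 + m1 + m2 z))` cancels `exp (-t (m1 + m2 z))`. (`D ≥ 1` so `2 π I T ≠ 0`.)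
* `Phi_inv`: `iteratedDeriv` of a constant multiple (`iteratedDeriv_const_mul` needs smoothness at `0`; or `iteratedDeriv_fun_const_mul` etc.;
  `Psi` is entire in `t`).
* `Phi_shift`: `Psi b D i1 i2 x1 (x2 + n) t = exp (t n) Psi b D i1 i2 x1 x2 t`; Leibniz rule for `iteratedDeriv k (exp (t n) * f t)` at `0`,
  `iteratedDeriv j (fun t ↦ exp (t n)) 0 = n^j`.
-/

set_option autoImplicit false

namespace U2

open Complex Finset

variable {z : ℂ} (b : CZ.BaseFn z)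

theorem HH_diff (D i : ℕ) : Differentiable ℂ (HH b D i) := by
  unfold HH
  exact (b.dA.pow _).mul (b.dB.pow _)

private theorem A_int (n : ℕ) (s : ℂ) : b.A (s + n) = b.A s := by
  induction n with
  | zero => simp
  | succ n ih =>
    rw [show s + ((n + 1 : ℕ) : ℂ) = (s + n) + 1 by push_cast; ring, b.A1, ih]

private theorem B_int (n : ℕ) (s : ℂ) : b.B (s + n) = b.B s := by
  induction n with
  | zero => simp
  | succ n ih =>
    rw [show s + ((n + 1 : ℕ) : ℂ) = (s + n) + 1 by push_cast; ring, b.B1, ih]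

theorem HH_int (D i : ℕ) (n : ℤ) (s : ℂ) : HH b D i (s + n) = HH b D i s := by
  unfold HH
  obtain ⟨m, rfl | rfl⟩ := n.eq_nat_or_neg
  · rw [Int.cast_natCast, A_int, B_int]
  · have h1 := A_int b m (s + ((-(m : ℤ) : ℤ) : ℂ))
    have h2 := B_int b m (s + ((-(m : ℤ) : ℤ) : ℂ))
    have h3 : s + ((-(m : ℤ) : ℤ) : ℂ) + m = s := by push_cast; ring
    rw [h3] at h1 h2
    rw [← h1, ← h2]

private theorem HH_z1 (D i : ℕ) (hi : i ≤ D) (s : ℂ) : HH b D i (s + z) =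
    exp (-(Real.pi * I * ((2 * D : ℕ) : ℂ) * z) -
      2 * Real.pi * I * ((2 * D : ℕ) : ℂ) * s) * HH b D i s := by
  have hA : b.A (s + z) ^ 2 = exp (2 * (-(Real.pi * I * z) - 2 * Real.pi * I * s)) * b.A s ^ 2 := by
    rw [b.Az s, neg_sq, mul_pow, ← exp_nat_mul]
    push_cast
    rfl
  unfold HH
  rw [pow_mul, hA, b.Bz s, mul_pow, mul_pow, ← exp_nat_mul, ← exp_nat_mul, pow_mul]
  have hx : exp (((D - i : ℕ) : ℂ) * (2 * (-(Real.pi * I * z) - 2 * Real.pi * I * s))) *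
      exp ((i : ℂ) * (2 * (-(Real.pi * I * z) - 2 * Real.pi * I * s))) =
      exp (-(Real.pi * I * ((2 * D : ℕ) : ℂ) * z) -
      2 * Real.pi * I * ((2 * D : ℕ) : ℂ) * s) := by
    rw [← exp_add]
    congr 1
    rw [Nat.cast_sub hi]
    push_cast
    ring
  rw [← hx]
  ring

private theorem HH_zn (D i : ℕ) (hi : i ≤ D) (n : ℕ) (s : ℂ) : HH b D i (s + n * z) =
    exp (-(Real.pi * I * ((2 * D : ℕ) : ℂ) * z * (n : ℂ) ^ 2) -
      2 * Real.pi * I * ((2 * D : ℕ) : ℂ) * (n * s)) * HH b D i s := by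
  induction n with
  | zero => simp
  | succ n ih =>
    rw [show s + ((n + 1 : ℕ) : ℂ) * z = (s + n * z) + z by push_cast; ring, HH_z1 b D i hi, ih,
      ← mul_assoc, ← exp_add]
    congr 2
    push_cast
    ring

theorem HH_z (D i : ℕ) (hi : i ≤ D) (n : ℤ) (s : ℂ) : HH b D i (s + n * z) =
    exp (-(Real.pi * I * ((2 * D : ℕ) : ℂ) * z * (n : ℂ) ^ 2) -
      2 * Real.pi * I * ((2 * D : ℕ) : ℂ) * (n * s)) * HH b D i s := by
  obtain ⟨m, rfl | rfl⟩ := n.eq_nat_or_neg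
  · rw [Int.cast_natCast, HH_zn b D i hi]
  · have h1 := HH_zn b D i hi m (s + ((-(m : ℤ) : ℤ) : ℂ) * z)
    have h3 : s + ((-(m : ℤ) : ℤ) : ℂ) * z + m * z = s := by push_cast; ring
    rw [h3] at h1
    rw [h1, ← mul_assoc, ← exp_add]
    have h4 : -(Real.pi * I * ((2 * D : ℕ) : ℂ) * z * (((-(m : ℤ) : ℤ) : ℂ)) ^ 2) -
      2 * Real.pi * I * ((2 * D : ℕ) : ℂ) * (((-(m : ℤ) : ℤ) : ℂ) * s) +
      (-(Real.pi * I * ((2 * D : ℕ) : ℂ) * z * (m : ℂ) ^ 2) -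
      2 * Real.pi * I * ((2 * D : ℕ) : ℂ) * (m * (s + ((-(m : ℤ) : ℤ) : ℂ) * z))) = 0 := by
      push_cast
      ring
    rw [h4, exp_zero, one_mul]

theorem Psi_inv (D i1 i2 : ℕ) (hD : 1 ≤ D) (h1 : i1 ≤ D) (h2 : i2 ≤ D) (m0 m1 m2 : ℤ)
    (x1 x2 t : ℂ) : Psi b D i1 i2 (x1 + (m0 + m1 * z)) (x2 + (m1 + m2 * z)) t =
      ef z (2 * D) m1 m2 x1 x2 * Psi b D i1 i2 x1 x2 t := by
  have hD0 : (D : ℂ) ≠ 0 := by
    exact_mod_cast (by omega : D ≠ 0)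
  have hpi : (Real.pi : ℂ) ≠ 0 := by exact_mod_cast Real.pi_ne_zero
  have hv : (2 : ℂ) * Real.pi * I * (2 * D) ≠ 0 :=
    mul_ne_zero (mul_ne_zero (mul_ne_zero two_ne_zero hpi) I_ne_zero)
      (mul_ne_zero two_ne_zero hD0)
  have hA : HH b D i1 (x1 + (m0 + m1 * z) + t * v1 D) =
      exp (-(Real.pi * I * ((2 * D : ℕ) : ℂ) * z * (m1 : ℂ) ^ 2) -
      2 * Real.pi * I * ((2 * D : ℕ) : ℂ) * (m1 * (x1 + t * v1 D))) * HH b D i1 (x1 + t * v1 D) := by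
    rw [show x1 + ((m0 : ℂ) + m1 * z) + t * v1 D = (x1 + t * v1 D + m1 * z) + (m0 : ℂ) by ring,
      HH_int, HH_z b D i1 h1]
  have hB : HH b D i2 (x2 + (m1 + m2 * z) + t * v2 z D) =
      exp (-(Real.pi * I * ((2 * D : ℕ) : ℂ) * z * (m2 : ℂ) ^ 2) -
      2 * Real.pi * I * ((2 * D : ℕ) : ℂ) * (m2 * (x2 + t * v2 z D))) *
      HH b D i2 (x2 + t * v2 z D) := by
    rw [show x2 + ((m1 : ℂ) + m2 * z) + t * v2 z D = (x2 + t * v2 z D + m2 * z) + (m1 : ℂ) by ring,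
      HH_int, HH_z b D i2 h2]
  have hv1 : 2 * Real.pi * I * (2 * D) * v1 D = 1 := by
    unfold v1
    rw [mul_one_div, div_self hv]
  have hv2 : 2 * Real.pi * I * (2 * D) * v2 z D = z := by
    unfold v2
    rw [mul_div_assoc', mul_comm, mul_div_assoc, div_self hv, mul_one]
  unfold Psi
  rw [hA, hB]
  have hx : exp (t * (x2 + (m1 + m2 * z))) * exp (-(Real.pi * I * ((2 * D : ℕ) : ℂ) * z * (m1 : ℂ) ^ 2) -
      2 * Real.pi * I * ((2 * D : ℕ) : ℂ) * (m1 * (x1 + t * v1 D))) *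
      exp (-(Real.pi * I * ((2 * D : ℕ) : ℂ) * z * (m2 : ℂ) ^ 2) -
      2 * Real.pi * I * ((2 * D : ℕ) : ℂ) * (m2 * (x2 + t * v2 z D))) =
      ef z (2 * D) m1 m2 x1 x2 * exp (t * x2) := by
    unfold ef
    rw [← exp_add, ← exp_add, ← exp_add]
    congr 1
    push_cast
    linear_combination (-(m1 : ℂ) * t) * hv1 + (-(m2 : ℂ) * t) * hv2
  calc exp (t * (x2 + (m1 + m2 * z))) * (exp (-(Real.pi * I * ((2 * D : ℕ) : ℂ) * z * (m1 : ℂ) ^ 2) -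
      2 * Real.pi * I * ((2 * D : ℕ) : ℂ) * (m1 * (x1 + t * v1 D))) * HH b D i1 (x1 + t * v1 D)) *
      (exp (-(Real.pi * I * ((2 * D : ℕ) : ℂ) * z * (m2 : ℂ) ^ 2) -
      2 * Real.pi * I * ((2 * D : ℕ) : ℂ) * (m2 * (x2 + t * v2 z D))) *
      HH b D i2 (x2 + t * v2 z D))
      = (exp (t * (x2 + (m1 + m2 * z))) * exp (-(Real.pi * I * ((2 * D : ℕ) : ℂ) * z * (m1 : ℂ) ^ 2) -
      2 * Real.pi * I * ((2 * D : ℕ) : ℂ) * (m1 * (x1 + t * v1 D))) *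
      exp (-(Real.pi * I * ((2 * D : ℕ) : ℂ) * z * (m2 : ℂ) ^ 2) -
      2 * Real.pi * I * ((2 * D : ℕ) : ℂ) * (m2 * (x2 + t * v2 z D)))) *
      (HH b D i1 (x1 + t * v1 D) * HH b D i2 (x2 + t * v2 z D)) := by ring
    _ = _ := by rw [hx]; ring

theorem Phi_inv (D i1 i2 k : ℕ) (hD : 1 ≤ D) (h1 : i1 ≤ D) (h2 : i2 ≤ D) (m0 m1 m2 : ℤ)
    (x1 x2 : ℂ) : Phi b D i1 i2 k (x1 + (m0 + m1 * z)) (x2 + (m1 + m2 * z)) =
      ef z (2 * D) m1 m2 x1 x2 * Phi b D i1 i2 k x1 x2 := by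
  unfold Phi
  have h : (fun t ↦ Psi b D i1 i2 (x1 + (m0 + m1 * z)) (x2 + (m1 + m2 * z)) t) =
      fun t ↦ ef z (2 * D) m1 m2 x1 x2 * Psi b D i1 i2 x1 x2 t := by
    funext t
    exact Psi_inv b D i1 i2 hD h1 h2 m0 m1 m2 x1 x2 t
  rw [h, iteratedDeriv_const_mul_field]

private theorem Psi_diff (D i1 i2 : ℕ) (x1 x2 : ℂ) :
    Differentiable ℂ (fun t ↦ Psi b D i1 i2 x1 x2 t) := by
  unfold Psi
  have e1 : Differentiable ℂ (fun t : ℂ ↦ exp (t * x2)) :=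
    (differentiable_id.mul_const x2).cexp
  have e2 : Differentiable ℂ (fun t : ℂ ↦ HH b D i1 (x1 + t * v1 D)) :=
    (HH_diff b D i1).comp ((differentiable_id.mul_const (v1 D)).const_add x1)
  have e3 : Differentiable ℂ (fun t : ℂ ↦ HH b D i2 (x2 + t * v2 z D)) :=
    (HH_diff b D i2).comp ((differentiable_id.mul_const (v2 z D)).const_add x2)
  exact (e1.mul e2).mul e3

theorem Phi_shift (D i1 i2 k n : ℕ) (x1 x2 : ℂ) : Phi b D i1 i2 k x1 (x2 + n) =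
    ∑ j ∈ range (k + 1), (k.choose j : ℂ) * (n : ℂ) ^ j * Phi b D i1 i2 (k - j) x1 x2 := by
  have h : (fun t ↦ Psi b D i1 i2 x1 (x2 + n) t) =
      fun t ↦ exp ((n : ℂ) * t) * Psi b D i1 i2 x1 x2 t := by
    funext t
    have e1 : HH b D i2 (x2 + n + t * v2 z D) = HH b D i2 (x2 + t * v2 z D) := by
      have e := HH_int b D i2 (n : ℤ) (x2 + t * v2 z D)
      rw [Int.cast_natCast] at e
      rw [← e]
      congr 1
      ring
    unfold Psi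
    rw [e1, show t * (x2 + n) = n * t + t * x2 by ring, exp_add]
    ring
  unfold Phi
  rw [h]
  have hc : Differentiable ℂ (fun t : ℂ ↦ exp ((n : ℂ) * t)) :=
    (differentiable_id.const_mul (n : ℂ)).cexp
  rw [iteratedDeriv_fun_mul hc.contDiff.contDiffAt (Psi_diff b D i1 i2 x1 x2).contDiff.contDiffAt]
  refine Finset.sum_congr rfl fun j _ ↦ ?_
  have hj : iteratedDeriv j (fun t : ℂ ↦ exp ((n : ℂ) * t)) 0 = (n : ℂ) ^ j := by
    rw [iteratedDeriv_cexp_const_mul]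
    simp
  rw [hj]

end U2
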