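import Mathlib

/-!
# MP_ede373, theorem (U2), row Lg: the coefficients of a polynomial are bounded by its values at `0, ..., Q - 1`

Lagrange: a polynomial `p n = ∑_{j < Q} E_j n^j` satisfies `‖E_j‖ ≤ Q Q! max_{n < Q} ‖p n‖`: `p = ∑_n p(n) ∏_{l ≠ n, l < Q} (X - l)/(n - l)`, the coefficients of
`∏_{l ≠ n} (X - l)` are at most `∏_{l < Q} (1 + l) = Q!` in absolute value, `|∏ (n - l)| ≥ 1`. (`Lagrange.sum_basis`/`Lagrange.eq_interpolate` for
the polynomial `∑ C (E j) X^j` of degree `< Q` at the nodes `0, …, Q - 1`.)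
-/

set_option autoImplicit false

namespace U2

open Complex Finset

private lemma Lg_coeff_mul (a b : ℂ) (c : ℝ) (q : Polynomial ℂ) (N : ℝ) (hb : ‖b‖ ≤ c) (hc : 0 ≤ c) (ha : ‖a‖ ≤ 1)
    (hN : ∀ j, ‖q.coeff j‖ ≤ N) (j : ℕ) :
    ‖((Polynomial.C a * (Polynomial.X - Polynomial.C b)) * q).coeff j‖ ≤ (1 + c) * N := by
  have hN0 : 0 ≤ N := (norm_nonneg _).trans (hN 0)
  have e : (Polynomial.C a * (Polynomial.X - Polynomial.C b)) * q =
      Polynomial.C a * (Polynomial.X * q - Polynomial.C b * q) := by ring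
  rw [e, Polynomial.coeff_C_mul, Polynomial.coeff_sub, Polynomial.coeff_C_mul]
  have h1 : ‖(Polynomial.X * q).coeff j‖ ≤ N := by
    rcases j with _ | j
    · rw [Polynomial.coeff_X_mul_zero, norm_zero]; exact hN0
    · rw [Polynomial.coeff_X_mul]; exact hN j
  have h2 : ‖b * q.coeff j‖ ≤ c * N := by
    rw [norm_mul]
    exact mul_le_mul hb (hN j) (norm_nonneg _) hc
  calc ‖a * ((Polynomial.X * q).coeff j - b * q.coeff j)‖
      = ‖a‖ * ‖(Polynomial.X * q).coeff j - b * q.coeff j‖ := norm_mul _ _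
    _ ≤ 1 * (N + c * N) := by
        refine mul_le_mul ha ((norm_sub_le _ _).trans (add_le_add h1 h2)) (norm_nonneg _) zero_le_one
    _ = (1 + c) * N := by ring

private lemma Lg_basis (n : ℕ) (s : Finset ℕ) (hn : n ∉ s) (j : ℕ) :
    ‖(∏ l ∈ s, Lagrange.basisDivisor (n : ℂ) (l : ℂ)).coeff j‖ ≤ ∏ l ∈ s, (1 + (l : ℝ)) := by
  induction s using Finset.induction_on generalizing j with
  | empty =>
    rw [Finset.prod_empty, Finset.prod_empty, Polynomial.coeff_one]
    split_ifs <;> simp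
  | insert l s hl ih =>
    rw [Finset.prod_insert hl, Finset.prod_insert hl]
    have hns : n ∉ s := fun h ↦ hn (Finset.mem_insert_of_mem h)
    have hnl : n ≠ l := fun h ↦ hn (h ▸ Finset.mem_insert_self _ _)
    have hinv : ‖((n : ℂ) - (l : ℂ))⁻¹‖ ≤ 1 := by
      rw [norm_inv]
      refine inv_le_one_of_one_le₀ ?_
      have e : ((n : ℂ) - (l : ℂ)) = (((n : ℤ) - (l : ℤ) : ℤ) : ℂ) := by push_cast; ring
      rw [e, Complex.norm_intCast]
      have hz : ((n : ℤ) - (l : ℤ)) ≠ 0 := by omega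
      exact_mod_cast Int.one_le_abs hz
    exact Lg_coeff_mul _ _ _ _ _ (by simp) (Nat.cast_nonneg l) hinv (fun j ↦ ih hns j) j

theorem coeff_le (Q : ℕ) (E : ℕ → ℂ) (ε : ℝ)
    (h : ∀ n, n < Q → ‖∑ j ∈ range Q, E j * (n : ℂ) ^ j‖ ≤ ε) (j : ℕ) (hj : j < Q) :
    ‖E j‖ ≤ Q * (Q.factorial : ℝ) * ε := by
  classical
  set p : Polynomial ℂ := ∑ i ∈ range Q, Polynomial.C (E i) * Polynomial.X ^ i with hp
  have hcoef : p.coeff j = E j := by
    rw [hp, Polynomial.finsetSum_coeff, Finset.sum_eq_single j]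
    · simp
    · intro b _ hb
      rw [Polynomial.coeff_C_mul_X_pow, if_neg (fun h ↦ hb h.symm)]
    · intro hjn
      exact absurd (Finset.mem_range.2 hj) hjn
  have hdeg : p.degree < (range Q).card := by
    rw [Finset.card_range, Polynomial.degree_lt_iff_coeff_zero]
    intro m hm
    rw [hp, Polynomial.finsetSum_coeff]
    refine Finset.sum_eq_zero fun i hi ↦ ?_
    have := Finset.mem_range.1 hi
    rw [Polynomial.coeff_C_mul_X_pow, if_neg (by omega)]
  have heval : ∀ i ∈ range Q, Polynomial.eval (((fun n : ℕ ↦ (n : ℂ)) i)) p =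
      (fun n : ℕ ↦ Polynomial.eval (n : ℂ) p) i := fun i _ ↦ rfl
  have hinj : Set.InjOn (fun n : ℕ ↦ (n : ℂ)) (range Q : Finset ℕ) := Nat.cast_injective.injOn
  have hint := Lagrange.eq_interpolate_of_eval_eq (fun n : ℕ ↦ Polynomial.eval (n : ℂ) p) hinj hdeg heval
  have hval : ∀ n, n < Q → ‖Polynomial.eval (n : ℂ) p‖ ≤ ε := by
    intro n hn
    have e : Polynomial.eval (n : ℂ) p = ∑ j ∈ range Q, E j * (n : ℂ) ^ j := by
      rw [hp, Polynomial.eval_finsetSum]
      refine Finset.sum_congr rfl fun i _ ↦ ?_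
      simp
    rw [e]; exact h n hn
  have hε : 0 ≤ ε := (norm_nonneg _).trans (h j hj)
  have hc : E j = ∑ n ∈ range Q, Polynomial.eval (n : ℂ) p *
      (Lagrange.basis (range Q) (fun n : ℕ ↦ (n : ℂ)) n).coeff j := by
    rw [← hcoef]
    conv_lhs => rw [hint, Lagrange.interpolate_apply, Polynomial.finsetSum_coeff]
    refine Finset.sum_congr rfl fun n _ ↦ ?_
    rw [Polynomial.coeff_C_mul]
  have hfac : ∏ l ∈ range Q, (1 + (l : ℝ)) = (Q.factorial : ℝ) := by
    rw [← Finset.prod_range_add_one_eq_factorial]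
    push_cast
    exact Finset.prod_congr rfl fun l _ ↦ by ring
  have hbas : ∀ n ∈ range Q, ‖(Lagrange.basis (range Q) (fun n : ℕ ↦ (n : ℂ)) n).coeff j‖ ≤ (Q.factorial : ℝ) := by
    intro n hn
    have h1 := Lg_basis n ((range Q).erase n) (Finset.notMem_erase _ _) j
    refine le_trans h1 ?_
    rw [← hfac, ← Finset.mul_prod_erase (range Q) (fun l ↦ (1 + (l : ℝ))) hn]
    have h2 : 0 ≤ ∏ l ∈ (range Q).erase n, (1 + (l : ℝ)) := Finset.prod_nonneg fun l _ ↦ by positivity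
    have h3 : (1 : ℝ) ≤ 1 + (n : ℝ) := by
      have : (0 : ℝ) ≤ n := Nat.cast_nonneg n
      linarith
    nlinarith
  rw [hc]
  calc ‖∑ n ∈ range Q, Polynomial.eval (n : ℂ) p *
      (Lagrange.basis (range Q) (fun n : ℕ ↦ (n : ℂ)) n).coeff j‖
      ≤ ∑ n ∈ range Q, ‖Polynomial.eval (n : ℂ) p *
      (Lagrange.basis (range Q) (fun n : ℕ ↦ (n : ℂ)) n).coeff j‖ := norm_sum_le _ _
    _ ≤ ∑ _n ∈ range Q, ε * (Q.factorial : ℝ) := by
        refine Finset.sum_le_sum fun n hn ↦ ?_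
        rw [norm_mul]
        exact mul_le_mul (hval n (Finset.mem_range.1 hn)) (hbas n hn) (norm_nonneg _) hε
    _ = Q * (Q.factorial : ℝ) * ε := by
        rw [Finset.sum_const, Finset.card_range, nsmul_eq_mul]; ring

end U2
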