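import Pool.Agent.H22.U2.DefA
import Pool.Agent.H22.U2.Ext

/-!
# MP_ede373, theorem (U2), row Li1: the lower bound for transcendental `z`

`f = C p0 * X^2 - C p1 * X + C p2 : ℤ[X]`, `f ≠ 0`, `aeval z f = p0 z^2 - p1 z + p2 ≠ 0` (`z` transcendental). Let `‖aeval z f‖ = exp (-V)`. If `V ≤ 0` there is
nothing to prove. Otherwise `good_factor` (`Pool/Agent/H32/CZ/Pj.lean`): `r` irreducible, `0 < natDegree r`, with
`s = natDegree r + log (mah r) ≤ s0 = natDegree f + log (mah f) ≤ 2 + log (3 H)` (`mah_le_nr`, `nr f ≤ 3 H`, see `AZ.line`) and `V s ≤ s0 (-log ‖r z‖)`, `s ≥ 1`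
(`one_le_mah`), so `V ≤ s0 (-log ‖r z‖)` (as `V > 0` the right side is positive). `AZ.line_local`: `ApprAt ![z] s W`, `-log ‖r z‖ ≤ W`. So `V ≤ s0 W`.
`Ce` from `ext_const`: if `W < Ce s`, then `V ≤ s0 Ce s ≤ Ce s0^2`. Otherwise `ApprAt P (Ce s) (W/Ce)` and `hmeas`:
`W ≤ Ce C' (Ce s)^2 log (Ce s + 2)^2 ≤ C'' s^4` (`log (x + 2) ≤ x + 1`), so `V ≤ C'' s0^5`. Finally `s0 ≤ 2 + log (3 H) ≤ 4 log (H + 2)` (`H ≥ 1`:
`log (H + 2) ≥ log 3 ≥ 1.09`, `log 3 + log H ≤ 2 log (H + 2)`), and `s0^2 ≤ s0^5` as `s0 ≥ 1`.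
-/

set_option autoImplicit false

namespace U2

open Polynomial CZ

theorem Li1_coeff (p0 p1 p2 : ℤ) (i : ℕ) :
    (C p0 * X ^ 2 - C p1 * X + C p2 : ℤ[X]).coeff i =
      (if i = 2 then p0 else 0) - (if i = 1 then p1 else 0) + (if i = 0 then p2 else 0) := by
  simp only [coeff_add, coeff_sub, coeff_C_mul, coeff_X_pow, coeff_X, coeff_C, mul_ite, mul_one, mul_zero]
  congr 2
  split_ifs <;> first | rfl | omega

theorem Li1_deg (p0 p1 p2 : ℤ) : (C p0 * X ^ 2 - C p1 * X + C p2 : ℤ[X]).natDegree ≤ 2 := by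
  rw [natDegree_le_iff_coeff_eq_zero]
  intro i hi
  rw [Li1_coeff, if_neg (by omega), if_neg (by omega), if_neg (by omega)]
  norm_num

theorem Li1_nr (p0 p1 p2 : ℤ) (H : ℕ) (h0 : |p0| ≤ (H : ℤ)) (h1 : |p1| ≤ (H : ℤ)) (h2 : |p2| ≤ (H : ℤ)) :
    nr (C p0 * X ^ 2 - C p1 * X + C p2 : ℤ[X]) ≤ 3 * H := by
  unfold nr
  have hd := Li1_deg p0 p1 p2
  rw [sum_over_range' _ (fun _ => by simp) 3 (by omega)]
  simp only [Finset.sum_range_succ, Finset.sum_range_zero, Li1_coeff]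
  norm_num
  have e0 : |(p0 : ℝ)| ≤ H := by exact_mod_cast h0
  have e1 : |(p1 : ℝ)| ≤ H := by exact_mod_cast h1
  have e2 : |(p2 : ℝ)| ≤ H := by exact_mod_cast h2
  linarith

theorem low_tr {k : ℕ} (z : ℂ) (hz : Transcendental ℚ z) (P : Fin k → ℂ)
    (hP : ∀ i, IsAlgebraic (IntermediateField.adjoin ℚ (Set.range ![z])) (P i)) (C' : ℕ)
    (hmeas : ∀ t V : ℝ, 1 ≤ t → ApprAt P t V → V ≤ C' * (t ^ 2 * Real.log (t + 2) ^ 2)) :
    Low z := by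
  obtain ⟨Ce, hCe, hext⟩ := ext_const z P hP
  refine ⟨(Ce + 4 * C' * Ce ^ 5) * 1024, ?_⟩
  intro H p0 p1 p2 hH h0 h1 h2 hne
  set f : ℤ[X] := C p0 * X ^ 2 - C p1 * X + C p2 with hf
  have hf0 : f ≠ 0 := by
    intro h
    have c0 := Li1_coeff p0 p1 p2 0
    have c1 := Li1_coeff p0 p1 p2 1
    have c2 := Li1_coeff p0 p1 p2 2
    rw [← hf, h, coeff_zero] at c0 c1 c2
    norm_num at c0 c1 c2
    rcases hne with h | h | h
    · exact h c2.symm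
    · exact h c1
    · exact h c0.symm
  have hae : aeval z f ≠ 0 := fun h => hz ((IsFractionRing.isAlgebraic_iff ℤ ℚ ℂ).1 ⟨f, hf0, h⟩)
  have hval : aeval z f = (p0 : ℂ) * z ^ 2 - p1 * z + p2 := by
    rw [hf]
    simp
  rw [← hval]
  set V : ℝ := -Real.log ‖aeval z f‖ with hV
  have hnorm : 0 < ‖aeval z f‖ := norm_pos_iff.2 hae
  have hexp : ‖aeval z f‖ = Real.exp (-V) := by
    rw [hV, neg_neg, Real.exp_log hnorm]
  rw [hexp, Real.exp_le_exp, neg_le_neg_iff]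
  have hHr : (1 : ℝ) ≤ H := by exact_mod_cast hH
  set l : ℝ := Real.log (H + 2) with hl
  have hl1 : 1 ≤ l := by
    rw [hl, Real.le_log_iff_exp_le (by linarith)]
    have := Real.exp_one_lt_d9
    linarith
  have hCe' : (1 : ℝ) ≤ Ce := by exact_mod_cast hCe
  have hC'0 : (0 : ℝ) ≤ C' := Nat.cast_nonneg _
  by_cases hV0 : V ≤ 0
  · refine hV0.trans ?_
    positivity
  have hV0 : 0 < V := not_le.1 hV0
  obtain ⟨r, hr, hn, -, hsz, hVs⟩ := good_factor f hf0 z V hV0 hae hexp.le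
  obtain ⟨W, hA, hW⟩ := AZ.line_local z hz r hr hn
  obtain ⟨s, hs⟩ : ∃ s : ℝ, s = r.natDegree + Real.log (mah r) := ⟨_, rfl⟩
  obtain ⟨s0, hs0⟩ : ∃ s0 : ℝ, s0 = f.natDegree + Real.log (mah f) := ⟨_, rfl⟩
  rw [← hs, ← hs0] at hVs hsz
  rw [← hs] at hA
  have hmah : 1 ≤ mah r := one_le_mah hr.ne_zero
  have hlog0 : 0 ≤ Real.log (mah r) := Real.log_nonneg hmah
  have hn1 : (1 : ℝ) ≤ r.natDegree := by exact_mod_cast hn
  have hs1 : 1 ≤ s := by linarith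
  have hs01 : 1 ≤ s0 := hs1.trans hsz
  have hs04 : s0 ≤ 4 * l := by
    have d1 : (f.natDegree : ℝ) ≤ 2 := by exact_mod_cast Li1_deg p0 p1 p2
    have d2 : mah f ≤ 3 * H := (mah_le_nr f).trans (Li1_nr p0 p1 p2 H h0 h1 h2)
    have d3 : 1 ≤ mah f := one_le_mah hf0
    have d4 : Real.log (mah f) ≤ Real.log ((H + 2) ^ 2) := by
      apply Real.log_le_log (by linarith)
      refine d2.trans ?_
      nlinarith
    rw [Real.log_pow] at d4
    push_cast at d4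
    rw [← hl] at d4
    linarith
  have hVW : V ≤ s0 * W := by
    have e1 : V ≤ V * s := le_mul_of_one_le_right hV0.le hs1
    have e2 : s0 * (-Real.log ‖aeval z r‖) ≤ s0 * W := mul_le_mul_of_nonneg_left hW (by linarith)
    linarith
  have key : V ≤ (Ce + 4 * C' * Ce ^ 5) * s0 ^ 5 := by
    rcases lt_or_ge W (Ce * s) with hlt | hge
    · have e1 : W ≤ Ce * s0 := hlt.le.trans (mul_le_mul_of_nonneg_left hsz (by linarith))
      have e2 : s0 * W ≤ s0 * (Ce * s0) := mul_le_mul_of_nonneg_left e1 (by linarith)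
      have e3 : s0 * s0 ≤ s0 ^ 5 := by
        have : s0 ^ 2 ≤ s0 ^ 5 := pow_le_pow_right₀ hs01 (by norm_num)
        rw [← pow_two]
        exact this
      have e4 : (Ce : ℝ) * (s0 * s0) ≤ Ce * s0 ^ 5 := mul_le_mul_of_nonneg_left e3 (by linarith)
      have e5 : 0 ≤ 4 * (C' : ℝ) * Ce ^ 5 * s0 ^ 5 := by positivity
      nlinarith
    · have hA2 := hext s W hs1 hge hA
      set x : ℝ := Ce * s with hx
      have hx1 : 1 ≤ x := by
        rw [hx]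
        nlinarith
      have hm := hmeas x (W / Ce) hx1 hA2
      have hlogx : Real.log (x + 2) ≤ 2 * x := by
        have := Real.log_le_sub_one_of_pos (show 0 < x + 2 by linarith)
        linarith
      have hlogx0 : 0 ≤ Real.log (x + 2) := Real.log_nonneg (by linarith)
      have hlog2 : Real.log (x + 2) ^ 2 ≤ (2 * x) ^ 2 := pow_le_pow_left₀ hlogx0 hlogx 2
      have e1 : x ^ 2 * Real.log (x + 2) ^ 2 ≤ x ^ 2 * (2 * x) ^ 2 := mul_le_mul_of_nonneg_left hlog2 (by positivity)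
      have e2 : W / Ce ≤ C' * (x ^ 2 * (2 * x) ^ 2) := hm.trans (mul_le_mul_of_nonneg_left e1 hC'0)
      have e3 : W ≤ C' * (x ^ 2 * (2 * x) ^ 2) * Ce := by
        rwa [div_le_iff₀ (by linarith)] at e2
      have e4 : C' * (x ^ 2 * (2 * x) ^ 2) * Ce = 4 * C' * Ce ^ 5 * s ^ 4 := by
        rw [hx]
        ring
      rw [e4] at e3
      have e5 : s ^ 4 ≤ s0 ^ 4 := pow_le_pow_left₀ (by linarith) hsz 4
      have e6 : 4 * (C' : ℝ) * Ce ^ 5 * s ^ 4 ≤ 4 * C' * Ce ^ 5 * s0 ^ 4 := mul_le_mul_of_nonneg_left e5 (by positivity)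
      have e7 : s0 * W ≤ s0 * (4 * C' * Ce ^ 5 * s0 ^ 4) := mul_le_mul_of_nonneg_left (e3.trans e6) (by linarith)
      have e8 : 0 ≤ (Ce : ℝ) * s0 ^ 5 := by positivity
      calc V ≤ s0 * W := hVW
        _ ≤ s0 * (4 * C' * Ce ^ 5 * s0 ^ 4) := e7
        _ = 4 * C' * Ce ^ 5 * s0 ^ 5 := by ring
        _ ≤ (Ce + 4 * C' * Ce ^ 5) * s0 ^ 5 := by linarith
  have hs05 : s0 ^ 5 ≤ (4 * l) ^ 5 := pow_le_pow_left₀ (by linarith) hs04 5
  have hfin : (Ce + 4 * C' * Ce ^ 5 : ℝ) * s0 ^ 5 ≤ (Ce + 4 * C' * Ce ^ 5) * (4 * l) ^ 5 :=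
    mul_le_mul_of_nonneg_left hs05 (by positivity)
  push_cast
  calc V ≤ (Ce + 4 * C' * Ce ^ 5) * s0 ^ 5 := key
    _ ≤ (Ce + 4 * C' * Ce ^ 5) * (4 * l) ^ 5 := hfin
    _ = (Ce + 4 * C' * Ce ^ 5) * 1024 * l ^ 5 := by ring

end U2
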