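import Pool.Agent.H22.U2.DefA
import Pool.Agent.H32.CZ.Hb

/-!
# MP_ede373, theorem (U2), row Li2: the lower bound for algebraic `z` which is not a CM point (Liouville)

`E = IntermediateField.adjoin ℚ {z}` (finite over `ℚ`, a number field, in `Type`), `x = ![⟨z, _⟩] : Fin 1 → E`, `φ0 : E →+* ℂ` the inclusion,
`F = C p0 * X 0 ^ 2 - C p1 * X 0 + C p2 : MvPolynomial (Fin 1) ℤ`, `totalDegree F ≤ 2`, `nrm F ≤ 3 H`, `φ0 (aeval x F) = p0 z^2 - p1 z + p2 ≠ 0` by `hcm` (with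
`a = p0, b = -p1, c = p2`). `CZ.liouville` with `S = {φ0}`: `-log ‖..‖ ≤ finrank * log (nrm F) + 2 hE z ≤ d log (3 H) + 2 h ≤ C log (H + 2) ≤ C log (H + 2)^5`.
-/

set_option autoImplicit false

namespace U2

open CZ


open MvPolynomial in
theorem Li2_nrm {H : ℕ} {p0 p1 p2 : ℤ} (h0 : |p0| ≤ (H : ℤ)) (h1 : |p1| ≤ (H : ℤ))
    (h2 : |p2| ≤ (H : ℤ)) :
    H32.T3.nrm (C p0 * X 0 ^ 2 + C (-p1) * X 0 + C p2 : MvPolynomial (Fin 1) ℤ) ≤ 3 * H := by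
  have k0 : |(p0 : ℝ)| ≤ H := by exact_mod_cast h0
  have k1 : |(p1 : ℝ)| ≤ H := by exact_mod_cast h1
  have k2 : |(p2 : ℝ)| ≤ H := by exact_mod_cast h2
  have e1 : H32.T3.nrm (C p0 * X 0 ^ 2 : MvPolynomial (Fin 1) ℤ) ≤ H := by
    refine (H32.T3.nrm_mul_le _ _).trans ?_
    have h3 := H32.T3.nrm_pow_le (X 0 : MvPolynomial (Fin 1) ℤ) 2
    rw [H32.T3.nrm_X, one_pow] at h3
    rw [H32.T3.nrm_C]
    calc |(p0 : ℝ)| * H32.T3.nrm (X 0 ^ 2 : MvPolynomial (Fin 1) ℤ) ≤ H * 1 :=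
          mul_le_mul k0 h3 (H32.T3.nrm_nonneg _) (Nat.cast_nonneg _)
      _ = H := mul_one _
  have e2 : H32.T3.nrm (C (-p1) * X 0 : MvPolynomial (Fin 1) ℤ) ≤ H := by
    refine (H32.T3.nrm_mul_le _ _).trans ?_
    rw [H32.T3.nrm_C, H32.T3.nrm_X, mul_one]
    push_cast
    rw [abs_neg]
    exact k1
  have e3 : H32.T3.nrm (C p2 : MvPolynomial (Fin 1) ℤ) ≤ H := by
    rw [H32.T3.nrm_C]
    exact k2
  have e4 := H32.T3.nrm_add_le (C p0 * X 0 ^ 2 + C (-p1) * X 0 : MvPolynomial (Fin 1) ℤ) (C p2)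
  have e5 := H32.T3.nrm_add_le (C p0 * X 0 ^ 2 : MvPolynomial (Fin 1) ℤ) (C (-p1) * X 0)
  linarith

open MvPolynomial in
theorem Li2_deg (p0 p1 p2 : ℤ) :
    (C p0 * X 0 ^ 2 + C (-p1) * X 0 + C p2 : MvPolynomial (Fin 1) ℤ).totalDegree ≤ 2 := by
  refine (totalDegree_add _ _).trans (max_le ((totalDegree_add _ _).trans (max_le ?_ ?_)) ?_)
  · refine (totalDegree_mul _ _).trans ?_
    rw [totalDegree_C, zero_add]
    exact (totalDegree_X_pow 0 2).le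
  · refine (totalDegree_mul _ _).trans ?_
    rw [totalDegree_C, zero_add, totalDegree_X]
    norm_num
  · rw [totalDegree_C]
    norm_num

theorem low_alg (z : ℂ) (hz : IsAlgebraic ℚ z)
    (hcm : ¬ ∃ a b c : ℤ, (a ≠ 0 ∨ b ≠ 0 ∨ c ≠ 0) ∧ (a : ℂ) * z ^ 2 + b * z + c = 0) : Low z := by
  classical
  have hint : IsIntegral ℚ z := hz.isIntegral
  haveI h1 : FiniteDimensional ℚ (IntermediateField.adjoin ℚ {z}) :=
    IntermediateField.adjoin.finiteDimensional hint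
  haveI h2 : NumberField (IntermediateField.adjoin ℚ {z}) :=
    { to_charZero := inferInstance, to_finiteDimensional := h1 }
  set x : Fin 1 → IntermediateField.adjoin ℚ {z} :=
    fun _ => ⟨z, IntermediateField.mem_adjoin_simple_self ℚ z⟩ with hx
  set φ0 : IntermediateField.adjoin ℚ {z} →+* ℂ :=
    algebraMap (IntermediateField.adjoin ℚ {z}) ℂ with hφ
  have hxz : φ0 (x 0) = z := rfl
  set n : ℕ := Module.finrank ℚ (IntermediateField.adjoin ℚ {z}) with hn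
  set hh : ℝ := ∑ i, hE (x i) with hhh
  have hh0 : 0 ≤ hh := Finset.sum_nonneg fun i _ => hE_nonneg (x i)
  refine ⟨⌈(2 * n + 2 * hh : ℝ)⌉₊, fun H p0 p1 p2 hH k0 k1 k2 hp => ?_⟩
  set F : MvPolynomial (Fin 1) ℤ := MvPolynomial.C p0 * MvPolynomial.X 0 ^ 2 +
    MvPolynomial.C (-p1) * MvPolynomial.X 0 + MvPolynomial.C p2 with hF
  have hval : φ0 (MvPolynomial.aeval x F) = (p0 : ℂ) * z ^ 2 - p1 * z + p2 := by
    rw [hF]
    simp only [map_add, map_mul, map_pow, MvPolynomial.aeval_X, MvPolynomial.aeval_C,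
      eq_intCast, map_intCast, hxz]
    push_cast
    ring
  have hne : (p0 : ℂ) * z ^ 2 - p1 * z + p2 ≠ 0 := by
    intro h
    apply hcm
    refine ⟨p0, -p1, p2, ?_, ?_⟩
    · rcases hp with h | h | h
      · exact Or.inl h
      · exact Or.inr (Or.inl (neg_ne_zero.2 h))
      · exact Or.inr (Or.inr h)
    · push_cast
      linear_combination h
  have hF0 : MvPolynomial.aeval x F ≠ 0 := by
    intro h
    rw [h, map_zero] at hval
    exact hne hval.symm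
  have hL := liouville x F 2 (Li2_deg p0 p1 p2) hF0 {φ0}
  rw [Finset.sum_singleton, hval] at hL
  have hFne : F ≠ 0 := by
    intro h
    apply hF0
    rw [h, map_zero]
  have hnrm1 := H32.T3.one_le_nrm hFne
  have hnrm2 : H32.T3.nrm F ≤ 3 * H := Li2_nrm k0 k1 k2
  have hHR : (1 : ℝ) ≤ H := by exact_mod_cast hH
  have hlog1 : Real.log (H32.T3.nrm F) ≤ 2 * Real.log (H + 2) := by
    have h3 : 2 * Real.log ((H : ℝ) + 2) = Real.log (((H : ℝ) + 2) ^ 2) := by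
      rw [Real.log_pow]; norm_num
    rw [h3]
    apply Real.log_le_log (by linarith)
    nlinarith
  have hlog2 : 1 ≤ Real.log ((H : ℝ) + 2) := by
    rw [Real.le_log_iff_exp_le (by linarith)]
    have := Real.exp_one_lt_d9
    linarith
  have hlog5 : Real.log ((H : ℝ) + 2) ≤ Real.log ((H : ℝ) + 2) ^ 5 :=
    le_self_pow₀ hlog2 (by norm_num)
  have hone5 : 1 ≤ Real.log ((H : ℝ) + 2) ^ 5 := one_le_pow₀ hlog2
  have hceil : (2 * n + 2 * hh : ℝ) ≤ (⌈(2 * n + 2 * hh : ℝ)⌉₊ : ℝ) := Nat.le_ceil _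
  have hn0 : (0 : ℝ) ≤ n := Nat.cast_nonneg n
  have hfin : -Real.log ‖(p0 : ℂ) * z ^ 2 - p1 * z + p2‖ ≤
      (⌈(2 * n + 2 * hh : ℝ)⌉₊ : ℝ) * Real.log ((H : ℝ) + 2) ^ 5 := by
    have a1 : (n : ℝ) * Real.log (H32.T3.nrm F) ≤ n * (2 * Real.log ((H : ℝ) + 2) ^ 5) :=
      mul_le_mul_of_nonneg_left (by linarith) hn0
    have a2 : 2 * hh ≤ 2 * hh * Real.log ((H : ℝ) + 2) ^ 5 :=
      le_mul_of_one_le_right (by linarith) hone5
    have a3 : (2 * n + 2 * hh : ℝ) * Real.log ((H : ℝ) + 2) ^ 5 ≤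
        (⌈(2 * n + 2 * hh : ℝ)⌉₊ : ℝ) * Real.log ((H : ℝ) + 2) ^ 5 :=
      mul_le_mul_of_nonneg_right hceil (by linarith)
    have a4 : ((2 : ℕ) : ℝ) = 2 := by norm_num
    rw [a4] at hL
    nlinarith [hL, a1, a2, a3]
  have hpos : 0 < ‖(p0 : ℂ) * z ^ 2 - p1 * z + p2‖ := norm_pos_iff.2 hne
  rw [← Real.exp_log hpos]
  apply Real.exp_le_exp.2
  have hcast : (⌈(2 * n + 2 * hh : ℝ)⌉₊ : ℝ) * Real.log ((H : ℝ) + 2) ^ 5 =
    ((⌈(2 * n + 2 * hh : ℝ)⌉₊ : ℕ) : ℝ) * Real.log ((H : ℝ) + 2) ^ 5 := rfl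
  linarith

end U2
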