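import Pool.Agent.H22.U2.Dec

/-!
# MP_ede373, theorem (U2), row Lin: the function on the complex line `x + v (1, mu z)`

Let `P = π T / Y`, `Y = z.im`, `μ = mu z`. By `quad` with `(a1, a2) = (x1, x2)`, `(e1, e2) = (1, μ)` there are `α, β, γ` with
`P ((x1 + v).im^2 + (x2 + v μ).im^2) = (α v^2 + β v + γ).re + P (1 + |μ|^2) v.im^2`. Put `Q v = α v^2 + β v + γ` and
`g v = F (x1 + v) (x2 + μ v) exp (-Q v)` (entire by `line_diff`). Then
`‖g v‖ = Nw z T F (x1 + v) (x2 + μ v) exp (P (1 + |μ|^2) v.im^2)`.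
* `v = 0`: `‖g 0‖ = Nw z T F x1 x2`. By `bet_line`, `bet z (x1 + v) (x2 + μ v) = 0`, so the second clause holds with `C ≥ π (1 + |μ|^2)/Y`.
* Lattice point `m`, `γ1 = m.1 + m.2.1 z`, `γ2 = m.2.1 + m.2.2 z`, `u = uu z x2 m`, `s = ss z x1 x2 m`. By the definition of `uu`:
  `x2 + μ u = γ2`, and by `ss_eq`: `x1 + u + s = γ1`. So with `ζ = v - u`: `x1 + v = γ1 + (ζ - s)`, `x2 + μ v = γ2 + μ ζ`, and by `FD.inv`
  `F (x1 + v) (x2 + μ v) = ef z T m.2.1 m.2.2 (ζ - s) (μ ζ) * F (ζ - s) (μ ζ)`.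
  Put `E v = ef z T m.2.1 m.2.2 (ζ - s) (μ ζ) exp (-Q v)` (entire); by `norm_ef` and the identity for `Q`,
  `‖E v‖ = exp (-P ((ζ - s).im^2 + (μ ζ).im^2) + P (1 + |μ|^2) v.im^2) ≤ exp (P (1 + |μ|^2) ‖v‖^2)`.
* `loc_dec` with this `s`: `F (ζ - s) (μ ζ) = a0 ζ + ζ^S1 b0 ζ`; `a v = E v a0 (v - u)`, `b v = E v b0 (v - u)`. For `‖v - u‖ ≤ 1/(C N) ≤ 1`:
  `‖v‖ ≤ ‖u‖ + 1`.
-/

set_option autoImplicit false

namespace U2

open Complex Finset

theorem line_fun {z : ℂ} (hz : 0 < z.im) : ∃ C : ℕ, 1 ≤ C ∧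
    ∀ (T : ℕ) (F : ℂ → ℂ → ℂ) (J : ℕ → ℕ → ℂ) (A : ℝ), 1 ≤ T → FD z T F J A →
    ∀ x1 x2 : ℂ, bet z x1 x2 = 0 → ∃ g : ℂ → ℂ, Differentiable ℂ g ∧ ‖g 0‖ = Nw z T F x1 x2 ∧
      (∀ M0 : ℝ, (∀ y1 y2, bet z y1 y2 = 0 → Nw z T F y1 y2 ≤ M0) →
        ∀ v, ‖g v‖ ≤ M0 * Real.exp (C * T * ‖v‖ ^ 2)) ∧
      ∀ (S1 S2 N : ℕ) (η Ms : ℝ) (m : ℤ × ℤ × ℤ), 1 ≤ N → 0 ≤ η →
        (∀ a e, e < S1 → a + e < S1 + S2 → ‖J a e‖ ≤ η) →
        (∀ y1 y2, |bet z y1 y2| ≤ C / N → Nw z T F y1 y2 ≤ Ms) →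
        |ss z x1 x2 m| ≤ 2 / (N : ℝ) →
        ∃ a b : ℂ → ℂ, Differentiable ℂ a ∧ Differentiable ℂ b ∧
          (∀ v, g v = a v + (v - uu z x2 m) ^ S1 * b v) ∧
          ∀ v, ‖v - uu z x2 m‖ ≤ 1 / (C * N) →
            ‖a v‖ ≤ Real.exp (C * T * (‖uu z x2 m‖ + 1) ^ 2) *
              (Real.exp (C * T) * Ms / 8 ^ S2 + (C : ℝ) ^ (S1 + S2) * η) := by
  obtain ⟨C0, hC0, hdec⟩ := loc_dec hz
  set μ := mu z with hμ
  have hμ0 : μ ≠ 0 := mu_ne hz
  set c1 : ℝ := Real.pi * (1 + ‖μ‖ ^ 2) / z.im with hc1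
  set C : ℕ := C0 + ⌈c1⌉₊ with hC
  have hCC0 : (C0 : ℝ) ≤ C := by
    rw [hC]
    push_cast
    have : (0 : ℝ) ≤ (⌈c1⌉₊ : ℝ) := Nat.cast_nonneg _
    linarith
  have hC1 : c1 ≤ C := by
    rw [hC]
    push_cast
    have h1 := Nat.le_ceil c1
    have h2 : (0 : ℝ) ≤ (C0 : ℝ) := Nat.cast_nonneg _
    linarith
  have hC0pos : (1 : ℝ) ≤ C0 := by exact_mod_cast hC0
  refine ⟨C, by omega, ?_⟩
  intro T F J A hT hF x1 x2 hb
  set P : ℝ := Real.pi * T / z.im with hP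
  have hP0 : 0 ≤ P := by positivity
  have hPc : P * (1 + ‖μ‖ ^ 2) ≤ C * T := by
    have : P * (1 + ‖μ‖ ^ 2) = c1 * T := by
      rw [hP, hc1]
      field_simp
    rw [this]
    exact mul_le_mul_of_nonneg_right hC1 (Nat.cast_nonneg _)
  obtain ⟨α, β, γ, hq⟩ := quad P x1 x2 1 μ
  rw [norm_one, one_pow] at hq
  set Q : ℂ → ℂ := fun v => α * v ^ 2 + β * v + γ with hQ
  have hQd : Differentiable ℂ Q := by
    rw [hQ]
    fun_prop
  have hexpd : Differentiable ℂ fun v => exp (-Q v) := hQd.neg.cexp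
  have himle : ∀ v : ℂ, v.im ^ 2 ≤ ‖v‖ ^ 2 := by
    intro v
    have := abs_im_le_norm v
    rw [← sq_abs v.im]
    gcongr
  set g : ℂ → ℂ := fun v => F (x1 + v * 1) (x2 + v * μ) * exp (-Q v) with hg
  have hNwnn : ∀ y1 y2, 0 ≤ Nw z T F y1 y2 := by
    intro y1 y2
    unfold Nw
    positivity
  have hgn : ∀ v, ‖g v‖ = Nw z T F (x1 + v * 1) (x2 + v * μ) *
      Real.exp (P * (1 + ‖μ‖ ^ 2) * v.im ^ 2) := by
    intro v
    have h1 := hq v
    rw [hg]
    simp only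
    unfold Nw
    rw [norm_mul, norm_exp, mul_assoc, ← Real.exp_add]
    congr 2
    rw [neg_re]
    linarith
  refine ⟨g, ?_, ?_, ?_, ?_⟩
  · exact (line_diff hF.ser x1 x2 1 μ).mul hexpd
  · rw [hgn 0]
    simp
  · intro M0 hM0 v
    rw [hgn v]
    have h1 : Nw z T F (x1 + v * 1) (x2 + v * μ) ≤ M0 := by
      refine hM0 _ _ ?_
      rw [mul_one, mul_comm v μ, bet_line hz, hb]
    have h2 : 0 ≤ M0 := (hNwnn _ _).trans h1
    refine mul_le_mul h1 (Real.exp_le_exp.2 ?_) (Real.exp_pos _).le h2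
    exact mul_le_mul hPc (himle v) (sq_nonneg _) (by positivity)
  · intro S1 S2 N η Ms m hN hη hJ hMs hs
    have hNr : (1 : ℝ) ≤ N := by exact_mod_cast hN
    have hMs0 : 0 ≤ Ms := by
      refine (hNwnn 0 0).trans (hMs 0 0 ?_)
      have : bet z 0 0 = 0 := by
        unfold bet
        simp
      rw [this, abs_zero]
      positivity
    have hMs' : ∀ y1 y2, |bet z y1 y2| ≤ C0 / N → Nw z T F y1 y2 ≤ Ms := by
      intro y1 y2 h
      refine hMs y1 y2 (h.trans ?_)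
      gcongr
    set s := ss z x1 x2 m with hsdef
    obtain ⟨a0, b0, ha0, hb0, hab, hbd⟩ := hdec T F J A hT hF S1 S2 N η Ms s hN hη hJ hMs' hs
    set u := uu z x2 m with hu
    have hγ2 : x2 + μ * u = (m.2.1 : ℂ) + m.2.2 * z := by
      rw [hu]
      unfold uu
      rw [← hμ]
      field_simp
      ring
    have hγ1 : x1 + u + (s : ℂ) = (m.1 : ℂ) + m.2.1 * z := by
      have := ss_eq hz x1 x2 hb m
      rw [← hu, ← hsdef] at this
      linear_combination -this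
    set E : ℂ → ℂ := fun v => ef z T m.2.1 m.2.2 ((v - u) - s) (μ * (v - u)) * exp (-Q v) with hE
    have hEd : Differentiable ℂ E := by
      refine Differentiable.mul ?_ hexpd
      unfold ef
      fun_prop
    have hgE : ∀ v, g v = E v * F ((v - u) - s) (μ * (v - u)) := by
      intro v
      have h1 := hF.inv m.1 m.2.1 m.2.2 ((v - u) - s) (μ * (v - u))
      have h2 : (v - u) - s + ((m.1 : ℂ) + m.2.1 * z) = x1 + v * 1 := by
        rw [← hγ1]
        ring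
      have h3 : μ * (v - u) + ((m.2.1 : ℂ) + m.2.2 * z) = x2 + v * μ := by
        rw [← hγ2]
        ring
      rw [h2, h3] at h1
      rw [hg, hE]
      simp only
      rw [h1]
      ring
    have hEn : ∀ v, ‖E v‖ ≤ Real.exp (C * T * ‖v‖ ^ 2) := by
      intro v
      rw [hE]
      simp only
      rw [norm_mul, norm_exp, norm_ef hz, ← Real.exp_add]
      refine Real.exp_le_exp.2 ?_
      have h2 : ((v - u) - s).im + (m.2.1 : ℝ) * z.im = (x1 + v * 1).im := by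
        have h : (v - u) - s + ((m.1 : ℂ) + m.2.1 * z) = x1 + v * 1 := by
          rw [← hγ1]
          ring
        rw [← h]
        simp
      have h3 : (μ * (v - u)).im + (m.2.2 : ℝ) * z.im = (x2 + v * μ).im := by
        have h : μ * (v - u) + ((m.2.1 : ℂ) + m.2.2 * z) = x2 + v * μ := by
          rw [← hγ2]
          ring
        rw [← h]
        simp
      rw [h2, h3, neg_re, ← hP]
      have h1 := hq v
      have h4 : 0 ≤ P * (((v - u) - s).im ^ 2 + (μ * (v - u)).im ^ 2) := by positivity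
      have h5 : P * (1 + ‖μ‖ ^ 2) * v.im ^ 2 ≤ C * T * ‖v‖ ^ 2 :=
        mul_le_mul hPc (himle v) (sq_nonneg _) (by positivity)
      have h6 : (Q v).re = (α * v ^ 2 + β * v + γ).re := rfl
      linarith
    refine ⟨fun v => E v * a0 (v - u), fun v => E v * b0 (v - u), ?_, ?_, ?_, ?_⟩
    · exact hEd.mul (ha0.comp (differentiable_id.sub_const u))
    · exact hEd.mul (hb0.comp (differentiable_id.sub_const u))
    · intro v
      simp only
      rw [hgE v, hab (v - u)]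
      ring
    · intro v hv
      simp only
      rw [norm_mul]
      have h1 : ‖v - u‖ ≤ 1 / (C0 * N) := by
        refine hv.trans ?_
        gcongr
      have h2 : ‖v - u‖ ≤ 1 := by
        refine h1.trans ?_
        rw [div_le_one (by positivity)]
        nlinarith
      have h3 : ‖v‖ ≤ ‖u‖ + 1 := by
        have : v = (v - u) + u := by ring
        rw [this]
        refine (norm_add_le _ _).trans ?_
        linarith
      have h4 := hbd (v - u) h1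
      have hM1 : 0 ≤ Real.exp (C0 * T) * Ms / 8 ^ S2 := by positivity
      have h5 : Real.exp (C0 * T) * Ms / 8 ^ S2 + (C0 : ℝ) ^ (S1 + S2) * η ≤
          Real.exp (C * T) * Ms / 8 ^ S2 + (C : ℝ) ^ (S1 + S2) * η := by
        gcongr
      refine mul_le_mul ((hEn v).trans (Real.exp_le_exp.2 ?_)) (h4.trans h5) (norm_nonneg _)
        (Real.exp_pos _).le
      gcongr

end U2
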