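import Pool.Agent.H22.U2.Co2

/-!
# MP_ede373, theorem (U2), row Me: measure of simultaneous approximation

`C1, C2` from `sum_le`, `Q0 = max C C2`. Let `E, x, S, d` be given by `ApprAt P t V` and `V' = ∑ d ≥ V`. If `S` is empty, `V ≤ 0`. Let `φ0 ∈ S` with
maximal `d`, `dm = d φ0 ≤ V'`; `|S| ≤ finrank ≤ t` (`NumberField.Embeddings.card`), so `V' ≤ t dm`.
* `dm < C1 Q0^2`: `V ≤ t C1 Q0^2 ≤ C' t^2 log (t+2)^2`.
* otherwise `Q = ⌊√(dm/C1)⌋₊ ≥ Q0`: `C1 Q^2 ≤ dm < C1 (Q+1)^2 ≤ 4 C1 Q^2`. `sum_le` with `N = 1`: `V' ≤ C2 t Q log (Q + 2)`. Together with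
  `C1 Q^2 ≤ dm ≤ V'`: `Q ≤ C2 t log (Q + 2)`. As `log (Q + 2) ≤ 2 √(Q + 2) ≤ 4 √Q`: `√Q ≤ 4 C2 t`, so `Q + 2 ≤ 16 C2^2 t^2 + 2 ≤ (16 C2^2)(t + 2)^2`
  and `log (Q + 2) ≤ C3 log (t + 2)`. Then `V ≤ V' ≤ C2 t (C2 t log (Q + 2)) log (Q + 2) ≤ C2^2 C3^2 t^2 log (t + 2)^2`.
-/

set_option autoImplicit false

namespace U2

open CZ

theorem meas {k : ℕ} (P : Fin k → ℂ) (C : ℕ) (hC : 1 ≤ C) (h : ∀ Q : ℕ, C ≤ Q → Dat P C 1 Q) :
    ∃ C' : ℕ, ∀ t V : ℝ, 1 ≤ t → ApprAt P t V → V ≤ C' * (t ^ 2 * Real.log (t + 2) ^ 2) := by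
  obtain ⟨C1, C2, hC1, hC12, hsum⟩ := sum_le P C hC
  set Q0 : ℕ := max C C2 with hQ0
  refine ⟨C1 * Q0 ^ 2 + C2 ^ 2 * (16 * C2 ^ 2 + 2) ^ 2, fun t V ht hap ↦ ?_⟩
  obtain ⟨E, iF, iN, x, S, d, h1, h2, h3, h4⟩ := hap
  have hlog : 1 ≤ Real.log (t + 2) := by
    rw [Real.le_log_iff_exp_le (by linarith)]
    have := Real.exp_one_lt_d9
    linarith
  have hlog0 : 0 ≤ Real.log (t + 2) := zero_le_one.trans hlog
  have hC1' : (1 : ℝ) ≤ C1 := by exact_mod_cast hC1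
  have hC1pos : (0 : ℝ) < C1 := lt_of_lt_of_le one_pos hC1'
  have hC2' : (1 : ℝ) ≤ C2 := by exact_mod_cast hC1.trans hC12
  have hC2pos : (0 : ℝ) < C2 := lt_of_lt_of_le one_pos hC2'
  have hbig0 : 0 ≤ t ^ 2 * Real.log (t + 2) ^ 2 := by positivity
  have hbigt : t ≤ t ^ 2 * Real.log (t + 2) ^ 2 := by
    have e1 : t ≤ t ^ 2 := by nlinarith
    have e2 : (1 : ℝ) ≤ Real.log (t + 2) ^ 2 := one_le_pow₀ hlog
    nlinarith
  push_cast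
  -- the empty case
  rcases S.eq_empty_or_nonempty with hS | hS
  · have hV0 : V ≤ 0 := by
      rw [hS, Finset.sum_empty] at h4
      exact h4
    exact hV0.trans (by positivity)
  obtain ⟨φ0, hφ0, hmax⟩ := S.exists_max_image d hS
  set dm : ℝ := d φ0 with hdm
  have hdm0 : 0 ≤ dm := (h3 φ0 hφ0).1
  have hcard : (S.card : ℝ) ≤ t := by
    refine le_trans ?_ h1
    have e : Fintype.card (E →+* ℂ) = Module.finrank ℚ E := NumberField.Embeddings.card E ℂ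
    rw [← e]
    exact_mod_cast Finset.card_le_univ S
  have hVt : V ≤ t * dm := by
    calc V ≤ ∑ φ ∈ S, d φ := h4
      _ ≤ ∑ _φ ∈ S, dm := Finset.sum_le_sum fun φ hφ ↦ hmax φ hφ
      _ = S.card * dm := by rw [Finset.sum_const, nsmul_eq_mul]
      _ ≤ t * dm := mul_le_mul_of_nonneg_right hcard hdm0
  have hmaxV : dm ≤ ∑ φ ∈ S, d φ :=
    Finset.single_le_sum (f := d) (fun φ hφ ↦ (h3 φ hφ).1) hφ0
  by_cases hc : dm < C1 * (Q0 : ℝ) ^ 2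
  · calc V ≤ t * dm := hVt
      _ ≤ t * (C1 * (Q0 : ℝ) ^ 2) := mul_le_mul_of_nonneg_left hc.le (by linarith)
      _ = (C1 * (Q0 : ℝ) ^ 2) * t := by ring
      _ ≤ (C1 * (Q0 : ℝ) ^ 2) * (t ^ 2 * Real.log (t + 2) ^ 2) :=
          mul_le_mul_of_nonneg_left hbigt (by positivity)
      _ ≤ _ := by
          refine mul_le_mul_of_nonneg_right ?_ hbig0
          have : (0 : ℝ) ≤ (C2 : ℝ) ^ 2 * (16 * (C2 : ℝ) ^ 2 + 2) ^ 2 := by positivity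
          linarith
  · push Not at hc
    set Q : ℕ := ⌊√(dm / C1)⌋₊ with hQ
    have hQ0Q : Q0 ≤ Q := by
      rw [hQ]
      apply Nat.le_floor
      apply Real.le_sqrt_of_sq_le
      rw [le_div_iff₀ hC1pos]
      linarith
    have hQ1 : 1 ≤ Q := (hC.trans (le_max_left _ _)).trans hQ0Q
    have hQ1' : (1 : ℝ) ≤ Q := by exact_mod_cast hQ1
    have hQle : (Q : ℝ) ≤ √(dm / C1) := Nat.floor_le (Real.sqrt_nonneg _)
    have hQlt : √(dm / C1) < Q + 1 := Nat.lt_floor_add_one _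
    have hdiv0 : 0 ≤ dm / C1 := div_nonneg hdm0 hC1pos.le
    have hlow : C1 * (Q : ℝ) ^ 2 ≤ dm := by
      have e : (Q : ℝ) ^ 2 ≤ dm / C1 := by
        calc (Q : ℝ) ^ 2 ≤ √(dm / C1) ^ 2 := pow_le_pow_left₀ (by linarith) hQle 2
          _ = dm / C1 := Real.sq_sqrt hdiv0
      rw [le_div_iff₀ hC1pos] at e
      linarith
    have hup : dm ≤ 64 * (C1 * (Q : ℝ) ^ 2) := by
      have e : dm / C1 ≤ ((Q : ℝ) + 1) ^ 2 := by
        calc dm / C1 = √(dm / C1) ^ 2 := (Real.sq_sqrt hdiv0).symm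
          _ ≤ ((Q : ℝ) + 1) ^ 2 := pow_le_pow_left₀ (Real.sqrt_nonneg _) hQlt.le 2
      rw [div_le_iff₀ hC1pos] at e
      have e2 : ((Q : ℝ) + 1) ^ 2 ≤ 64 * (Q : ℝ) ^ 2 := by nlinarith
      calc dm ≤ ((Q : ℝ) + 1) ^ 2 * C1 := e
        _ ≤ 64 * (Q : ℝ) ^ 2 * C1 := mul_le_mul_of_nonneg_right e2 hC1pos.le
        _ = 64 * (C1 * (Q : ℝ) ^ 2) := by ring
    have hmain := hsum 1 Q le_rfl ((le_max_right _ _).trans hQ0Q) (h Q ((le_max_left _ _).trans hQ0Q))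
      E iF iN x S d t h1 h2 h3
      ⟨φ0, hφ0, by rw [Nat.cast_one, mul_one]; exact hlow⟩
      (fun φ hφ ↦ by rw [Nat.cast_one, mul_one]; exact (hmax φ hφ).trans hup)
    set ℓ : ℝ := Real.log ((Q : ℝ) + 2) with hℓ
    have hℓ0 : 0 ≤ ℓ := Real.log_nonneg (by linarith)
    have hQt : (Q : ℝ) ≤ C2 * t * ℓ := by
      have e1 : (Q : ℝ) ^ 2 ≤ C2 * t * (Q * ℓ) := by
        calc (Q : ℝ) ^ 2 = 1 * (Q : ℝ) ^ 2 := (one_mul _).symm
          _ ≤ C1 * (Q : ℝ) ^ 2 := mul_le_mul_of_nonneg_right hC1' (by positivity)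
          _ ≤ _ := hlow.trans (hmaxV.trans hmain)
      have e2 : (Q : ℝ) * Q ≤ Q * (C2 * t * ℓ) := by nlinarith
      exact le_of_mul_le_mul_left e2 (by linarith)
    -- the bound for `ℓ`
    have hsq : ℓ ≤ 4 * √(Q : ℝ) := by
      have hy : (0 : ℝ) < (Q : ℝ) + 2 := by linarith
      have e1 : ℓ = 2 * Real.log √((Q : ℝ) + 2) := by
        rw [Real.log_sqrt hy.le]; ring
      have e2 : Real.log √((Q : ℝ) + 2) ≤ √((Q : ℝ) + 2) := by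
        have := Real.log_le_sub_one_of_pos (Real.sqrt_pos.2 hy)
        linarith
      have e3 : √((Q : ℝ) + 2) ≤ 2 * √(Q : ℝ) := by
        rw [Real.sqrt_le_left (by positivity), mul_pow, Real.sq_sqrt (by linarith)]
        linarith
      linarith
    have hsQ : √(Q : ℝ) ≤ 4 * (C2 * t) := by
      have hpos : 0 < √(Q : ℝ) := Real.sqrt_pos.2 (by linarith)
      have e1 : √(Q : ℝ) * √(Q : ℝ) ≤ (4 * (C2 * t)) * √(Q : ℝ) := by
        rw [Real.mul_self_sqrt (by linarith)]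
        calc (Q : ℝ) ≤ C2 * t * ℓ := hQt
          _ ≤ C2 * t * (4 * √(Q : ℝ)) := mul_le_mul_of_nonneg_left hsq (by positivity)
          _ = (4 * (C2 * t)) * √(Q : ℝ) := by ring
      exact le_of_mul_le_mul_right e1 hpos
    have hQ16 : (Q : ℝ) + 2 ≤ (16 * (C2 : ℝ) ^ 2) * (t + 2) ^ 2 := by
      have e1 : (Q : ℝ) ≤ 16 * (C2 : ℝ) ^ 2 * t ^ 2 := by
        calc (Q : ℝ) = √(Q : ℝ) ^ 2 := (Real.sq_sqrt (by linarith)).symm
          _ ≤ (4 * (C2 * t)) ^ 2 := pow_le_pow_left₀ (Real.sqrt_nonneg _) hsQ 2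
          _ = 16 * (C2 : ℝ) ^ 2 * t ^ 2 := by ring
      have e2 : (1 : ℝ) ≤ (C2 : ℝ) ^ 2 := one_le_pow₀ hC2'
      nlinarith [mul_nonneg (sub_nonneg.2 e2) (show (0 : ℝ) ≤ t by linarith)]
    have hℓle : ℓ ≤ (16 * (C2 : ℝ) ^ 2 + 2) * Real.log (t + 2) := by
      have hp1 : (0 : ℝ) < 16 * (C2 : ℝ) ^ 2 := by positivity
      have hp2 : (0 : ℝ) < (t + 2) ^ 2 := by positivity
      have e1 : ℓ ≤ Real.log ((16 * (C2 : ℝ) ^ 2) * (t + 2) ^ 2) := Real.log_le_log (by linarith) hQ16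
      rw [Real.log_mul hp1.ne' hp2.ne', Real.log_pow] at e1
      have e2 := Real.log_le_sub_one_of_pos hp1
      have e3 : Real.log (16 * (C2 : ℝ) ^ 2) ≤ (16 * (C2 : ℝ) ^ 2) * Real.log (t + 2) := by
        calc Real.log (16 * (C2 : ℝ) ^ 2) ≤ 16 * (C2 : ℝ) ^ 2 := by linarith
          _ = (16 * (C2 : ℝ) ^ 2) * 1 := (mul_one _).symm
          _ ≤ _ := mul_le_mul_of_nonneg_left hlog hp1.le
      push_cast at e1
      linarith
    have hfin : V ≤ (C2 : ℝ) ^ 2 * (16 * (C2 : ℝ) ^ 2 + 2) ^ 2 * (t ^ 2 * Real.log (t + 2) ^ 2) := by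
      calc V ≤ C2 * t * (Q * ℓ) := h4.trans hmain
        _ ≤ C2 * t * ((C2 * t * ℓ) * ℓ) :=
            mul_le_mul_of_nonneg_left (mul_le_mul_of_nonneg_right hQt hℓ0) (by positivity)
        _ = (C2 : ℝ) ^ 2 * t ^ 2 * ℓ ^ 2 := by ring
        _ ≤ (C2 : ℝ) ^ 2 * t ^ 2 * ((16 * (C2 : ℝ) ^ 2 + 2) * Real.log (t + 2)) ^ 2 :=
            mul_le_mul_of_nonneg_left (pow_le_pow_left₀ hℓ0 hℓle 2) (by positivity)
        _ = _ := by ring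
    refine hfin.trans (mul_le_mul_of_nonneg_right ?_ hbig0)
    have : (0 : ℝ) ≤ (C1 : ℝ) * (Q0 : ℝ) ^ 2 := by positivity
    linarith

end U2
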