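import Pool.Agent.H22.U2.Defs

/-!
# MP_ede373, theorem (U2), row Nc1: covering or a small value of a quadratic polynomial

`α1 = 2 Re z`, `α2 = ‖z‖^2`. Dirichlet (`Real.exists_int_int_abs_mul_sub_le` or `Real.exists_nat_abs_mul_sub_round_le`): for `l = 1, 2` there are `1 ≤ q_l ≤ N` and an integer
`a_l` with `|q_l α_l - a_l| ≤ 1/(N + 1) ≤ 1/N`.
* If `δ = |q_l α_l - a_l| ≥ 1/K'` for `l = 1` or `l = 2`: for every `θ`, `θ - ⌊θ⌋ ∈ [0, 1)`, `j = ⌊(θ - ⌊θ⌋)/δ⌋ ≤ K'`; then `|j δ - (θ - ⌊θ⌋)| ≤ δ ≤ 1/N`. With the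
  sign `ε` of `q_l α_l - a_l`: `j δ = ε j (q_l α_l - a_l)`, so `m_l = ε j q_l`, `m_0 = ⌊θ⌋ - ε j a_l` and the other coefficient is `0`; `|m_l| ≤ K' N ≤ N (K' + 1)`. So
  `COV z N (N (K' + 1))`.
* Otherwise both are `< 1/K'`: `p0 = q1 q2`, `p1 = a1 q2`, `p2 = a2 q1`. As `z^2 = α1 z - α2` (`z + conj z = α1`, `z conj z = α2`):
  `p0 z^2 - p1 z + p2 = q2 (q1 α1 - a1) z - q1 (q2 α2 - a2)`, of norm at most `N (‖z‖ + 1)/K'`. `|a_l| ≤ N |α_l| + 1`, so `|p_i| ≤ C N^2` with a natural number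
  `C ≥ |α1| + |α2| + 2, ‖z‖ + 1`.
-/

set_option autoImplicit false

namespace U2

private theorem Nc1_line (α : ℝ) {N K : ℕ} (hK : 1 ≤ K) {q a : ℤ} (hq0 : 0 < q)
    (hqN : q ≤ N) (h1 : |(q : ℝ) * α - a| ≤ 1 / (N : ℝ)) (h2 : 1 / (K : ℝ) ≤ |(q : ℝ) * α - a|)
    (θ : ℝ) : ∃ m0 m : ℤ, |m| ≤ ((N * (K + 1) : ℕ) : ℤ) ∧ |(m0 : ℝ) + m * α - θ| ≤ 1 / (N : ℝ) := by
  set d : ℝ := |(q : ℝ) * α - a| with hd
  have hK0 : (0 : ℝ) < K := by exact_mod_cast hK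
  have hd0 : 0 < d := lt_of_lt_of_le (by positivity) h2
  set j : ℤ := ⌊Int.fract θ / d⌋ with hj
  have hf0 := Int.fract_nonneg θ
  have hf1 := Int.fract_lt_one θ
  have hj0 : 0 ≤ j := Int.floor_nonneg.2 (div_nonneg hf0 hd0.le)
  have hj1 : (j : ℝ) * d ≤ Int.fract θ := by
    have h := Int.floor_le (Int.fract θ / d)
    rwa [le_div_iff₀ hd0] at h
  have hj2 : Int.fract θ < (j : ℝ) * d + d := by
    have h := Int.lt_floor_add_one (Int.fract θ / d)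
    rw [div_lt_iff₀ hd0] at h
    linarith
  have hjK : j ≤ K := by
    have h3 : (j : ℝ) * (1 / K) ≤ 1 := by
      have h4 : (j : ℝ) * (1 / K) ≤ j * d :=
        mul_le_mul_of_nonneg_left h2 (by exact_mod_cast hj0)
      linarith
    have h5 : (j : ℝ) ≤ K := by
      rw [mul_one_div, div_le_one hK0] at h3
      exact h3
    exact_mod_cast h5
  have hjq : |j * q| ≤ ((N * (K + 1) : ℕ) : ℤ) := by
    rw [abs_of_nonneg (mul_nonneg hj0 hq0.le)]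
    push_cast
    nlinarith
  have hfl : (⌊θ⌋ : ℝ) = θ - Int.fract θ := by
    have := Int.floor_add_fract θ
    linarith
  have hfin : |(j : ℝ) * d - Int.fract θ| ≤ 1 / (N : ℝ) := by
    rw [abs_le]
    constructor <;> linarith
  rcases le_total 0 ((q : ℝ) * α - a) with h | h
  · refine ⟨⌊θ⌋ - j * a, j * q, hjq, ?_⟩
    have e : ((⌊θ⌋ - j * a : ℤ) : ℝ) + ((j * q : ℤ) : ℝ) * α - θ = j * d - Int.fract θ := by
      rw [hd, abs_of_nonneg h]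
      push_cast
      rw [hfl]
      ring
    rw [e]
    exact hfin
  · refine ⟨⌊θ⌋ + j * a, -(j * q), by rwa [abs_neg], ?_⟩
    have e : ((⌊θ⌋ + j * a : ℤ) : ℝ) + ((-(j * q) : ℤ) : ℝ) * α - θ = j * d - Int.fract θ := by
      rw [hd, abs_of_nonpos h]
      push_cast
      rw [hfl]
      ring
    rw [e]
    exact hfin

private theorem Nc1_a {α : ℝ} {N : ℕ} (hN : 1 ≤ N) {q a : ℤ} (hq0 : 0 < q) (hqN : q ≤ N)
    (h1 : |(q : ℝ) * α - a| ≤ 1 / (N : ℝ)) : |(a : ℝ)| ≤ N * (|α| + 1) := by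
  have hN0 : (1 : ℝ) ≤ N := by exact_mod_cast hN
  have h2 : 1 / (N : ℝ) ≤ 1 := by
    rw [div_le_one (by linarith)]
    exact hN0
  have h3 : |(a : ℝ)| ≤ |(q : ℝ) * α| + |(q : ℝ) * α - a| := by
    have e : (a : ℝ) = (q : ℝ) * α - ((q : ℝ) * α - a) := by ring
    calc |(a : ℝ)| = |(q : ℝ) * α - ((q : ℝ) * α - a)| := by rw [← e]
      _ ≤ _ := abs_sub _ _
  have h4 : |(q : ℝ) * α| ≤ N * |α| := by
    rw [abs_mul]
    refine mul_le_mul_of_nonneg_right ?_ (abs_nonneg _)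
    rw [abs_of_nonneg (by exact_mod_cast hq0.le)]
    exact_mod_cast hqN
  linarith

private theorem Nc1_z (z : ℂ) : z ^ 2 = ((2 * z.re : ℝ) : ℂ) * z - ((‖z‖ ^ 2 : ℝ) : ℂ) := by
  have h1 := Complex.mul_conj z
  rw [Complex.normSq_eq_norm_sq] at h1
  rw [← h1, ← Complex.add_conj]
  ring

private theorem Nc1_int {x : ℤ} {C N : ℕ} {B : ℝ} (hB : B ≤ C) (h : |(x : ℝ)| ≤ B * (N : ℝ) ^ 2) :
    |x| ≤ ((C * N ^ 2 : ℕ) : ℤ) := by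
  have h1 : |(x : ℝ)| ≤ C * (N : ℝ) ^ 2 := h.trans (mul_le_mul_of_nonneg_right hB (by positivity))
  exact_mod_cast h1

theorem cov_or (z : ℂ) (hz : 0 < z.im) : ∃ C : ℕ, 1 ≤ C ∧ ∀ N K : ℕ, 1 ≤ N → 1 ≤ K →
    COV z N (N * (K + 1)) ∨ ∃ p0 p1 p2 : ℤ, 1 ≤ p0 ∧ |p0| ≤ (C * N ^ 2 : ℕ) ∧
      |p1| ≤ (C * N ^ 2 : ℕ) ∧ |p2| ≤ (C * N ^ 2 : ℕ) ∧
      ‖(p0 : ℂ) * z ^ 2 - p1 * z + p2‖ ≤ C * N / K := by
  refine ⟨⌈|2 * z.re| + ‖z‖ ^ 2 + ‖z‖ + 3⌉₊, ?_, ?_⟩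
  · rw [Nat.one_le_ceil_iff]
    positivity
  intro N K hN hK
  set C : ℕ := ⌈|2 * z.re| + ‖z‖ ^ 2 + ‖z‖ + 3⌉₊ with hC
  have hCle : |2 * z.re| + ‖z‖ ^ 2 + ‖z‖ + 3 ≤ C := Nat.le_ceil _
  clear_value C
  have hz0 := norm_nonneg z
  have ha0 := abs_nonneg (2 * z.re)
  have hN0 : (0 : ℝ) < N := by exact_mod_cast hN
  have hK0 : (0 : ℝ) < K := by exact_mod_cast hK
  have hNN : 1 / ((N : ℝ) + 1) ≤ 1 / (N : ℝ) := one_div_le_one_div_of_le hN0 (by linarith)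
  obtain ⟨a1, q1, hq10, hq1N, h1⟩ := Real.exists_int_int_abs_mul_sub_le (2 * z.re) hN
  obtain ⟨a2, q2, hq20, hq2N, h2⟩ := Real.exists_int_int_abs_mul_sub_le (‖z‖ ^ 2) hN
  replace h1 := h1.trans hNN
  replace h2 := h2.trans hNN
  by_cases c1 : 1 / (K : ℝ) ≤ |(q1 : ℝ) * (2 * z.re) - a1|
  · left
    intro θ
    obtain ⟨m0, m, hm, h⟩ := Nc1_line _ hK hq10 hq1N h1 c1 θ
    refine ⟨m0, m, 0, hm, by simp, ?_⟩
    simpa using h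
  by_cases c2 : 1 / (K : ℝ) ≤ |(q2 : ℝ) * ‖z‖ ^ 2 - a2|
  · left
    intro θ
    obtain ⟨m0, m, hm, h⟩ := Nc1_line _ hK hq20 hq2N h2 c2 θ
    refine ⟨m0, 0, m, by simp, hm, ?_⟩
    simpa using h
  right
  rw [not_le] at c1 c2
  have hb1 := Nc1_a hN hq10 hq1N h1
  have hb2 := Nc1_a hN hq20 hq2N h2
  rw [abs_of_nonneg (sq_nonneg ‖z‖)] at hb2
  have hq1' : |(q1 : ℝ)| ≤ N := by
    rw [abs_of_nonneg (by exact_mod_cast hq10.le)]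
    exact_mod_cast hq1N
  have hq2' : |(q2 : ℝ)| ≤ N := by
    rw [abs_of_nonneg (by exact_mod_cast hq20.le)]
    exact_mod_cast hq2N
  refine ⟨q1 * q2, a1 * q2, a2 * q1, ?_, ?_, ?_, ?_, ?_⟩
  · have := mul_pos hq10 hq20
    omega
  · refine Nc1_int (B := 1) (by nlinarith) ?_
    push_cast
    rw [abs_mul, one_mul, sq]
    exact mul_le_mul hq1' hq2' (abs_nonneg _) hN0.le
  · refine Nc1_int (B := |2 * z.re| + 1) (by nlinarith) ?_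
    push_cast
    rw [abs_mul]
    calc |(a1 : ℝ)| * |(q2 : ℝ)| ≤ (N * (|2 * z.re| + 1)) * N :=
          mul_le_mul hb1 hq2' (abs_nonneg _) (by positivity)
      _ = _ := by ring
  · refine Nc1_int (B := ‖z‖ ^ 2 + 1) (by linarith) ?_
    push_cast
    rw [abs_mul]
    calc |(a2 : ℝ)| * |(q1 : ℝ)| ≤ (N * (‖z‖ ^ 2 + 1)) * N :=
          mul_le_mul hb2 hq1' (abs_nonneg _) (by positivity)
      _ = _ := by ring
  · have e : (((q1 * q2 : ℤ) : ℂ)) * z ^ 2 - ((a1 * q2 : ℤ) : ℂ) * z + ((a2 * q1 : ℤ) : ℂ) =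
        ((q2 : ℝ) : ℂ) * (((q1 : ℝ) * (2 * z.re) - a1 : ℝ) : ℂ) * z -
          ((q1 : ℝ) : ℂ) * (((q2 : ℝ) * ‖z‖ ^ 2 - a2 : ℝ) : ℂ) := by
      rw [Nc1_z z]
      push_cast
      ring
    rw [e]
    refine (norm_sub_le _ _).trans ?_
    rw [norm_mul, norm_mul, norm_mul, Complex.norm_real, Complex.norm_real, Complex.norm_real,
      Complex.norm_real, Real.norm_eq_abs, Real.norm_eq_abs, Real.norm_eq_abs, Real.norm_eq_abs]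
    have g1 : |(q2 : ℝ)| * |(q1 : ℝ) * (2 * z.re) - a1| ≤ N * (1 / K) :=
      mul_le_mul hq2' c1.le (abs_nonneg _) hN0.le
    have g2 : |(q1 : ℝ)| * |(q2 : ℝ) * ‖z‖ ^ 2 - a2| ≤ N * (1 / K) :=
      mul_le_mul hq1' c2.le (abs_nonneg _) hN0.le
    have g3 : |(q2 : ℝ)| * |(q1 : ℝ) * (2 * z.re) - a1| * ‖z‖ ≤ N * (1 / K) * ‖z‖ :=
      mul_le_mul_of_nonneg_right g1 hz0
    have g4 : (N : ℝ) * (1 / K) * ‖z‖ + N * (1 / K) = (‖z‖ + 1) * N / K := by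
      field_simp
    have g5 : (‖z‖ + 1) * N / K ≤ C * N / K := by
      gcongr
      nlinarith
    linarith

theorem cov_one (z : ℂ) : COV z 1 0 := by
  intro θ
  refine ⟨⌊θ⌋, 0, 0, by simp, by simp, ?_⟩
  have h1 := Int.floor_le θ
  have h2 := Int.lt_floor_add_one θ
  simp only [Int.cast_zero, zero_mul, add_zero, Nat.cast_one, div_one]
  rw [abs_le]
  constructor <;> linarith

end U2
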