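import Pool.Agent.H22.U2.DefA
import Pool.Agent.H22.U2.Nc1

/-!
# MP_ede373, theorem (U2), row Nc2: the covering hypothesis along `Q = 2^l`, `N = l^3`

`Cl` from `Low z`, `Cn` from `cov_or`. `K' = 2^(l/4)` (natural division), `K = N (K' + 1)`, `N = l^3`. If `COV z N K` fails, `cov_or` gives `p0 ≥ 1, p1, p2` with
`|p_i| ≤ Cn N^2` and `exp (-(Cl log (Cn N^2 + 2)^5)) ≤ ‖p0 z^2 - p1 z + p2‖ ≤ Cn N/K'`. But `log (Cn l^6 + 2) ≤ C (1 + log l)` and `K' ≥ 2^(l/4 - 1)`, so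
`log (K'/(Cn N)) ≥ (l/4 - 1) log 2 - log Cn - 3 log l > Cl (C (1 + log l))^5` for large `l` (use `Filter.Tendsto` / `isLittleO_log_id_atTop`,
`isLittleO_log_rpow_atTop`, `isLittleO_pow_log_id_atTop`). The last inequality: `K + N = l^3 (K' + 2) ≤ 3 l^3 2^(l/4)` with real exponent `l/4`, so the left side is at most
`C l^3 9 l^6 2^(l/2) log (3 l^6 2^(l/4) + 2) ≤ C' l^10 2^(l/2) ≤ 2^l` for large `l`.
-/

set_option autoImplicit false

namespace U2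

theorem Nc2_ev (c : ℝ) (hc : 0 ≤ c) :
    ∀ᶠ l : ℕ in Filter.atTop, c * (1 + Real.log l) ^ 5 ≤ (l : ℝ) / 16 := by
  have hε : (0 : ℝ) < 1 / (16 * (c + 1) * Real.exp 1) := by positivity
  have h1 := (Real.isLittleO_pow_log_id_atTop (n := 5)).def hε
  have h2 : Filter.Tendsto (fun l : ℕ => Real.exp 1 * (l : ℝ)) Filter.atTop Filter.atTop :=
    Filter.Tendsto.const_mul_atTop (Real.exp_pos 1) tendsto_natCast_atTop_atTop
  have h3 := h2.eventually h1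
  filter_upwards [h3, Filter.eventually_ge_atTop 1] with l hl hl1
  have hl0 : (0 : ℝ) < l := by exact_mod_cast hl1
  have h4 : Real.log (Real.exp 1 * (l : ℝ)) = 1 + Real.log l := by
    rw [Real.log_mul (Real.exp_pos 1).ne' hl0.ne', Real.log_exp]
  rw [h4] at hl
  have hL : 0 ≤ Real.log l := Real.log_nonneg (by exact_mod_cast hl1)
  have h5 : ‖(1 + Real.log (l : ℝ)) ^ 5‖ = (1 + Real.log (l : ℝ)) ^ 5 :=
    Real.norm_of_nonneg (by positivity)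
  have h6 : ‖id (Real.exp 1 * (l : ℝ))‖ = Real.exp 1 * (l : ℝ) :=
    Real.norm_of_nonneg (by simp only [id]; positivity)
  rw [h5, h6] at hl
  have h7 : 1 / (16 * (c + 1) * Real.exp 1) * (Real.exp 1 * (l : ℝ)) =
      (l : ℝ) / 16 / (c + 1) := by
    field_simp
  rw [h7, le_div_iff₀ (by positivity)] at hl
  have h8 : 0 ≤ (1 + Real.log (l : ℝ)) ^ 5 := by positivity
  nlinarith

theorem Nc2_K (l : ℕ) : ((l : ℝ) - 3) / 8 ≤ ((l / 4 : ℕ) : ℝ) * Real.log 2 := by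
  have h1 : l < 4 * (l / 4) + 4 := by omega
  have h2 : l + 1 ≤ 4 * (l / 4) + 4 := h1
  have h3 : (l : ℝ) + 1 ≤ 4 * ((l / 4 : ℕ) : ℝ) + 4 := by exact_mod_cast h2
  have h4 : (1 / 2 : ℝ) ≤ Real.log 2 := by
    have := Real.log_two_gt_d9
    linarith
  have h5 : (0 : ℝ) ≤ ((l / 4 : ℕ) : ℝ) := Nat.cast_nonneg _
  nlinarith

theorem Nc2_pow (k : ℕ) : ((2 ^ k : ℕ) : ℝ) = Real.exp ((k : ℝ) * Real.log 2) := by
  rw [mul_comm, Real.exp_mul, Real.exp_log (by norm_num)]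
  push_cast
  exact (Real.rpow_natCast 2 k).symm

theorem Nc2_five {L : ℝ} (hL : 0 ≤ L) : 1 + L ≤ (1 + L) ^ 5 := by
  have h1 : (1 : ℝ) ≤ 1 + L := by linarith
  calc 1 + L = (1 + L) ^ 1 := (pow_one _).symm
    _ ≤ (1 + L) ^ 5 := pow_le_pow_right₀ h1 (by norm_num)

theorem Nc2_lin {u v L : ℝ} (hu : 0 ≤ u) (hv : 0 ≤ v) (hL : 0 ≤ L) :
    u + v * L ≤ (u + v) * (1 + L) ^ 5 := by
  have h1 := Nc2_five hL
  have h2 : u * 1 ≤ u * (1 + L) ^ 5 := mul_le_mul_of_nonneg_left (by linarith) hu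
  have h3 : v * L ≤ v * (1 + L) ^ 5 := mul_le_mul_of_nonneg_left (by linarith) hv
  linarith

theorem cov_ev (z : ℂ) (hz : 0 < z.im) (h : Low z) (C : ℕ) : ∃ l0 : ℕ, ∀ l : ℕ, l0 ≤ l →
    ∃ K : ℕ, COV z (l ^ 3) K ∧
      C * ((l ^ 3 : ℕ) : ℝ) * ((K : ℝ) + (l ^ 3 : ℕ)) ^ 2 *
        Real.log (((K : ℝ) + (l ^ 3 : ℕ)) * (l ^ 3 : ℕ) + 2) ≤ ((2 ^ l : ℕ) : ℝ) := by
  obtain ⟨Cl, hCl⟩ := h
  obtain ⟨Cn, hCn1, hCn⟩ := cov_or z hz
  have hCn0 : (1 : ℝ) ≤ (Cn : ℝ) := by exact_mod_cast hCn1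
  set a : ℝ := Real.log ((Cn : ℝ) + 2) with ha
  have ha0 : 0 ≤ a := Real.log_nonneg (by linarith)
  have hlCn : 0 ≤ Real.log (Cn : ℝ) := Real.log_nonneg hCn0
  have hlC : 0 ≤ Real.log (81 * (C : ℝ) + 1) :=
    Real.log_nonneg (by have : (0:ℝ) ≤ (C : ℝ) := Nat.cast_nonneg C; linarith)
  have e1 := Nc2_ev (Real.log (Cn : ℝ) + 3 + Cl * (a + 6) ^ 5) (by positivity)
  have e2 := Nc2_ev (Real.log (81 * (C : ℝ) + 1) + 10) (by positivity)
  obtain ⟨l0, hl0⟩ := Filter.eventually_atTop.1 ((e1.and e2).and (Filter.eventually_ge_atTop 7))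
  refine ⟨l0, fun l hl => ?_⟩
  obtain ⟨⟨f1, f2⟩, f3⟩ := hl0 l hl
  have hl1 : 1 ≤ l := by omega
  have hlr : (7 : ℝ) ≤ (l : ℝ) := by exact_mod_cast f3
  have hlp : (0 : ℝ) < (l : ℝ) := by linarith
  set L : ℝ := Real.log (l : ℝ) with hLdef
  have hL : 0 ≤ L := Real.log_nonneg (by linarith)
  have hX := Nc2_five hL
  have hKl := Nc2_K l
  set k : ℕ := l / 4 with hk
  have hKe := Nc2_pow k
  have hN1 : 1 ≤ l ^ 3 := Nat.one_le_pow _ _ hl1
  have hK1 : 1 ≤ 2 ^ k := Nat.one_le_two_pow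
  refine ⟨l ^ 3 * (2 ^ k + 1), ?_, ?_⟩
  · rcases hCn (l ^ 3) (2 ^ k) hN1 hK1 with h1 | ⟨p0, p1, p2, g0, g1, g2, g3, g4⟩
    · exact h1
    · exfalso
      have hH : 1 ≤ Cn * (l ^ 3) ^ 2 := Nat.mul_pos hCn1 (Nat.pow_pos hN1)
      have b1 := hCl (Cn * (l ^ 3) ^ 2) p0 p1 p2 hH g1 g2 g3 (Or.inl (by omega))
      have b2 := b1.trans g4
      have b3 : Real.log (((Cn * (l ^ 3) ^ 2 : ℕ) : ℝ) + 2) ≤ (a + 6) * (1 + L) := by
        have c1 : ((Cn * (l ^ 3) ^ 2 : ℕ) : ℝ) + 2 ≤ ((Cn : ℝ) + 2) * (l : ℝ) ^ 6 := by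
          push_cast
          have c2 : (1 : ℝ) ≤ (l : ℝ) ^ 6 := one_le_pow₀ (by linarith)
          nlinarith
        have c3 : Real.log (((Cn * (l ^ 3) ^ 2 : ℕ) : ℝ) + 2) ≤ a + 6 * L := by
          calc _ ≤ Real.log (((Cn : ℝ) + 2) * (l : ℝ) ^ 6) :=
                Real.log_le_log (by positivity) c1
            _ = a + 6 * L := by
                rw [Real.log_mul (by positivity) (by positivity), Real.log_pow, ha, hLdef]
                push_cast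
                ring
        nlinarith
      have b4 : 0 ≤ Real.log (((Cn * (l ^ 3) ^ 2 : ℕ) : ℝ) + 2) :=
        Real.log_nonneg (by
          have : (0 : ℝ) ≤ ((Cn * (l ^ 3) ^ 2 : ℕ) : ℝ) := Nat.cast_nonneg _
          linarith)
      have b5 : Real.log (((Cn * (l ^ 3) ^ 2 : ℕ) : ℝ) + 2) ^ 5 ≤ (a + 6) ^ 5 * (1 + L) ^ 5 := by
        rw [← mul_pow]
        exact pow_le_pow_left₀ b4 b3 5
      have b6 : (Cn : ℝ) * ((l ^ 3 : ℕ) : ℝ) / ((2 ^ k : ℕ) : ℝ) =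
          Real.exp (Real.log (Cn : ℝ) + 3 * L - (k : ℝ) * Real.log 2) := by
        rw [Real.exp_sub, Real.exp_add, ← hKe, Real.exp_log (by linarith)]
        have c4 : Real.exp (3 * L) = ((l ^ 3 : ℕ) : ℝ) := by
          have c5 : (3 : ℝ) * L = Real.log ((l : ℝ) ^ 3) := by
            rw [Real.log_pow, hLdef]
            push_cast
            ring
          rw [c5, Real.exp_log (by positivity)]
          push_cast
          ring
        rw [c4]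
      rw [b6] at b2
      have b7 := Real.exp_le_exp.1 b2
      have b8 : (Cl : ℝ) * Real.log (((Cn * (l ^ 3) ^ 2 : ℕ) : ℝ) + 2) ^ 5 ≤
          Cl * ((a + 6) ^ 5 * (1 + L) ^ 5) := mul_le_mul_of_nonneg_left b5 (Nat.cast_nonneg _)
      have b9 := Nc2_lin hlCn (by norm_num : (0 : ℝ) ≤ 3) hL
      have b10 : (Real.log (Cn : ℝ) + 3 + Cl * (a + 6) ^ 5) * (1 + L) ^ 5 =
          (Real.log (Cn : ℝ) + 3) * (1 + L) ^ 5 + Cl * ((a + 6) ^ 5 * (1 + L) ^ 5) := by ring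
      rw [b10] at f1
      linarith
  · have hKr : (1 : ℝ) ≤ ((2 ^ k : ℕ) : ℝ) := by exact_mod_cast hK1
    set Kr : ℝ := ((2 ^ k : ℕ) : ℝ) with hKr'
    have hC0 : (0 : ℝ) ≤ (C : ℝ) := Nat.cast_nonneg C
    have d1 : ((l ^ 3 * (2 ^ k + 1) : ℕ) : ℝ) + ((l ^ 3 : ℕ) : ℝ) = (l : ℝ) ^ 3 * (Kr + 2) := by
      rw [hKr']
      push_cast
      ring
    have d2 : (l : ℝ) ^ 3 * (Kr + 2) ≤ 3 * (l : ℝ) ^ 3 * Kr := by
      have : 0 < (l : ℝ) ^ 3 := by positivity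
      nlinarith
    have d3 : ((l ^ 3 : ℕ) : ℝ) = (l : ℝ) ^ 3 := by push_cast; rfl
    have hLl : L ≤ (l : ℝ) := by
      have := Real.log_le_sub_one_of_pos hlp
      linarith
    have hKll : Real.log Kr ≤ (l : ℝ) := by
      rw [hKe, Real.log_exp]
      have c1 : (k : ℝ) ≤ (l : ℝ) := by
        have : k ≤ l := Nat.div_le_self l 4
        exact_mod_cast this
      have c2 : Real.log 2 ≤ 1 := by
        have := Real.log_two_lt_d9
        linarith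
      have c3 : (0 : ℝ) ≤ (k : ℝ) := Nat.cast_nonneg k
      nlinarith
    have d4 : Real.log ((l : ℝ) ^ 3 * (Kr + 2) * (l : ℝ) ^ 3 + 2) ≤ 9 * (l : ℝ) := by
      have c1 : (l : ℝ) ^ 3 * (Kr + 2) * (l : ℝ) ^ 3 + 2 ≤ 5 * ((l : ℝ) ^ 6 * Kr) := by
        have c2 : (l : ℝ) ^ 3 * (Kr + 2) * (l : ℝ) ^ 3 ≤ 3 * (l : ℝ) ^ 3 * Kr * (l : ℝ) ^ 3 :=
          mul_le_mul_of_nonneg_right d2 (by positivity)
        have c3 : (1 : ℝ) ≤ (l : ℝ) ^ 6 * Kr :=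
          one_le_mul_of_one_le_of_one_le (one_le_pow₀ (by linarith)) hKr
        have c4 : 3 * (l : ℝ) ^ 3 * Kr * (l : ℝ) ^ 3 = 3 * ((l : ℝ) ^ 6 * Kr) := by ring
        linarith
      have c5 : Real.log (5 * ((l : ℝ) ^ 6 * Kr)) = Real.log 5 + (6 * L + Real.log Kr) := by
        rw [Real.log_mul (by norm_num) (by positivity), Real.log_mul (by positivity)
          (by positivity), Real.log_pow, hLdef]
        push_cast
        ring
      have c6 : Real.log 5 ≤ 4 := by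
        have := Real.log_le_sub_one_of_pos (show (0 : ℝ) < 5 by norm_num)
        linarith
      calc _ ≤ Real.log (5 * ((l : ℝ) ^ 6 * Kr)) := Real.log_le_log (by positivity) c1
        _ = Real.log 5 + (6 * L + Real.log Kr) := c5
        _ ≤ 9 * (l : ℝ) := by linarith
    have d5 : 0 ≤ Real.log ((l : ℝ) ^ 3 * (Kr + 2) * (l : ℝ) ^ 3 + 2) := by
      apply Real.log_nonneg
      have : 0 ≤ (l : ℝ) ^ 3 * (Kr + 2) * (l : ℝ) ^ 3 := by positivity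
      linarith
    have d6 : 81 * (C : ℝ) * (l : ℝ) ^ 10 ≤ Kr ^ 2 := by
      have c1 : Real.log (81 * (C : ℝ) + 1) + 10 * L ≤ 2 * ((k : ℝ) * Real.log 2) := by
        have c2 := Nc2_lin hlC (by norm_num : (0 : ℝ) ≤ 10) hL
        linarith
      have c3 := Real.exp_le_exp.2 c1
      have c4 : Real.exp (Real.log (81 * (C : ℝ) + 1) + 10 * L) =
          (81 * (C : ℝ) + 1) * (l : ℝ) ^ 10 := by
        rw [Real.exp_add, Real.exp_log (by linarith)]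
        have c5 : (10 : ℝ) * L = Real.log ((l : ℝ) ^ 10) := by
          rw [Real.log_pow, hLdef]
          push_cast
          ring
        rw [c5, Real.exp_log (by positivity)]
      have c6 : Real.exp (2 * ((k : ℝ) * Real.log 2)) = Kr ^ 2 := by
        rw [two_mul, Real.exp_add, ← hKe]
        ring
      rw [c4, c6] at c3
      have : 0 ≤ (l : ℝ) ^ 10 := by positivity
      nlinarith
    have d7 : Kr ^ 4 ≤ ((2 ^ l : ℕ) : ℝ) := by
      have c1 : (2 ^ k) ^ 4 ≤ 2 ^ l := by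
        rw [← pow_mul]
        exact Nat.pow_le_pow_right (by norm_num) (by omega)
      rw [hKr']
      exact_mod_cast c1
    rw [d1, d3]
    calc (C : ℝ) * (l : ℝ) ^ 3 * ((l : ℝ) ^ 3 * (Kr + 2)) ^ 2 *
          Real.log ((l : ℝ) ^ 3 * (Kr + 2) * (l : ℝ) ^ 3 + 2) ≤
        (C : ℝ) * (l : ℝ) ^ 3 * (3 * (l : ℝ) ^ 3 * Kr) ^ 2 * (9 * (l : ℝ)) := by
          refine mul_le_mul (mul_le_mul_of_nonneg_left ?_ (by positivity)) d4 d5 (by positivity)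
          exact pow_le_pow_left₀ (by positivity) d2 2
      _ = (81 * (C : ℝ) * (l : ℝ) ^ 10) * Kr ^ 2 := by ring
      _ ≤ Kr ^ 2 * Kr ^ 2 := mul_le_mul_of_nonneg_right d6 (by positivity)
      _ = Kr ^ 4 := by ring
      _ ≤ ((2 ^ l : ℕ) : ℝ) := d7

end U2
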