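import Pool.Agent.H22.U2.Dta
import Pool.Agent.H22.U2.Me
import Pool.Agent.H22.U2.Li1
import Pool.Agent.H22.U2.Li2
import Pool.Agent.H22.U2.Nc2
import Pool.Agent.H22.U2.Fi
import Pool.Agent.H22.U2.Bs

/-!
# MP_ede373, theorem (U2): every point which is not a CM point (assembly)
-/

set_option autoImplicit false

namespace U2

open CZ

theorem main_u2 (E4 E6 Jf : ℂ → ℂ)
    (h4 : ∀ τ : ℂ, E4 τ = 1 + 240 * ∑' m : ℕ, ((ArithmeticFunction.sigma 3 (m + 1) : ℕ) : ℂ) *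
          Complex.exp (2 * (Real.pi : ℂ) * Complex.I * ((m : ℂ) + 1) * τ))
    (h6 : ∀ τ : ℂ, E6 τ = 1 - 504 * ∑' m : ℕ, ((ArithmeticFunction.sigma 5 (m + 1) : ℕ) : ℂ) *
          Complex.exp (2 * (Real.pi : ℂ) * Complex.I * ((m : ℂ) + 1) * τ))
    (hJ : ∀ τ : ℂ, Jf τ = 1728 * E4 τ ^ 3 / (E4 τ ^ 3 - E6 τ ^ 2))
    (z : ℂ) (hz : 0 < z.im)
    (hcm : ¬ ∃ a b c : ℤ, (a ≠ 0 ∨ b ≠ 0 ∨ c ≠ 0) ∧ (a : ℂ) * z ^ 2 + b * z + c = 0) :
    ∃ g : Fin 2 → Fin 4, Function.Injective g ∧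
      AlgebraicIndependent ℚ (fun i ↦ ![z, Jf z, deriv Jf z, deriv (deriv Jf) z] (g i)) := by
  have hinj : ∀ g : Fin 2 → Fin 4, AlgebraicIndependent ℚ
      (fun i ↦ ![z, Jf z, deriv Jf z, deriv (deriv Jf) z] (g i)) → Function.Injective g := by
    intro g hg i j hij
    exact hg.injective (by simp only [hij])
  by_contra hcon
  have hno : ¬ ∃ f : Fin 2 → Fin 4, AlgebraicIndependent ℚ
      (fun i ↦ (![z, Jf z, deriv Jf z, deriv (deriv Jf) z] : Fin 4 → ℂ) (f i)) := by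
    rintro ⟨f, hf⟩
    exact hcon ⟨f, hinj f hf, hf⟩
  obtain ⟨P, C, hC, hP, hD⟩ := dat_u2 z hz hcm E4 E6 Jf h4 h6 hJ
  obtain ⟨θ, hθ, hPθ, hlow⟩ : ∃ θ : ℂ, Transcendental ℚ θ ∧
      (∀ i, IsAlgebraic (IntermediateField.adjoin ℚ (Set.range ![θ])) (P i)) ∧ Low z := by
    by_cases hzt : IsAlgebraic ℚ z
    · obtain ⟨θ, hθ, hZ⟩ := AZ.exists_basis1 _ hno
      exact ⟨θ, hθ, alg_tower θ _ P hZ hP, low_alg z hzt hcm⟩
    · have hZ := bas_at (![z, Jf z, deriv Jf z, deriv (deriv Jf) z] : Fin 4 → ℂ) 0 hzt hno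
      have hP1 : ∀ i, IsAlgebraic (IntermediateField.adjoin ℚ (Set.range ![z])) (P i) :=
        alg_tower z _ P hZ hP
      have h1 : ∀ Q : ℕ, 2 * C ≤ Q → Dat P C 1 Q := by
        intro Q hQ
        refine hD 1 0 Q le_rfl (cov_one z) ?_
        have hlog : Real.log (((0 : ℕ) + (1 : ℕ) : ℝ) * (1 : ℕ) + 2) ≤ 2 := by
          norm_num
          have := Real.log_le_sub_one_of_pos (show (0 : ℝ) < 3 by norm_num)
          linarith
        have hQ' : 2 * (C : ℝ) ≤ Q := by exact_mod_cast hQ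
        have hC0 : (0 : ℝ) ≤ C := Nat.cast_nonneg C
        calc _ = (C : ℝ) * Real.log (((0 : ℕ) + (1 : ℕ) : ℝ) * (1 : ℕ) + 2) := by norm_num
          _ ≤ C * 2 := mul_le_mul_of_nonneg_left hlog hC0
          _ ≤ Q := by linarith
      have h2 : ∀ Q : ℕ, 2 * C ≤ Q → Dat P (2 * C) 1 Q := by
        intro Q hQ
        obtain ⟨Λ, iΛ, R, W, h0, h1', h2', h3, V, h4', h5⟩ := h1 Q hQ
        have hC0 : (1 : ℝ) ≤ C := by exact_mod_cast hC
        have hQ0 : (0 : ℝ) ≤ Q := Nat.cast_nonneg Q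
        have hl : 0 ≤ Real.log ((Q : ℝ) + 2) := Real.log_nonneg (by linarith)
        have hm : (C : ℝ) * Q * Real.log (Q + 2) ≤ ((2 * C : ℕ) : ℝ) * Q * Real.log (Q + 2) := by
          push_cast
          gcongr
          linarith
        refine ⟨Λ, iΛ, R, W, h0, h1'.trans hm, fun s l ↦ ⟨(h2' s l).1.trans hm,
          (h2' s l).2.trans (Real.exp_le_exp.2 hm)⟩, fun c hc1 hc2 ↦ ?_, V, h4', fun c hc hc1 s ↦ ?_⟩
        · obtain ⟨s, hs⟩ := h3 c hc1 hc2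
          refine ⟨s, le_trans (Real.exp_le_exp.2 ?_) hs⟩
          push_cast
          nlinarith [sq_nonneg (Q : ℝ)]
        · refine (h5 c hc hc1 s).trans (Real.exp_le_exp.2 ?_)
          push_cast
          rw [neg_le_neg_iff]
          apply div_le_div_of_nonneg_left <;> first | positivity | linarith
      obtain ⟨C', hC'⟩ := meas P (2 * C) (by omega) h2
      exact ⟨z, hzt, hP1, low_tr z hzt P hP1 C' hC'⟩
  obtain ⟨l0, hl0⟩ := cov_ev z hz hlow C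
  refine final θ hθ P hPθ C (max l0 1) hC fun l hl ↦ ?_
  obtain ⟨K, hK1, hK2⟩ := hl0 l ((le_max_left _ _).trans hl)
  exact hD (l ^ 3) K (2 ^ l) (Nat.one_le_pow _ _ ((le_max_right _ _).trans hl)) hK1 hK2

end U2
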