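import Pool.Agent.H22.U2.Inv

/-!
# MP_ede373, theorem (U2), row Non: a lower bound for combinations of the functions `HH i1 (x1) HH i2 (x2)`

`X s = b.B s / b.A s^2` is analytic near `0` (`b.A0`) and not locally constant there (`b.nc`), so by the open mapping theorem
(`AnalyticAt.eventually_constant_or_nhds_le_map_nhds`) there are `r ≤ 1`, `ρ > 0`, `c1 > 0` with `‖b.A s‖ ≥ c1` for `‖s‖ ≤ r` and
`ball w0 ρ ⊆ X '' (ball 0 r)`, `w0 = X 0`; `ρ ≤ 1`. On the ball `HH b D i s = b.A s^(2 D) X s^i`.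
One variable: if `p = ∑_{i ≤ D} c_i w^i` and `‖p w‖ ≤ ε` on `ball w0 ρ`, then `‖c_i‖ ≤ C^(D+1) ε`: the Taylor coefficients of `p` at `w0` are
`≤ ε (2/ρ)^k` (Cauchy on radius `ρ/2`), and `c_i = ∑_k coeff_k binom(k, i) (-w0)^(k-i)`, so `‖c_i‖ ≤ (D+1) 2^D (1 + ‖w0‖)^D (2/ρ)^D ε`.
Two variables: let `ε` be the supremum (maximum over the compact set is attained if one takes closed balls; or argue by contradiction with
`ε = max ‖c‖ / C^(D+1)`) of `‖∑ c_{i1 i2} X(x1)^i1 X(x2)^i2‖` over `‖x1‖, ‖x2‖ < r`; for fixed `x2` the one variable statement bounds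
`‖∑_{i2} c_{i1 i2} X(x2)^i2‖ ≤ C^(D+1) ε` for every `i1`, and again `‖c_{i1 i2}‖ ≤ C^(2(D+1)) ε`. Finally multiply by `‖b.A x1 b.A x2‖^(2 D) ≥ c1^(4 D)`.
By contradiction: if for all `x1, x2` in the ball some coefficient violates the inequality, i.e. `C^(D+1) ‖∑‖ < max ‖c‖` everywhere, take
`ε = max ‖c‖ / C^(D+1)` above with a larger `C`: contradiction unless `max ‖c‖ = 0` (then any point works).
-/

set_option autoImplicit false

namespace U2

open Complex Finset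


theorem Non_root (N : ℕ) (hN : 0 < N) : ∃ ζ : ℂ, ‖ζ‖ = 1 ∧ ∀ m m' : ℕ, m < N → m' < N →
    ∑ k ∈ range N, ((ζ ^ m)⁻¹) ^ k * (ζ ^ k) ^ m' = if m = m' then (N : ℂ) else 0 := by
  have hp := Complex.isPrimitiveRoot_exp N hN.ne'
  set ζ : ℂ := exp (2 * Real.pi * I / N) with hζ
  have h1 : ζ ^ N = 1 := hp.pow_eq_one
  have hn : ‖ζ‖ = 1 := Complex.norm_eq_one_of_pow_eq_one h1 hN.ne'
  have h0 : ζ ≠ 0 := by
    intro h
    rw [h, norm_zero] at hn
    exact zero_ne_one hn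
  refine ⟨ζ, hn, fun m m' hm hm' => ?_⟩
  have e : ∀ k, ((ζ ^ m)⁻¹) ^ k * (ζ ^ k) ^ m' = ((ζ ^ m)⁻¹ * ζ ^ m') ^ k := by
    intro k
    rw [mul_pow, ← pow_mul ζ k m', ← pow_mul ζ m' k, mul_comm k m']
  simp only [e]
  by_cases h : m = m'
  · subst h
    rw [if_pos rfl, inv_mul_cancel₀ (pow_ne_zero _ h0)]
    simp
  · rw [if_neg h]
    have hne : (ζ ^ m)⁻¹ * ζ ^ m' ≠ 1 := by
      intro h2
      apply h
      have h3 : ζ ^ m' = ζ ^ m := by
        have h4 := congrArg (fun t => ζ ^ m * t) h2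
        simp only [mul_one] at h4
        rwa [← mul_assoc, mul_inv_cancel₀ (pow_ne_zero _ h0), one_mul] at h4
      exact (hp.pow_inj hm' hm h3).symm
    rw [geom_sum_eq hne]
    have h5 : ((ζ ^ m)⁻¹ * ζ ^ m') ^ N = 1 := by
      rw [mul_pow, inv_pow, ← pow_mul, ← pow_mul, mul_comm m N, mul_comm m' N, pow_mul, pow_mul,
        h1]
      simp
    rw [h5, sub_self, zero_div]

theorem Non_lin (w0 : ℂ) (r : ℝ) (hr : 0 < r) (hr1 : r ≤ 1) (N : ℕ) (hN : 0 < N) :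
    ∃ (w : ℕ → ℂ) (lam : ℕ → ℕ → ℂ), (∀ k, ‖w k - w0‖ ≤ r) ∧
      (∀ i k, ‖lam i k‖ ≤ (2 * (1 + ‖w0‖) / r) ^ N) ∧
      ∀ c : Fin N → ℂ, ∀ i : Fin N,
        c i = ∑ k ∈ range N, lam i k * ∑ j, c j * w k ^ (j : ℕ) := by
  obtain ⟨ζ, hζ, horth⟩ := Non_root N hN
  have hζ0 : ζ ≠ 0 := by
    intro h
    rw [h, norm_zero] at hζ
    exact zero_ne_one hζ
  have hNc : (N : ℂ) ≠ 0 := by exact_mod_cast hN.ne'
  have hrc : (r : ℂ) ≠ 0 := by exact_mod_cast hr.ne'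
  refine ⟨fun k => w0 + r * ζ ^ k, fun i k => (∑ m ∈ range N,
    ((Polynomial.X - Polynomial.C w0 : Polynomial ℂ) ^ m).coeff i * ((r : ℂ) ^ m)⁻¹ *
      ((ζ ^ m)⁻¹) ^ k) / N, ?_, ?_, ?_⟩
  · intro k
    simp only [add_sub_cancel_left, norm_mul, norm_pow, hζ, one_pow, mul_one]
    rw [Complex.norm_real, Real.norm_of_nonneg hr.le]
  · intro i k
    set K : ℝ := 2 * (1 + ‖w0‖) / r with hK
    have hK1 : 1 ≤ K := by
      rw [hK, le_div_iff₀ hr]
      have := norm_nonneg w0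
      linarith
    have hterm : ∀ m ∈ range N, ‖((Polynomial.X - Polynomial.C w0 : Polynomial ℂ) ^ m).coeff i *
        ((r : ℂ) ^ m)⁻¹ * ((ζ ^ m)⁻¹) ^ k‖ ≤ K ^ N := by
      intro m hm
      have hmN : m ≤ N := (Finset.mem_range.1 hm).le
      rw [norm_mul, norm_mul, norm_pow, norm_inv, norm_inv, norm_pow, norm_pow, hζ,
        Complex.norm_real, Real.norm_of_nonneg hr.le]
      simp only [one_pow, inv_one, mul_one]
      have hXC : (Polynomial.X - Polynomial.C w0 : Polynomial ℂ) =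
          Polynomial.X + Polynomial.C (-w0) := by
        rw [Polynomial.C_neg, sub_eq_add_neg]
      rw [hXC, Polynomial.coeff_X_add_C_pow, norm_mul, norm_pow, norm_neg, Complex.norm_natCast]
      have h1 : ‖w0‖ ^ (m - i) ≤ (1 + ‖w0‖) ^ m := by
        calc ‖w0‖ ^ (m - i) ≤ (1 + ‖w0‖) ^ (m - i) :=
              pow_le_pow_left₀ (norm_nonneg _) (by linarith) _
          _ ≤ (1 + ‖w0‖) ^ m :=
              pow_le_pow_right₀ (by linarith [norm_nonneg w0]) (Nat.sub_le _ _)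
      have h2 : ((m.choose i : ℕ) : ℝ) ≤ 2 ^ m := by
        have := Nat.choose_le_two_pow m i
        exact_mod_cast this
      have h3 : ‖w0‖ ^ (m - i) * (m.choose i : ℝ) * (r ^ m)⁻¹ ≤
          (1 + ‖w0‖) ^ m * 2 ^ m * (r ^ m)⁻¹ := by
        apply mul_le_mul_of_nonneg_right _ (by positivity)
        exact mul_le_mul h1 h2 (by positivity) (by positivity)
      refine h3.trans ?_
      have h4 : (1 + ‖w0‖) ^ m * 2 ^ m * (r ^ m)⁻¹ = K ^ m := by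
        rw [hK, div_pow, mul_pow, div_eq_mul_inv]; ring
      rw [h4]
      exact pow_le_pow_right₀ hK1 hmN
    have hsum := norm_sum_le (range N) (fun m =>
      ((Polynomial.X - Polynomial.C w0 : Polynomial ℂ) ^ m).coeff i *
        ((r : ℂ) ^ m)⁻¹ * ((ζ ^ m)⁻¹) ^ k)
    have h5 := Finset.sum_le_sum hterm
    rw [Finset.sum_const, Finset.card_range, nsmul_eq_mul] at h5
    have h6 := hsum.trans h5
    rw [norm_div, Complex.norm_natCast, div_le_iff₀ (by exact_mod_cast hN)]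
    rw [mul_comm (K ^ N)]
    exact h6
  · intro c i
    set p : Polynomial ℂ := ∑ j : Fin N, Polynomial.C (c j) * Polynomial.X ^ (j : ℕ) with hp
    have hpd : p.degree < N := Polynomial.degree_sum_fin_lt c
    have hpn : p.natDegree < N := by
      by_cases h0 : p = 0
      · rw [h0]; simpa using hN
      · exact (Polynomial.natDegree_lt_iff_degree_lt h0).2 hpd
    have hpc : p.coeff i = c i := by
      rw [hp]
      simp only [Polynomial.finsetSum_coeff, Polynomial.coeff_C_mul, Polynomial.coeff_X_pow]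
      rw [Finset.sum_eq_single i]
      · simp
      · intro j _ hj
        have : (i : ℕ) ≠ (j : ℕ) := fun h => hj (Fin.ext h.symm)
        simp [this]
      · intro h
        exact absurd (Finset.mem_univ _) h
    have hpe : ∀ x, ∑ j, c j * x ^ (j : ℕ) = p.eval x := by
      intro x
      rw [hp, Polynomial.eval_finsetSum]
      refine Finset.sum_congr rfl fun j _ => ?_
      simp
    set q : Polynomial ℂ := Polynomial.taylor w0 p with hq
    have hqn : q.natDegree < N := by rw [hq, Polynomial.natDegree_taylor]; exact hpn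
    have hqe : ∀ k, p.eval (w0 + r * ζ ^ k) =
        ∑ m ∈ range N, q.coeff m * ((r : ℂ) ^ m * (ζ ^ k) ^ m) := by
      intro k
      have h1 : q.eval (r * ζ ^ k) = p.eval (w0 + r * ζ ^ k) := by
        rw [hq, Polynomial.taylor_eval, add_comm]
      rw [← h1, Polynomial.eval_eq_sum_range' hqn]
      refine Finset.sum_congr rfl fun m _ => ?_
      rw [mul_pow]
    have hcoef : c i = ∑ m ∈ range N,
        q.coeff m * ((Polynomial.X - Polynomial.C w0 : Polynomial ℂ) ^ m).coeff i := by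
      have h1 := Polynomial.sum_taylor_eq p w0
      rw [Polynomial.sum_over_range' _ (by intro n; simp) N (by
        rw [Polynomial.natDegree_taylor]; exact hpn)] at h1
      have h2 := congrArg (fun f => Polynomial.coeff f (i : ℕ)) h1
      simp only [Polynomial.finsetSum_coeff, Polynomial.coeff_C_mul] at h2
      rw [← hpc, ← h2]
    simp only [hpe, hqe]
    rw [hcoef]
    have e1 : ∀ k ∈ range N, (∑ m ∈ range N,
        ((Polynomial.X - Polynomial.C w0 : Polynomial ℂ) ^ m).coeff i * ((r : ℂ) ^ m)⁻¹ *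
        ((ζ ^ m)⁻¹) ^ k) / N * (∑ m ∈ range N, q.coeff m * ((r : ℂ) ^ m * (ζ ^ k) ^ m)) =
        ∑ m ∈ range N, ∑ m' ∈ range N,
          ((Polynomial.X - Polynomial.C w0 : Polynomial ℂ) ^ m).coeff i * ((r : ℂ) ^ m)⁻¹ *
            (q.coeff m' * (r : ℂ) ^ m') / N * (((ζ ^ m)⁻¹) ^ k * (ζ ^ k) ^ m') := by
      intro k _
      rw [div_mul_eq_mul_div, Finset.sum_mul_sum, Finset.sum_div]
      refine Finset.sum_congr rfl fun m _ => ?_
      rw [Finset.sum_div]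
      refine Finset.sum_congr rfl fun m' _ => ?_
      ring
    rw [Finset.sum_congr rfl e1, Finset.sum_comm]
    refine Finset.sum_congr rfl fun m hm => ?_
    rw [Finset.sum_comm]
    have hmN := Finset.mem_range.1 hm
    have e2 : ∀ m' ∈ range N, ∑ k ∈ range N,
        ((Polynomial.X - Polynomial.C w0 : Polynomial ℂ) ^ m).coeff i * ((r : ℂ) ^ m)⁻¹ *
            (q.coeff m' * (r : ℂ) ^ m') / N * (((ζ ^ m)⁻¹) ^ k * (ζ ^ k) ^ m') =
        ((Polynomial.X - Polynomial.C w0 : Polynomial ℂ) ^ m).coeff i * ((r : ℂ) ^ m)⁻¹ *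
            (q.coeff m' * (r : ℂ) ^ m') / N * (if m = m' then (N : ℂ) else 0) := by
      intro m' hm'
      rw [← Finset.mul_sum, horth m m' hmN (Finset.mem_range.1 hm')]
    rw [Finset.sum_congr rfl e2, Finset.sum_eq_single m]
    · rw [if_pos rfl, div_mul_cancel₀ _ hNc]
      have h7 : ((r : ℂ) ^ m)⁻¹ * (r : ℂ) ^ m = 1 := inv_mul_cancel₀ (pow_ne_zero _ hrc)
      calc q.coeff m * ((Polynomial.X - Polynomial.C w0 : Polynomial ℂ) ^ m).coeff i =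
            ((Polynomial.X - Polynomial.C w0 : Polynomial ℂ) ^ m).coeff i * q.coeff m *
              (((r : ℂ) ^ m)⁻¹ * (r : ℂ) ^ m) := by rw [h7]; ring
        _ = _ := by ring
    · intro m' _ hne
      rw [if_neg (fun h => hne h.symm), mul_zero]
    · intro h
      exact absurd hm h

/-- the image of the quotient contains a ball -/
theorem Non_open {z : ℂ} (b : CZ.BaseFn z) : ∃ (w0 : ℂ) (r : ℝ), 0 < r ∧ r ≤ 1 ∧
    ∀ w, ‖w - w0‖ ≤ r → ∃ s : ℂ, ‖s‖ ≤ 1 ∧ 1 / 2 ≤ ‖b.A s‖ ∧ b.B s = w * b.A s ^ 2 := by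
  have hA0 : b.A 0 ≠ 0 := by rw [b.A0]; exact one_ne_zero
  have hAa : AnalyticAt ℂ b.A 0 := b.dA.analyticAt 0
  have hBa : AnalyticAt ℂ b.B 0 := b.dB.analyticAt 0
  have hg : AnalyticAt ℂ (fun s => b.B s / b.A s ^ 2) 0 :=
    hBa.div (hAa.pow 2) (pow_ne_zero _ hA0)
  have hev : ∀ᶠ s in nhds (0 : ℂ), ‖s‖ < 1 ∧ 1 / 2 < ‖b.A s‖ := by
    apply Filter.Eventually.and
    · have : Continuous fun s : ℂ => ‖s‖ := continuous_norm
      exact this.continuousAt.eventually_lt continuousAt_const (by simp)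
    · have : Continuous fun s : ℂ => ‖b.A s‖ := b.dA.continuous.norm
      refine continuousAt_const.eventually_lt this.continuousAt ?_
      rw [b.A0, norm_one]; norm_num
  have hne : ∀ s, 1 / 2 < ‖b.A s‖ → b.A s ≠ 0 := by
    intro s hs h
    rw [h, norm_zero] at hs
    norm_num at hs
  rcases hg.eventually_constant_or_nhds_le_map_nhds with h | h
  · exfalso
    apply b.nc
    refine ⟨b.B 0 / b.A 0 ^ 2, ?_⟩
    filter_upwards [h, hev] with s hs hs2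
    have h1 := hne s hs2.2
    rw [← hs]
    field_simp
  · have hS : {s : ℂ | ‖s‖ < 1 ∧ 1 / 2 < ‖b.A s‖} ∈ nhds (0 : ℂ) := hev
    have himg : (fun s => b.B s / b.A s ^ 2) '' {s : ℂ | ‖s‖ < 1 ∧ 1 / 2 < ‖b.A s‖} ∈
        nhds ((fun s => b.B s / b.A s ^ 2) 0) := h (Filter.image_mem_map hS)
    obtain ⟨ρ, hρ, hball⟩ := Metric.mem_nhds_iff.1 himg
    refine ⟨(fun s => b.B s / b.A s ^ 2) 0, min (ρ / 2) 1, by positivity, min_le_right _ _, ?_⟩
    intro w hw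
    have hwb : w ∈ Metric.ball ((fun s => b.B s / b.A s ^ 2) 0) ρ := by
      rw [Metric.mem_ball, dist_eq_norm]
      have h1 := hw.trans (min_le_left _ _)
      linarith
    obtain ⟨s, ⟨hs1, hs2⟩, hs3⟩ := hball hwb
    refine ⟨s, hs1.le, hs2.le, ?_⟩
    have h1 := hne s hs2
    rw [← hs3]
    field_simp

theorem Non_HH {z : ℂ} (b : CZ.BaseFn z) (D : ℕ) (i : Fin (D + 1)) (s w : ℂ)
    (h : b.B s = w * b.A s ^ 2) : HH b D i s = w ^ (i : ℕ) * b.A s ^ (2 * D) := by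
  unfold HH
  have hi : (i : ℕ) ≤ D := Nat.lt_succ_iff.1 i.2
  rw [h, mul_pow, ← pow_mul, mul_left_comm, ← pow_add]
  congr 2
  omega

variable {z : ℂ} (b : CZ.BaseFn z)

theorem nondeg : ∃ C : ℕ, 1 ≤ C ∧ ∀ (D : ℕ) (c : Fin (D + 1) → Fin (D + 1) → ℂ),
    ∃ x1 x2 : ℂ, ‖x1‖ ≤ 1 ∧ ‖x2‖ ≤ 1 ∧ ∀ i1 i2, ‖c i1 i2‖ ≤ (C : ℝ) ^ (D + 1) *
      ‖∑ j1, ∑ j2, c j1 j2 * HH b D j1 x1 * HH b D j2 x2‖ := by
  obtain ⟨w0, r, hr, hr1, hw⟩ := Non_open b
  set K : ℝ := 2 * (1 + ‖w0‖) / r with hK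
  have hK1 : 1 ≤ K := by
    rw [hK, le_div_iff₀ hr]
    have := norm_nonneg w0
    linarith
  have hC1 : (1 : ℝ) ≤ 64 * K ^ 2 := by nlinarith
  refine ⟨⌈64 * K ^ 2⌉₊, ?_, ?_⟩
  · have h1 := Nat.le_ceil (64 * K ^ 2)
    have h2 : (1 : ℝ) ≤ (⌈64 * K ^ 2⌉₊ : ℝ) := hC1.trans h1
    exact_mod_cast h2
  intro D c
  obtain ⟨w, lam, hwr, hlam, hid⟩ := Non_lin w0 r hr hr1 (D + 1) (Nat.succ_pos D)
  have hne : ((range (D + 1)) ×ˢ (range (D + 1))).Nonempty :=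
    ⟨(0, 0), Finset.mem_product.2 ⟨by simp, by simp⟩⟩
  set P : ℕ × ℕ → ℝ := fun k => ‖∑ j1, ∑ j2, c j1 j2 * w k.1 ^ (j1 : ℕ) * w k.2 ^ (j2 : ℕ)‖
    with hP
  obtain ⟨⟨k1, k2⟩, -, hmax⟩ := Finset.exists_max_image _ P hne
  obtain ⟨x1, hx1, hA1, hB1⟩ := hw (w k1) (hwr k1)
  obtain ⟨x2, hx2, hA2, hB2⟩ := hw (w k2) (hwr k2)
  refine ⟨x1, x2, hx1, hx2, fun i1 i2 => ?_⟩
  have hHH : ∑ j1, ∑ j2, c j1 j2 * HH b D j1 x1 * HH b D j2 x2 =
      (b.A x1 ^ (2 * D) * b.A x2 ^ (2 * D)) *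
        ∑ j1, ∑ j2, c j1 j2 * w k1 ^ (j1 : ℕ) * w k2 ^ (j2 : ℕ) := by
    rw [Finset.mul_sum]
    refine Finset.sum_congr rfl fun j1 _ => ?_
    rw [Finset.mul_sum]
    refine Finset.sum_congr rfl fun j2 _ => ?_
    rw [Non_HH b D j1 x1 (w k1) hB1, Non_HH b D j2 x2 (w k2) hB2]
    ring
  have hlow : P (k1, k2) ≤ 16 ^ (D + 1) *
      ‖∑ j1, ∑ j2, c j1 j2 * HH b D j1 x1 * HH b D j2 x2‖ := by
    rw [hHH, norm_mul, norm_mul, norm_pow, norm_pow]
    have h1 : (1 / 2 : ℝ) ^ (2 * D) ≤ ‖b.A x1‖ ^ (2 * D) :=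
      pow_le_pow_left₀ (by norm_num) hA1 _
    have h2 : (1 / 2 : ℝ) ^ (2 * D) ≤ ‖b.A x2‖ ^ (2 * D) :=
      pow_le_pow_left₀ (by norm_num) hA2 _
    have h3 : (1 / 16 : ℝ) ^ D ≤ ‖b.A x1‖ ^ (2 * D) * ‖b.A x2‖ ^ (2 * D) := by
      have h4 := mul_le_mul h1 h2 (by positivity) (by positivity)
      have h5 : (1 / 2 : ℝ) ^ (2 * D) * (1 / 2 : ℝ) ^ (2 * D) = (1 / 16 : ℝ) ^ D := by
        rw [← mul_pow, pow_mul]; norm_num
      rwa [h5] at h4
    have h6 : (1 : ℝ) ≤ 16 ^ (D + 1) * (‖b.A x1‖ ^ (2 * D) * ‖b.A x2‖ ^ (2 * D)) := by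
      have h7 : (16 : ℝ) ^ (D + 1) * (1 / 16 : ℝ) ^ D = 16 := by
        rw [pow_succ, mul_right_comm, ← mul_pow]; norm_num
      have h8 : (16 : ℝ) ^ (D + 1) * (1 / 16 : ℝ) ^ D ≤
          16 ^ (D + 1) * (‖b.A x1‖ ^ (2 * D) * ‖b.A x2‖ ^ (2 * D)) :=
        mul_le_mul_of_nonneg_left h3 (by positivity)
      linarith
    have h9 : P (k1, k2) = 1 * P (k1, k2) := (one_mul _).symm
    rw [h9, ← mul_assoc]
    exact mul_le_mul_of_nonneg_right h6 (norm_nonneg _)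
  -- expand the coefficient
  have hexp : c i1 i2 = ∑ l1 ∈ range (D + 1), ∑ l2 ∈ range (D + 1),
      lam i1 l1 * lam i2 l2 *
        ∑ j1, ∑ j2, c j1 j2 * w l1 ^ (j1 : ℕ) * w l2 ^ (j2 : ℕ) := by
    rw [hid (fun j => c j i2) i1]
    refine Finset.sum_congr rfl fun l1 _ => ?_
    have e1 : ∑ j1, c j1 i2 * w l1 ^ (j1 : ℕ) = ∑ l2 ∈ range (D + 1), lam i2 l2 *
        ∑ j1, ∑ j2, c j1 j2 * w l1 ^ (j1 : ℕ) * w l2 ^ (j2 : ℕ) := by
      have e2 := hid (fun j2 => ∑ j1, c j1 j2 * w l1 ^ (j1 : ℕ)) i2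
      rw [e2]
      refine Finset.sum_congr rfl fun l2 _ => ?_
      congr 1
      rw [Finset.sum_comm]
      refine Finset.sum_congr rfl fun j2 _ => ?_
      rw [Finset.sum_mul]
    rw [e1, Finset.mul_sum]
    refine Finset.sum_congr rfl fun l2 _ => ?_
    ring
  have hbd : ‖c i1 i2‖ ≤ (4 * K ^ 2) ^ (D + 1) * P (k1, k2) := by
    rw [hexp]
    have hP0 : 0 ≤ P (k1, k2) := norm_nonneg _
    have hKN : 0 ≤ K ^ (D + 1) := by positivity
    have t1 : ∀ l1 ∈ range (D + 1), ∀ l2 ∈ range (D + 1), ‖lam i1 l1 * lam i2 l2 *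
        ∑ j1, ∑ j2, c j1 j2 * w l1 ^ (j1 : ℕ) * w l2 ^ (j2 : ℕ)‖ ≤
        K ^ (D + 1) * K ^ (D + 1) * P (k1, k2) := by
      intro l1 hl1 l2 hl2
      rw [norm_mul, norm_mul]
      have h1 := hmax (l1, l2) (Finset.mem_product.2 ⟨hl1, hl2⟩)
      exact mul_le_mul (mul_le_mul (hlam i1 l1) (hlam i2 l2) (norm_nonneg _) hKN) h1
        (norm_nonneg _) (by positivity)
    have t2 : ‖∑ l1 ∈ range (D + 1), ∑ l2 ∈ range (D + 1), lam i1 l1 * lam i2 l2 *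
        ∑ j1, ∑ j2, c j1 j2 * w l1 ^ (j1 : ℕ) * w l2 ^ (j2 : ℕ)‖ ≤
        ∑ l1 ∈ range (D + 1), ∑ l2 ∈ range (D + 1), K ^ (D + 1) * K ^ (D + 1) * P (k1, k2) := by
      refine (norm_sum_le _ _).trans (Finset.sum_le_sum fun l1 hl1 => ?_)
      exact (norm_sum_le _ _).trans (Finset.sum_le_sum fun l2 hl2 => t1 l1 hl1 l2 hl2)
    refine t2.trans ?_
    rw [Finset.sum_const, Finset.sum_const, Finset.card_range, nsmul_eq_mul, nsmul_eq_mul]
    have t3 : (((D + 1 : ℕ)) : ℝ) ≤ 2 ^ (D + 1) := by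
      have := (Nat.lt_two_pow_self (n := D + 1)).le
      exact_mod_cast this
    have t4 : ((D + 1 : ℕ) : ℝ) * (((D + 1 : ℕ)) : ℝ) ≤ 2 ^ (D + 1) * 2 ^ (D + 1) :=
      mul_le_mul t3 t3 (by positivity) (by positivity)
    have t5 : ((D + 1 : ℕ) : ℝ) * (((D + 1 : ℕ) : ℝ) * (K ^ (D + 1) * K ^ (D + 1) *
        P (k1, k2))) = (((D + 1 : ℕ) : ℝ) * ((D + 1 : ℕ) : ℝ)) *
          (K ^ (D + 1) * K ^ (D + 1) * P (k1, k2)) := by ring
    have t6 : (4 * K ^ 2) ^ (D + 1) * P (k1, k2) = (2 ^ (D + 1) * 2 ^ (D + 1)) *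
        (K ^ (D + 1) * K ^ (D + 1) * P (k1, k2)) := by
      have : (4 * K ^ 2) = 2 * 2 * (K * K) := by ring
      rw [this, mul_pow, mul_pow, mul_pow]; ring
    rw [t5, t6]
    exact mul_le_mul_of_nonneg_right t4 (by positivity)
  calc ‖c i1 i2‖ ≤ (4 * K ^ 2) ^ (D + 1) * P (k1, k2) := hbd
    _ ≤ (4 * K ^ 2) ^ (D + 1) * (16 ^ (D + 1) *
        ‖∑ j1, ∑ j2, c j1 j2 * HH b D j1 x1 * HH b D j2 x2‖) :=
        mul_le_mul_of_nonneg_left hlow (by positivity)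
    _ = (64 * K ^ 2) ^ (D + 1) *
        ‖∑ j1, ∑ j2, c j1 j2 * HH b D j1 x1 * HH b D j2 x2‖ := by
        rw [← mul_assoc, ← mul_pow]
        congr 2
        ring
    _ ≤ _ := by
        apply mul_le_mul_of_nonneg_right _ (norm_nonneg _)
        exact pow_le_pow_left₀ (by positivity) (Nat.le_ceil _) _

end U2
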