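import Pool.Agent.H22.U2.Hm
import Pool.Agent.H22.U2.Geo
import Pool.Agent.H22.U2.Lin

/-!
# MP_ede373, theorem (U2), row Sc1: the Schwarz lemma, first form

`Cg` from `geo`, `Cl` from `line_fun`. `R = (Cg + 1) M` (so `‖uu‖ ≤ R`), `δ = 1 / (2 (Cg + Cl) N)` (so `δ ≤ 1/(Cl N)`, `2 δ ≤ 1/Cg`, `δ ≤ R`),
`n = M^2 / N ≥ M^2 / (2 N)` (as `N ≤ M^2`: `y/2 ≤ ⌊y⌋` for `y ≥ 1`), `S1 = C T N` with `C` a natural number, chosen first, with
`(C / 2) log 3 ≥ 16 Cl (Cg + 1)^2 + 1`. Then `n S1 ≥ C T M^2 / 2` and `n S1 ≤ C T M^2`.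
`M0 = sup of Nw over bet = 0` (finite: `FD.gr` gives `Nw ≤ exp A` there; `0 ≤ M0`). For `x` with `bet z x = 0`: `g` from `line_fun`,
`‖g v‖ ≤ M0 exp (Cl T 16 R^2)` for `‖v‖ ≤ 4 R`. `hermite` with `u i = uu z x2 (f i)` and
`ε = exp (Cl T (R + 1)^2) (exp (Cl T) Ms / 8^S2 + Cl^(S1 + S2) η)` gives
`Nw z T F x1 x2 ≤ 3^(-n S1) exp (16 Cl T R^2) M0 + 2 n S1 (2R/δ)^(n S1) ε ≤ M0/2 + E`, because
`n S1 log 3 ≥ (C/2) log 3 T M^2 ≥ 16 Cl T R^2 + 1` (`T M^2 ≥ 1`). Sup over `x`: `M0 ≤ 2 E`.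
`2R/δ ≤ C3 M N`, so `log (2 E / ε) ≤ log (4 C T M^2) + C T M^2 log (C3 M N + 1) ≤ C4 T M^2 log (M N + 2)`, and
`2 E ≤ exp (C5 T M^2 log (M N + 2)) (Ms / 8^S2 + Cl^(S1 + S2) η)`. Use `log 8 ≥ 2`: `8^(-S2) ≤ exp (-2 S2)`; with `C2 ≥ C5` the first term is
`≤ exp (-S2) Ms`; `S1 = C T N ≤ C T M^2 ≤ S2` if `C2 ≥ 2 C` (`log (MN + 2) ≥ 1`), so the second is `≤ exp (C2 S2) η` for `C2` large.
`Ms ≥ 0` since `Nw ≥ 0` at the origin.
-/

set_option autoImplicit false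

namespace U2

private theorem sc1_nonneg (z : ℂ) (T : ℕ) (F : ℂ → ℂ → ℂ) (x1 x2 : ℂ) : 0 ≤ Nw z T F x1 x2 := by
  unfold Nw
  positivity

private theorem sc1_third {W : ℕ} {y : ℝ} (h : y + 1 ≤ W) :
    (1 / 3 : ℝ) ^ W * Real.exp y ≤ 1 / 2 := by
  have he : Real.exp 1 < 3 := lt_trans Real.exp_one_lt_d9 (by norm_num)
  have h0 : 0 < Real.exp 1 := Real.exp_pos 1
  have h1 : (1 / 3 : ℝ) ≤ Real.exp (-1) := by
    rw [Real.exp_neg, ← one_div]
    exact one_div_le_one_div_of_le h0 he.le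
  have h2 : (1 / 3 : ℝ) ^ W ≤ Real.exp (-(W : ℝ)) := by
    refine (pow_le_pow_left₀ (by norm_num) h1 W).trans (le_of_eq ?_)
    rw [← Real.exp_nat_mul]
    congr 1
    ring
  have h3 : (2 : ℝ) ≤ Real.exp 1 := by
    have := Real.add_one_le_exp (1 : ℝ)
    linarith
  have h4 : Real.exp (-1) ≤ 1 / 2 := by
    rw [Real.exp_neg, ← one_div]
    exact one_div_le_one_div_of_le (by norm_num) h3
  calc (1 / 3 : ℝ) ^ W * Real.exp y ≤ Real.exp (-(W : ℝ)) * Real.exp y :=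
        mul_le_mul_of_nonneg_right h2 (Real.exp_pos _).le
    _ = Real.exp (-(W : ℝ) + y) := (Real.exp_add _ _).symm
    _ ≤ Real.exp (-1) := Real.exp_le_exp.2 (by linarith)
    _ ≤ 1 / 2 := h4

private theorem sc1_eight (S2 : ℕ) : Real.exp S2 / 8 ^ S2 ≤ Real.exp (-S2) := by
  have he : Real.exp 1 < 2.7182818286 := Real.exp_one_lt_d9
  have h0 : 0 < Real.exp 1 := Real.exp_pos 1
  have h1 : Real.exp 2 ≤ 8 := by
    have h2 : Real.exp 2 = Real.exp 1 * Real.exp 1 := by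
      rw [← Real.exp_add]
      norm_num
    rw [h2]
    nlinarith
  have h3 : Real.exp (2 * S2) ≤ (8 : ℝ) ^ S2 := by
    have h4 : Real.exp (2 * S2) = Real.exp 2 ^ S2 := by
      rw [← Real.exp_nat_mul]
      congr 1
      ring
    rw [h4]
    exact pow_le_pow_left₀ (Real.exp_pos _).le h1 S2
  rw [div_le_iff₀ (by positivity)]
  calc Real.exp S2 = Real.exp (-S2) * Real.exp (2 * S2) := by
        rw [← Real.exp_add]
        congr 1
        ring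
    _ ≤ Real.exp (-S2) * 8 ^ S2 := mul_le_mul_of_nonneg_left h3 (Real.exp_pos _).le

/-- The size of the error factor. -/
private theorem sc1_size {Cg Cl C C3 T N M W : ℕ} {Λ q : ℝ} (hN : 1 ≤ N) (hM : 1 ≤ M) (hT : 1 ≤ T)
    (hΛ : Λ = Real.log (M * N + 2)) (hW : W ≤ C * T * M ^ 2) (hq0 : 0 ≤ q) (hq : q ≤ C3 * M * N) :
    4 * (W : ℝ) * q ^ W * Real.exp (Cl * T * ((Cg + 1) * M) ^ 2) * Real.exp (Cl * T) ≤
      Real.exp ((4 * C + C * (C3 + 1) + Cl * (Cg + 1) ^ 2 + Cl) * (T * M ^ 2 * Λ)) := by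
  have hN' : (1 : ℝ) ≤ N := by exact_mod_cast hN
  have hM' : (1 : ℝ) ≤ M := by exact_mod_cast hM
  have hT' : (1 : ℝ) ≤ T := by exact_mod_cast hT
  have hMN : (1 : ℝ) ≤ M * N := by nlinarith
  have hexpΛ : Real.exp Λ = M * N + 2 := by
    rw [hΛ, Real.exp_log (by linarith)]
  have hΛ1 : 1 ≤ Λ := by
    rw [hΛ, Real.le_log_iff_exp_le (by linarith)]
    have he : Real.exp 1 < 3 := lt_trans Real.exp_one_lt_d9 (by norm_num)
    linarith
  have hW' : (W : ℝ) ≤ C * T * M ^ 2 := by exact_mod_cast hW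
  have hTM : (1 : ℝ) ≤ T * M ^ 2 := by nlinarith
  have hTM0 : (0 : ℝ) ≤ T * M ^ 2 := by linarith
  have hX : (T : ℝ) * M ^ 2 ≤ T * M ^ 2 * Λ := le_mul_of_one_le_right hTM0 hΛ1
  have hX0 : (0 : ℝ) ≤ T * M ^ 2 * Λ := hTM0.trans hX
  have hTX : (T : ℝ) ≤ T * M ^ 2 * Λ := by
    have h1 : (T : ℝ) ≤ T * M ^ 2 := le_mul_of_one_le_right (by linarith) (one_le_pow₀ hM')
    linarith
  have h1 : 4 * (W : ℝ) ≤ Real.exp (4 * C * (T * M ^ 2 * Λ)) := by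
    have h2 := Real.add_one_le_exp (4 * C * (T * M ^ 2 * Λ) : ℝ)
    have h3 : (C : ℝ) * (T * M ^ 2) ≤ C * (T * M ^ 2 * Λ) :=
      mul_le_mul_of_nonneg_left hX (Nat.cast_nonneg _)
    nlinarith
  have h2 : q ≤ Real.exp ((C3 + 1) * Λ) := by
    have h3 : (C3 : ℝ) ≤ Real.exp (C3 * Λ) := by
      have h4 := Real.add_one_le_exp (C3 * Λ : ℝ)
      have h5 : (C3 : ℝ) ≤ C3 * Λ := le_mul_of_one_le_right (Nat.cast_nonneg _) hΛ1
      linarith
    have h6 : (M : ℝ) * N ≤ Real.exp Λ := by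
      rw [hexpΛ]
      linarith
    calc q ≤ C3 * M * N := hq
      _ = C3 * (M * N) := by ring
      _ ≤ Real.exp (C3 * Λ) * Real.exp Λ :=
          mul_le_mul h3 h6 (by linarith) (Real.exp_pos _).le
      _ = Real.exp ((C3 + 1) * Λ) := by
          rw [← Real.exp_add]
          congr 1
          ring
  have h3 : q ^ W ≤ Real.exp (C * (C3 + 1) * (T * M ^ 2 * Λ)) := by
    calc q ^ W ≤ Real.exp ((C3 + 1) * Λ) ^ W := pow_le_pow_left₀ hq0 h2 W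
      _ = Real.exp (W * ((C3 + 1) * Λ)) := (Real.exp_nat_mul _ _).symm
      _ ≤ Real.exp (C * (C3 + 1) * (T * M ^ 2 * Λ)) := by
          apply Real.exp_le_exp.2
          have h4 : (0 : ℝ) ≤ (C3 + 1) * Λ := by positivity
          calc (W : ℝ) * ((C3 + 1) * Λ) ≤ (C * T * M ^ 2) * ((C3 + 1) * Λ) :=
                mul_le_mul_of_nonneg_right hW' h4
            _ = C * (C3 + 1) * (T * M ^ 2 * Λ) := by ring
  have h4 : Real.exp (Cl * T * ((Cg + 1) * M) ^ 2) ≤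
      Real.exp (Cl * (Cg + 1) ^ 2 * (T * M ^ 2 * Λ)) := by
    apply Real.exp_le_exp.2
    calc (Cl : ℝ) * T * ((Cg + 1) * M) ^ 2 = Cl * (Cg + 1) ^ 2 * (T * M ^ 2) := by ring
      _ ≤ _ := mul_le_mul_of_nonneg_left hX (by positivity)
  have h5 : Real.exp (Cl * T : ℝ) ≤ Real.exp (Cl * (T * M ^ 2 * Λ)) :=
    Real.exp_le_exp.2 (mul_le_mul_of_nonneg_left hTX (Nat.cast_nonneg _))
  have h6 : Real.exp ((4 * C + C * (C3 + 1) + Cl * (Cg + 1) ^ 2 + Cl) * (T * M ^ 2 * Λ)) =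
      Real.exp (4 * C * (T * M ^ 2 * Λ)) * Real.exp (C * (C3 + 1) * (T * M ^ 2 * Λ)) *
      Real.exp (Cl * (Cg + 1) ^ 2 * (T * M ^ 2 * Λ)) * Real.exp (Cl * (T * M ^ 2 * Λ)) := by
    rw [← Real.exp_add, ← Real.exp_add, ← Real.exp_add]
    congr 1
    ring
  rw [h6]
  gcongr

theorem sc1 {z : ℂ} (hz : 0 < z.im) : ∃ C C2 : ℕ, 1 ≤ C ∧ C ≤ C2 ∧
    ∀ (T N K M S2 : ℕ) (F : ℂ → ℂ → ℂ) (J : ℕ → ℕ → ℂ) (A : ℝ), 1 ≤ T → 1 ≤ N → 1 ≤ S2 →
    0 ≤ A → FD z T F J A → COV z N K → K + 1 ≤ M → N ≤ M →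
    C2 * T * (M : ℝ) ^ 2 * Real.log (M * N + 2) ≤ S2 → ∀ η Ms : ℝ, 0 ≤ η →
    (∀ a e, e < C * T * N → a + e < C * T * N + S2 → ‖J a e‖ ≤ η) →
    (∀ y1 y2, |bet z y1 y2| ≤ C2 / N → Nw z T F y1 y2 ≤ Ms) →
    ∀ x1 x2, bet z x1 x2 = 0 →
      Nw z T F x1 x2 ≤ Real.exp (-S2) * Ms + Real.exp (C2 * S2) * η := by
  obtain ⟨Cg, hCg, hgeo⟩ := geo hz
  obtain ⟨Cl, hCl, hline⟩ := line_fun hz
  obtain ⟨C, hC⟩ : ∃ C : ℕ, C = 2 * (16 * Cl * (Cg + 1) ^ 2 + 1) := ⟨_, rfl⟩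
  obtain ⟨C3, hC3⟩ : ∃ C3 : ℕ, C3 = 4 * (Cg + 1) * (Cg + Cl) := ⟨_, rfl⟩
  obtain ⟨C2, hC2⟩ : ∃ C2 : ℕ, C2 = 4 * C + C * (C3 + 1) + Cl * (Cg + 1) ^ 2 + Cl + (2 * Cl + 1) :=
    ⟨_, rfl⟩
  refine ⟨C, C2, by omega, by omega, ?_⟩
  intro T N K M S2 F J A hT hN hS2 hA hF hCOV hKM hNM hS η Ms hη hJ hMs
  have hM1 : 1 ≤ M := by omega
  have hN' : (1 : ℝ) ≤ N := by exact_mod_cast hN
  have hM' : (1 : ℝ) ≤ M := by exact_mod_cast hM1
  have hT' : (1 : ℝ) ≤ T := by exact_mod_cast hT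
  have hCg' : (1 : ℝ) ≤ Cg := by exact_mod_cast hCg
  have hCl' : (1 : ℝ) ≤ Cl := by exact_mod_cast hCl
  have hCr : (C : ℝ) = 2 * (16 * Cl * (Cg + 1) ^ 2 + 1) := by
    rw [hC]
    push_cast
    ring
  have hC3r : (C3 : ℝ) = 4 * (Cg + 1) * (Cg + Cl) := by
    rw [hC3]
    push_cast
    ring
  have hC2r : (C2 : ℝ) = 4 * C + C * (C3 + 1) + Cl * (Cg + 1) ^ 2 + Cl + (2 * Cl + 1) := by
    rw [hC2]
    push_cast
    ring
  have hClC2 : (Cl : ℝ) ≤ C2 := by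
    have : Cl ≤ C2 := by omega
    exact_mod_cast this
  -- the number of zeros
  obtain ⟨W, hWdef⟩ : ∃ W : ℕ, W = M ^ 2 / N * (C * T * N) := ⟨_, rfl⟩
  have hnN : M ^ 2 / N * N ≤ M ^ 2 := Nat.div_mul_le_self _ _
  have hn2 : M ^ 2 ≤ 2 * (M ^ 2 / N * N) := by
    have h1 := Nat.div_add_mod (M ^ 2) N
    have h2 := Nat.mod_lt (M ^ 2) hN
    have h3 : N ≤ M ^ 2 := hNM.trans (by rw [sq]; exact Nat.le_mul_of_pos_left _ hM1)
    have h4 : 1 ≤ M ^ 2 / N := Nat.div_pos h3 hN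
    have h5 : N * 1 ≤ N * (M ^ 2 / N) := Nat.mul_le_mul_left _ h4
    rw [Nat.mul_comm (M ^ 2 / N) N]
    omega
  have hWup : W ≤ C * T * M ^ 2 := by
    rw [hWdef]
    calc M ^ 2 / N * (C * T * N) = C * T * (M ^ 2 / N * N) := by ring
      _ ≤ C * T * M ^ 2 := Nat.mul_le_mul_left _ hnN
  have hWlow : (C : ℝ) * T * M ^ 2 / 2 ≤ W := by
    have h1 : C * T * M ^ 2 ≤ 2 * W := by
      rw [hWdef]
      calc C * T * M ^ 2 ≤ C * T * (2 * (M ^ 2 / N * N)) := Nat.mul_le_mul_left _ hn2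
        _ = 2 * (M ^ 2 / N * (C * T * N)) := by ring
    have h2 : (C : ℝ) * T * M ^ 2 ≤ 2 * W := by exact_mod_cast h1
    linarith
  have hTM : (1 : ℝ) ≤ T * M ^ 2 := by nlinarith
  obtain ⟨Λ, hΛ⟩ : ∃ Λ : ℝ, Λ = Real.log (M * N + 2) := ⟨_, rfl⟩
  rw [← hΛ] at hS
  -- the radii
  obtain ⟨R, hR⟩ : ∃ R : ℝ, R = (Cg + 1) * M := ⟨_, rfl⟩
  obtain ⟨δ, hδ⟩ : ∃ δ : ℝ, δ = 1 / (2 * (Cg + Cl) * N) := ⟨_, rfl⟩
  have hD : (1 : ℝ) ≤ 2 * (Cg + Cl) * N := by nlinarith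
  have hδ0 : 0 < δ := by
    rw [hδ]
    positivity
  have hδ1 : δ ≤ 1 := by
    rw [hδ, div_le_one (by linarith)]
    exact hD
  have hR1 : 1 ≤ R := by
    rw [hR]
    nlinarith
  have hq : 2 * R / δ = C3 * M * N := by
    rw [hδ, hR, hC3r]
    field_simp
    ring
  have hMs0 : 0 ≤ Ms := by
    refine (sc1_nonneg z T F 0 0).trans (hMs 0 0 ?_)
    have : bet z 0 0 = 0 := by simp [bet]
    rw [this, abs_zero]
    positivity
  obtain ⟨ε, hε⟩ : ∃ ε : ℝ, ε = Real.exp (Cl * T * R ^ 2) *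
      (Real.exp (Cl * T) * Ms / 8 ^ S2 + (Cl : ℝ) ^ (C * T * N + S2) * η) := ⟨_, rfl⟩
  have hε0 : 0 ≤ ε := by
    rw [hε]
    positivity
  obtain ⟨E, hE⟩ : ∃ E : ℝ, E = 2 * (W : ℝ) * (2 * R / δ) ^ W * ε := ⟨_, rfl⟩
  have hE0 : 0 ≤ E := by
    rw [hE]
    positivity
  -- the main step
  have hstep : ∀ M0 : ℝ, 0 ≤ M0 → (∀ y1 y2, bet z y1 y2 = 0 → Nw z T F y1 y2 ≤ M0) →
      ∀ x1 x2, bet z x1 x2 = 0 → Nw z T F x1 x2 ≤ M0 / 2 + E := by
    intro M0 hM0 hb x1 x2 hx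
    obtain ⟨g, hg, hg0, hgM, hgl⟩ := hline T F J A hT hF x1 x2 hx
    obtain ⟨f, hf1, hf2⟩ := hgeo N K M hN hCOV hKM x1 x2 hx
    have h1 : ‖g 0‖ ≤ (1 / 3) ^ (M ^ 2 / N * (C * T * N)) *
        (M0 * Real.exp (16 * (Cl * T) * R ^ 2)) +
        2 * ((M ^ 2 / N * (C * T * N) : ℕ) : ℝ) * (2 * R / δ) ^ (M ^ 2 / N * (C * T * N)) * ε := by
      refine hermite g hg (M ^ 2 / N) (C * T * N) (fun i => uu z x2 (f i)) δ R ε _ hδ0
        (by linarith) ?_ ?_ hε0 ?_ ?_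
      · intro i
        refine (hf1 i).1.trans ?_
        rw [hR]
        nlinarith
      · intro i j hij
        refine le_trans ?_ (hf2 i j hij)
        rw [hδ]
        have h2 : 2 * (1 / (2 * ((Cg : ℝ) + Cl) * N)) = 1 / ((Cg + Cl) * N) := by
          field_simp
        rw [h2]
        apply one_div_le_one_div_of_le (by linarith)
        nlinarith
      · intro i
        obtain ⟨a, b, ha, hb', hab, hae⟩ := hgl (C * T * N) S2 N η Ms (f i) hN hη hJ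
          (fun y1 y2 h2 => hMs y1 y2 (h2.trans (by gcongr))) (hf1 i).2
        refine ⟨a, b, ha, hb', hab, fun v hv => (hae v (hv.trans ?_)).trans ?_⟩
        · rw [hδ]
          apply one_div_le_one_div_of_le (by positivity)
          nlinarith
        · rw [hε]
          have h3 : ‖uu z x2 (f i)‖ + 1 ≤ R := by
            have := (hf1 i).1
            rw [hR]
            nlinarith
          have h4 : (0 : ℝ) ≤ ‖uu z x2 (f i)‖ + 1 := by positivity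
          gcongr
      · intro v hv
        refine (hgM M0 hb v).trans (mul_le_mul_of_nonneg_left (Real.exp_le_exp.2 ?_) hM0)
        have h2 : ‖v‖ ^ 2 ≤ (4 * R) ^ 2 := pow_le_pow_left₀ (norm_nonneg _) hv 2
        have h3 : (0 : ℝ) ≤ Cl * T := by positivity
        calc (Cl : ℝ) * T * ‖v‖ ^ 2 ≤ Cl * T * (4 * R) ^ 2 := mul_le_mul_of_nonneg_left h2 h3
          _ = 16 * (Cl * T) * R ^ 2 := by ring
    rw [hg0, ← hWdef, ← hE] at h1
    have h2 : (1 / 3 : ℝ) ^ W * Real.exp (16 * (Cl * T) * R ^ 2) ≤ 1 / 2 := by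
      apply sc1_third
      refine le_trans ?_ hWlow
      rw [hCr, hR]
      nlinarith
    have h3 : (1 / 3 : ℝ) ^ W * (M0 * Real.exp (16 * (Cl * T) * R ^ 2)) ≤ M0 / 2 := by
      calc (1 / 3 : ℝ) ^ W * (M0 * Real.exp (16 * (Cl * T) * R ^ 2)) =
            M0 * ((1 / 3 : ℝ) ^ W * Real.exp (16 * (Cl * T) * R ^ 2)) := by ring
        _ ≤ M0 * (1 / 2) := mul_le_mul_of_nonneg_left h2 hM0
        _ = M0 / 2 := by ring
    linarith
  -- iteration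
  have hiter : ∀ k : ℕ, ∀ x1 x2, bet z x1 x2 = 0 →
      Nw z T F x1 x2 ≤ Real.exp A * (1 / 2) ^ k + 2 * E := by
    intro k
    induction k with
    | zero =>
      intro x1 x2 hx
      have h1 := hF.gr x1 x2
      rw [hx, abs_zero, add_zero, Real.log_one, add_zero, mul_one] at h1
      rw [pow_zero, mul_one]
      linarith
    | succ k ih =>
      intro x1 x2 hx
      have h1 := hstep _ (by positivity) ih x1 x2 hx
      rw [pow_succ]
      linarith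
  intro x1 x2 hx
  have hlim : Nw z T F x1 x2 ≤ 2 * E := by
    have h1 : Filter.Tendsto (fun k : ℕ => Real.exp A * (1 / 2 : ℝ) ^ k + 2 * E) Filter.atTop
        (nhds (Real.exp A * 0 + 2 * E)) :=
      ((tendsto_pow_atTop_nhds_zero_of_lt_one (by norm_num) (by norm_num)).const_mul _).add_const _
    rw [mul_zero, zero_add] at h1
    exact ge_of_tendsto' h1 (fun k => hiter k x1 x2 hx)
  refine hlim.trans ?_
  -- the size of the error
  have hsize := sc1_size (Cg := Cg) (Cl := Cl) (C := C) (C3 := C3) (Λ := Λ) (q := 2 * R / δ)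
    hN hM1 hT hΛ hWup (by positivity) hq.le
  have hΛ1 : 1 ≤ Λ := by
    rw [hΛ, Real.le_log_iff_exp_le (by nlinarith)]
    have he : Real.exp 1 < 3 := lt_trans Real.exp_one_lt_d9 (by norm_num)
    nlinarith
  have hX0 : (0 : ℝ) ≤ T * M ^ 2 * Λ := by positivity
  have hS' : (C2 : ℝ) * (T * M ^ 2 * Λ) ≤ (S2 : ℝ) := by
    calc (C2 : ℝ) * (T * M ^ 2 * Λ) = C2 * T * (M : ℝ) ^ 2 * Λ := by ring
      _ ≤ (S2 : ℝ) := hS
  have hsize2 : 4 * (W : ℝ) * (2 * R / δ) ^ W * Real.exp (Cl * T * R ^ 2) * Real.exp (Cl * T) ≤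
      Real.exp S2 := by
    rw [hR] at hsize ⊢
    refine hsize.trans (Real.exp_le_exp.2 (le_trans ?_ hS'))
    apply mul_le_mul_of_nonneg_right _ hX0
    rw [hC2r]
    linarith
  have hsize3 : 4 * (W : ℝ) * (2 * R / δ) ^ W * Real.exp (Cl * T * R ^ 2) ≤ Real.exp S2 := by
    refine le_trans ?_ hsize2
    apply le_mul_of_one_le_right (by positivity)
    exact Real.one_le_exp (by positivity)
  have hS1 : C * T * N ≤ S2 := by
    have h1 : (C : ℝ) * T * N ≤ S2 := by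
      refine le_trans ?_ hS'
      have h2 : (N : ℝ) ≤ M := by exact_mod_cast hNM
      have h3 : (N : ℝ) ≤ M ^ 2 * Λ := by
        have h5 : (M : ℝ) * 1 ≤ M * M := mul_le_mul_of_nonneg_left hM' (by linarith)
        have h6 : (M : ℝ) ^ 2 ≤ M ^ 2 * Λ := le_mul_of_one_le_right (by positivity) hΛ1
        rw [mul_one, ← sq] at h5
        linarith
      have h4 : (C : ℝ) ≤ C2 := by
        have : C ≤ C2 := by omega
        exact_mod_cast this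
      calc (C : ℝ) * T * N = C * (T * N) := by ring
        _ ≤ C2 * (T * (M ^ 2 * Λ)) :=
            mul_le_mul h4 (mul_le_mul_of_nonneg_left h3 (by linarith)) (by positivity)
              (Nat.cast_nonneg _)
        _ = C2 * (T * M ^ 2 * Λ) := by ring
    exact_mod_cast h1
  have hpow : (Cl : ℝ) ^ (C * T * N + S2) ≤ Real.exp (2 * Cl * S2) := by
    calc (Cl : ℝ) ^ (C * T * N + S2) ≤ (Cl : ℝ) ^ (2 * S2) :=
          pow_le_pow_right₀ hCl' (by omega)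
      _ ≤ Real.exp Cl ^ (2 * S2) := by
          apply pow_le_pow_left₀ (by linarith)
          have := Real.add_one_le_exp (Cl : ℝ)
          linarith
      _ = Real.exp (2 * Cl * S2) := by
          rw [← Real.exp_nat_mul]
          congr 1
          push_cast
          ring
  have hfirst : 4 * (W : ℝ) * (2 * R / δ) ^ W * Real.exp (Cl * T * R ^ 2) *
      (Real.exp (Cl * T) * Ms / 8 ^ S2) ≤ Real.exp (-S2) * Ms := by
    calc 4 * (W : ℝ) * (2 * R / δ) ^ W * Real.exp (Cl * T * R ^ 2) *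
          (Real.exp (Cl * T) * Ms / 8 ^ S2) =
          4 * (W : ℝ) * (2 * R / δ) ^ W * Real.exp (Cl * T * R ^ 2) * Real.exp (Cl * T) *
            (Ms / 8 ^ S2) := by ring
      _ ≤ Real.exp S2 * (Ms / 8 ^ S2) := mul_le_mul_of_nonneg_right hsize2 (by positivity)
      _ = Real.exp S2 / 8 ^ S2 * Ms := by ring
      _ ≤ Real.exp (-S2) * Ms := mul_le_mul_of_nonneg_right (sc1_eight S2) hMs0
  have hsecond : 4 * (W : ℝ) * (2 * R / δ) ^ W * Real.exp (Cl * T * R ^ 2) *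
      ((Cl : ℝ) ^ (C * T * N + S2) * η) ≤ Real.exp (C2 * S2) * η := by
    calc 4 * (W : ℝ) * (2 * R / δ) ^ W * Real.exp (Cl * T * R ^ 2) *
          ((Cl : ℝ) ^ (C * T * N + S2) * η) ≤
          Real.exp S2 * (Real.exp (2 * Cl * S2) * η) := by
          apply mul_le_mul hsize3 (mul_le_mul_of_nonneg_right hpow hη) (by positivity)
            (Real.exp_pos _).le
      _ = Real.exp ((1 + 2 * Cl) * S2) * η := by
          rw [← mul_assoc, ← Real.exp_add]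
          congr 2
          ring
      _ ≤ Real.exp (C2 * S2) * η := by
          apply mul_le_mul_of_nonneg_right (Real.exp_le_exp.2 _) hη
          apply mul_le_mul_of_nonneg_right _ (Nat.cast_nonneg _)
          have : 1 + 2 * Cl ≤ C2 := by omega
          exact_mod_cast this
  calc 2 * E = 4 * (W : ℝ) * (2 * R / δ) ^ W * Real.exp (Cl * T * R ^ 2) *
        (Real.exp (Cl * T) * Ms / 8 ^ S2) + 4 * (W : ℝ) * (2 * R / δ) ^ W *
        Real.exp (Cl * T * R ^ 2) * ((Cl : ℝ) ^ (C * T * N + S2) * η) := by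
        rw [hE, hε]
        ring
    _ ≤ _ := add_le_add hfirst hsecond

end U2
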