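import Pool.Agent.H22.U2.Hpp

/-!
# MP_ede373, theorem (U2), row Wpp: the Taylor coefficients as values of polynomials

`WP_val`: `aeval (cs7 ..) (hp7 D i p) = aeval ![ep, 0, 0, h, kap] (hp D i p)` (`aeval_rename`). Term by term (`j = p.1`, `l = q.1`, `m = q.2`,
`j + l + m = k`): `v1 D^j v2 z D^m = z^m / (2 π I (2 D))^(j + m)`, `hp_val`, and
`a! e! (2 π I (2 D)/lam)^k z^m/(2 π I (2 D))^(j+m) (lam^(a+j) h1 / a!) (lam^(e-l+m) h2 / (e-l)!)
  = (e!/(e-l)!) z^m (2 π I (2 D))^l lam^(a + j + e - l + m - k) h1 h2 = lam^(a + e) (e!/(e-l)!) z^m (2 D)^l (2 π I/lam^2)^l h1 h2`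
as `j + m - l - k = -2 l`; `e!/(e-l)! = e.descFactorial l` (`Nat.factorial_mul_descFactorial`). (`D ≥ 1`, `lam ≠ 0`: `hb.hlam`.)
`WP_bd`: degree of a term at most `(D + a + k) + (D + e + k) + k`; `nrm` of a term at most
`2^k 2^k e^k (2 D)^k (9 (D + a + k + 1))^(a + k) (9 (D + e + k + 1))^(e + k)` (`nrm_rename` or `nrm_rename_le` for injective renaming, see
`H32/CZ/Qa.lean` or `H32/AZ`), number of terms at most `(k + 1)^2`. With `s = D + k + a + e + 1`: every base is at most `18 (s + 1)` and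
`log (18 (s + 1)) ≤ 6 log (s + 1)` (`s + 1 ≥ 2`), total exponent at most `10 s`.
-/

set_option autoImplicit false

namespace U2

open MvPolynomial CZ
open H32.T3 (nrm)

private theorem WP_ren {n m : ℕ} (f : Fin n → Fin m) (hf : Function.Injective f)
    (P : MvPolynomial (Fin n) ℤ) : nrm (rename f P) = nrm P := by
  classical
  unfold nrm
  rw [support_rename_of_injective hf,
    Finset.sum_image (fun x _ y _ h ↦ Finsupp.mapDomain_injective hf h)]
  refine Finset.sum_congr rfl fun m _ ↦ ?_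
  rw [coeff_rename_mapDomain _ hf]

private theorem WP_hp7 (z lam h kap ep : ℂ) (D i p : ℕ) :
    aeval (cs7 z lam h kap ep) (hp7 D i p) =
      aeval (![ep, 0, 0, h, kap] : Fin 5 → ℂ) (hp D i p) := by
  unfold hp7
  rw [aeval_rename]
  congr 2
  funext i
  fin_cases i <;> rfl

private theorem WP_alg (lam w D2 z H1 H2 fa fr fe ds B : ℂ) (a j l m r : ℕ) (hlam : lam ≠ 0)
    (hw : w ≠ 0) (hD : D2 ≠ 0) (hfa : fa ≠ 0) (hfr : fr ≠ 0) (hfe : fe = fr * ds) :
    fa * fe * (w * D2 / lam) ^ (j + (l + m)) * (B * (1 / (w * D2)) ^ j * (z / (w * D2)) ^ m *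
      (lam ^ (a + j) * H1 / fa) * (lam ^ (r + m) * H2 / fr)) =
    lam ^ (a + (l + r)) * (B * ds * D2 ^ l * (H1 * H2 * ((w / lam ^ 2) ^ l * z ^ m))) := by
  rw [hfe, div_pow, div_pow, div_pow, div_pow, one_pow, mul_pow, mul_pow, mul_pow]
  simp only [pow_add]
  field_simp
  ring

theorem WP_val {z : ℂ} (b : BaseFn z) (lam h kap ep : ℂ) (ε : ℝ) (Xf X1f Yf : ℂ → ℂ)
    (hb : BaseSys b lam h kap ep ε Xf X1f Yf) (D i1 i2 k a e : ℕ) (hD : 1 ≤ D) (h1 : i1 ≤ D)
    (h2 : i2 ≤ D) :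
    (a.factorial : ℂ) * e.factorial * (2 * Real.pi * Complex.I * (2 * D) / lam) ^ k *
      jc b D i1 i2 k a e = lam ^ (a + e) * aeval (cs7 z lam h kap ep) (WP D i1 i2 k a e) := by
  unfold jc WP
  rw [map_sum, Finset.mul_sum, Finset.mul_sum]
  refine Finset.sum_congr rfl fun p hpa => ?_
  rw [map_sum, Finset.mul_sum, Finset.mul_sum]
  refine Finset.sum_congr rfl fun q hq => ?_
  rw [Finset.HasAntidiagonal.mem_antidiagonal] at hpa hq
  by_cases hqe : q.1 ≤ e
  · rw [if_pos hqe, if_pos hqe]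
    obtain ⟨r, hr⟩ := Nat.exists_eq_add_of_le hqe
    have hr' : e - q.1 = r := by omega
    have hk : k = p.1 + (q.1 + q.2) := by omega
    have hfe : (e.factorial : ℂ) = (r.factorial : ℂ) * (e.descFactorial q.1 : ℂ) := by
      rw [← hr']
      exact_mod_cast (Nat.factorial_mul_descFactorial hqe).symm
    rw [hr', hp_val b lam h kap ep ε Xf X1f Yf hb D i1 (a + p.1) h1,
      hp_val b lam h kap ep ε Xf X1f Yf hb D i2 (r + q.2) h2]
    have hcs5 : cs7 z lam h kap ep 5 = 2 * Real.pi * Complex.I / lam ^ 2 := rfl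
    have hcs6 : cs7 z lam h kap ep 6 = z := rfl
    simp only [map_mul, map_pow, aeval_X, WP_hp7, hcs5, hcs6, algHom_C]
    have hD' : (2 * (D : ℂ)) ≠ 0 := by
      have : (D : ℂ) ≠ 0 := by exact_mod_cast (by omega : D ≠ 0)
      exact mul_ne_zero two_ne_zero this
    have hw : (2 * (Real.pi : ℂ) * Complex.I) ≠ 0 := by
      have := Real.pi_pos.ne'
      have h3 : (Real.pi : ℂ) ≠ 0 := by exact_mod_cast this
      exact mul_ne_zero (mul_ne_zero two_ne_zero h3) Complex.I_ne_zero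
    have key := WP_alg lam (2 * Real.pi * Complex.I) (2 * D) z
      (aeval (![ep, 0, 0, h, kap] : Fin 5 → ℂ) (hp D i1 (a + p.1)))
      (aeval (![ep, 0, 0, h, kap] : Fin 5 → ℂ) (hp D i2 (r + q.2)))
      (a.factorial : ℂ) (r.factorial : ℂ) (e.factorial : ℂ) (e.descFactorial q.1 : ℂ)
      ((k.choose p.1 : ℂ) * (p.2.choose q.1 : ℂ)) a p.1 q.1 q.2 r hb.hlam hw hD'
      (by exact_mod_cast a.factorial_ne_zero) (by exact_mod_cast r.factorial_ne_zero) hfe
    rw [← hk, ← hr] at key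
    unfold v1 v2
    rw [key]
    have hc : (algebraMap ℤ ℂ) ((k.choose p.1 * p.2.choose q.1 * e.descFactorial q.1 *
        (2 * D) ^ q.1 : ℕ) : ℤ) = (k.choose p.1 : ℂ) * (p.2.choose q.1 : ℂ) *
        (e.descFactorial q.1 : ℂ) * (2 * (D : ℂ)) ^ q.1 := by
      simp
    rw [hc]
  · rw [if_neg hqe, if_neg hqe, map_zero, mul_zero, mul_zero]

private theorem WP_num {D k a e j l m : ℕ} (hk : j + (l + m) = k) (hl : l ≤ e) :
    ((k.choose j * (l + m).choose l * e.descFactorial l * (2 * D) ^ l : ℕ) : ℝ) *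
      ((9 * ((D : ℝ) + (a + j : ℕ) + 1)) ^ (a + j) *
        (9 * ((D : ℝ) + (e - l + m : ℕ) + 1)) ^ (e - l + m)) ≤
      (9 * ((D : ℝ) + k + a + e + 2)) ^ (6 * k + a + e) := by
  set U : ℝ := 9 * ((D : ℝ) + k + a + e + 2) with hU
  have hD0 : (0 : ℝ) ≤ D := Nat.cast_nonneg _
  have hk0 : (0 : ℝ) ≤ k := Nat.cast_nonneg _
  have ha0 : (0 : ℝ) ≤ a := Nat.cast_nonneg _
  have he0 : (0 : ℝ) ≤ e := Nat.cast_nonneg _
  have hU1 : 1 ≤ U := by rw [hU]; linarith
  have hpow : ∀ {x : ℝ} {i n : ℕ}, 0 ≤ x → x ≤ U → i ≤ n → x ^ i ≤ U ^ n := by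
    intro x i n hx hxU hin
    exact (pow_le_pow_left₀ hx hxU i).trans (pow_le_pow_right₀ hU1 hin)
  have h1 : ((k.choose j : ℕ) : ℝ) ≤ U ^ k := by
    have h2 : k.choose j ≤ 2 ^ k := Nat.choose_le_two_pow _ _
    have h3 : ((k.choose j : ℕ) : ℝ) ≤ 2 ^ k := by exact_mod_cast h2
    exact h3.trans (hpow (by norm_num) (by rw [hU]; linarith) le_rfl)
  have h2 : (((l + m).choose l : ℕ) : ℝ) ≤ U ^ k := by
    have h2 : (l + m).choose l ≤ 2 ^ (l + m) := Nat.choose_le_two_pow _ _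
    have h3 : (((l + m).choose l : ℕ) : ℝ) ≤ 2 ^ (l + m) := by exact_mod_cast h2
    exact h3.trans (hpow (by norm_num) (by rw [hU]; linarith) (by omega))
  have h3 : ((e.descFactorial l : ℕ) : ℝ) ≤ U ^ k := by
    have h2 : e.descFactorial l ≤ e ^ l := Nat.descFactorial_le_pow _ _
    have h3 : ((e.descFactorial l : ℕ) : ℝ) ≤ (e : ℝ) ^ l := by exact_mod_cast h2
    exact h3.trans (hpow he0 (by rw [hU]; linarith) (by omega))
  have h4 : (2 * (D : ℝ)) ^ l ≤ U ^ k := hpow (by linarith) (by rw [hU]; linarith) (by omega)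
  have h5 : (9 * ((D : ℝ) + (a + j : ℕ) + 1)) ^ (a + j) ≤ U ^ (a + k) := by
    have h6 : ((a + j : ℕ) : ℝ) ≤ a + k := by
      have : a + j ≤ a + k := by omega
      exact_mod_cast this
    exact hpow (by positivity) (by rw [hU]; linarith) (by omega)
  have h6 : (9 * ((D : ℝ) + (e - l + m : ℕ) + 1)) ^ (e - l + m) ≤ U ^ (e + k) := by
    have h6 : ((e - l + m : ℕ) : ℝ) ≤ e + k := by
      have : e - l + m ≤ e + k := by omega
      exact_mod_cast this
    exact hpow (by positivity) (by rw [hU]; linarith) (by omega)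
  have e1 : U ^ (6 * k + a + e) =
      U ^ k * U ^ k * U ^ k * U ^ k * (U ^ (a + k) * U ^ (e + k)) := by
    simp only [← pow_add]
    congr 1
    ring
  rw [e1]
  push_cast
  push_cast at h5 h6
  gcongr

private theorem WP_log {s : ℝ} (hs : 1 ≤ s) (n : ℕ) (hn : (n : ℝ) ≤ 8 * s) :
    (9 * (s + 1)) ^ n ≤ Real.exp (40 * s * Real.log (s + 1)) := by
  have h1 : 0 < 9 * (s + 1) := by linarith
  have h2 : Real.log (9 * (s + 1)) ≤ 5 * Real.log (s + 1) := by
    have h3 : 9 * (s + 1) ≤ (s + 1) ^ 5 := by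
      have h4 : (2 : ℝ) ^ 4 ≤ (s + 1) ^ 4 := pow_le_pow_left₀ (by norm_num) (by linarith) 4
      have h5 : (s + 1) ^ 5 = (s + 1) ^ 4 * (s + 1) := by ring
      rw [h5]
      apply mul_le_mul_of_nonneg_right _ (by linarith)
      linarith
    have h6 := Real.log_le_log h1 h3
    rwa [Real.log_pow] at h6
  have h0 : 0 ≤ Real.log (s + 1) := Real.log_nonneg (by linarith)
  calc (9 * (s + 1)) ^ n = Real.exp (n * Real.log (9 * (s + 1))) := by
        rw [Real.exp_nat_mul, Real.exp_log h1]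
    _ ≤ Real.exp (40 * s * Real.log (s + 1)) := by
        apply Real.exp_le_exp.2
        have hn0 : (0 : ℝ) ≤ n := Nat.cast_nonneg _
        nlinarith

theorem WP_bd : ∃ C : ℕ, 1 ≤ C ∧ ∀ D i1 i2 k a e : ℕ, i1 ≤ D → i2 ≤ D →
    ((WP D i1 i2 k a e).totalDegree : ℝ) ≤ C * ((D : ℝ) + k + a + e + 1) ∧
    nrm (WP D i1 i2 k a e) ≤ Real.exp (C * ((D : ℝ) + k + a + e + 1) *
      Real.log ((D : ℝ) + k + a + e + 2)) := by
  refine ⟨40, by norm_num, fun D i1 i2 k a e h1 h2 => ⟨?_, ?_⟩⟩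
  · have hd : (WP D i1 i2 k a e).totalDegree ≤ 2 * D + a + e + 2 * k := by
      unfold WP
      refine totalDegree_finsetSum_le fun p hp => totalDegree_finsetSum_le fun q hq => ?_
      rw [Finset.HasAntidiagonal.mem_antidiagonal] at hp hq
      by_cases hqe : q.1 ≤ e
      · rw [if_pos hqe]
        have e1 : (hp7 D i1 (a + p.1)).totalDegree ≤ D + (a + p.1) :=
          (totalDegree_rename_le _ _).trans (hp_bd D i1 (a + p.1) h1).1
        have e2 : (hp7 D i2 (e - q.1 + q.2)).totalDegree ≤ D + (e - q.1 + q.2) :=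
          (totalDegree_rename_le _ _).trans (hp_bd D i2 (e - q.1 + q.2) h2).1
        have e3 : ((X 5 : MvPolynomial (Fin 7) ℤ) ^ q.1 * X 6 ^ q.2).totalDegree ≤ q.1 + q.2 := by
          refine (totalDegree_mul _ _).trans (Nat.add_le_add ?_ ?_)
          · refine (totalDegree_pow _ _).trans ?_
            rw [totalDegree_X, mul_one]
          · refine (totalDegree_pow _ _).trans ?_
            rw [totalDegree_X, mul_one]
        refine (totalDegree_mul _ _).trans ?_
        rw [totalDegree_C, zero_add]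
        refine (totalDegree_mul _ _).trans ?_
        refine (Nat.add_le_add ((totalDegree_mul _ _).trans (Nat.add_le_add e1 e2)) e3).trans ?_
        omega
      · rw [if_neg hqe, totalDegree_zero]
        exact Nat.zero_le _
    have hd' : ((WP D i1 i2 k a e).totalDegree : ℝ) ≤ 2 * D + a + e + 2 * k := by
      exact_mod_cast hd
    have hD0 : (0 : ℝ) ≤ D := Nat.cast_nonneg _
    have hk0 : (0 : ℝ) ≤ k := Nat.cast_nonneg _
    have ha0 : (0 : ℝ) ≤ a := Nat.cast_nonneg _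
    have he0 : (0 : ℝ) ≤ e := Nat.cast_nonneg _
    push_cast
    linarith
  · set U : ℝ := 9 * ((D : ℝ) + k + a + e + 2) with hU
    have hD0 : (0 : ℝ) ≤ D := Nat.cast_nonneg _
    have hk0 : (0 : ℝ) ≤ k := Nat.cast_nonneg _
    have ha0 : (0 : ℝ) ≤ a := Nat.cast_nonneg _
    have he0 : (0 : ℝ) ≤ e := Nat.cast_nonneg _
    have hU1 : 1 ≤ U := by rw [hU]; linarith
    have hterm : nrm (WP D i1 i2 k a e) ≤
        ∑ p ∈ Finset.HasAntidiagonal.antidiagonal k,
          ∑ q ∈ Finset.HasAntidiagonal.antidiagonal p.2, U ^ (6 * k + a + e) := by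
      unfold WP
      refine (H32.T3.nrm_sum_le _ _).trans (Finset.sum_le_sum fun p hp => ?_)
      refine (H32.T3.nrm_sum_le _ _).trans (Finset.sum_le_sum fun q hq => ?_)
      rw [Finset.HasAntidiagonal.mem_antidiagonal] at hp hq
      by_cases hqe : q.1 ≤ e
      · rw [if_pos hqe]
        have e1 : nrm (hp7 D i1 (a + p.1)) ≤ (9 * ((D : ℝ) + (a + p.1 : ℕ) + 1)) ^ (a + p.1) := by
          unfold hp7
          rw [WP_ren _ (Fin.castLE_injective _)]
          exact (hp_bd D i1 (a + p.1) h1).2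
        have e2 : nrm (hp7 D i2 (e - q.1 + q.2)) ≤
            (9 * ((D : ℝ) + (e - q.1 + q.2 : ℕ) + 1)) ^ (e - q.1 + q.2) := by
          unfold hp7
          rw [WP_ren _ (Fin.castLE_injective _)]
          exact (hp_bd D i2 (e - q.1 + q.2) h2).2
        have e3 : nrm ((X 5 : MvPolynomial (Fin 7) ℤ) ^ q.1 * X 6 ^ q.2) ≤ 1 := by
          refine (H32.T3.nrm_mul_le _ _).trans ?_
          have f1 := H32.T3.nrm_pow_le (X 5 : MvPolynomial (Fin 7) ℤ) q.1
          have f2 := H32.T3.nrm_pow_le (X 6 : MvPolynomial (Fin 7) ℤ) q.2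
          rw [H32.T3.nrm_X, one_pow] at f1 f2
          exact mul_le_one₀ f1 (H32.T3.nrm_nonneg _) f2
        have e4 := WP_num (D := D) (a := a) (show p.1 + (q.1 + q.2) = k by omega) hqe
        rw [← hU, hq] at e4
        refine le_trans ?_ e4
        refine (H32.T3.nrm_mul_le _ _).trans ?_
        rw [H32.T3.nrm_C]
        have e5 : |((((k.choose p.1 * p.2.choose q.1 * e.descFactorial q.1 *
            (2 * D) ^ q.1 : ℕ) : ℤ)) : ℝ)| = ((k.choose p.1 * p.2.choose q.1 *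
            e.descFactorial q.1 * (2 * D) ^ q.1 : ℕ) : ℝ) := by
          rw [Int.cast_natCast]
          exact abs_of_nonneg (Nat.cast_nonneg _)
        rw [e5]
        apply mul_le_mul_of_nonneg_left _ (Nat.cast_nonneg _)
        refine (H32.T3.nrm_mul_le _ _).trans ?_
        refine (mul_le_mul_of_nonneg_left e3 (H32.T3.nrm_nonneg _)).trans ?_
        rw [mul_one]
        refine (H32.T3.nrm_mul_le _ _).trans ?_
        exact mul_le_mul e1 e2 (H32.T3.nrm_nonneg _) (by positivity)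
      · rw [if_neg hqe, H32.T3.nrm_zero]
        positivity
    have hcount : ∑ p ∈ Finset.HasAntidiagonal.antidiagonal k,
          ∑ q ∈ Finset.HasAntidiagonal.antidiagonal p.2, U ^ (6 * k + a + e) ≤
        ((k : ℝ) + 1) * (((k : ℝ) + 1) * U ^ (6 * k + a + e)) := by
      have h3 : ∀ p ∈ Finset.HasAntidiagonal.antidiagonal k,
          ∑ q ∈ Finset.HasAntidiagonal.antidiagonal p.2, U ^ (6 * k + a + e) ≤
            ((k : ℝ) + 1) * U ^ (6 * k + a + e) := by
        intro p hp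
        rw [Finset.HasAntidiagonal.mem_antidiagonal] at hp
        rw [Finset.sum_const, Finset.Nat.card_antidiagonal, nsmul_eq_mul]
        apply mul_le_mul_of_nonneg_right _ (by positivity)
        have : p.2 + 1 ≤ k + 1 := by omega
        exact_mod_cast this
      refine (Finset.sum_le_sum h3).trans ?_
      rw [Finset.sum_const, Finset.Nat.card_antidiagonal, nsmul_eq_mul]
      push_cast
      exact le_rfl
    have hk1 : (k : ℝ) + 1 ≤ U := by rw [hU]; linarith
    have hfin : ((k : ℝ) + 1) * (((k : ℝ) + 1) * U ^ (6 * k + a + e)) ≤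
        U ^ (6 * k + a + e + 2) := by
      have h3 : U ^ (6 * k + a + e + 2) = U * (U * U ^ (6 * k + a + e)) := by ring
      rw [h3]
      gcongr
    have hs1 : (1 : ℝ) ≤ (D : ℝ) + k + a + e + 1 := by linarith
    have hlog := WP_log hs1 (6 * k + a + e + 2) (by push_cast; linarith)
    have hU2 : 9 * ((D : ℝ) + k + a + e + 1 + 1) = U := by rw [hU]; ring
    have hU3 : (D : ℝ) + k + a + e + 1 + 1 = (D : ℝ) + k + a + e + 2 := by ring
    rw [hU2, hU3] at hlog
    push_cast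
    exact hterm.trans (hcount.trans (hfin.trans hlog))

end U2
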