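import Pool.Agent.H22.U2.Gro
import Pool.Agent.H22.U2.Lg
import Pool.Agent.H22.U2.Non

/-!
# MP_ede373, theorem (U2), row Ze: the zero estimate

Let `cs k = max_{i1,i2} ‖c (i1, i2, k)‖`, `W ≥ 1` real, `k*` maximising `W^k cs k` over `k < Q`. As `max cs = 1`: `cs k* ≥ W^(-Q)` and
`cs k ≤ cs k* W^(-(k - k*))` for `k > k*`. `nondeg` for the coefficients `c (·, ·, k*)`: `x1, x2` with `‖x1‖, ‖x2‖ ≤ 1` and
`cs k* ≤ C1^(D+1) ‖∑ c_{i k*} HH i1 x1 HH i2 x2‖`; note `Phi b D i1 i2 0 x1 x2 = HH i1 x1 HH i2 x2`.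
`Phi_shift`: for `n : ℕ`, `FF c x1 (x2 + n) = ∑_{j < Q} n^j E j`, `E j = ∑_{k ≥ j} (k.choose j) ∑_i c_{i k} Phi (k - j) x1 x2`.
For `k > j = k*`: `(k.choose j) = k.choose (k - j) ≤ Q^(k-j)`, and by `Phi_gr` (`Nw ≥ ‖·‖ exp (-C D)` for `‖x_i‖ ≤ 1`, `|bet| ≤ C`):
`‖Phi (k - j) x1 x2‖ ≤ C2^D (C2 Q)^(k - j)`. So the terms with `k > k*` in `E k*` sum to at most
`(D+1)^2 C2^D ∑_{l ≥ 1} (C2 Q^2)^l cs k* W^(-l) ≤ cs k* (D+1)^2 C2^D 2 C2 Q^2/W` (if `W ≥ 2 C2 Q^2`), and this is `≤ cs k*/(2 C1^(D+1))` for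
`W = C3^D Q^2 C3` with `C3` large. Hence `‖E k*‖ ≥ cs k*/(2 C1^(D+1)) ≥ W^(-Q)/(2 C1^(D+1)) ≥ exp (-C4 Q (D + log (Q + 2)))`.
`coeff_le`: a polynomial `p n = ∑_{j < Q} E_j n^j` satisfies `‖E_j‖ ≤ Q Q! max_{n < Q} ‖p n‖`.
So there is `n < Q` with `‖FF c x1 (x2 + n)‖ ≥ exp (-C5 Q (D + log (Q+2)))`; `bet z x1 (x2 + n) = bet z x1 x2 + n` (`bet_re2`), and the weight is
`exp (-(π 2 D/Y)(x1.im^2 + x2.im^2)) ≥ exp (-C D)`.
-/

set_option autoImplicit false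

namespace U2

open Complex Finset

variable {z : ℂ} (b : CZ.BaseFn z)

theorem ze_geo (m Q : ℕ) : ∑ k ∈ range Q, (if m < k then (1 / 2 : ℝ) ^ (k - m - 1) else 0) =
    2 - 2 * (1 / 2 : ℝ) ^ (Q - m - 1) := by
  induction Q with
  | zero => simp
  | succ Q ih =>
    rw [sum_range_succ, ih]
    by_cases h : m < Q
    · rw [if_pos h]
      have h1 : Q + 1 - m - 1 = (Q - m - 1) + 1 := by omega
      rw [h1, pow_succ]
      ring
    · rw [if_neg h]
      have h1 : Q + 1 - m - 1 = 0 := by omega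
      have h2 : Q - m - 1 = 0 := by omega
      rw [h1, h2]
      ring

theorem ze_bet (hz : 0 < z.im) {x1 x2 : ℂ} (h1 : ‖x1‖ ≤ 1) (h2 : ‖x2‖ ≤ 1) :
    |bet z x1 x2| ≤ 1 + |z.re| / z.im + 1 / z.im := by
  have a1 : |x1.im| ≤ 1 := (Complex.abs_im_le_norm x1).trans h1
  have a2 : |x2.im| ≤ 1 := (Complex.abs_im_le_norm x2).trans h2
  have a3 : |x2.re| ≤ 1 := (Complex.abs_re_le_norm x2).trans h2
  have b1 : |z.re * (x2.im / z.im)| ≤ |z.re| / z.im := by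
    rw [abs_mul, abs_div, abs_of_pos hz]
    calc |z.re| * (|x2.im| / z.im) ≤ |z.re| * (1 / z.im) := by gcongr
      _ = |z.re| / z.im := by ring
  have b2 : |x1.im / z.im| ≤ 1 / z.im := by
    rw [abs_div, abs_of_pos hz]
    gcongr
  unfold bet
  calc |x2.re - z.re * (x2.im / z.im) - x1.im / z.im|
      ≤ |x2.re - z.re * (x2.im / z.im)| + |x1.im / z.im| := abs_sub _ _
    _ ≤ |x2.re| + |z.re * (x2.im / z.im)| + |x1.im / z.im| := by
        gcongr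
        exact abs_sub _ _
    _ ≤ _ := by linarith

theorem ze_wt (hz : 0 < z.im) (D : ℕ) {x1 x2 : ℂ} (h1 : ‖x1‖ ≤ 1) (h2 : ‖x2‖ ≤ 1) :
    Real.exp (-(4 * Real.pi / z.im * D)) ≤
      Real.exp (-(Real.pi * ((2 * D : ℕ) : ℝ) / z.im * (x1.im ^ 2 + x2.im ^ 2))) := by
  have a1 : |x1.im| ≤ 1 := (Complex.abs_im_le_norm x1).trans h1
  have a2 : |x2.im| ≤ 1 := (Complex.abs_im_le_norm x2).trans h2
  have c1 : x1.im ^ 2 ≤ 1 := by
    rw [← sq_abs]
    exact pow_le_one₀ (abs_nonneg _) a1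
  have c2 : x2.im ^ 2 ≤ 1 := by
    rw [← sq_abs]
    exact pow_le_one₀ (abs_nonneg _) a2
  apply Real.exp_le_exp.2
  apply neg_le_neg
  have h3 : 0 ≤ Real.pi * ((2 * D : ℕ) : ℝ) / z.im := by positivity
  calc Real.pi * ((2 * D : ℕ) : ℝ) / z.im * (x1.im ^ 2 + x2.im ^ 2)
      ≤ Real.pi * ((2 * D : ℕ) : ℝ) / z.im * 2 := by
        apply mul_le_mul_of_nonneg_left _ h3
        linarith
    _ = 4 * Real.pi / z.im * D := by
        push_cast
        ring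

theorem ze_phi (hz : 0 < z.im) : ∃ M : ℝ, 1 ≤ M ∧ ∀ D Q i1 i2 k : ℕ, 1 ≤ D → i1 ≤ D → i2 ≤ D →
    k < Q → ∀ x1 x2 : ℂ, ‖x1‖ ≤ 1 → ‖x2‖ ≤ 1 →
      ‖Phi b D i1 i2 k x1 x2‖ ≤ M ^ D * (M * Q) ^ k := by
  obtain ⟨C, hC, hgr⟩ := Phi_gr b hz
  have hC' : (1 : ℝ) ≤ C := by exact_mod_cast hC
  set B0 : ℝ := 1 + |z.re| / z.im + 1 / z.im with hB0
  have hB0' : 1 ≤ B0 := by
    have h1 : 0 ≤ |z.re| / z.im := by positivity
    have h2 : 0 ≤ 1 / z.im := by positivity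
    linarith
  set e0 : ℝ := Real.exp (4 * Real.pi / z.im) with he0
  have he0' : 1 ≤ e0 := by
    apply Real.one_le_exp
    positivity
  refine ⟨e0 * C * (1 + B0), ?_, ?_⟩
  · have h1 : 1 ≤ e0 * C := one_le_mul_of_one_le_of_one_le he0' hC'
    have h2 : 1 ≤ 1 + B0 := by linarith
    exact one_le_mul_of_one_le_of_one_le h1 h2
  · intro D Q i1 i2 k hD h1 h2 hk x1 x2 hx1 hx2
    have hw := ze_wt hz D hx1 hx2
    have hg := hgr D i1 i2 k hD h1 h2 x1 x2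
    have hbt := ze_bet hz hx1 hx2
    have hQ1 : (1 : ℝ) ≤ Q := by
      have : 1 ≤ Q := by omega
      exact_mod_cast this
    have h3 : ‖Phi b D i1 i2 k x1 x2‖ * Real.exp (-(4 * Real.pi / z.im * D)) ≤
        (C : ℝ) ^ (D + k) * ((k : ℝ) + 1 + |bet z x1 x2|) ^ k :=
      (mul_le_mul_of_nonneg_left hw (norm_nonneg _)).trans hg
    have h4 : Real.exp (4 * Real.pi / z.im * D) = e0 ^ D := by
      rw [he0, ← Real.exp_nat_mul]
      ring_nf
    have h5 : ‖Phi b D i1 i2 k x1 x2‖ ≤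
        e0 ^ D * ((C : ℝ) ^ (D + k) * ((k : ℝ) + 1 + |bet z x1 x2|) ^ k) := by
      calc ‖Phi b D i1 i2 k x1 x2‖ = Real.exp (4 * Real.pi / z.im * D) *
            (‖Phi b D i1 i2 k x1 x2‖ * Real.exp (-(4 * Real.pi / z.im * D))) := by
              rw [Real.exp_neg]
              field_simp
        _ ≤ _ := by
              rw [h4]
              gcongr
    have hk' : (k : ℝ) + 1 ≤ Q := by exact_mod_cast hk
    have h6 : (k : ℝ) + 1 + |bet z x1 x2| ≤ Q * (1 + B0) := by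
      calc (k : ℝ) + 1 + |bet z x1 x2| ≤ Q + B0 := by linarith
        _ ≤ Q + Q * B0 := by nlinarith
        _ = _ := by ring
    calc ‖Phi b D i1 i2 k x1 x2‖
        ≤ e0 ^ D * ((C : ℝ) ^ (D + k) * ((k : ℝ) + 1 + |bet z x1 x2|) ^ k) := h5
      _ ≤ e0 ^ D * ((C : ℝ) ^ (D + k) * (Q * (1 + B0)) ^ k) := by gcongr
      _ = (e0 * C * 1) ^ D * (1 * C * (1 + B0) * Q) ^ k := by
          simp only [mul_pow, pow_add, one_pow, mul_one, one_mul]
          ring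
      _ ≤ (e0 * C * (1 + B0)) ^ D * (e0 * C * (1 + B0) * Q) ^ k := by
          gcongr
          linarith

theorem ze_phi0 (D i1 i2 : ℕ) (x1 x2 : ℂ) :
    Phi b D i1 i2 0 x1 x2 = HH b D i1 x1 * HH b D i2 x2 := by
  unfold Phi Psi
  rw [iteratedDeriv_zero]
  simp

/-- coefficients of the polynomial of integer shifts -/
noncomputable def zeE (D Q : ℕ) (c : Ix D Q → ℂ) (x1 x2 : ℂ) (j : ℕ) : ℂ :=
  ∑ l : Ix D Q, c l * (((l.2.2 : ℕ).choose j : ℕ) : ℂ) * Phi b D l.1 l.2.1 (l.2.2 - j) x1 x2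

theorem ze_shift (D Q : ℕ) (c : Ix D Q → ℂ) (x1 x2 : ℂ) (n : ℕ) :
    FF b D Q c x1 (x2 + n) = ∑ j ∈ range Q, zeE b D Q c x1 x2 j * (n : ℂ) ^ j := by
  unfold FF zeE
  simp only [sum_mul]
  rw [sum_comm]
  refine sum_congr rfl fun l _ => ?_
  rw [Phi_shift, mul_sum]
  have h1 : range ((l.2.2 : ℕ) + 1) ⊆ range Q := by
    intro j hj
    rw [mem_range] at hj ⊢
    have := l.2.2.2
    omega
  rw [← sum_subset h1]
  · refine sum_congr rfl fun j _ => ?_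
    ring
  · intro j _ hj
    rw [mem_range, not_lt] at hj
    rw [Nat.choose_eq_zero_of_lt (by omega)]
    simp

/-- the part of a coefficient with fixed last index -/
noncomputable def zeT (D Q : ℕ) (c : Ix D Q → ℂ) (x1 x2 : ℂ) (j : ℕ) (k : Fin Q) : ℂ :=
  ∑ p : Fin (D + 1) × Fin (D + 1), c (p.1, p.2, k) * (((k : ℕ).choose j : ℕ) : ℂ) *
    Phi b D p.1 p.2 (k - j) x1 x2

theorem ze_E (D Q : ℕ) (c : Ix D Q → ℂ) (x1 x2 : ℂ) (j : ℕ) :
    zeE b D Q c x1 x2 j = ∑ k, zeT b D Q c x1 x2 j k := by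
  unfold zeE zeT
  rw [sum_comm]
  rw [Fintype.sum_prod_type, Fintype.sum_prod_type]
  refine sum_congr rfl fun i1 _ => ?_
  rw [Fintype.sum_prod_type]

theorem ze_T_le (D Q : ℕ) (hD : 1 ≤ D) (c : Ix D Q → ℂ) {x1 x2 : ℂ} (h1 : ‖x1‖ ≤ 1)
    (h2 : ‖x2‖ ≤ 1) {M : ℝ} (_hM : 1 ≤ M)
    (hph : ∀ D Q i1 i2 k : ℕ, 1 ≤ D → i1 ≤ D → i2 ≤ D →
      k < Q → ∀ x1 x2 : ℂ, ‖x1‖ ≤ 1 → ‖x2‖ ≤ 1 →
      ‖Phi b D i1 i2 k x1 x2‖ ≤ M ^ D * (M * Q) ^ k) (j : ℕ) (k : Fin Q) (hjk : j ≤ k) :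
    ‖zeT b D Q c x1 x2 j k‖ ≤ ((D : ℝ) + 1) ^ 2 *
      (‖(fun p : Fin (D + 1) × Fin (D + 1) ↦ c (p.1, p.2, k))‖ * M ^ D *
        (M * (Q : ℝ) ^ 2) ^ ((k : ℕ) - j)) := by
  have hQ0 : (0 : ℝ) ≤ Q := Nat.cast_nonneg _
  have hch : (((k : ℕ).choose j : ℕ) : ℝ) ≤ (Q : ℝ) ^ ((k : ℕ) - j) := by
    rw [← Nat.choose_symm hjk]
    calc (((k : ℕ).choose ((k : ℕ) - j) : ℕ) : ℝ) ≤ ((k : ℕ) : ℝ) ^ ((k : ℕ) - j) := by
          exact_mod_cast Nat.choose_le_pow _ _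
      _ ≤ _ := by
          gcongr
          exact_mod_cast k.2.le
  have hterm : ∀ p : Fin (D + 1) × Fin (D + 1),
      ‖c (p.1, p.2, k) * (((k : ℕ).choose j : ℕ) : ℂ) * Phi b D p.1 p.2 (k - j) x1 x2‖ ≤
        ‖(fun p : Fin (D + 1) × Fin (D + 1) ↦ c (p.1, p.2, k))‖ * M ^ D *
        (M * (Q : ℝ) ^ 2) ^ ((k : ℕ) - j) := by
    intro p
    have h3 : ‖c (p.1, p.2, k)‖ ≤ ‖(fun p : Fin (D + 1) × Fin (D + 1) ↦ c (p.1, p.2, k))‖ :=
      norm_le_pi_norm (fun p : Fin (D + 1) × Fin (D + 1) ↦ c (p.1, p.2, k)) p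
    have h4 := hph D Q p.1 p.2 (k - j) hD (by omega) (by omega) (by omega) x1 x2 h1 h2
    rw [norm_mul, norm_mul, Complex.norm_natCast]
    calc ‖c (p.1, p.2, k)‖ * (((k : ℕ).choose j : ℕ) : ℝ) * ‖Phi b D p.1 p.2 (k - j) x1 x2‖
        ≤ ‖(fun p : Fin (D + 1) × Fin (D + 1) ↦ c (p.1, p.2, k))‖ *
          (Q : ℝ) ^ ((k : ℕ) - j) * (M ^ D * (M * Q) ^ ((k : ℕ) - j)) := by
          gcongr
      _ = _ := by
          rw [show M * (Q : ℝ) ^ 2 = Q * (M * Q) by ring, mul_pow (Q : ℝ)]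
          ring
  unfold zeT
  refine (norm_sum_le _ _).trans ?_
  refine (sum_le_sum fun p _ => hterm p).trans ?_
  rw [sum_const, nsmul_eq_mul]
  apply le_of_eq
  congr 1
  rw [card_univ, Fintype.card_prod, Fintype.card_fin]
  push_cast
  ring

theorem ze_num (hz : 0 < z.im) {M C1 : ℝ} (hM : 1 ≤ M) (hC1 : 1 ≤ C1) {C : ℕ}
    (hC : 8 + 4 * Real.log (M * C1) + 4 * Real.pi / z.im ≤ C) {D Q : ℕ} (hD : 1 ≤ D)
    (hQ : 1 ≤ Q) : Real.exp (-(C * Q * (D + Real.log (Q + 2)))) ≤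
      ((4 * ((D : ℝ) + 1) ^ 2 * (M * C1) ^ (D + 1) * (Q : ℝ) ^ 2) ^ Q)⁻¹ /
        (2 * C1 ^ (D + 1) * (Q * (Q.factorial : ℝ))) * Real.exp (-(4 * Real.pi / z.im * D)) := by
  set L := Real.log (M * C1) with hL
  set lq := Real.log ((Q : ℝ) + 2) with hlq
  have hMC : 1 ≤ M * C1 := one_le_mul_of_one_le_of_one_le hM hC1
  have hL0 : 0 ≤ L := Real.log_nonneg hMC
  have hQ' : (1 : ℝ) ≤ Q := by exact_mod_cast hQ
  have hD' : (1 : ℝ) ≤ D := by exact_mod_cast hD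
  have hlq0 : 0 ≤ lq := Real.log_nonneg (by linarith)
  have hex : Real.exp L = M * C1 := Real.exp_log (by linarith)
  have hexq : Real.exp lq = Q + 2 := Real.exp_log (by linarith)
  have hQlq : (Q : ℝ) ≤ Real.exp lq := by rw [hexq]; linarith
  have hp4 : 0 ≤ 4 * Real.pi / z.im := by positivity
  have hW : 4 * ((D : ℝ) + 1) ^ 2 * (M * C1) ^ (D + 1) * (Q : ℝ) ^ 2 ≤
      Real.exp ((5 + 2 * L) * (D + lq)) := by
    have h1 : (4 : ℝ) ≤ Real.exp 3 := by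
      have := Real.add_one_le_exp (3 : ℝ)
      linarith
    have h2 : (D : ℝ) + 1 ≤ Real.exp D := Real.add_one_le_exp _
    have h3 : (M * C1) ^ (D + 1) = Real.exp (((D : ℝ) + 1) * L) := by
      rw [← hex, ← Real.exp_nat_mul]
      push_cast
      rfl
    calc 4 * ((D : ℝ) + 1) ^ 2 * (M * C1) ^ (D + 1) * (Q : ℝ) ^ 2
        ≤ Real.exp 3 * (Real.exp D) ^ 2 * Real.exp (((D : ℝ) + 1) * L) * (Real.exp lq) ^ 2 := by
          rw [h3]
          gcongr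
      _ = Real.exp (3 + 2 * D + (D + 1) * L + 2 * lq) := by
          rw [← Real.exp_nat_mul, ← Real.exp_nat_mul, ← Real.exp_add, ← Real.exp_add,
            ← Real.exp_add]
          push_cast
          rfl
      _ ≤ _ := by
          apply Real.exp_le_exp.2
          have h5 : (D + 1) * L ≤ 2 * L * D := by nlinarith
          have h6 : 0 ≤ 2 * L * lq := by positivity
          nlinarith
  have hWpos : 0 < 4 * ((D : ℝ) + 1) ^ 2 * (M * C1) ^ (D + 1) * (Q : ℝ) ^ 2 := by positivity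
  have hden : 2 * C1 ^ (D + 1) * (Q * (Q.factorial : ℝ)) ≤
      Real.exp (1 + 2 * L * D + lq + Q * lq) := by
    have h1 : (2 : ℝ) ≤ Real.exp 1 := by
      have := Real.add_one_le_exp (1 : ℝ)
      linarith
    have h2 : C1 ^ (D + 1) ≤ Real.exp (2 * L * D) := by
      calc C1 ^ (D + 1) ≤ (M * C1) ^ (D + 1) := by
            gcongr
            nlinarith
        _ = Real.exp (((D : ℝ) + 1) * L) := by
            rw [← hex, ← Real.exp_nat_mul]
            push_cast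
            rfl
        _ ≤ _ := by
            apply Real.exp_le_exp.2
            nlinarith
    have h3 : (Q.factorial : ℝ) ≤ Real.exp (Q * lq) := by
      calc (Q.factorial : ℝ) ≤ (Q : ℝ) ^ Q := by exact_mod_cast Nat.factorial_le_pow Q
        _ ≤ (Real.exp lq) ^ Q := by gcongr
        _ = _ := by rw [← Real.exp_nat_mul]
    calc 2 * C1 ^ (D + 1) * (Q * (Q.factorial : ℝ))
        ≤ Real.exp 1 * Real.exp (2 * L * D) * (Real.exp lq * Real.exp (Q * lq)) := by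
          gcongr
      _ = _ := by
          rw [← Real.exp_add, ← Real.exp_add, ← Real.exp_add]
          congr 1
          ring
  have hden0 : 0 < 2 * C1 ^ (D + 1) * (Q * (Q.factorial : ℝ)) := by positivity
  have hS : 0 ≤ (D : ℝ) + lq := by positivity
  have hS1 : 1 ≤ (D : ℝ) + lq := by linarith
  calc Real.exp (-(C * Q * (D + lq)))
      ≤ Real.exp (-(Q * ((5 + 2 * L) * (D + lq)))) * Real.exp (-(1 + 2 * L * D + lq + Q * lq)) *
        Real.exp (-(4 * Real.pi / z.im * D)) := by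
        rw [← Real.exp_add, ← Real.exp_add]
        apply Real.exp_le_exp.2
        set P0 := 4 * Real.pi / z.im with hP0
        have hQS : (D : ℝ) + lq ≤ Q * (D + lq) := by nlinarith
        have k1 : 1 ≤ Q * ((D : ℝ) + lq) := by linarith
        have k2 : 2 * L * D ≤ 2 * L * (Q * (D + lq)) := by
          apply mul_le_mul_of_nonneg_left _ (by positivity)
          linarith
        have k3 : lq ≤ Q * ((D : ℝ) + lq) := by linarith
        have k4 : Q * lq ≤ Q * ((D : ℝ) + lq) := by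
          apply mul_le_mul_of_nonneg_left _ (by positivity)
          linarith
        have k5 : P0 * D ≤ P0 * (Q * ((D : ℝ) + lq)) := by
          apply mul_le_mul_of_nonneg_left _ hp4
          linarith
        have k6 : (8 + 4 * L + P0) * (Q * ((D : ℝ) + lq)) ≤ C * (Q * ((D : ℝ) + lq)) := by
          apply mul_le_mul_of_nonneg_right hC
          positivity
        nlinarith
    _ = (Real.exp ((5 + 2 * L) * (D + lq)) ^ Q)⁻¹ /
          Real.exp (1 + 2 * L * D + lq + Q * lq) * Real.exp (-(4 * Real.pi / z.im * D)) := by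
        rw [← Real.exp_nat_mul, ← Real.exp_neg, Real.exp_neg (1 + 2 * L * D + lq + Q * lq)]
        rfl
    _ ≤ _ := by
        gcongr

theorem ze (hz : 0 < z.im) : ∃ C : ℕ, 1 ≤ C ∧ ∀ D Q : ℕ, 1 ≤ D → 1 ≤ Q → ∀ c : Ix D Q → ℂ,
    (∀ l, ‖c l‖ ≤ 1) → (∃ l, ‖c l‖ = 1) → ∃ x1 x2 : ℂ, |bet z x1 x2| ≤ Q + C ∧
      Real.exp (-(C * Q * (D + Real.log (Q + 2)))) ≤ Nw z (2 * D) (FF b D Q c) x1 x2 := by
  obtain ⟨M, hM, hph⟩ := ze_phi b hz
  obtain ⟨C1n, hC1n, hnd⟩ := nondeg b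
  set C1 : ℝ := (C1n : ℝ) with hC1def
  have hC1 : 1 ≤ C1 := by
    rw [hC1def]
    exact_mod_cast hC1n
  set B0 : ℝ := 1 + |z.re| / z.im + 1 / z.im with hB0
  have hB0' : 0 ≤ B0 := by positivity
  have hL0 : 0 ≤ Real.log (M * C1) :=
    Real.log_nonneg (one_le_mul_of_one_le_of_one_le hM hC1)
  have hp0 : 0 ≤ 4 * Real.pi / z.im := by positivity
  set C : ℕ := ⌈8 + 4 * Real.log (M * C1) + 4 * Real.pi / z.im + B0⌉₊ with hCdef
  have hCle : 8 + 4 * Real.log (M * C1) + 4 * Real.pi / z.im + B0 ≤ C := Nat.le_ceil _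
  refine ⟨C, ?_, ?_⟩
  · have : (1 : ℝ) ≤ C := by linarith
    exact_mod_cast this
  intro D Q hD hQ c _ hc1
  obtain ⟨l0, hl0⟩ := hc1
  have hQ' : (1 : ℝ) ≤ Q := by exact_mod_cast hQ
  have hD' : (1 : ℝ) ≤ D := by exact_mod_cast hD
  set W : ℝ := 4 * ((D : ℝ) + 1) ^ 2 * (M * C1) ^ (D + 1) * (Q : ℝ) ^ 2 with hW
  have hMC : 1 ≤ M * C1 := one_le_mul_of_one_le_of_one_le hM hC1
  have hW1 : 1 ≤ W := by
    have h1 : 1 ≤ (M * C1) ^ (D + 1) := one_le_pow₀ hMC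
    have h2 : 1 ≤ (Q : ℝ) ^ 2 := one_le_pow₀ hQ'
    have h3 : 1 ≤ 4 * ((D : ℝ) + 1) ^ 2 := by nlinarith
    exact one_le_mul_of_one_le_of_one_le (one_le_mul_of_one_le_of_one_le h3 h1) h2
  have hW0 : 0 < W := by linarith
  -- the maximal index
  let cs : Fin Q → ℝ := fun k => ‖(fun p : Fin (D + 1) × Fin (D + 1) ↦ c (p.1, p.2, k))‖
  have hne : Nonempty (Fin Q) := ⟨l0.2.2⟩
  obtain ⟨ks, hks⟩ := Finite.exists_max (fun k : Fin Q => W ^ (k : ℕ) * cs k)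
  have hcs0 : ∀ k, 0 ≤ cs k := fun k => norm_nonneg _
  have hcsl0 : 1 ≤ cs l0.2.2 := by
    rw [← hl0]
    exact norm_le_pi_norm (fun p : Fin (D + 1) × Fin (D + 1) ↦ c (p.1, p.2, l0.2.2))
      (l0.1, l0.2.1)
  have hcsks : (W ^ Q)⁻¹ ≤ cs ks := by
    have h1 : 1 ≤ W ^ (ks : ℕ) * cs ks := by
      calc (1 : ℝ) ≤ W ^ (l0.2.2 : ℕ) * cs l0.2.2 :=
            one_le_mul_of_one_le_of_one_le (one_le_pow₀ hW1) hcsl0
        _ ≤ _ := hks l0.2.2
    have h2 : 1 ≤ W ^ Q * cs ks := by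
      refine h1.trans ?_
      apply mul_le_mul_of_nonneg_right _ (hcs0 ks)
      exact pow_le_pow_right₀ hW1 ks.2.le
    rw [inv_le_iff_one_le_mul₀' (by positivity)]
    exact h2
  have hcspos : 0 < cs ks := lt_of_lt_of_le (by positivity) hcsks
  obtain ⟨x1, x2, hx1, hx2, hnd'⟩ := hnd D (fun i1 i2 => c (i1, i2, ks))
  -- the main term
  have hmain : cs ks ≤ C1 ^ (D + 1) * ‖zeT b D Q c x1 x2 ks ks‖ := by
    have h1 : zeT b D Q c x1 x2 ks ks =
        ∑ j1, ∑ j2, c (j1, j2, ks) * HH b D j1 x1 * HH b D j2 x2 := by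
      unfold zeT
      rw [Fintype.sum_prod_type]
      refine sum_congr rfl fun j1 _ => sum_congr rfl fun j2 _ => ?_
      rw [Nat.sub_self, Nat.choose_self, ze_phi0]
      push_cast
      ring
    rw [h1]
    refine (pi_norm_le_iff_of_nonneg (by positivity)).2 fun p => ?_
    exact hnd' p.1 p.2
  -- the other terms
  have hrest : ∀ k : Fin Q, k ≠ ks → ‖zeT b D Q c x1 x2 ks k‖ ≤
      cs ks / (4 * C1 ^ (D + 1)) *
        (if (ks : ℕ) < (k : ℕ) then (1 / 2 : ℝ) ^ ((k : ℕ) - ks - 1) else 0) := by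
    intro k hk
    by_cases hlt : (ks : ℕ) < (k : ℕ)
    · rw [if_pos hlt]
      have h1 := ze_T_le b D Q hD c hx1 hx2 hM hph ks k hlt.le
      have h2 : W ^ ((k : ℕ) - ks) * cs k ≤ cs ks := by
        have h3 := hks k
        have h4 : W ^ (k : ℕ) = W ^ (ks : ℕ) * W ^ ((k : ℕ) - ks) := by
          rw [← pow_add]
          congr 1
          omega
        simp only [h4] at h3
        rw [mul_assoc] at h3
        exact le_of_mul_le_mul_left h3 (by positivity)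
      have h5 : cs k ≤ cs ks * (W⁻¹) ^ ((k : ℕ) - ks) := by
        rw [inv_pow, ← div_eq_mul_inv, le_div_iff₀ (by positivity), mul_comm]
        exact h2
      set e := (k : ℕ) - ks with he
      have he1 : e = (e - 1) + 1 := by omega
      have hr : W⁻¹ * (M * (Q : ℝ) ^ 2) =
          1 / (4 * ((D : ℝ) + 1) ^ 2 * (M ^ D * C1 ^ (D + 1))) := by
        rw [hW, mul_pow, pow_succ M]
        field_simp
      have hr2 : W⁻¹ * (M * (Q : ℝ) ^ 2) ≤ 1 / 2 := by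
        rw [hr]
        apply one_div_le_one_div_of_le (by norm_num)
        have h6 : 1 ≤ M ^ D * C1 ^ (D + 1) :=
          one_le_mul_of_one_le_of_one_le (one_le_pow₀ hM) (one_le_pow₀ hC1)
        nlinarith
      have hr0 : 0 ≤ W⁻¹ * (M * (Q : ℝ) ^ 2) := by positivity
      calc ‖zeT b D Q c x1 x2 ks k‖
          ≤ ((D : ℝ) + 1) ^ 2 * (cs k * M ^ D * (M * (Q : ℝ) ^ 2) ^ e) := h1
        _ ≤ ((D : ℝ) + 1) ^ 2 * (cs ks * (W⁻¹) ^ e * M ^ D * (M * (Q : ℝ) ^ 2) ^ e) := by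
            gcongr
        _ = ((D : ℝ) + 1) ^ 2 * cs ks * M ^ D * (W⁻¹ * (M * (Q : ℝ) ^ 2)) ^ e := by
            rw [mul_pow]
            ring
        _ = ((D : ℝ) + 1) ^ 2 * cs ks * M ^ D * (W⁻¹ * (M * (Q : ℝ) ^ 2)) *
              (W⁻¹ * (M * (Q : ℝ) ^ 2)) ^ (e - 1) := by
            conv_lhs => rw [he1, pow_succ]
            ring
        _ ≤ ((D : ℝ) + 1) ^ 2 * cs ks * M ^ D * (W⁻¹ * (M * (Q : ℝ) ^ 2)) *
              (1 / 2) ^ (e - 1) := by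
            gcongr
        _ = _ := by
            rw [hr]
            field_simp
    · rw [if_neg hlt, mul_zero]
      have hlt' : (k : ℕ) < ks := by
        have : (k : ℕ) ≠ ks := fun h => hk (Fin.ext h)
        omega
      have h1 : zeT b D Q c x1 x2 ks k = 0 := by
        unfold zeT
        refine sum_eq_zero fun p _ => ?_
        rw [Nat.choose_eq_zero_of_lt hlt']
        simp
      rw [h1, norm_zero]
  -- the coefficient
  have hE : cs ks / (2 * C1 ^ (D + 1)) ≤ ‖zeE b D Q c x1 x2 ks‖ := by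
    have h1 : zeE b D Q c x1 x2 ks = zeT b D Q c x1 x2 ks ks +
        ∑ k ∈ univ.erase ks, zeT b D Q c x1 x2 ks k := by
      rw [ze_E, add_sum_erase _ _ (mem_univ ks)]
    have h2 : ‖∑ k ∈ univ.erase ks, zeT b D Q c x1 x2 ks k‖ ≤ cs ks / (2 * C1 ^ (D + 1)) := by
      calc ‖∑ k ∈ univ.erase ks, zeT b D Q c x1 x2 ks k‖
          ≤ ∑ k ∈ univ.erase ks, ‖zeT b D Q c x1 x2 ks k‖ := norm_sum_le _ _
        _ ≤ ∑ k ∈ univ.erase ks, cs ks / (4 * C1 ^ (D + 1)) *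
              (if (ks : ℕ) < (k : ℕ) then (1 / 2 : ℝ) ^ ((k : ℕ) - ks - 1) else 0) :=
            sum_le_sum fun k hk => hrest k (ne_of_mem_erase hk)
        _ ≤ ∑ k : Fin Q, cs ks / (4 * C1 ^ (D + 1)) *
              (if (ks : ℕ) < (k : ℕ) then (1 / 2 : ℝ) ^ ((k : ℕ) - ks - 1) else 0) := by
            apply sum_le_sum_of_subset_of_nonneg (erase_subset _ _)
            intro k _ _
            have : (0 : ℝ) ≤ if (ks : ℕ) < (k : ℕ) then (1 / 2 : ℝ) ^ ((k : ℕ) - ks - 1)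
                else 0 := by
              split_ifs <;> positivity
            positivity
        _ = cs ks / (4 * C1 ^ (D + 1)) * ∑ k ∈ range Q,
              (if (ks : ℕ) < k then (1 / 2 : ℝ) ^ (k - ks - 1) else 0) := by
            rw [← mul_sum, Fin.sum_univ_eq_sum_range
              (fun k => if (ks : ℕ) < k then (1 / 2 : ℝ) ^ (k - ks - 1) else 0)]
        _ ≤ cs ks / (4 * C1 ^ (D + 1)) * 2 := by
            rw [ze_geo]
            gcongr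
            have : (0 : ℝ) ≤ (1 / 2) ^ (Q - ks - 1) := by positivity
            linarith
        _ = _ := by
            field_simp
            norm_num
    have h3 : cs ks / C1 ^ (D + 1) ≤ ‖zeT b D Q c x1 x2 ks ks‖ := by
      rw [div_le_iff₀ (by positivity), mul_comm]
      exact hmain
    have h4 : ‖zeT b D Q c x1 x2 ks ks‖ ≤ ‖zeE b D Q c x1 x2 ks‖ +
        ‖∑ k ∈ univ.erase ks, zeT b D Q c x1 x2 ks k‖ := by
      have h5 : zeT b D Q c x1 x2 ks ks = zeE b D Q c x1 x2 ks -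
          ∑ k ∈ univ.erase ks, zeT b D Q c x1 x2 ks k := by
        rw [h1]
        ring
      rw [h5]
      exact norm_sub_le _ _
    have h6 : cs ks / C1 ^ (D + 1) = cs ks / (2 * C1 ^ (D + 1)) + cs ks / (2 * C1 ^ (D + 1)) := by
      field_simp
      norm_num
    linarith
  -- the values
  obtain ⟨n, hn⟩ := Finite.exists_max (fun n : Fin Q => ‖FF b D Q c x1 (x2 + (n : ℕ))‖)
  have hco := coeff_le Q (zeE b D Q c x1 x2) ‖FF b D Q c x1 (x2 + (n : ℕ))‖ (by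
    intro n' hn'
    rw [← ze_shift]
    exact hn ⟨n', hn'⟩) ks ks.2
  refine ⟨x1, x2 + (n : ℕ), ?_, ?_⟩
  · have h1 : bet z x1 (x2 + (n : ℕ)) = bet z x1 x2 + (n : ℕ) := by
      unfold bet
      simp only [Complex.add_re, Complex.add_im, Complex.natCast_re, Complex.natCast_im,
        add_zero]
      ring
    rw [h1]
    have h2 := ze_bet hz hx1 hx2
    have h3 : ((n : ℕ) : ℝ) ≤ Q := by exact_mod_cast n.2.le
    have h4 : |((n : ℕ) : ℝ)| = ((n : ℕ) : ℝ) := abs_of_nonneg (Nat.cast_nonneg _)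
    calc |bet z x1 x2 + ((n : ℕ) : ℝ)| ≤ |bet z x1 x2| + |((n : ℕ) : ℝ)| := abs_add_le _ _
      _ ≤ B0 + Q := by
          rw [h4]
          exact add_le_add h2 h3
      _ ≤ _ := by linarith
  · have hfac : (0 : ℝ) < Q.factorial := by exact_mod_cast Nat.factorial_pos Q
    have h1 : (W ^ Q)⁻¹ / (2 * C1 ^ (D + 1) * (Q * (Q.factorial : ℝ))) ≤
        ‖FF b D Q c x1 (x2 + (n : ℕ))‖ := by
      rw [div_le_iff₀ (by positivity)]
      have h2 : (W ^ Q)⁻¹ / (2 * C1 ^ (D + 1)) ≤ Q * (Q.factorial : ℝ) *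
          ‖FF b D Q c x1 (x2 + (n : ℕ))‖ := by
        calc (W ^ Q)⁻¹ / (2 * C1 ^ (D + 1)) ≤ cs ks / (2 * C1 ^ (D + 1)) := by gcongr
          _ ≤ _ := hE.trans hco
      rw [div_le_iff₀ (by positivity)] at h2
      linarith
    have h3 := ze_num (z := z) hz hM hC1 (C := C) (by linarith) hD hQ
    have h4 := ze_wt hz D hx1 hx2
    unfold Nw
    have h5 : (x2 + ((n : ℕ) : ℂ)).im = x2.im := by
      simp only [Complex.add_im, Complex.natCast_im, add_zero]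
    rw [h5]
    calc Real.exp (-(C * Q * (D + Real.log (Q + 2)))) ≤ (W ^ Q)⁻¹ /
          (2 * C1 ^ (D + 1) * (Q * (Q.factorial : ℝ))) * Real.exp (-(4 * Real.pi / z.im * D)) :=
          h3
      _ ≤ _ := mul_le_mul h1 h4 (Real.exp_nonneg _) (norm_nonneg _)

end U2
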